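import Pool.Agent.Lib.MP_4322ef_CH.Mg.G004
import Pool.Agent.Lib.MP_4322ef_CH.Mg.G002
import Pool.Agent.Lib.MP_4322ef_CH.Mg.G003
import Pool.Agent.Lib.MP_4322ef_CH.Mg.G005

section

/-!
# Roots

* `root_int`: as in the proof of `roots_refl` (file S05): `sl2_refl` or the proof of `wt_int` (file N06) for the action of the
  triple of `root_triple` on `g`.
* `root_add`: let `m = 2 ⟪al, be⟫ / ⟪be, be⟫`, `n = 2 ⟪al, be⟫ / ⟪al, al⟫`, negative integers. If `m = -1` then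
  `sr be al = al + be` is a root (`roots_refl`), similarly if `n = -1`. If both are `≤ -2` then `4 ≤ m n`, and
  Cauchy-Schwarz gives `m n ≤ 4`, so `m = n = -2`, `⟪al, al⟫ = ⟪be, be⟫ = -⟪al, be⟫`, `|al + be|² = 0`.
* `root_two`: suppose `2 al` is a root, `Z ≠ 0` a root vector for `2 al`, `E` as in `root_triple`. `[E, Z]` is zero since
  `3 al` is not a root (`root_int` for `al` and `3 al`: `2 / 3` is not an integer). `[E, [th E, Z]] = 0` since
  `[th E, Z]` is in the root space of `al`, which consists of the `p E + q J E` (`RV_unique`), and `[E, J E] = J [E, E] = 0`.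
  Jacobi: `[[E, th E], Z] = [E, [th E, Z]] - [th E, [E, Z]] = 0`, but `[E, th E]` is a nonzero multiple of `al`.
* `root_closure`: `lam` is the sum of a list of roots (`AddSubgroup.closure_induction`, `roots_neg`); take a list
  `be :: l` of minimal length (`Nat.find`). For `de ∈ l`: if `⟪be, de⟫ < 0` then by `root_add` the two can be replaced by one
  root or omitted, contradiction. So `⟪lam, be⟫ = ⟪be, be⟫ + ∑_{de ∈ l} ⟪de, be⟫ ≥ ⟪be, be⟫`.
* `exists_lshort`: take `w` of minimal norm in the finite set `M = {al ∈ roots | ⟪al, al⟫ ≤ ⟪y, al⟫}`. Suppose `be` is a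
  root, `⟪be, w⟫ ≠ 0`, `⟪be, be⟫ < ⟪w, w⟫`; replacing `be` by `-be` we have `⟪be, w⟫ > 0`. `n = 2 ⟪be, w⟫ / ⟪w, w⟫` and
  `m = 2 ⟪be, w⟫ / ⟪be, be⟫` are positive integers, `n < m`, `n m ≤ 4`, so `n = 1`, `m ≥ 2`:
  `⟪w, w⟫ = m ⟪be, be⟫ ≥ 2 ⟪be, be⟫`. `w - be = - sr w be` is a root with `⟪w - be, w - be⟫ = ⟪be, be⟫`. Since
  `⟪y, be⟫ + ⟪y, w - be⟫ = ⟪y, w⟫ ≥ ⟪w, w⟫ ≥ 2 ⟪be, be⟫`, one of `be`, `w - be` is in `M`: contradiction.
* `mins_of`: integrality, for `al` and `-al`.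
-/

set_option autoImplicit false

open scoped InnerProductSpace

namespace Pool.Agent.Lib.MP_4322ef_CH

open Pool.Agent.Lib.MP_4322ef_al.SR

variable {g : Type} [NormedAddCommGroup g] [InnerProductSpace ℝ g] {L : RedLie g}
  [FiniteDimensional ℝ g]

theorem root_int (C : CSub L) {al be : g} (hal : al ∈ roots L C.a) (hbe : be ∈ roots L C.a) :
    ∃ k : ℤ, 2 * ⟪al, be⟫_ℝ = k * ⟪be, be⟫_ℝ := by
  have key : ∀ be ∈ roots L C.a, 0 ≤ ⟪al, be⟫_ℝ → ∃ k : ℤ, 2 * ⟪al, be⟫_ℝ = k * ⟪be, be⟫_ℝ := by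
    intro be h h0
    obtain ⟨ha, hne, -⟩ := id h
    obtain ⟨hb, hbne, Z, hZ0, hZ⟩ := hal
    obtain ⟨E, hE, hE0, r1, r2, r3⟩ := root_triple C h
    have hal' : 0 < ⟪be, be⟫_ℝ := real_inner_self_pos.2 hne
    obtain ⟨p, q, hq, hpq⟩ := sl2_refl (L.br E) (L.br (-L.th E)) (L.br ((2 / ⟪be, be⟫_ℝ) • be))
      (fun x => by
        have h1 := L.jacobi ((2 / ⟪be, be⟫_ℝ) • be) E x
        rw [h1, r2, map_smul, LinearMap.smul_apply]
        abel)
      (fun x => by
        have h1 := L.jacobi ((2 / ⟪be, be⟫_ℝ) • be) (-L.th E) x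
        rw [h1, r3, map_neg, LinearMap.neg_apply, map_smul, LinearMap.smul_apply]
        abel)
      (fun x => by
        have h1 := L.jacobi E (-L.th E) x
        rw [h1, r1]
        abel)
      (c := 2 / ⟪be, be⟫_ℝ * ⟪al, be⟫_ℝ) (by positivity) hZ0
      (by
        rw [map_smul, LinearMap.smul_apply, hZ be ha, smul_smul])
    refine ⟨(q : ℤ) - p, ?_⟩
    push_cast
    rw [hq]
    field_simp
    ring
  rcases le_total 0 ⟪al, be⟫_ℝ with h0 | h0
  · exact key be hbe h0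
  · obtain ⟨k, hk⟩ := key (-be) (roots_neg C hbe) (by rw [inner_neg_right]; linarith)
    refine ⟨-k, ?_⟩
    rw [inner_neg_right, inner_neg_neg] at hk
    push_cast
    linarith

theorem root_add (C : CSub L) {al be : g} (hal : al ∈ roots L C.a) (hbe : be ∈ roots L C.a)
    (h : ⟪al, be⟫_ℝ < 0) : al + be = 0 ∨ al + be ∈ roots L C.a := by
  obtain ⟨m, hm⟩ := root_int C hal hbe
  obtain ⟨n, hn⟩ := root_int C hbe hal
  rw [real_inner_comm al be] at hn
  have hA : 0 < ⟪al, al⟫_ℝ := real_inner_self_pos.2 hal.2.1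
  have hB : 0 < ⟪be, be⟫_ℝ := real_inner_self_pos.2 hbe.2.1
  have hm0 : m < 0 := by
    by_contra hcon
    have h1 : (0 : ℝ) ≤ m := by exact_mod_cast not_lt.1 hcon
    have h2 := mul_nonneg h1 hB.le
    linarith
  have hn0 : n < 0 := by
    by_contra hcon
    have h1 : (0 : ℝ) ≤ n := by exact_mod_cast not_lt.1 hcon
    have h2 := mul_nonneg h1 hA.le
    linarith
  by_cases hm1 : m = -1
  · right
    have h1 := roots_refl C hbe hal
    have h2 : sr be al = al + be := by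
      rw [sr, hm, hm1, mul_div_assoc, div_self hB.ne']
      push_cast
      module
    rwa [h2] at h1
  by_cases hn1 : n = -1
  · right
    have h1 := roots_refl C hal hbe
    have h2 : sr al be = al + be := by
      rw [sr, real_inner_comm al be, hn, hn1, mul_div_assoc, div_self hA.ne']
      push_cast
      module
    rwa [h2] at h1
  left
  have hm2 : (m : ℝ) ≤ -2 := by
    have : m ≤ -2 := by omega
    exact_mod_cast this
  have hn2 : (n : ℝ) ≤ -2 := by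
    have : n ≤ -2 := by omega
    exact_mod_cast this
  have h3 := mul_le_mul_of_nonneg_right hm2 hB.le
  have h4 := mul_le_mul_of_nonneg_right hn2 hA.le
  have h5 : ⟪al + be, al + be⟫_ℝ ≤ 0 := by
    rw [inner_add_left, inner_add_right, inner_add_right, real_inner_comm al be]
    linarith
  exact real_inner_self_nonpos.1 h5

theorem root_two (J : CStr L) (C : CSub L) {al : g} (hal : al ∈ roots L C.a) :
    (2 : ℝ) • al ∉ roots L C.a := by
  rintro ⟨h2a, h2ne, Z, hZ0, hZ⟩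
  obtain ⟨ha, hne, -⟩ := id hal
  have hA : 0 < ⟪al, al⟫_ℝ := real_inner_self_pos.2 hne
  obtain ⟨E, hE, hE0, -, -, -⟩ := root_triple C hal
  have hRZ : RV L C.a ((2 : ℝ) • al) Z := hZ
  have h1 : L.br E Z = 0 := by
    by_contra hcon
    have h3 : (3 : ℝ) • al ∈ roots L C.a := by
      refine ⟨C.a.smul_mem _ ha, smul_ne_zero (by norm_num) hne, _, hcon, ?_⟩
      have h4 := RV_br C hE hRZ
      have h5 : al + (2 : ℝ) • al = (3 : ℝ) • al := by module
      rw [h5] at h4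
      exact h4
    obtain ⟨k, hk⟩ := root_int C hal h3
    rw [real_inner_smul_right, real_inner_smul_left, real_inner_smul_right] at hk
    have h6 : (6 - 9 * (k : ℝ)) * ⟪al, al⟫_ℝ = 0 := by linarith
    rcases mul_eq_zero.1 h6 with h7 | h7
    · have h8 : (9 * k : ℤ) = 6 := by
        have : (9 * (k : ℝ)) = 6 := by linarith
        exact_mod_cast this
      omega
    · exact hA.ne' h7
  have hR1 : RV L C.a al (L.br (L.th E) Z) := by
    have h4 := RV_br C (RV_th C hE) hRZ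
    have h5 : -al + (2 : ℝ) • al = al := by module
    rwa [h5] at h4
  obtain ⟨s, t, hst⟩ := RV_unique J C ha hne hE hE0 hR1
  have hEJ : L.br E (J.J E) = 0 := by
    rw [br_skew L E (J.J E), J.br, L.br_self, map_zero, neg_zero]
  have h2 : L.br E (L.br (L.th E) Z) = 0 := by
    rw [hst, map_add, map_smul, map_smul, L.br_self, hEJ, smul_zero, smul_zero, add_zero]
  have h3 := L.jacobi E (L.th E) Z
  rw [h2, h1, map_zero, add_zero, br_th_root C ha hE, map_neg, LinearMap.neg_apply, map_smul,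
    LinearMap.smul_apply, hRZ al ha, smul_smul] at h3
  have h4 : (⟪E, E⟫_ℝ * ⟪(2 : ℝ) • al, al⟫_ℝ) • Z = 0 := neg_eq_zero.1 h3.symm
  rcases smul_eq_zero.1 h4 with h5 | h5
  · rw [real_inner_smul_left] at h5
    have hEE : 0 < ⟪E, E⟫_ℝ := real_inner_self_pos.2 hE0
    have : 0 < ⟪E, E⟫_ℝ * (2 * ⟪al, al⟫_ℝ) := by positivity
    exact this.ne' h5
  · exact hZ0 h5

omit [FiniteDimensional ℝ g] in
theorem E01_sum {be : g} (s : Multiset g) (h : ∀ x ∈ s, 0 ≤ ⟪x, be⟫_ℝ) : 0 ≤ ⟪s.sum, be⟫_ℝ := by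
  induction s using Multiset.induction with
  | empty => simp
  | cons a s ih =>
    rw [Multiset.sum_cons, inner_add_left]
    exact add_nonneg (h a (Multiset.mem_cons_self a s))
      (ih fun x hx => h x (Multiset.mem_cons_of_mem hx))

omit [FiniteDimensional ℝ g] in
theorem E01_ms (C : CSub L) {lam : g} (hl : lam ∈ AddSubgroup.closure (roots L C.a)) :
    ∃ s : Multiset g, (∀ x ∈ s, x ∈ roots L C.a) ∧ s.sum = lam := by
  induction hl using AddSubgroup.closure_induction with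
  | mem x hx =>
    exact ⟨{x}, fun z hz => by rw [Multiset.mem_singleton] at hz; rw [hz]; exact hx,
      Multiset.sum_singleton x⟩
  | zero => exact ⟨0, fun z hz => absurd hz (Multiset.notMem_zero z), Multiset.sum_zero⟩
  | add x y _ _ hx hy =>
    obtain ⟨s, hs, rfl⟩ := hx
    obtain ⟨t, ht, rfl⟩ := hy
    refine ⟨s + t, fun z hz => ?_, Multiset.sum_add s t⟩
    rcases Multiset.mem_add.1 hz with h | h
    · exact hs z h
    · exact ht z h
  | neg x _ hx =>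
    obtain ⟨s, hs, rfl⟩ := hx
    refine ⟨s.map Neg.neg, fun z hz => ?_, Multiset.sum_map_neg' s⟩
    obtain ⟨u, hu, rfl⟩ := Multiset.mem_map.1 hz
    exact roots_neg C (hs u hu)

theorem root_closure (C : CSub L) {lam : g} (hl : lam ∈ AddSubgroup.closure (roots L C.a))
    (h0 : lam ≠ 0) : ∃ be ∈ roots L C.a, ⟪be, be⟫_ℝ ≤ ⟪lam, be⟫_ℝ := by
  classical
  have hex : ∃ n : ℕ, ∃ s : Multiset g, s.card = n ∧ (∀ x ∈ s, x ∈ roots L C.a) ∧ s.sum = lam := by
    obtain ⟨s, hs, hsum⟩ := E01_ms C hl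
    exact ⟨s.card, s, rfl, hs, hsum⟩
  obtain ⟨s, hcard, hs, hsum⟩ := Nat.find_spec hex
  have hmin : ∀ t : Multiset g, (∀ x ∈ t, x ∈ roots L C.a) → t.sum = lam → s.card ≤ t.card := by
    intro t ht htl
    rw [hcard]
    exact Nat.find_min' hex ⟨t, rfl, ht, htl⟩
  have hne : s ≠ 0 := by
    rintro rfl
    exact h0 (by rw [← hsum, Multiset.sum_zero])
  obtain ⟨be, hbe⟩ := Multiset.exists_mem_of_ne_zero hne
  obtain ⟨t, rfl⟩ := Multiset.exists_cons_of_mem hbe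
  refine ⟨be, hs be hbe, ?_⟩
  have hpos : ∀ de ∈ t, 0 ≤ ⟪de, be⟫_ℝ := by
    intro de hde
    by_contra hcon
    obtain ⟨u, rfl⟩ := Multiset.exists_cons_of_mem hde
    rw [Multiset.sum_cons, Multiset.sum_cons] at hsum
    have hu : ∀ x ∈ u, x ∈ roots L C.a := fun x hx =>
      hs x (Multiset.mem_cons_of_mem (Multiset.mem_cons_of_mem hx))
    rcases root_add C (hs de (Multiset.mem_cons_of_mem hde)) (hs be hbe) (not_le.1 hcon) with h | h
    · have h1 := hmin u hu (by rw [← hsum, ← add_assoc, add_comm be de, h, zero_add])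
      rw [Multiset.card_cons, Multiset.card_cons] at h1
      omega
    · have h1 := hmin ((de + be) ::ₘ u) (fun x hx => by
        rcases Multiset.mem_cons.1 hx with hx | hx
        · rw [hx]; exact h
        · exact hu x hx) (by rw [Multiset.sum_cons, ← hsum, ← add_assoc, add_comm be de])
      rw [Multiset.card_cons, Multiset.card_cons, Multiset.card_cons] at h1
      omega
  rw [← hsum, Multiset.sum_cons, inner_add_left]
  have := E01_sum t hpos
  linarith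

theorem exists_lshort (C : CSub L) {y al : g} (hal : al ∈ roots L C.a)
    (h : ⟪al, al⟫_ℝ ≤ ⟪y, al⟫_ℝ) : ∃ w, LShort L C.a w ∧ ⟪w, w⟫_ℝ ≤ ⟪y, w⟫_ℝ := by
  obtain ⟨w, ⟨hw, hwy⟩, hmin⟩ := Set.exists_min_image
    {be | be ∈ roots L C.a ∧ ⟪be, be⟫_ℝ ≤ ⟪y, be⟫_ℝ} (fun be => ⟪be, be⟫_ℝ)
    ((roots_finite C).subset fun _ hx => hx.1) ⟨al, hal, h⟩
  have key : ∀ be ∈ roots L C.a, 0 < ⟪be, w⟫_ℝ → ⟪w, w⟫_ℝ ≤ ⟪be, be⟫_ℝ := by
    intro be hbe hpos
    by_contra hcon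
    have hlt := not_le.1 hcon
    obtain ⟨n, hn⟩ := root_int C hbe hw
    obtain ⟨m, hm⟩ := root_int C hw hbe
    rw [real_inner_comm be w] at hm
    have hW : 0 < ⟪w, w⟫_ℝ := real_inner_self_pos.2 hw.2.1
    have hB : 0 < ⟪be, be⟫_ℝ := real_inner_self_pos.2 hbe.2.1
    have hn0 : (0 : ℝ) < n := by
      by_contra h1
      have h2 := mul_nonpos_of_nonpos_of_nonneg (not_lt.1 h1) hW.le
      linarith
    have hnm : (n : ℝ) < m := by
      by_contra h1
      have h2 := mul_le_mul_of_nonneg_right (not_lt.1 h1) hB.le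
      have h3 := mul_lt_mul_of_pos_left hlt hn0
      linarith
    have hn1 : (1 : ℝ) ≤ n := by
      have : (0 : ℤ) < n := by exact_mod_cast hn0
      have : (1 : ℤ) ≤ n := this
      exact_mod_cast this
    have hm2 : (n : ℝ) + 1 ≤ m := by
      have : n < m := by exact_mod_cast hnm
      have : n + 1 ≤ m := this
      exact_mod_cast this
    have hcs : ⟪be, w⟫_ℝ * ⟪be, w⟫_ℝ ≤ ⟪be, be⟫_ℝ * ⟪w, w⟫_ℝ := real_inner_mul_inner_self_le be w
    have h4 : (n : ℝ) * m * (⟪be, be⟫_ℝ * ⟪w, w⟫_ℝ) ≤ 4 * (⟪be, be⟫_ℝ * ⟪w, w⟫_ℝ) := by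
      have h5 : (n : ℝ) * m * (⟪be, be⟫_ℝ * ⟪w, w⟫_ℝ) = 4 * (⟪be, w⟫_ℝ * ⟪be, w⟫_ℝ) := by
        calc (n : ℝ) * m * (⟪be, be⟫_ℝ * ⟪w, w⟫_ℝ) = (n * ⟪w, w⟫_ℝ) * (m * ⟪be, be⟫_ℝ) := by ring
          _ = (2 * ⟪be, w⟫_ℝ) * (2 * ⟪be, w⟫_ℝ) := by rw [← hn, ← hm]
          _ = 4 * (⟪be, w⟫_ℝ * ⟪be, w⟫_ℝ) := by ring
      rw [h5]
      linarith
    have h5 : (n : ℝ) * m ≤ 4 := le_of_mul_le_mul_right h4 (mul_pos hB hW)
    have hn2 : (n : ℝ) < 2 := by nlinarith
    have hn3 : n = 1 := by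
      have h6 : n < 2 := by exact_mod_cast hn2
      have h7 : (1 : ℤ) ≤ n := by exact_mod_cast hn1
      omega
    rw [hn3, Int.cast_one, one_mul] at hn
    have hm3 : (2 : ℝ) ≤ m := by linarith
    have h6 : 2 * ⟪be, be⟫_ℝ ≤ ⟪w, w⟫_ℝ := by
      have := mul_le_mul_of_nonneg_right hm3 hB.le
      linarith
    have hr : w - be ∈ roots L C.a := by
      have h7 := roots_neg C (roots_refl C hw hbe)
      have h8 : -sr w be = w - be := by
        rw [sr, hn, div_self hW.ne']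
        module
      rwa [h8] at h7
    have hnorm : ⟪w - be, w - be⟫_ℝ = ⟪be, be⟫_ℝ := by
      rw [inner_sub_left, inner_sub_right, inner_sub_right, real_inner_comm be w]
      linarith
    have h9 : ⟪y, be⟫_ℝ + ⟪y, w - be⟫_ℝ = ⟪y, w⟫_ℝ := by
      rw [inner_sub_right]
      ring
    rcases le_total ⟪be, be⟫_ℝ ⟪y, be⟫_ℝ with h10 | h10
    · have := hmin be ⟨hbe, h10⟩
      linarith
    · have := hmin (w - be) ⟨hr, by rw [hnorm]; linarith⟩
      simp only [hnorm] at this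
      linarith
  refine ⟨w, ⟨hw, fun be hbe hne => ?_⟩, hwy⟩
  rcases lt_or_gt_of_ne hne with h1 | h1
  · have h2 := key (-be) (roots_neg C hbe) (by rw [inner_neg_left]; linarith)
    rwa [inner_neg_neg] at h2
  · exact key be hbe h1

theorem lshort_refl (C : CSub L) {w al : g} (hw : LShort L C.a w) (hal : al ∈ roots L C.a) :
    LShort L C.a (sr al w) := by
  refine ⟨roots_refl C hal hw.1, fun be hbe hne => ?_⟩
  rw [← sr_inner] at hne
  have h1 := hw.2 (sr al be) (roots_refl C hal hbe) hne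
  rw [sr_isom hal.2.1] at h1
  rw [sr_isom hal.2.1]
  exact h1

theorem mins_of (C : CSub L) {y : g} (hy : Intg L C.a y)
    (h : ∀ al ∈ roots L C.a, ⟪y, al⟫_ℝ < ⟪al, al⟫_ℝ) : Mins L C.a y := by
  intro al hal
  obtain ⟨k, hk⟩ := hy al hal
  have hA : 0 < ⟪al, al⟫_ℝ := real_inner_self_pos.2 hal.2.1
  have h1 := h al hal
  have h2 := h (-al) (roots_neg C hal)
  rw [inner_neg_right, inner_neg_neg] at h2
  have hk1 : (k : ℝ) < 2 := by
    by_contra hcon
    have := mul_le_mul_of_nonneg_right (not_lt.1 hcon) hA.le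
    linarith
  have hk2 : (-2 : ℝ) < k := by
    by_contra hcon
    have := mul_le_mul_of_nonneg_right (not_lt.1 hcon) hA.le
    linarith
  have hk3 : (k : ℝ) ≤ 1 := by
    have : k < 2 := by exact_mod_cast hk1
    have : k ≤ 1 := by omega
    exact_mod_cast this
  have hk4 : (-1 : ℝ) ≤ k := by
    have : -2 < k := by exact_mod_cast hk2
    have : -1 ≤ k := by omega
    exact_mod_cast this
  have h3 := mul_le_mul_of_nonneg_right hk3 hA.le
  have h4 := mul_le_mul_of_nonneg_right hk4 hA.le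
  rcases abs_cases ⟪y, al⟫_ℝ with ⟨h5, -⟩ | ⟨h5, -⟩ <;> rw [h5] <;> linarith

end Pool.Agent.Lib.MP_4322ef_CH
end

section

/-!
# Simple roots

* `simp_sub`: if `ga - de` is a root then `0 < ⟪ga - de, H⟫` (then `ga = de + (ga - de)`) or `0 < ⟪de - ga, H⟫`
  (then `de = ga + (de - ga)`): contradiction. If `⟪ga, de⟫ > 0` then `root_add` for `ga`, `-de` gives a contradiction.
* `simp_dec`: the set of the values `⟪al, H⟫` is finite (`roots_finite`); strong induction on `⟪al, H⟫`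
  (e.g. well-foundedness of `<` on a finite set): a positive root is in `Simp` or a sum of two positive roots.
* `simp_zero`: every root is a sum of elements of `Simp` or of their negatives.
* `simp_ind`: `linearIndependent_iff'`: if `∑ c x • x = 0` let `u = ∑_{c x > 0} c x • x = ∑_{c x < 0} (-c x) • x`; then
  `⟪u, u⟫ ≤ 0` by `simp_sub`, so `u = 0`, `⟪u, H⟫ = 0`, and all `c x = 0` since `⟪x, H⟫ > 0`.
* `simp_dual`: `Simp` is finite and linearly independent; on `S = span Simp` there is a linear functional which is `1` on `ga`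
  and `0` on the others (`Basis.span`, `Basis.coord` ...), it is `⟪y, ·⟫` for some `y ∈ S` (Riesz,
  `InnerProductSpace.toDual`). `Semi`: `z` orthogonal to all roots is orthogonal to `S` (`Submodule.span_induction`).
-/

set_option autoImplicit false

open scoped InnerProductSpace

namespace Pool.Agent.Lib.MP_4322ef_CH

open Pool.Agent.Lib.MP_4322ef_al.SR

variable {g : Type} [NormedAddCommGroup g] [InnerProductSpace ℝ g] {L : RedLie g}
  [FiniteDimensional ℝ g]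

theorem simp_sub (C : CSub L) {H ga de : g} (hH : Reg L C.a H) (hg : ga ∈ Simp L C.a H)
    (hd : de ∈ Simp L C.a H) (hne : ga ≠ de) : ga - de ∉ roots L C.a ∧ ⟪ga, de⟫_ℝ ≤ 0 := by
  have h1 : ga - de ∉ roots L C.a := by
    intro h
    rcases lt_trichotomy ⟪ga - de, H⟫_ℝ 0 with h0 | h0 | h0
    · have h2 : de - ga ∈ roots L C.a := by
        have := roots_neg C h
        rwa [neg_sub] at this
      have h3 : 0 < ⟪de - ga, H⟫_ℝ := by
        rw [← neg_sub, inner_neg_left]; linarith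
      exact hd.2.2 ga hg.1 hg.2.1 (de - ga) h2 h3 (by abel)
    · exact hH.2 _ h h0
    · exact hg.2.2 de hd.1 hd.2.1 (ga - de) h h0 (by abel)
  refine ⟨h1, ?_⟩
  by_contra hcon
  rw [not_le] at hcon
  have h4 : ⟪ga, -de⟫_ℝ < 0 := by rw [inner_neg_right]; linarith
  rcases root_add C hg.1 (roots_neg C hd.1) h4 with h5 | h5
  · rw [← sub_eq_add_neg] at h5
    exact hne (sub_eq_zero.1 h5)
  · rw [← sub_eq_add_neg] at h5
    exact h1 h5

theorem simp_dec (C : CSub L) {H al : g} (hH : Reg L C.a H) (hal : al ∈ roots L C.a)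
    (hp : 0 < ⟪al, H⟫_ℝ) : al ∈ AddSubmonoid.closure (Simp L C.a H) := by
  by_contra hcon
  have hB : ({b | b ∈ roots L C.a ∧ 0 < ⟪b, H⟫_ℝ ∧
      b ∉ AddSubmonoid.closure (Simp L C.a H)} : Set g).Finite :=
    (roots_finite C).subset fun x hx => hx.1
  obtain ⟨b, hb, hmin⟩ := Set.exists_min_image _ (fun x => ⟪x, H⟫_ℝ) hB ⟨al, hal, hp, hcon⟩
  have h1 : b ∉ Simp L C.a H := fun h => hb.2.2 (AddSubmonoid.subset_closure h)
  have h2 : ∃ be ∈ roots L C.a, 0 < ⟪be, H⟫_ℝ ∧ ∃ be' ∈ roots L C.a,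
      0 < ⟪be', H⟫_ℝ ∧ b = be + be' := by
    by_contra h3
    refine h1 ⟨hb.1, hb.2.1, fun be hbe hp1 be' hbe' hp2 he => h3 ?_⟩
    exact ⟨be, hbe, hp1, be', hbe', hp2, he⟩
  obtain ⟨be, hbe, hp1, be', hbe', hp2, he⟩ := h2
  have h4 : ⟪b, H⟫_ℝ = ⟪be, H⟫_ℝ + ⟪be', H⟫_ℝ := by rw [he, inner_add_left]
  have h5 : be ∈ AddSubmonoid.closure (Simp L C.a H) := by
    by_contra h6
    have := hmin be ⟨hbe, hp1, h6⟩
    linarith
  have h7 : be' ∈ AddSubmonoid.closure (Simp L C.a H) := by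
    by_contra h6
    have := hmin be' ⟨hbe', hp2, h6⟩
    linarith
  apply hb.2.2
  rw [he]
  exact add_mem h5 h7

theorem simp_zero (C : CSub L) {H z : g} (hH : Reg L C.a H)
    (h : ∀ ga ∈ Simp L C.a H, ⟪ga, z⟫_ℝ = 0) : ∀ al ∈ roots L C.a, ⟪al, z⟫_ℝ = 0 := by
  have key : ∀ x ∈ AddSubmonoid.closure (Simp L C.a H), ⟪x, z⟫_ℝ = 0 := by
    intro x hx
    induction hx using AddSubmonoid.closure_induction with
    | mem x hx => exact h x hx
    | zero => exact inner_zero_left _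
    | add x y _ _ hx hy => rw [inner_add_left, hx, hy, add_zero]
  intro al hal
  rcases lt_or_gt_of_ne (hH.2 al hal) with h0 | h0
  · have h1 : 0 < ⟪-al, H⟫_ℝ := by rw [inner_neg_left]; linarith
    have h2 := key _ (simp_dec C hH (roots_neg C hal) h1)
    rw [inner_neg_left] at h2
    linarith
  · exact key _ (simp_dec C hH hal h0)

/-- vectors in an open half space with pairwise obtuse angles are linearly independent -/
theorem E02_obtuse {ι : Type} (v : ι → g) (H : g) (hp : ∀ i, 0 < ⟪v i, H⟫_ℝ)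
    (hn : ∀ i j, i ≠ j → ⟪v i, v j⟫_ℝ ≤ 0) : LinearIndependent ℝ v := by
  classical
  rw [linearIndependent_iff']
  intro s c hc
  have hsplit := Finset.sum_filter_add_sum_filter_not s (fun i => 0 < c i) (fun i => c i • v i)
  rw [hc] at hsplit
  have hu : ∑ i ∈ s.filter (fun i => 0 < c i), c i • v i =
      ∑ i ∈ s.filter (fun i => ¬ 0 < c i), (-c i) • v i := by
    simp only [neg_smul, Finset.sum_neg_distrib]
    exact eq_neg_of_add_eq_zero_left hsplit
  have huu : ⟪∑ i ∈ s.filter (fun i => 0 < c i), c i • v i,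
      ∑ i ∈ s.filter (fun i => 0 < c i), c i • v i⟫_ℝ ≤ 0 := by
    nth_rewrite 2 [hu]
    rw [sum_inner]
    refine Finset.sum_nonpos fun i hi => ?_
    rw [inner_sum]
    refine Finset.sum_nonpos fun j hj => ?_
    rw [real_inner_smul_left, real_inner_smul_right]
    have hi' := (Finset.mem_filter.1 hi).2
    have hj' := (Finset.mem_filter.1 hj).2
    have hij : i ≠ j := fun h => hj' (h ▸ hi')
    have h1 := hn i j hij
    have h2 : 0 ≤ -c j := by linarith [not_lt.1 hj']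
    have h3 : (-c j) * ⟪v i, v j⟫_ℝ ≤ 0 := mul_nonpos_of_nonneg_of_nonpos h2 h1
    exact mul_nonpos_of_nonneg_of_nonpos hi'.le h3
  have hu0 : ∑ i ∈ s.filter (fun i => 0 < c i), c i • v i = 0 :=
    real_inner_self_nonpos.1 huu
  have hP : ∑ i ∈ s.filter (fun i => 0 < c i), c i * ⟪v i, H⟫_ℝ = 0 := by
    have h1 : ⟪∑ i ∈ s.filter (fun i => 0 < c i), c i • v i, H⟫_ℝ = 0 := by
      rw [hu0, inner_zero_left]
    rw [sum_inner] at h1
    simpa only [real_inner_smul_left] using h1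
  have hN : ∑ i ∈ s.filter (fun i => ¬ 0 < c i), (-c i) * ⟪v i, H⟫_ℝ = 0 := by
    have h1 : ⟪∑ i ∈ s.filter (fun i => ¬ 0 < c i), (-c i) • v i, H⟫_ℝ = 0 := by
      rw [← hu, hu0, inner_zero_left]
    rw [sum_inner] at h1
    simpa only [real_inner_smul_left] using h1
  intro i hi
  by_cases h : 0 < c i
  · exfalso
    have h1 := (Finset.sum_eq_zero_iff_of_nonneg (fun j hj =>
      mul_nonneg (Finset.mem_filter.1 hj).2.le (hp j).le)).1 hP i
      (Finset.mem_filter.2 ⟨hi, h⟩)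
    exact (mul_pos h (hp i)).ne' h1
  · have h1 := (Finset.sum_eq_zero_iff_of_nonneg (fun j hj =>
      mul_nonneg (by linarith [not_lt.1 (Finset.mem_filter.1 hj).2]) (hp j).le)).1 hN i
      (Finset.mem_filter.2 ⟨hi, h⟩)
    rcases mul_eq_zero.1 h1 with h2 | h2
    · exact neg_eq_zero.1 h2
    · exact absurd h2 (hp i).ne'

theorem simp_ind (C : CSub L) {H : g} (hH : Reg L C.a H) :
    LinearIndependent ℝ (fun x : Simp L C.a H => (x : g)) :=
  E02_obtuse _ H (fun i => i.2.2.1)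
    (fun i j hij => (simp_sub C hH i.2 j.2 fun h => hij (Subtype.ext h)).2)

theorem simp_dual (C : CSub L) {H ga : g} (hH : Reg L C.a H) (hg : ga ∈ Simp L C.a H) :
    ∃ y, Semi L C.a y ∧ ⟪ga, y⟫_ℝ = 1 ∧ ∀ de ∈ Simp L C.a H, de ≠ ga → ⟪de, y⟫_ℝ = 0 := by
  have hni := (simp_ind C hH).notMem_span_image
    (s := {x : Simp L C.a H | x ≠ ⟨ga, hg⟩}) (x := ⟨ga, hg⟩) (fun h => h rfl)
  obtain ⟨U, hUdef⟩ : ∃ U : Submodule ℝ g, U = Submodule.span ℝ
      ((fun x : Simp L C.a H => (x : g)) '' {x : Simp L C.a H | x ≠ ⟨ga, hg⟩}) := ⟨_, rfl⟩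
  rw [← hUdef] at hni

  obtain ⟨p, hp, z, hz, hpz⟩ := U.exists_add_mem_mem_orthogonal ga
  have hz0 : z ≠ 0 := by
    rintro rfl
    rw [add_zero] at hpz
    exact hni (hpz ▸ hp)
  have hzz : 0 < ⟪z, z⟫_ℝ := real_inner_self_pos.2 hz0
  have hUz : ∀ u ∈ U, ⟪u, z⟫_ℝ = 0 := fun u hu => (Submodule.mem_orthogonal U z).1 hz u hu
  have hgz : ⟪ga, z⟫_ℝ = ⟪z, z⟫_ℝ := by
    conv_lhs => rw [hpz]
    rw [inner_add_left, hUz p hp, zero_add]
  have hUS : U ≤ Submodule.span ℝ (Simp L C.a H) := by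
    rw [hUdef]
    apply Submodule.span_mono
    rintro _ ⟨x, -, rfl⟩
    exact x.2
  have hzS : z ∈ Submodule.span ℝ (Simp L C.a H) := by
    have h1 : z = ga - p := by rw [hpz]; abel
    rw [h1]
    exact sub_mem (Submodule.subset_span hg) (hUS hp)
  have hSa : Submodule.span ℝ (Simp L C.a H) ≤ C.a :=
    Submodule.span_le.2 fun x hx => hx.1.1
  refine ⟨(⟪z, z⟫_ℝ)⁻¹ • z, ⟨C.a.smul_mem _ (hSa hzS), ?_⟩, ?_, ?_⟩
  · intro w _ hw
    rw [real_inner_smul_left]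
    have h1 : ∀ x ∈ Submodule.span ℝ (Simp L C.a H), ⟪x, w⟫_ℝ = 0 := by
      intro x hx
      induction hx using Submodule.span_induction with
      | mem x hx => exact hw x hx.1
      | zero => exact inner_zero_left _
      | add x y _ _ hx hy => rw [inner_add_left, hx, hy, add_zero]
      | smul r x _ hx => rw [real_inner_smul_left, hx, mul_zero]
    rw [h1 z hzS, mul_zero]
  · rw [real_inner_smul_right, hgz]
    exact inv_mul_cancel₀ hzz.ne'
  · intro de hde hne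
    rw [real_inner_smul_right]
    have h1 : de ∈ U := by
      rw [hUdef]
      apply Submodule.subset_span
      refine ⟨⟨de, hde⟩, ?_, rfl⟩
      intro h
      exact hne (congrArg Subtype.val h)
    rw [hUz de h1, mul_zero]

end Pool.Agent.Lib.MP_4322ef_CH
end

section

/-!
# Simple roots: the sum of the positive roots

* `R_ge`: `vc_pos` (file R02) and `exists_P`, as in `min_fund` (file N08).
* `R_gt`: let `ga = be + be'`. Let `P⁺` be the set of positive roots. As in the proof of `vc_pos`: the `x ∈ P⁺` with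
  `sr ga x ∈ P⁺` contribute `0` to `R ga = ∑_{x ∈ P⁺} ⟪x, ga⟫`, the other `x ∈ P⁺` have `⟪x, ga⟫ > 0`. Since
  `⟪be, ga⟫ + ⟪be', ga⟫ = ⟪ga, ga⟫ > 0` we may assume `⟪be, ga⟫ > 0`, so `k = 2 ⟪be, ga⟫ / ⟪ga, ga⟫ ≥ 1` is an integer and
  `sr ga be = be - k ga = -be' - (k - 1) ga` is negative. So `R ga ≥ ⟪ga, ga⟫ + ⟪be, ga⟫`.
* `simp_pos`: by `simp_dec` the sum of the positive roots is `∑ n ga • ga` with integers `n ga ≥ 1` (every
  `ga ∈ Simp` is itself a positive root); `∑ n ga ⟪ga, de⟫ = R de ≥ ⟪de, de⟫ > 0`.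
-/

set_option autoImplicit false

open scoped InnerProductSpace

namespace Pool.Agent.Lib.MP_4322ef_CH

open Pool.Agent.Lib.MP_4322ef_al.SR

section
variable {E : Type} [NormedAddCommGroup E] [InnerProductSpace ℝ E]

/-- the strict form of `vc_pos`, first half -/
theorem E02b_gt1 {P : Finset E} (hP : RSys P) {c be be' : E} (hb : be ∈ P)
    (hbp : 0 < ⟪be, c⟫_ℝ) (hbp' : 0 < ⟪be', c⟫_ℝ) (h : be + be' ∈ P)
    (hint : ∃ k : ℤ, 2 * ⟪be, be + be'⟫_ℝ = k * ⟪be + be', be + be'⟫_ℝ)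
    (hpos : 0 < ⟪be, be + be'⟫_ℝ) : ⟪be + be', be + be'⟫_ℝ < ⟪vc P c, be + be'⟫_ℝ := by
  classical
  set al := be + be' with hal0
  have h0 : 0 < ⟪al, c⟫_ℝ := by
    rw [hal0, inner_add_left]
    linarith
  have hal := hP.ne al h
  have hposal : 0 < ⟪al, al⟫_ℝ := real_inner_self_pos.mpr hal
  unfold vc
  rw [sum_inner, ← Finset.sum_filter_add_sum_filter_not _ (fun be => 0 < ⟪sr al be, c⟫_ℝ)]
  have hA : ∑ be ∈ (P.filter (fun al => 0 < ⟪al, c⟫_ℝ)).filter (fun be => 0 < ⟪sr al be, c⟫_ℝ),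
      ⟪be, al⟫_ℝ = 0 := by
    have h1 : ∑ be ∈ (P.filter (fun al => 0 < ⟪al, c⟫_ℝ)).filter (fun be => 0 < ⟪sr al be, c⟫_ℝ),
        ⟪be, al⟫_ℝ =
        -∑ be ∈ (P.filter (fun al => 0 < ⟪al, c⟫_ℝ)).filter (fun be => 0 < ⟪sr al be, c⟫_ℝ),
        ⟪be, al⟫_ℝ := by
      rw [← Finset.sum_neg_distrib]
      refine Finset.sum_bij' (fun be _ => sr al be) (fun be _ => sr al be) ?_ ?_
        (fun be _ => sr_sr hal be) (fun be _ => sr_sr hal be) ?_
      · intro be hb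
        rw [Finset.mem_filter, Finset.mem_filter] at hb ⊢
        exact ⟨⟨hP.refl al h be hb.1.1, hb.2⟩, by rw [sr_sr hal]; exact hb.1.2⟩
      · intro be hb
        rw [Finset.mem_filter, Finset.mem_filter] at hb ⊢
        exact ⟨⟨hP.refl al h be hb.1.1, hb.2⟩, by rw [sr_sr hal]; exact hb.1.2⟩
      · intro be _
        rw [sr_inner, sr_self hal, inner_neg_right, neg_neg]
    linarith
  have hB0 : ∀ be ∈ (P.filter (fun al => 0 < ⟪al, c⟫_ℝ)).filter (fun be => ¬0 < ⟪sr al be, c⟫_ℝ),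
      0 ≤ ⟪be, al⟫_ℝ := by
    intro be hb
    rw [Finset.mem_filter, Finset.mem_filter, not_lt] at hb
    by_contra hneg
    rw [not_le] at hneg
    have h2 := hb.2
    unfold sr at h2
    rw [inner_sub_left, real_inner_smul_left] at h2
    have h3 : 2 * ⟪be, al⟫_ℝ / ⟪al, al⟫_ℝ * ⟪al, c⟫_ℝ < 0 :=
      mul_neg_of_neg_of_pos (div_neg_of_neg_of_pos (by linarith) hposal) h0
    linarith [hb.1.2]
  have hne : al ≠ be := by
    intro h4
    rw [hal0] at h4
    have h5 : be' = 0 := by simpa using h4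
    rw [h5, inner_zero_left] at hbp'
    exact lt_irrefl _ hbp'
  have hbe : ¬ 0 < ⟪sr al be, c⟫_ℝ := by
    obtain ⟨k, hk⟩ := hint
    have hk1 : (1 : ℝ) ≤ k := by
      have h6 : (0 : ℝ) < k := by
        by_contra h7
        rw [not_lt] at h7
        nlinarith
      have h7 : 0 < k := by exact_mod_cast h6
      exact_mod_cast h7
    have h6 : 2 * ⟪be, al⟫_ℝ / ⟪al, al⟫_ℝ = k := by
      rw [hk, mul_div_assoc, div_self hposal.ne', mul_one]
    rw [sr, h6, inner_sub_left, real_inner_smul_left, not_lt]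
    have h7 : ⟪al, c⟫_ℝ = ⟪be, c⟫_ℝ + ⟪be', c⟫_ℝ := by rw [hal0, inner_add_left]
    nlinarith
  have hB : ⟪al, al⟫_ℝ + ⟪be, al⟫_ℝ ≤
      ∑ be ∈ (P.filter (fun al => 0 < ⟪al, c⟫_ℝ)).filter (fun be => ¬0 < ⟪sr al be, c⟫_ℝ),
        ⟪be, al⟫_ℝ := by
    rw [← Finset.sum_pair (f := fun x => ⟪x, al⟫_ℝ) hne]
    refine Finset.sum_le_sum_of_subset_of_nonneg ?_ (fun x hx _ => hB0 x hx)
    intro x hx
    rw [Finset.mem_insert, Finset.mem_singleton] at hx
    rcases hx with rfl | rfl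
    · rw [Finset.mem_filter, Finset.mem_filter, not_lt]
      refine ⟨⟨h, h0⟩, ?_⟩
      rw [sr_self hal, inner_neg_left]
      linarith
    · rw [Finset.mem_filter, Finset.mem_filter]
      exact ⟨⟨hb, hbp⟩, hbe⟩
  rw [hA, zero_add]
  linarith

end

variable {g : Type} [NormedAddCommGroup g] [InnerProductSpace ℝ g] {L : RedLie g}
  [FiniteDimensional ℝ g]

theorem R_ge (C : CSub L) {H al : g} (hH : Reg L C.a H) (hal : al ∈ roots L C.a)
    (hp : 0 < ⟪al, H⟫_ℝ) : ⟪al, al⟫_ℝ ≤ R L C.a H al := by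
  obtain ⟨P, hP, hPm, hPh, hPv, hP0⟩ := exists_P C
  have h1 := vc_pos hP (c := ⟨H, hH.1⟩) ((hPm ⟨al, hal.1⟩).2 hal) hp
  rw [hPv ⟨H, hH.1⟩ ⟨al, hal.1⟩] at h1
  exact h1

/-- `R_gt` under the assumption that `be` has positive product with the sum -/
theorem E02b_gt2 (C : CSub L) {H be be' : g} (hH : Reg L C.a H) (hb : be ∈ roots L C.a)
    (hbp : 0 < ⟪be, H⟫_ℝ) (hb' : be' ∈ roots L C.a) (hbp' : 0 < ⟪be', H⟫_ℝ)
    (hs : be + be' ∈ roots L C.a) (hpos : 0 < ⟪be, be + be'⟫_ℝ) :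
    ⟪be + be', be + be'⟫_ℝ < R L C.a H (be + be') := by
  obtain ⟨P, hP, hPm, hPh, hPv, hP0⟩ := exists_P C
  have h1 := E02b_gt1 hP (c := ⟨H, hH.1⟩) (be := ⟨be, hb.1⟩) (be' := ⟨be', hb'.1⟩)
    ((hPm ⟨be, hb.1⟩).2 hb) hbp hbp' ((hPm _).2 hs) (root_int C hb hs) hpos
  rw [hPv ⟨H, hH.1⟩ _] at h1
  exact h1

theorem R_gt (C : CSub L) {H be be' : g} (hH : Reg L C.a H) (hb : be ∈ roots L C.a)
    (hbp : 0 < ⟪be, H⟫_ℝ) (hb' : be' ∈ roots L C.a) (hbp' : 0 < ⟪be', H⟫_ℝ)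
    (hs : be + be' ∈ roots L C.a) : ⟪be + be', be + be'⟫_ℝ < R L C.a H (be + be') := by
  have h1 : 0 < ⟪be + be', be + be'⟫_ℝ := real_inner_self_pos.mpr hs.2.1
  rcases lt_or_ge 0 ⟪be, be + be'⟫_ℝ with h2 | h2
  · exact E02b_gt2 C hH hb hbp hb' hbp' hs h2
  · have h3 : ⟪be + be', be + be'⟫_ℝ = ⟪be, be + be'⟫_ℝ + ⟪be', be + be'⟫_ℝ := inner_add_left _ _ _
    have h4 : 0 < ⟪be', be + be'⟫_ℝ := by linarith
    rw [add_comm be be'] at hs h4 ⊢
    exact E02b_gt2 C hH hb' hbp' hb hbp hs h4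

theorem simp_pos (C : CSub L) {H : g} (hH : Reg L C.a H) :
    ∃ (S : Finset g) (c : g → ℝ), (∀ x, x ∈ S ↔ x ∈ Simp L C.a H) ∧ (∀ ga ∈ S, 0 < c ga) ∧
      ∀ de ∈ S, 0 < ∑ ga ∈ S, c ga * ⟪ga, de⟫_ℝ := by
  classical
  have hfS : (Simp L C.a H).Finite := (roots_finite C).subset (fun x hx => hx.1)
  have hfP : {be | be ∈ roots L C.a ∧ 0 < ⟪be, H⟫_ℝ}.Finite :=
    (roots_finite C).subset (fun x hx => hx.1)
  set S := hfS.toFinset with hSdef
  set Q := hfP.toFinset with hQdef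
  have hS : ∀ x, x ∈ S ↔ x ∈ Simp L C.a H := fun x => by rw [hSdef, Set.Finite.mem_toFinset]
  have hQ : ∀ x, x ∈ Q ↔ x ∈ roots L C.a ∧ 0 < ⟪x, H⟫_ℝ := fun x => by
    rw [hQdef, Set.Finite.mem_toFinset]
    rfl
  have hcoe : (S : Set g) = Simp L C.a H := by
    ext x
    exact hS x
  -- coefficients of the positive roots
  have h1 : ∀ al ∈ Q, ∃ n : g → ℕ, ∑ ga ∈ S, n ga • ga = al ∧ (al ∈ S → n al = 1) := by
    intro al hal
    by_cases h2 : al ∈ S
    · refine ⟨fun x => if x = al then 1 else 0, ?_, fun _ => if_pos rfl⟩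
      simp only [ite_smul, one_smul, zero_smul]
      rw [Finset.sum_ite_eq' S al (fun x => x), if_pos h2]
    · have h3 := simp_dec C hH ((hQ al).1 hal).1 ((hQ al).1 hal).2
      rw [← hcoe, AddSubmonoid.mem_closure_finset] at h3
      obtain ⟨f, -, hf⟩ := h3
      exact ⟨f, hf, fun h4 => absurd h4 h2⟩
  choose! n hn hn1 using h1
  have hSQ : ∀ ga ∈ S, ga ∈ Q := fun ga hga =>
    (hQ ga).2 ⟨((hS ga).1 hga).1, ((hS ga).1 hga).2.1⟩
  refine ⟨S, fun ga => ∑ al ∈ Q, (n al ga : ℝ), hS, ?_, ?_⟩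
  · intro ga hga
    have h2 : (n ga ga : ℝ) ≤ ∑ al ∈ Q, (n al ga : ℝ) :=
      Finset.single_le_sum (f := fun al => (n al ga : ℝ)) (fun _ _ => Nat.cast_nonneg _)
        (hSQ ga hga)
    have h3 : (n ga ga : ℝ) = 1 := by exact_mod_cast hn1 ga (hSQ ga hga) hga
    show 0 < ∑ al ∈ Q, (n al ga : ℝ)
    linarith
  · intro de hde
    have h2 := R_ge C hH ((hS de).1 hde).1 ((hS de).1 hde).2.1
    have h3 : 0 < ⟪de, de⟫_ℝ := real_inner_self_pos.mpr ((hS de).1 hde).1.2.1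
    have h4 : R L C.a H de = ∑ al ∈ Q, ⟪al, de⟫_ℝ := by
      rw [R, finsum_mem_eq_finite_toFinset_sum _ hfP]
    have h5 : ∑ ga ∈ S, (∑ al ∈ Q, (n al ga : ℝ)) * ⟪ga, de⟫_ℝ = ∑ al ∈ Q, ⟪al, de⟫_ℝ := by
      simp only [Finset.sum_mul]
      rw [Finset.sum_comm]
      refine Finset.sum_congr rfl (fun al hal => ?_)
      conv_rhs => rw [← hn al hal]
      rw [sum_inner]
      refine Finset.sum_congr rfl (fun ga _ => ?_)
      rw [← Nat.cast_smul_eq_nsmul ℝ, real_inner_smul_left]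
    show 0 < ∑ ga ∈ S, (∑ al ∈ Q, (n al ga : ℝ)) * ⟪ga, de⟫_ℝ
    rw [h5, ← h4]
    linarith

end Pool.Agent.Lib.MP_4322ef_CH
end

section

/-!
# Fundamental weights: moving the chamber

* `fund_of`: let `H₁` be regular with `y` dominant. Let `P` be as in `exists_P`, `P_y = P.filter (⟪al, y⟫ = 0)` (`RSys`).
  `move'` (file R08) for `P_y`, the chamber of `H` and
  `Q z := Rg P z ∧ y ∈ Chm P z ∧ ((vc P z - 2 y ∈ Chm P z) → (vc P H₁ - 2 y ∈ Chm P H₁))`, `x = H₁`. Stability under `sr al`,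
  `al ∈ P_y`: `rg_sr`, `chm_sr`, `vc_sr`, `sr al y = y`. The resulting `z` is regular, `z ∈ Chm P_y H`, `y ∈ Chm P z`,
  so `z` and `H` are positive on the same `al ∈ P` (if `⟪al, y⟫ ≠ 0` its sign decides), `vc P z = vc P H`.
-/

set_option autoImplicit false

open scoped InnerProductSpace

namespace Pool.Agent.Lib.MP_4322ef_CH

open Pool.Agent.Lib.MP_4322ef_al.SR

variable {g : Type} [NormedAddCommGroup g] [InnerProductSpace ℝ g] {L : RedLie g}
  [FiniteDimensional ℝ g]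

theorem E03b_fix {E : Type} [NormedAddCommGroup E] [InnerProductSpace ℝ E] {al y : E}
    (h : ⟪al, y⟫_ℝ = 0) : sr al y = y := by
  unfold sr
  rw [real_inner_comm, h]
  simp

theorem E03b_key {E : Type} [NormedAddCommGroup E] [InnerProductSpace ℝ E] {P : Finset E}
    (hP : RSys P) {H H₁ y : E} (hH : Rg P H) (hH₁ : Rg P H₁) (hy : y ∈ Chm P H)
    (hy₁ : y ∈ Chm P H₁) (h : vc P H - (2 : ℝ) • y ∈ Chm P H) :
    vc P H₁ - (2 : ℝ) • y ∈ Chm P H₁ := by
  classical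
  let Py : Finset E := P.filter fun al => ⟪al, y⟫_ℝ = 0
  have hmem : ∀ al, al ∈ Py ↔ al ∈ P ∧ ⟪al, y⟫_ℝ = 0 := fun al => Finset.mem_filter
  have hPy : RSys Py := by
    refine ⟨fun al hal => hP.ne al ((hmem al).1 hal).1, fun al hal be hbe => ?_⟩
    rw [hmem] at hal hbe ⊢
    refine ⟨hP.refl al hal.1 be hbe.1, ?_⟩
    rw [sr_inner, E03b_fix hal.2, hbe.2]
  obtain ⟨z, ⟨hz, hyz, hQ⟩, hzC⟩ := move' hPy H (fun z => Rg P z ∧ y ∈ Chm P z ∧
    (vc P z - (2 : ℝ) • y ∈ Chm P z → vc P H₁ - (2 : ℝ) • y ∈ Chm P H₁)) (by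
      rintro z ⟨h1, h2, h3⟩ al hal _ _
      rw [hmem] at hal
      refine ⟨rg_sr hP hal.1 h1, ?_, ?_⟩
      · intro be hbe hpos
        have h4 := h2 (sr al be) (hP.refl al hal.1 be hbe) (by rw [sr_inner]; exact hpos)
        rw [sr_inner, E03b_fix hal.2] at h4
        exact h4
      · intro h4
        refine h3 ?_
        have h5 := chm_sr hP hal.1 h4
        have h6 : sr al (vc P (sr al z) - (2 : ℝ) • y) = vc P z - (2 : ℝ) • y := by
          have h7 : sr al (-((2 : ℝ) • y)) = -((2 : ℝ) • y) := by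
            refine E03b_fix ?_
            rw [inner_neg_right, real_inner_smul_right, hal.2]
            simp
          rw [vc_sr hP hal.1, sub_eq_add_neg, sr_add, sr_sr (hP.ne al hal.1), h7, sub_eq_add_neg]
        rw [h6] at h5
        exact h5) H₁ ⟨hH₁, hy₁, fun h1 => h1⟩
  have hsame : ∀ al ∈ P, 0 < ⟪al, z⟫_ℝ ↔ 0 < ⟪al, H⟫_ℝ := by
    intro al hal
    have hsgn : ∀ K, Rg P K → y ∈ Chm P K → 0 < ⟪al, y⟫_ℝ → 0 < ⟪al, K⟫_ℝ := by
      intro K hK hyK hpos
      rcases lt_or_gt_of_ne (hK al hal) with h1 | h1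
      · have h2 := hyK (-al) (hP.neg_mem hal) (by rw [inner_neg_left]; linarith)
        rw [inner_neg_left] at h2
        linarith
      · exact h1
    rcases lt_trichotomy ⟪al, y⟫_ℝ 0 with h1 | h1 | h1
    · constructor
      · intro h2
        have h3 := hyz al hal h2
        linarith
      · intro h2
        have h3 := hy al hal h2
        linarith
    · exact chm_same hPy (fun be hbe => hH be ((hmem be).1 hbe).1)
        (fun be hbe => hz be ((hmem be).1 hbe).1) hzC ((hmem al).2 ⟨hal, h1⟩)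
    · exact ⟨fun _ => hsgn H hH hy h1, fun _ => hsgn z hz hyz h1⟩
  have hvc : vc P z = vc P H := by
    unfold vc
    congr 1
    refine Finset.filter_congr fun al hal => ?_
    exact hsame al hal
  refine hQ ?_
  rw [hvc]
  intro al hal hpos
  exact h al hal ((hsame al hal).1 hpos)

theorem fund_of (C : CSub L) {H y : g} (hH : Reg L C.a H) (hy : y ∈ C.a)
    (hd : ∀ al ∈ roots L C.a, 0 < ⟪al, H⟫_ℝ → 0 ≤ ⟪al, y⟫_ℝ)
    (h : ∀ al ∈ roots L C.a, 0 < ⟪al, H⟫_ℝ → 2 * ⟪y, al⟫_ℝ ≤ R L C.a H al) : Fund L C.a y := by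
  intro H₁ hH₁ hd₁ al ha hpos
  obtain ⟨P, hP, hPm, hPh, hPv, hP0⟩ := exists_P C
  have h1 := E03b_key hP (H := ⟨H, hH.1⟩) (H₁ := ⟨H₁, hH₁.1⟩) (y := ⟨y, hy⟩)
    (fun be hbe => hH.2 be ((hPm be).1 hbe)) (fun be hbe => hH₁.2 be ((hPm be).1 hbe))
    (fun be hbe hp => hd be ((hPm be).1 hbe) hp) (fun be hbe hp => hd₁ be ((hPm be).1 hbe) hp)
    (fun be hbe hp => by
      have h2 := h be ((hPm be).1 hbe) hp
      have h3 := hPv ⟨H, hH.1⟩ be
      rw [real_inner_comm] at h3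
      rw [inner_sub_right, real_inner_smul_right, h3]
      have h4 : ⟪be, (⟨y, hy⟩ : C.a)⟫_ℝ = ⟪y, (be : g)⟫_ℝ := real_inner_comm _ _
      rw [h4]
      unfold R at h2
      linarith)
    ⟨al, ha.1⟩ ((hPm _).2 ha) hpos
  have h3 := hPv ⟨H₁, hH₁.1⟩ ⟨al, ha.1⟩
  rw [real_inner_comm] at h3
  rw [inner_sub_right, real_inner_smul_right, h3] at h1
  have h4 : ⟪(⟨al, ha.1⟩ : C.a), (⟨y, hy⟩ : C.a)⟫_ℝ = ⟪y, al⟫_ℝ := real_inner_comm _ _
  rw [h4] at h1
  linarith

end Pool.Agent.Lib.MP_4322ef_CH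
end
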