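import Pool.Agent.Lib.MP_4322ef_CH.Mg.G004
import Pool.Agent.Lib.MP_4322ef_CH.Mg.G002
import Pool.Agent.Lib.MP_4322ef_CH.Mg.G006

section

/-!
# The irreducible module

`U₀` = the intersection of the submodules which contain `v` and are stable under all `op A`; `N` = the sum of the submodules which
are stable and contained in `ker ev` (stable, contained in `ker ev`). Restrict `K` to `U₀`: `M₁ = U₀`, `N₁ = N.comap U₀.subtype`.
`M' = M₁ ⧸ N₁` with the induced operators (`Submodule.mapQ`), `v' = mk v`, `ev' = N₁.liftQ ..`. All fields of `VD` pass to `M'`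
(`Submodule.linearMap_qext`, `Submodule.Quotient.induction_on`). `cy`: for `U' ∋ v'` stable the submodule
`(U'.comap mkQ).map U₀.subtype` is stable and contains `v`, so it contains `U₀`. `nd`: for `U'` stable in `ker ev'` the submodule
`(U'.comap mkQ).map U₀.subtype` is stable and contained in `ker ev`, so it is contained in `N`.
-/

set_option autoImplicit false

open scoped InnerProductSpace

namespace Pool.Agent.Lib.MP_4322ef_CH

open Pool.Agent.Lib.MP_4322ef_al.SR

variable {g : Type} [NormedAddCommGroup g] [InnerProductSpace ℝ g] {L : RedLie g}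

theorem vd_min {J : CStr L} {a : Submodule ℝ g} {H₁ lam : g} {M : Type} [AddCommGroup M]
    [Module ℂ M] (K : VD J a H₁ lam M) :
    ∃ (M' : Type) (_ : AddCommGroup M') (_ : Module ℂ M'), Nonempty (VL J a H₁ lam M') := by
  classical
  obtain ⟨U₀, hv, hs, hmin⟩ : ∃ U₀ : Submodule ℂ M, K.v ∈ U₀ ∧ (∀ A, ∀ u ∈ U₀, K.op A u ∈ U₀) ∧
      ∀ U : Submodule ℂ M, K.v ∈ U → (∀ A, ∀ u ∈ U, K.op A u ∈ U) → U₀ ≤ U := by
    refine ⟨sInf {U : Submodule ℂ M | K.v ∈ U ∧ ∀ A, ∀ u ∈ U, K.op A u ∈ U}, ?_, ?_, ?_⟩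
    · rw [Submodule.mem_sInf]
      exact fun U hU => hU.1
    · intro A u hu
      rw [Submodule.mem_sInf] at hu ⊢
      exact fun U hU => hU.2 A u (hu U hU)
    · intro U h1 h2
      exact sInf_le ⟨h1, h2⟩
  obtain ⟨N, hN0, hNs, hmax⟩ : ∃ N : Submodule ℂ M, (∀ u ∈ N, K.ev u = 0) ∧
      (∀ A, ∀ u ∈ N, K.op A u ∈ N) ∧
      ∀ U : Submodule ℂ M, (∀ u ∈ U, K.ev u = 0) → (∀ A, ∀ u ∈ U, K.op A u ∈ U) → U ≤ N := by
    refine ⟨sSup {U : Submodule ℂ M | (∀ u ∈ U, K.ev u = 0) ∧ ∀ A, ∀ u ∈ U, K.op A u ∈ U},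
      ?_, ?_, ?_⟩
    · intro u hu
      have h : sSup {U : Submodule ℂ M | (∀ u ∈ U, K.ev u = 0) ∧ ∀ A, ∀ u ∈ U, K.op A u ∈ U} ≤
          LinearMap.ker K.ev := sSup_le fun U hU x hx => hU.1 x hx
      exact h hu
    · intro A u hu
      have h : sSup {U : Submodule ℂ M | (∀ u ∈ U, K.ev u = 0) ∧ ∀ A, ∀ u ∈ U, K.op A u ∈ U} ≤
          (sSup {U : Submodule ℂ M | (∀ u ∈ U, K.ev u = 0) ∧
            ∀ A, ∀ u ∈ U, K.op A u ∈ U}).comap (K.op A) :=
        sSup_le fun U hU x hx =>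
          (le_sSup (a := U) (s := {U : Submodule ℂ M | (∀ u ∈ U, K.ev u = 0) ∧
            ∀ A, ∀ u ∈ U, K.op A u ∈ U}) hU) (hU.2 A x hx)
      exact h hu
    · intro U h1 h2
      exact le_sSup ⟨h1, h2⟩
  let op₁ : g → (U₀ →ₗ[ℂ] U₀) := fun A => (K.op A).restrict (hs A)
  let N₁ : Submodule ℂ U₀ := N.comap U₀.subtype
  have hN₁ : ∀ A, N₁ ≤ N₁.comap (op₁ A) := fun A x hx => hNs A _ hx
  let op' : g → ((U₀ ⧸ N₁) →ₗ[ℂ] (U₀ ⧸ N₁)) := fun A => N₁.mapQ N₁ (op₁ A) (hN₁ A)
  have hev : N₁ ≤ LinearMap.ker (K.ev.comp U₀.subtype) := fun x hx => hN0 _ hx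
  let ev' : (U₀ ⧸ N₁) →ₗ[ℂ] ℂ := N₁.liftQ (K.ev.comp U₀.subtype) hev
  have hop : ∀ A (y : U₀), op' A (Submodule.Quotient.mk y) =
      Submodule.Quotient.mk ⟨K.op A (y : M), hs A _ y.2⟩ := fun A y => rfl
  have hevm : ∀ y : U₀, ev' (Submodule.Quotient.mk y) = K.ev (y : M) := fun y => rfl
  refine ⟨U₀ ⧸ N₁, inferInstance, inferInstance, ⟨{
    op := op'
    add := ?_
    smul := ?_
    bracket := ?_
    lin := ?_
    v := Submodule.Quotient.mk ⟨K.v, hv⟩
    ev := ev'
    ev_v := ?_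
    wt := ?_
    pos := ?_
    ev_wt := ?_
    ev_neg := ?_
    cy := ?_
    nd := ?_ }⟩⟩
  · intro A B
    refine LinearMap.ext fun x => Submodule.Quotient.induction_on _ x fun y => ?_
    rw [LinearMap.add_apply, hop, hop, hop, ← Submodule.Quotient.mk_add]
    congr 1
    refine Subtype.ext ?_
    simp [K.add A B]
  · intro r A
    refine LinearMap.ext fun x => Submodule.Quotient.induction_on _ x fun y => ?_
    rw [LinearMap.smul_apply, hop, hop, ← Submodule.Quotient.mk_smul]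
    congr 1
    refine Subtype.ext ?_
    simp [K.smul r A]
  · intro A B x
    refine Submodule.Quotient.induction_on _ x fun y => ?_
    rw [hop, hop, hop, hop, hop, ← Submodule.Quotient.mk_sub]
    congr 1
    refine Subtype.ext ?_
    simp [K.bracket A B]
  · intro A
    refine LinearMap.ext fun x => Submodule.Quotient.induction_on _ x fun y => ?_
    rw [LinearMap.smul_apply, hop, hop, ← Submodule.Quotient.mk_smul]
    congr 1
    refine Subtype.ext ?_
    simp [K.lin A]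
  · rw [hevm]
    exact K.ev_v
  · intro H hH
    rw [hop, ← Submodule.Quotient.mk_smul]
    congr 1
    refine Subtype.ext ?_
    simpa using K.wt H hH
  · intro Z hZ
    rw [hop]
    have h0 : (⟨K.op Z K.v, hs Z _ hv⟩ : U₀) = 0 := Subtype.ext (K.pos Z hZ)
    rw [h0, Submodule.Quotient.mk_zero]
  · intro H hH x
    refine Submodule.Quotient.induction_on _ x fun y => ?_
    rw [hop, hevm, hevm]
    exact K.ev_wt H hH _
  · intro Z hZ x
    refine Submodule.Quotient.induction_on _ x fun y => ?_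
    rw [hop, hevm]
    exact K.ev_neg Z hZ _
  · intro U' hU1 hU2
    have h : U₀ ≤ (U'.comap N₁.mkQ).map U₀.subtype := by
      refine hmin _ ?_ ?_
      · exact ⟨⟨K.v, hv⟩, hU1, rfl⟩
      · rintro A u ⟨y, hy, rfl⟩
        refine ⟨⟨K.op A (y : M), hs A _ y.2⟩, ?_, rfl⟩
        exact hU2 A _ hy
    refine eq_top_iff.2 fun x _ => ?_
    refine Submodule.Quotient.induction_on _ x fun y => ?_
    obtain ⟨z, hz, hzy⟩ := h y.2
    have : z = y := Subtype.ext hzy
    subst this
    exact hz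
  · intro U' hU1 hU2
    have h : (U'.comap N₁.mkQ).map U₀.subtype ≤ N := by
      refine hmax _ ?_ ?_
      · rintro u ⟨y, hy, rfl⟩
        have := hU1 _ hy
        exact this
      · rintro A u ⟨y, hy, rfl⟩
        refine ⟨⟨K.op A (y : M), hs A _ y.2⟩, ?_, rfl⟩
        exact hU2 A _ hy
    refine eq_bot_iff.2 fun x hx => ?_
    revert hx
    refine Submodule.Quotient.induction_on _ x fun y => ?_
    intro hy
    rw [Submodule.mem_bot, Submodule.Quotient.mk_eq_zero]
    exact h ⟨y, hy, rfl⟩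

end Pool.Agent.Lib.MP_4322ef_CH
end

section

/-!
# Structure of the irreducible module: the Casimir operator

* `vl_cas_wt`: the computation of `kCas_wt` (file N00) does not use the inner product; with `gCas` instead of `kCas` (`gCas = 2 kCas` for
  complex linear modules, so the factor `2`); `∑ op (e i) (op (θ (e i)) w)` over the orthonormal basis of `ABas`
  (`frame_indep` as used in `kCas_wt` to pass from `stdOrthonormalBasis` to `b.e`), `sum_J`, `sum_th`, `br_th_root`.
* `vl_cas`: the operator `gCas L op` commutes with all `op A` (it is in the file SR; otherwise from `inner_br`), and it is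
  `2 (⟪lam, lam⟫ + R lam)` on `v` by `vl_cas_wt` (`op (e i) v = 0` for the positive `i`), so it is this scalar on all of `M` (`cy`).
-/

set_option autoImplicit false

open scoped InnerProductSpace

namespace Pool.Agent.Lib.MP_4322ef_CH

open Pool.Agent.Lib.MP_4322ef_al.SR

variable {g : Type} [NormedAddCommGroup g] [InnerProductSpace ℝ g] {L : RedLie g}
  [FiniteDimensional ℝ g]

section
variable {J : CStr L} {M : Type} [AddCommGroup M] [Module ℂ M]

/-- the Casimir operator by an orthonormal basis -/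
theorem H03b_sum (K : Rep L M) {n : ℕ} (e : OrthonormalBasis (Fin n) ℝ g) (w : M) :
    gCas L K.op w = -∑ i, K.op (e i) (K.op (L.th (e i)) w) := by
  have h1 := frame_indep (stdOrthonormalBasis ℝ g) e
    (bil K K LinearMap.id LinearMap.id LinearMap.id L.th w)
  simp only [bil_apply, LinearMap.id_apply] at h1
  rw [gCas, h1]

theorem vl_cas_wt (C : CSub L) (K : Rep L M) (hlin : ∀ A, K.op (J.J A) = Complex.I • K.op A)
    {n : ℕ} (b : ABas C n) {H₁ ze : g} (hH : Reg L C.a H₁) (hze : ze ∈ C.a) {w : M}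
    (hw : WU K C.a ze w) :
    gCas L K.op w = ((2 * (⟪ze, ze⟫_ℝ + R L C.a H₁ ze) : ℝ) : ℂ) • w
      - (2 : ℂ) • ∑ i ∈ b.pl H₁, K.op (L.th (b.e i)) (K.op (b.e i) w) := by
  classical
  have hterm : ∀ i, K.op (b.e i) (K.op (L.th (b.e i)) w) =
      ((-(⟪ze, b.e i⟫_ℝ * ⟪ze, b.e i⟫_ℝ) - ⟪J.J ze, b.e i⟫_ℝ * ⟪J.J ze, b.e i⟫_ℝ : ℝ) : ℂ) • w +
      (if i ∈ b.pl H₁ then K.op (L.th (b.e i)) (K.op (b.e i) w) - (⟪b.ch i, ze⟫_ℝ : ℂ) • w
        else 0) +
      (if i ∈ b.pl (-H₁) then K.op (b.e i) (K.op (L.th (b.e i)) w) else 0) := by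
    intro i
    have hcha := b.mem i
    have hchi := b.rv i
    by_cases h0 : b.ch i = 0
    · rw [h0] at hchi
      obtain ⟨H, hHa, K', hKa, he⟩ := RV_zero J C hchi
      have e1 : ⟪ze, b.e i⟫_ℝ = ⟪ze, H⟫_ℝ := by
        rw [he, inner_add_right, J_a_orth J C hze hKa, add_zero]
      have e2 : ⟪J.J ze, b.e i⟫_ℝ = ⟪ze, K'⟫_ℝ := by
        rw [he, inner_add_right, real_inner_comm, J_a_orth J C hHa hze, zero_add, J.inner]
      have hn1 : i ∉ b.pl H₁ := by
        intro h
        rw [b.mem_pl, h0, inner_zero_left] at h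
        exact lt_irrefl _ h
      have hn2 : i ∉ b.pl (-H₁) := by
        intro h
        rw [b.mem_pl, h0, inner_zero_left] at h
        exact lt_irrefl _ h
      have hth : L.th (b.e i) = -H + J.J K' := by
        rw [he, map_add, C.a_p H hHa, th_JH J C hKa]
      have h5 : K.op (-H + J.J K') w =
          (-(⟪ze, H⟫_ℝ : ℂ) + Complex.I * (⟪ze, K'⟫_ℝ : ℂ)) • w := by
        rw [K.add, LinearMap.add_apply, Rep.neg', LinearMap.neg_apply, hw H hHa, hlin,
          LinearMap.smul_apply, hw K' hKa, smul_smul, ← neg_smul, ← add_smul]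
      have h6 : K.op (H + J.J K') w = ((⟪ze, H⟫_ℝ : ℂ) + Complex.I * (⟪ze, K'⟫_ℝ : ℂ)) • w := by
        rw [K.add, LinearMap.add_apply, hw H hHa, hlin,
          LinearMap.smul_apply, hw K' hKa, smul_smul, ← add_smul]
      rw [if_neg hn1, if_neg hn2, add_zero, add_zero, hth, h5, map_smul, e1, e2]
      rw [he, h6, smul_smul]
      congr 1
      push_cast
      linear_combination ((⟪ze, K'⟫_ℝ : ℂ) * (⟪ze, K'⟫_ℝ : ℂ)) * Complex.I_mul_I
    · have hz : ⟪ze, b.e i⟫_ℝ = 0 :=
        RV_orth C C.a.zero_mem hcha (RV_a C hze) hchi (Ne.symm h0)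
      have hzJ : ⟪J.J ze, b.e i⟫_ℝ = 0 :=
        RV_orth C C.a.zero_mem hcha (RV_Ja J C hze) hchi (Ne.symm h0)
      rw [hz, hzJ]
      rcases lt_or_gt_of_ne (hH.2 _ (b.root h0)) with hneg | hpos
      · have hn1 : i ∉ b.pl H₁ := fun h => absurd (b.mem_pl.1 h) (not_lt.2 hneg.le)
        have hn2 : i ∈ b.pl (-H₁) := by
          rw [b.mem_pl, inner_neg_right]
          linarith
        rw [if_neg hn1, if_pos hn2]
        simp
      · have hn1 : i ∈ b.pl H₁ := b.mem_pl.2 hpos
        have hn2 : i ∉ b.pl (-H₁) := by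
          intro h
          rw [b.mem_pl, inner_neg_right] at h
          linarith
        have h8 := K.bracket (b.e i) (L.th (b.e i)) w
        rw [br_th_root C hcha hchi, real_inner_self_eq_norm_sq,
          b.e.norm_eq_one, one_pow, one_smul, Rep.neg', LinearMap.neg_apply, hw _ hcha] at h8
        have h9 : K.op (b.e i) (K.op (L.th (b.e i)) w) =
            K.op (L.th (b.e i)) (K.op (b.e i) w) - (⟪b.ch i, ze⟫_ℝ : ℂ) • w := by
          rw [real_inner_comm ze (b.ch i), eq_add_of_sub_eq h8.symm]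
          abel
        rw [if_pos hn1, if_neg hn2, h9]
        simp
  have k1 : ∀ u : g, ∑ i, ⟪u, b.e i⟫_ℝ * ⟪u, b.e i⟫_ℝ = ⟪u, u⟫_ℝ := by
    intro u
    rw [← b.e.sum_inner_mul_inner u u]
    exact Finset.sum_congr rfl fun i _ => by rw [real_inner_comm u]
  have hth := sum_th J b hH.1 (bil K K LinearMap.id LinearMap.id LinearMap.id L.th w)
  simp only [bil_apply, LinearMap.id_apply, L.th_th] at hth
  have hR : ∑ i ∈ b.pl H₁, (⟪b.ch i, ze⟫_ℝ : ℂ) • w = ((2 * R L C.a H₁ ze : ℝ) : ℂ) • w := by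
    rw [← Finset.sum_smul, ← Complex.ofReal_sum, sum_root J b hH ze]
  rw [H03b_sum K b.e w, Finset.sum_congr rfl fun i _ => hterm i, Finset.sum_add_distrib,
    Finset.sum_add_distrib, ← Finset.sum_smul, ← Complex.ofReal_sum, Finset.sum_sub_distrib,
    Finset.sum_neg_distrib, k1, k1, J.inner, Finset.sum_ite_mem, Finset.sum_ite_mem,
    Finset.univ_inter, Finset.univ_inter, ← hth, Finset.sum_sub_distrib, hR]
  set S := ∑ i ∈ b.pl H₁, K.op (L.th (b.e i)) (K.op (b.e i) w) with hS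
  have h4 : (((-⟪ze, ze⟫_ℝ - ⟪ze, ze⟫_ℝ : ℝ) : ℂ)) = -(2 * (⟪ze, ze⟫_ℝ : ℂ)) := by
    push_cast
    ring
  rw [h4]
  push_cast
  module

/-- the Casimir operator commutes with the operators -/
theorem H03b_comm (K : Rep L M) (Z : g) (x : M) :
    gCas L K.op (K.op Z x) = K.op Z (gCas L K.op x) := by
  let e := stdOrthonormalBasis ℝ g
  have h := frame_mul e (bil K K LinearMap.id LinearMap.id LinearMap.id L.th x)
    LinearMap.id (L.br (L.th Z)) (-L.br Z) (by
      intro A B
      rw [L.inner_br, L.th_th, LinearMap.neg_apply, inner_neg_right])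
  simp only [bil_apply, LinearMap.id_apply, LinearMap.neg_apply, Rep.neg', L.th_br, L.th_th,
    LinearMap.neg_apply, K.bracket, map_sub, Finset.sum_neg_distrib, Finset.sum_sub_distrib] at h
  rw [gCas, gCas, map_neg, map_sum, neg_inj]
  have h2 := sub_eq_zero.2 h
  rw [sub_neg_eq_add] at h2
  rw [← sub_eq_zero, ← neg_eq_zero, ← h2]
  abel

theorem vl_cas (C : CSub L) {H₁ lam : g} (hH₁ : Reg L C.a H₁) (hlam : lam ∈ C.a)
    (K : VL J C.a H₁ lam M) (m : M) :
    gCas L K.op m = ((2 * (⟪lam, lam⟫_ℝ + R L C.a H₁ lam) : ℝ) : ℂ) • m := by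
  obtain ⟨n, ⟨b⟩⟩ := exists_abas J C
  set c : ℂ := ((2 * (⟪lam, lam⟫_ℝ + R L C.a H₁ lam) : ℝ) : ℂ) with hc
  have hadd : ∀ x y, gCas L K.op (x + y) = gCas L K.op x + gCas L K.op y := by
    intro x y
    rw [gCas, gCas, gCas, ← neg_add, ← Finset.sum_add_distrib]
    simp only [map_add]
  have hsmul : ∀ (r : ℂ) x, gCas L K.op (r • x) = r • gCas L K.op x := by
    intro r x
    rw [gCas, gCas, smul_neg, Finset.smul_sum]
    simp only [map_smul]
  let U : Submodule ℂ M :=
    { carrier := {x | gCas L K.op x = c • x}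
      add_mem' := by
        intro x y hx hy
        rw [Set.mem_ofPred_eq] at hx hy ⊢
        rw [hadd, hx, hy, smul_add]
      zero_mem' := by
        have h := hsmul 0 0
        rw [zero_smul, zero_smul] at h
        rw [Set.mem_ofPred_eq, h, smul_zero]
      smul_mem' := by
        intro r x hx
        rw [Set.mem_ofPred_eq] at hx ⊢
        rw [hsmul, hx, smul_comm] }
  have hv : K.v ∈ U := by
    have h := vl_cas_wt C K.toRep K.lin b hH₁ hlam (w := K.v) K.wt
    show gCas L K.op K.v = c • K.v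
    rw [h, ← hc, Finset.sum_eq_zero, smul_zero, sub_zero]
    intro i hi
    rw [K.pos (b.e i) ⟨⟪b.ch i, H₁⟫_ℝ, b.mem_pl.1 hi, b.rv i H₁ hH₁.1⟩, map_zero]
  have hst : ∀ A, ∀ u ∈ U, K.op A u ∈ U := by
    intro A u hu
    have hu' : gCas L K.op u = c • u := hu
    show gCas L K.op (K.op A u) = c • K.op A u
    rw [H03b_comm K.toRep A u, hu', map_smul]
  have hm : m ∈ U := by
    rw [K.cy U hv hst]
    exact Submodule.mem_top
  exact hm

end

end Pool.Agent.Lib.MP_4322ef_CH
end
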