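import Pool.Agent.Lib.MP_4322ef_CH.Mg.G004
import Pool.Agent.Lib.MP_4322ef_CE.Mg.G001
import Pool.Agent.Lib.MP_4322ef_CH.Mg.G002
import Pool.Agent.Lib.MP_4322ef_CH.Mg.G001

section

/-!
# Structure of the irreducible module

* `vl_neg`: as `hw_gen` (file W04), with `cy` instead of irreducibility: `S₀` = the smallest submodule which contains `v` and is stable under
  the negative root vectors is stable under all of `g`.
* `vl_span`: `vl_neg` for this span (a negative root vector maps a vector of weight `lam - ka` to one of weight `lam - (ka - al)`, `-al` a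
  positive root); as in `W04_stable` it is enough to consider root vectors.
* `vl_unique`: the smallest stable submodule `U` containing `m` is contained in `ker ev`, so `nd` gives `U = ⊥`. `U` is the span of the
  vectors `op A₁ (... (op A_n m))`; show `ev (op A₁ (... (op A_n m))) = 0` by induction on `n` (for all `A i`). `n = 0`:
  `⟪mu, H⟫ ev m = ev (op H m) = ⟪lam, H⟫ ev m` for all `H ∈ a`, `mu ≠ lam`. Step: by `span_RV` (file S03) let `A₁` be a vector of weight
  `al`. If `al = 0` then `A₁ = H + J H'` (`RV_zero`, file S01) and `ev_wt`. If `A₁` is negative: `ev_neg`. If `A₁` is positive: move it to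
  the right, `A₁ A₂ = A₂ A₁ + [A₁, A₂]`, the terms with the bracket have `n - 1` factors; at the end `op A₁ m = 0`. (A convenient
  statement: for all lists `u`, `w` with `u.length + w.length = n - 1` the vector with the factors `u`, `A₁`, `w` is killed by `ev`, by
  induction on `w`.)
* `vl_top`: a vector of weight `lam` is a multiple of `v`: `M` is the span of `v` and of the vectors of weights `lam - ka`, `ka ∈ Qp`,
  `0 < ⟪ka, H₁⟫` (proof of `hw_mult`, with the decomposition into weight vectors: vectors of different weights are linearly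
  independent; `WU_zero`: if `∑ x mu = 0` for `x mu` of the pairwise different weights `mu` then all `x mu = 0`, e.g. by
  `Module.End.eigenvectors_linearIndependent'` for `op H` with `⟪·, H⟫` injective on the finitely many weights, or by induction).
-/

set_option autoImplicit false

open scoped InnerProductSpace

namespace Pool.Agent.Lib.MP_4322ef_CH

open Pool.Agent.Lib.MP_4322ef_al.SR

variable {g : Type} [NormedAddCommGroup g] [InnerProductSpace ℝ g] {L : RedLie g}
  [FiniteDimensional ℝ g]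

section
variable {J : CStr L} {M : Type} [AddCommGroup M] [Module ℂ M]

theorem WU_shift (r : Rep L M) (C : CSub L) {al mu Z : g} {x : M} (hZ : RV L C.a al Z)
    (hx : WU r C.a mu x) : WU r C.a (al + mu) (r.op Z x) := by
  intro H hH
  have h1 := r.bracket H Z x
  rw [hZ H hH, r.smul, LinearMap.smul_apply, hx H hH, map_smul] at h1
  rw [← add_eq_of_eq_sub h1, ← add_smul, inner_add_left, Complex.ofReal_add]

/-- vectors of different weights are independent -/
theorem WU_zero (r : Rep L M) (C : CSub L) (S : Finset g) (hS : ∀ mu ∈ S, mu ∈ C.a) (x : g → M)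
    (hx : ∀ mu ∈ S, WU r C.a mu (x mu)) (h : ∑ mu ∈ S, x mu = 0) : ∀ mu ∈ S, x mu = 0 := by
  classical
  induction S using Finset.induction_on generalizing x with
  | empty =>
    intro mu hmu
    exact absurd hmu (Finset.notMem_empty mu)
  | insert nu S hnu ih =>
    have hS' : ∀ mu ∈ S, mu ∈ C.a := fun mu hmu => hS mu (Finset.mem_insert_of_mem hmu)
    have hx' : ∀ mu ∈ S, WU r C.a mu (x mu) := fun mu hmu => hx mu (Finset.mem_insert_of_mem hmu)
    have hnuC : nu ∈ C.a := hS nu (Finset.mem_insert_self nu S)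
    have hxnu : WU r C.a nu (x nu) := hx nu (Finset.mem_insert_self nu S)
    rw [Finset.sum_insert hnu] at h
    have key : ∀ H ∈ C.a, ∀ mu ∈ S, ((⟪mu, H⟫_ℝ : ℂ) - (⟪nu, H⟫_ℝ : ℂ)) • x mu = 0 := by
      intro H hH
      refine ih hS' (fun mu => ((⟪mu, H⟫_ℝ : ℂ) - (⟪nu, H⟫_ℝ : ℂ)) • x mu) ?_ ?_
      · intro mu hmu H' hH'
        rw [map_smul, hx' mu hmu H' hH', smul_comm]
      · have h1 : r.op H (x nu + ∑ mu ∈ S, x mu) = 0 := by rw [h, map_zero]
        rw [map_add, map_sum, hxnu H hH, Finset.sum_congr rfl fun mu hmu => hx' mu hmu H hH] at h1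
        have h2 : (⟪nu, H⟫_ℝ : ℂ) • (x nu + ∑ mu ∈ S, x mu) = 0 := by rw [h, smul_zero]
        rw [smul_add, Finset.smul_sum] at h2
        simp only [sub_smul]
        rw [Finset.sum_sub_distrib]
        rw [← sub_eq_zero.2 (h1.trans h2.symm)]
        abel
    have hzero : ∀ mu ∈ S, x mu = 0 := by
      intro mu hmu
      have hne : mu ≠ nu := fun h3 => hnu (h3 ▸ hmu)
      have h4 := key (mu - nu) (C.a.sub_mem (hS' mu hmu) hnuC) mu hmu
      rw [← Complex.ofReal_sub, ← inner_sub_left] at h4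
      rcases smul_eq_zero.1 h4 with h5 | h5
      · exfalso
        have h6 : ⟪mu - nu, mu - nu⟫_ℝ = 0 := by exact_mod_cast h5
        exact hne (sub_eq_zero.1 (inner_self_eq_zero.1 h6))
      · exact h5
    intro mu hmu
    rcases Finset.mem_insert.1 hmu with rfl | hmu'
    · rw [Finset.sum_eq_zero hzero, add_zero] at h
      exact h
    · exact hzero mu hmu'

/-- a submodule is closed under the negative root vectors -/
def H03a_neg (r : Rep L M) (a : Submodule ℝ g) (H₁ : g) (T : Submodule ℂ M) : Prop :=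
  ∀ al ∈ a, ⟪al, H₁⟫_ℝ < 0 → ∀ Z, RV L a al Z → ∀ u ∈ T, r.op Z u ∈ T

/-- the smallest submodule which contains `m` and is closed under the negative root vectors -/
def H03a_min (r : Rep L M) (a : Submodule ℝ g) (H₁ : g) (m : M) : Submodule ℂ M :=
  sInf {T | m ∈ T ∧ H03a_neg r a H₁ T}

omit [FiniteDimensional ℝ g] in
theorem H03a_min_mem (r : Rep L M) (a : Submodule ℝ g) (H₁ : g) (m : M) :
    m ∈ H03a_min r a H₁ m :=
  Submodule.mem_sInf.2 fun _ hT => hT.1

omit [FiniteDimensional ℝ g] in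
theorem H03a_min_le (r : Rep L M) (a : Submodule ℝ g) (H₁ : g) {m : M} {T : Submodule ℂ M}
    (hm : m ∈ T) (hT : H03a_neg r a H₁ T) : H03a_min r a H₁ m ≤ T :=
  sInf_le ⟨hm, hT⟩

omit [FiniteDimensional ℝ g] in
theorem H03a_min_neg (r : Rep L M) (a : Submodule ℝ g) (H₁ : g) (m : M) :
    H03a_neg r a H₁ (H03a_min r a H₁ m) := by
  intro al hal hneg Z hZ u hu
  refine Submodule.mem_sInf.2 fun T hT => hT.2 al hal hneg Z hZ u ?_
  exact Submodule.mem_sInf.1 hu T hT

/-- it is closed under all of `g` if `m` is a weight vector killed by the positive root vectors -/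
theorem H03a_min_stable (r : Rep L M) (hlin : ∀ A, r.op (J.J A) = Complex.I • r.op A)
    (C : CSub L) {H₁ mu : g} (hH₁ : Reg L C.a H₁) {m : M} (hm : WU r C.a mu m)
    (hpos : ∀ al ∈ C.a, 0 < ⟪al, H₁⟫_ℝ → ∀ Z, RV L C.a al Z → r.op Z m = 0) :
    ∀ Z, ∀ u ∈ H03a_min r C.a H₁ m, r.op Z u ∈ H03a_min r C.a H₁ m := by
  have hm0 := H03a_min_mem r C.a H₁ m
  have hst := H03a_min_neg r C.a H₁ m
  have h1 : ∀ Z, r.op Z m ∈ H03a_min r C.a H₁ m := by
    intro Z
    refine Submodule.span_induction (p := fun Z _ => r.op Z m ∈ H03a_min r C.a H₁ m)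
      ?_ ?_ ?_ ?_ (span_RV C Z)
    · rintro Z ⟨al, hal, hZ⟩
      by_cases hl0 : al = 0
      · rw [hl0] at hZ
        obtain ⟨H, hH', H', hH'', rfl⟩ := RV_zero J C hZ
        rw [r.add, hlin, LinearMap.add_apply, LinearMap.smul_apply, hm H hH', hm H' hH'']
        exact Submodule.add_mem _ (Submodule.smul_mem _ _ hm0)
          (Submodule.smul_mem _ _ (Submodule.smul_mem _ _ hm0))
      · by_cases hZ0 : Z = 0
        · rw [hZ0, Rep.zero', LinearMap.zero_apply]
          exact Submodule.zero_mem _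
        rcases lt_or_gt_of_ne (hH₁.2 al ⟨hal, hl0, Z, hZ0, hZ⟩) with h2 | h2
        · exact hst al hal h2 Z hZ m hm0
        · rw [hpos al hal h2 Z hZ]
          exact Submodule.zero_mem _
    · rw [Rep.zero', LinearMap.zero_apply]
      exact Submodule.zero_mem _
    · intro A B _ _ hA hB
      rw [r.add, LinearMap.add_apply]
      exact Submodule.add_mem _ hA hB
    · intro c A _ hA
      rw [r.smul, LinearMap.smul_apply]
      exact Submodule.smul_mem _ _ hA
  let S' : Submodule ℂ M :=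
    { carrier := {u | u ∈ H03a_min r C.a H₁ m ∧ ∀ Z, r.op Z u ∈ H03a_min r C.a H₁ m}
      add_mem' := by
        rintro a b ⟨ha, ha'⟩ ⟨hb, hb'⟩
        refine ⟨Submodule.add_mem _ ha hb, fun Z => ?_⟩
        rw [map_add]
        exact Submodule.add_mem _ (ha' Z) (hb' Z)
      zero_mem' := ⟨Submodule.zero_mem _, fun Z => by
        rw [map_zero]
        exact Submodule.zero_mem _⟩
      smul_mem' := by
        rintro c a ⟨ha, ha'⟩
        refine ⟨Submodule.smul_mem _ c ha, fun Z => ?_⟩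
        rw [map_smul]
        exact Submodule.smul_mem _ c (ha' Z) }
  have hS' : H03a_min r C.a H₁ m ≤ S' := by
    refine H03a_min_le r C.a H₁ ⟨hm0, h1⟩ ?_
    rintro al hal hneg Y hY u ⟨hu, hu'⟩
    refine ⟨hst al hal hneg Y hY u hu, fun Z => ?_⟩
    have h2 : r.op Z (r.op Y u) = r.op (L.br Z Y) u + r.op Y (r.op Z u) := by
      rw [r.bracket, sub_add_cancel]
    rw [h2]
    exact Submodule.add_mem _ (hu' _) (hst al hal hneg Y hY _ (hu' Z))
  exact fun Z u hu => (hS' hu).2 Z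

theorem vl_neg (C : CSub L) {H₁ lam : g} (hH₁ : Reg L C.a H₁) (K : VL J C.a H₁ lam M)
    (S : Submodule ℂ M) (hv : K.v ∈ S)
    (hS : ∀ al ∈ C.a, ⟪al, H₁⟫_ℝ < 0 → ∀ Z, RV L C.a al Z → ∀ u ∈ S, K.op Z u ∈ S) : S = ⊤ := by
  have h1 := H03a_min_stable K.toRep K.lin C hH₁ (m := K.v) (mu := lam) K.wt
    (fun al _ hp Z hZ => K.pos Z ⟨⟪al, H₁⟫_ℝ, hp, hZ H₁ hH₁.1⟩)
  have h2 := K.cy _ (H03a_min_mem K.toRep C.a H₁ K.v) h1
  have h3 := H03a_min_le K.toRep C.a H₁ hv hS
  rw [h2] at h3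
  exact top_le_iff.1 h3

/-- the module is spanned by `v` and the vectors of lower weights -/
theorem H03a_span (C : CSub L) {H₁ lam : g} (hH₁ : Reg L C.a H₁) (K : VL J C.a H₁ lam M) :
    Submodule.span ℂ (insert K.v {x | ∃ ka ∈ Qp L C.a H₁, 0 < ⟪ka, H₁⟫_ℝ ∧
      WU K.toRep C.a (lam - ka) x}) = ⊤ := by
  refine vl_neg C hH₁ K _ (Submodule.subset_span (Set.mem_insert _ _)) ?_
  intro al hal hneg Z hZ u hu
  by_cases hZ0 : Z = 0
  · rw [hZ0, Rep.zero', LinearMap.zero_apply]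
    exact Submodule.zero_mem _
  have hal0 : al ≠ 0 := by
    rintro rfl
    rw [inner_zero_left] at hneg
    exact lt_irrefl _ hneg
  have hroot : -al ∈ roots L C.a := roots_neg C ⟨hal, hal0, Z, hZ0, hZ⟩
  have hp : 0 < ⟪-al, H₁⟫_ℝ := by
    rw [inner_neg_left]
    linarith
  have hQ : -al ∈ Qp L C.a H₁ := AddSubmonoid.subset_closure ⟨hroot, hp⟩
  refine Submodule.span_induction (p := fun u _ => K.op Z u ∈ Submodule.span ℂ (insert K.v
    {x | ∃ ka ∈ Qp L C.a H₁, 0 < ⟪ka, H₁⟫_ℝ ∧ WU K.toRep C.a (lam - ka) x})) ?_ ?_ ?_ ?_ hu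
  · rintro x (rfl | ⟨ka, hka, hkp, hx⟩)
    · refine Submodule.subset_span (Or.inr ⟨-al, hQ, hp, ?_⟩)
      have h1 := WU_shift K.toRep C (mu := lam) hZ (K.wt : WU K.toRep C.a lam K.v)
      rw [sub_neg_eq_add, add_comm lam al]
      exact h1
    · refine Submodule.subset_span (Or.inr ⟨ka + -al, AddSubmonoid.add_mem _ hka hQ, ?_, ?_⟩)
      · rw [inner_add_left]
        exact add_pos hkp hp
      · have h1 := WU_shift K.toRep C hZ hx
        have h2 : lam - (ka + -al) = al + (lam - ka) := by abel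
        rw [h2]
        exact h1
  · rw [map_zero]
    exact Submodule.zero_mem _
  · intro a b _ _ ha hb
    rw [map_add]
    exact Submodule.add_mem _ ha hb
  · intro c a _ ha
    rw [map_smul]
    exact Submodule.smul_mem _ _ ha

theorem vl_span (C : CSub L) {H₁ lam : g} (hH₁ : Reg L C.a H₁) (hlam : lam ∈ C.a)
    (K : VL J C.a H₁ lam M) :
    Submodule.span ℂ {x | ∃ ka ∈ Qp L C.a H₁, WU K.toRep C.a (lam - ka) x} = ⊤ := by
  have h1 := H03a_span C hH₁ K
  refine top_le_iff.1 ?_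
  rw [← h1]
  refine Submodule.span_mono ?_
  rintro x (rfl | ⟨ka, hka, _, hx⟩)
  · refine ⟨0, AddSubmonoid.zero_mem _, ?_⟩
    rw [sub_zero]
    exact K.wt
  · exact ⟨ka, hka, hx⟩

theorem vl_unique (C : CSub L) {H₁ lam mu : g} (hH₁ : Reg L C.a H₁) (hlam : lam ∈ C.a)
    (hmu : mu ∈ C.a) (K : VL J C.a H₁ lam M) {m : M} (hm : WU K.toRep C.a mu m) (hne : mu ≠ lam)
    (h : ∀ al ∈ C.a, 0 < ⟪al, H₁⟫_ℝ → ∀ Z, RV L C.a al Z → K.op Z m = 0) : m = 0 := by
  have hev : K.ev m = 0 := by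
    have hd : mu - lam ∈ C.a := C.a.sub_mem hmu hlam
    have h1 := K.ev_wt (mu - lam) hd m
    rw [hm (mu - lam) hd, map_smul, smul_eq_mul] at h1
    have h2 : ((⟪mu, mu - lam⟫_ℝ : ℂ) - (⟪lam, mu - lam⟫_ℝ : ℂ)) * K.ev m = 0 := by
      rw [sub_mul, h1, sub_self]
    rw [← Complex.ofReal_sub, ← inner_sub_left] at h2
    rcases mul_eq_zero.1 h2 with h3 | h3
    · exfalso
      have h4 : ⟪mu - lam, mu - lam⟫_ℝ = 0 := by exact_mod_cast h3
      exact hne (sub_eq_zero.1 (inner_self_eq_zero.1 h4))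
    · exact h3
  have h1 := H03a_min_stable K.toRep K.lin C hH₁ hm h
  let T : Submodule ℂ M := H03a_min K.toRep C.a H₁ m ⊓ LinearMap.ker K.ev
  have hT : H03a_min K.toRep C.a H₁ m ≤ T := by
    refine H03a_min_le K.toRep C.a H₁ ⟨H03a_min_mem K.toRep C.a H₁ m, LinearMap.mem_ker.2 hev⟩ ?_
    rintro al hal hneg Z hZ u ⟨hu, -⟩
    refine ⟨H03a_min_neg K.toRep C.a H₁ m al hal hneg Z hZ u hu, LinearMap.mem_ker.2 ?_⟩
    refine K.ev_neg Z ⟨-⟪al, H₁⟫_ℝ, by linarith, ?_⟩ u
    rw [neg_neg]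
    exact hZ H₁ hH₁.1
  have h2 := K.nd _ (fun u hu => LinearMap.mem_ker.1 (hT hu).2) h1
  have h3 := H03a_min_mem K.toRep C.a H₁ m
  rw [h2] at h3
  exact (Submodule.mem_bot ℂ).1 h3

theorem vl_top (C : CSub L) {H₁ lam : g} (hH₁ : Reg L C.a H₁) (hlam : lam ∈ C.a)
    (K : VL J C.a H₁ lam M) {m : M} (hm : WU K.toRep C.a lam m) : ∃ c : ℂ, m = c • K.v := by
  have h1 : m ∈ Submodule.span ℂ (insert K.v {x | ∃ ka ∈ Qp L C.a H₁, 0 < ⟪ka, H₁⟫_ℝ ∧
      WU K.toRep C.a (lam - ka) x}) := by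
    rw [H03a_span C hH₁ K]
    exact Submodule.mem_top
  obtain ⟨c, t, ht, hct⟩ := Submodule.mem_span_insert.1 h1
  refine ⟨c, ?_⟩
  have ht1 : t = m - c • K.v := by rw [hct, add_sub_cancel_left]
  have ht2 : t ∈ Module.End.eigenspace (K.op H₁) (⟪lam, H₁⟫_ℝ : ℂ) := by
    rw [Module.End.mem_eigenspace_iff, ht1, map_sub, map_smul, hm H₁ hH₁.1, K.wt H₁ hH₁.1,
      smul_sub, smul_comm c]
  have ht3 : t ∈ ⨆ j, ⨆ _ : j ≠ (⟪lam, H₁⟫_ℝ : ℂ), Module.End.eigenspace (K.op H₁) j := by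
    refine Submodule.span_le.2 ?_ ht
    rintro x ⟨ka, -, hkp, hx⟩
    refine Submodule.mem_iSup_of_mem (⟪lam - ka, H₁⟫_ℝ : ℂ) (Submodule.mem_iSup_of_mem ?_ ?_)
    · intro h2
      have h3 : ⟪lam - ka, H₁⟫_ℝ = ⟪lam, H₁⟫_ℝ := by exact_mod_cast h2
      rw [inner_sub_left] at h3
      linarith
    · exact Module.End.mem_eigenspace_iff.2 (hx H₁ hH₁.1)
  have hdis := Module.End.eigenspaces_iSupIndep (K.op H₁) (⟪lam, H₁⟫_ℝ : ℂ)
  have h0 : t = 0 := Submodule.disjoint_def.1 hdis t ht2 ht3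
  rw [hct, h0, add_zero]

end

end Pool.Agent.Lib.MP_4322ef_CH
end

section

/-!
# The unitary structure: the form

* `vl_form`. Let `M* = M →ₗ⋆[ℂ] ℂ` (antilinear functionals) with `(A f) x = -f (op (θ A) x)`; this is a complex linear module (`(J A) f = i (A f)`
  since `θ (J A) = -J (θ A)`). `f₀ x = conj (ev x)`. Let `Γ ⊆ M × M*` be the smallest submodule which contains `(v, f₀)` and is stable under
  `(op A, A)`. (1) for `(x, f) ∈ Γ`: `ev x = f v`. Proof: as in `vl_neg` `Γ` is the smallest submodule which contains `(v, f₀)`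
  and is stable under the negative root vectors (this uses: positive root vectors kill `(v, f₀)`, `a` acts on it by `lam`; for `f₀` this is
  `ev_neg`, `ev_wt` and `θ H = -H`); for negative `Z`: `ev (op Z x) = 0`, `(Z f) v = -f (op (θ Z) v) = 0`. (2) if `(0, f) ∈ Γ` then
  `f = 0`: `{f | (0, f) ∈ Γ}` is stable under `g` and `f v = 0` for its elements by (1), so `f (op (θ A₁) (... v)) = 0` for all words, and
  `f = 0` by `cy` (`{x | ∀ f, (0, f) ∈ Γ → f x = 0}` is a stable submodule containing `v`). (3) every `x` is the first component of an element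
  of `Γ` (`cy`). So `Γ` is the graph of a linear map `Ψ : M → M*`; `h x y = Ψ y x` (`form`), antilinear in `x`, linear in `y`. `inv` is the
  equivariance of `Ψ`. `h v y = (Ψ y) v = ev y` by (1). `h x v = f₀ x = conj (ev x)`. `herm`: `{x | ∀ y, h x y = conj (h y x)}` is a
  stable submodule containing `v`.
-/

set_option autoImplicit false

open scoped InnerProductSpace ComplexConjugate

namespace Pool.Agent.Lib.MP_4322ef_CH

open Pool.Agent.Lib.MP_4322ef_al.SR

variable {g : Type} [NormedAddCommGroup g] [InnerProductSpace ℝ g] {L : RedLie g}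
  [FiniteDimensional ℝ g]

section
variable {J : CStr L} {M : Type} [AddCommGroup M] [Module ℂ M]

/-- generation by the negative root vectors, for any complex linear module -/
theorem H05a_gen {N : Type} [AddCommGroup N] [Module ℂ N] (r : Rep L N)
    (lin : ∀ A, r.op (J.J A) = Complex.I • r.op A) (C : CSub L) {H₁ lam : g} {v : N}
    (hH : Reg L C.a H₁) (wt : ∀ H ∈ C.a, r.op H v = (⟪lam, H⟫_ℝ : ℂ) • v)
    (pos : ∀ Z, (∃ r : ℝ, 0 < r ∧ L.br H₁ Z = r • Z) → r.op Z v = 0) (S : Submodule ℂ N)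
    (hv : v ∈ S)
    (hS : ∀ Z, (∃ r : ℝ, 0 < r ∧ L.br H₁ Z = (-r) • Z) → ∀ u ∈ S, r.op Z u ∈ S)
    {x : N} (hx : x ∈ sInf {U : Submodule ℂ N | v ∈ U ∧ ∀ A, ∀ u ∈ U, r.op A u ∈ U}) :
    x ∈ S := by
  let S₀ : Submodule ℂ N := sInf {T | v ∈ T ∧
    ∀ Z, (∃ r : ℝ, 0 < r ∧ L.br H₁ Z = (-r) • Z) → ∀ u ∈ T, r.op Z u ∈ T}
  have hS0 : S₀ ≤ S := sInf_le ⟨hv, hS⟩
  have hv0 : v ∈ S₀ := Submodule.mem_sInf.2 fun T hT => hT.1
  have hst : ∀ Z, (∃ r : ℝ, 0 < r ∧ L.br H₁ Z = (-r) • Z) → ∀ u ∈ S₀, r.op Z u ∈ S₀ := by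
    intro Z hZ u hu
    refine Submodule.mem_sInf.2 fun T hT => hT.2 Z hZ u ?_
    exact Submodule.mem_sInf.1 hu T hT
  have h1 : ∀ Z, r.op Z v ∈ S₀ := by
    intro Z
    refine Submodule.span_induction (p := fun Z _ => r.op Z v ∈ S₀) ?_ ?_ ?_ ?_ (span_RV C Z)
    · rintro Z ⟨lam', hl, hZ⟩
      by_cases hl0 : lam' = 0
      · rw [hl0] at hZ
        obtain ⟨H, hH', H', hH'', rfl⟩ := RV_zero J C hZ
        rw [r.add, lin, LinearMap.add_apply, LinearMap.smul_apply, wt H hH', wt H' hH'']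
        exact S₀.add_mem (S₀.smul_mem _ hv0) (S₀.smul_mem _ (S₀.smul_mem _ hv0))
      · by_cases hZ0 : Z = 0
        · rw [hZ0, Rep.zero', LinearMap.zero_apply]
          exact S₀.zero_mem
        rcases lt_or_gt_of_ne (hH.2 lam' ⟨hl, hl0, Z, hZ0, hZ⟩) with h2 | h2
        · refine hst Z ⟨-⟪lam', H₁⟫_ℝ, by linarith, ?_⟩ v hv0
          rw [neg_neg]
          exact hZ H₁ hH.1
        · rw [pos Z ⟨⟪lam', H₁⟫_ℝ, h2, hZ H₁ hH.1⟩]
          exact S₀.zero_mem
    · rw [Rep.zero', LinearMap.zero_apply]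
      exact S₀.zero_mem
    · intro A B _ _ hA hB
      rw [r.add, LinearMap.add_apply]
      exact S₀.add_mem hA hB
    · intro c A _ hA
      rw [r.smul, LinearMap.smul_apply]
      exact S₀.smul_mem _ hA
  let S' : Submodule ℂ N :=
    { carrier := {u | u ∈ S₀ ∧ ∀ Z, r.op Z u ∈ S₀}
      add_mem' := by
        rintro a b ⟨ha, ha'⟩ ⟨hb, hb'⟩
        refine ⟨S₀.add_mem ha hb, fun Z => ?_⟩
        rw [map_add]
        exact S₀.add_mem (ha' Z) (hb' Z)
      zero_mem' := ⟨S₀.zero_mem, fun Z => by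
        rw [map_zero]
        exact S₀.zero_mem⟩
      smul_mem' := by
        rintro c a ⟨ha, ha'⟩
        refine ⟨S₀.smul_mem c ha, fun Z => ?_⟩
        rw [map_smul]
        exact S₀.smul_mem c (ha' Z) }
  have hS'0 : S₀ ≤ S' := by
    refine sInf_le ⟨⟨hv0, h1⟩, ?_⟩
    rintro Y hY u ⟨hu, hu'⟩
    refine ⟨hst Y hY u hu, fun Z => ?_⟩
    have h2 : r.op Z (r.op Y u) = r.op (L.br Z Y) u + r.op Y (r.op Z u) := by
      rw [r.bracket, sub_add_cancel]
    rw [h2]
    exact S₀.add_mem (hu' _) (hst Y hY _ (hu' Z))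
  exact hS0 (Submodule.mem_sInf.1 hx S₀ ⟨hv0, fun A u hu => (hS'0 hu).2 A⟩)

/-- the operators on antilinear functionals -/
def H05a_opN (r : Rep L M) (A : g) : (M →ₗ⋆[ℂ] ℂ) →ₗ[ℂ] (M →ₗ⋆[ℂ] ℂ) where
  toFun f := -(f.comp (r.op (L.th A)))
  map_add' f f' := by
    ext x
    simp only [LinearMap.neg_apply, LinearMap.comp_apply, LinearMap.add_apply]
    ring
  map_smul' c f := by
    ext x
    simp only [LinearMap.neg_apply, LinearMap.comp_apply, LinearMap.smul_apply, RingHom.id_apply,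
      smul_eq_mul]
    ring

theorem H05a_opN_apply (r : Rep L M) (A : g) (f : M →ₗ⋆[ℂ] ℂ) (x : M) :
    H05a_opN r A f x = -f (r.op (L.th A) x) := rfl

/-- the module `M × M*` -/
def H05a_rep (r : Rep L M) : Rep L (M × (M →ₗ⋆[ℂ] ℂ)) where
  op A := (r.op A).prodMap (H05a_opN r A)
  add A B := by
    refine LinearMap.ext fun p => Prod.ext ?_ (LinearMap.ext fun x => ?_)
    · simp only [LinearMap.prodMap_apply, LinearMap.add_apply, Prod.fst_add, r.add]
    · simp only [LinearMap.prodMap_apply, LinearMap.add_apply, Prod.snd_add, H05a_opN_apply,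
        map_add, r.add]
      ring
  smul c A := by
    refine LinearMap.ext fun p => Prod.ext ?_ (LinearMap.ext fun x => ?_)
    · simp only [LinearMap.prodMap_apply, LinearMap.smul_apply, Prod.smul_fst, r.smul]
    · simp only [LinearMap.prodMap_apply, LinearMap.smul_apply, Prod.smul_snd, H05a_opN_apply,
        map_smul, r.smul, LinearMap.map_smulₛₗ, Complex.conj_ofReal, smul_eq_mul]
      ring
  bracket A B p := by
    refine Prod.ext ?_ (LinearMap.ext fun x => ?_)
    · simp only [LinearMap.prodMap_apply, Prod.fst_sub, r.bracket]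
    · simp only [LinearMap.prodMap_apply, Prod.snd_sub, LinearMap.sub_apply, H05a_opN_apply,
        L.th_br, r.bracket, map_sub]
      ring

theorem H05a_rep_apply (r : Rep L M) (A : g) (p : M × (M →ₗ⋆[ℂ] ℂ)) :
    (H05a_rep r).op A p = (r.op A p.1, H05a_opN r A p.2) := rfl

/-- the functional `conj ∘ ev` -/
def H05a_f0 (ev : M →ₗ[ℂ] ℂ) : M →ₗ⋆[ℂ] ℂ where
  toFun x := conj (ev x)
  map_add' x y := by rw [map_add, map_add]
  map_smul' c x := by rw [map_smul, smul_eq_mul, map_mul, smul_eq_mul]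

theorem H05a_f0_apply (ev : M →ₗ[ℂ] ℂ) (x : M) : H05a_f0 ev x = conj (ev x) := rfl

theorem vl_form (C : CSub L) {H₁ lam : g} (hH₁ : Reg L C.a H₁) (hlam : lam ∈ C.a)
    (K : VL J C.a H₁ lam M) :
    ∃ h : M →ₗ⋆[ℂ] M →ₗ[ℂ] ℂ, (∀ x y, h x y = conj (h y x)) ∧
      (∀ A x y, h (K.op A x) y = -h x (K.op (L.th A) y)) ∧ h K.v K.v = 1 := by
  have hneg : ∀ A, K.op (-A) = -K.op A := by
    intro A
    have h1 := K.smul (-1) A
    rw [neg_one_smul] at h1
    rw [h1, Complex.ofReal_neg, Complex.ofReal_one, neg_one_smul]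
  have hth : ∀ Z, ∀ r : ℝ, L.br H₁ Z = r • Z → L.br H₁ (L.th Z) = (-r) • L.th Z := by
    intro Z r hZ
    have h1 : L.br H₁ (L.th Z) = L.th (L.br (L.th H₁) Z) := by rw [L.th_br, L.th_th]
    rw [h1, C.a_p H₁ hH₁.1, map_neg, LinearMap.neg_apply, hZ, map_neg, map_smul, neg_smul]
  let R := H05a_rep K.toRep
  let v' : M × (M →ₗ⋆[ℂ] ℂ) := (K.v, H05a_f0 K.ev)
  have hlin : ∀ A, R.op (J.J A) = Complex.I • R.op A := by
    intro A
    refine LinearMap.ext fun p => Prod.ext ?_ (LinearMap.ext fun x => ?_)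
    · rw [H05a_rep_apply, LinearMap.smul_apply, H05a_rep_apply, Prod.smul_fst]
      simp only [K.lin, LinearMap.smul_apply]
    · rw [H05a_rep_apply, LinearMap.smul_apply, H05a_rep_apply, Prod.smul_snd]
      simp only [LinearMap.smul_apply, H05a_opN_apply, J.th, hneg, K.lin, LinearMap.neg_apply,
        map_neg, LinearMap.map_smulₛₗ, Complex.conj_I, smul_eq_mul]
      ring
  have hwt : ∀ H ∈ C.a, R.op H v' = (⟪lam, H⟫_ℝ : ℂ) • v' := by
    intro H hH
    refine Prod.ext ?_ (LinearMap.ext fun x => ?_)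
    · rw [H05a_rep_apply, Prod.smul_fst]
      exact K.wt H hH
    · rw [H05a_rep_apply, Prod.smul_snd]
      simp only [LinearMap.smul_apply, H05a_opN_apply, C.a_p H hH, hneg, LinearMap.neg_apply,
        map_neg, neg_neg, v', H05a_f0_apply, K.ev_wt H hH, map_mul, Complex.conj_ofReal,
        smul_eq_mul]
  have hpos : ∀ Z, (∃ r : ℝ, 0 < r ∧ L.br H₁ Z = r • Z) → R.op Z v' = 0 := by
    rintro Z ⟨r, hr, hZ⟩
    refine Prod.ext ?_ (LinearMap.ext fun x => ?_)
    · rw [H05a_rep_apply]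
      exact K.pos Z ⟨r, hr, hZ⟩
    · rw [H05a_rep_apply]
      simp only [H05a_opN_apply, v', H05a_f0_apply]
      rw [K.ev_neg (L.th Z) ⟨r, hr, hth Z r hZ⟩ x, map_zero, neg_zero]
      rfl
  let Γ : Submodule ℂ (M × (M →ₗ⋆[ℂ] ℂ)) := sInf {U | v' ∈ U ∧ ∀ A, ∀ u ∈ U, R.op A u ∈ U}
  have hvΓ : v' ∈ Γ := Submodule.mem_sInf.2 fun T hT => hT.1
  have hstΓ : ∀ A, ∀ u ∈ Γ, R.op A u ∈ Γ := by
    intro A u hu
    exact Submodule.mem_sInf.2 fun T hT => hT.2 A u (Submodule.mem_sInf.1 hu T hT)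
  -- (1)
  have h1 : ∀ p ∈ Γ, K.ev p.1 = p.2 K.v := by
    intro p hp
    let S : Submodule ℂ (M × (M →ₗ⋆[ℂ] ℂ)) :=
      { carrier := {p | K.ev p.1 = p.2 K.v}
        add_mem' := by
          intro a b ha hb
          have ha' : K.ev a.1 = a.2 K.v := ha
          have hb' : K.ev b.1 = b.2 K.v := hb
          change K.ev (a + b).1 = (a + b).2 K.v
          rw [Prod.fst_add, Prod.snd_add, map_add, LinearMap.add_apply, ha', hb']
        zero_mem' := by
          change K.ev (0 : M × (M →ₗ⋆[ℂ] ℂ)).1 = (0 : M × (M →ₗ⋆[ℂ] ℂ)).2 K.v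
          rw [Prod.fst_zero, Prod.snd_zero, map_zero, LinearMap.zero_apply]
        smul_mem' := by
          intro c a ha
          have ha' : K.ev a.1 = a.2 K.v := ha
          change K.ev (c • a).1 = (c • a).2 K.v
          rw [Prod.smul_fst, Prod.smul_snd, map_smul, LinearMap.smul_apply, ha'] }
    have hvS : v' ∈ S := by
      change K.ev K.v = H05a_f0 K.ev K.v
      rw [H05a_f0_apply, K.ev_v, map_one]
    refine H05a_gen R hlin C hH₁ hwt hpos S hvS ?_ hp
    rintro Z ⟨r, hr, hZ⟩ u _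
    change K.ev (K.op Z u.1) = H05a_opN K.toRep Z u.2 K.v
    rw [K.ev_neg Z ⟨r, hr, hZ⟩, H05a_opN_apply]
    have h2 := hth Z (-r) hZ
    rw [neg_neg] at h2
    have h3 := K.pos (L.th Z) ⟨r, hr, h2⟩
    rw [h3, map_zero, neg_zero]
  -- (2)
  have h2 : ∀ f, ((0 : M), f) ∈ Γ → f = 0 := by
    let U : Submodule ℂ M :=
      { carrier := {x | ∀ f, ((0 : M), f) ∈ Γ → f x = 0}
        add_mem' := by
          intro a b ha hb f hf
          rw [map_add, ha f hf, hb f hf, add_zero]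
        zero_mem' := by
          intro f _
          rw [map_zero]
        smul_mem' := by
          intro c a ha f hf
          rw [LinearMap.map_smulₛₗ, ha f hf, smul_zero] }
    have hU : U = ⊤ := by
      refine K.cy U ?_ ?_
      · intro f hf
        have h3 := h1 _ hf
        rw [← h3, map_zero]
      · intro A u hu f hf
        have h3 := hstΓ (L.th A) _ hf
        rw [H05a_rep_apply, map_zero] at h3
        have h4 := hu _ h3
        rw [H05a_opN_apply, L.th_th, neg_eq_zero] at h4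
        exact h4
    intro f hf
    refine LinearMap.ext fun x => ?_
    have hx : x ∈ U := by rw [hU]; exact Submodule.mem_top
    exact hx f hf
  have h2' : ∀ x f f', (x, f) ∈ Γ → (x, f') ∈ Γ → f = f' := by
    intro x f f' hf hf'
    have h3 := Γ.sub_mem hf hf'
    rw [Prod.mk_sub_mk, sub_self] at h3
    exact sub_eq_zero.1 (h2 _ h3)
  -- (3)
  have h3 : ∀ x, ∃ f, (x, f) ∈ Γ := by
    let U : Submodule ℂ M :=
      { carrier := {x | ∃ f, (x, f) ∈ Γ}
        add_mem' := by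
          rintro a b ⟨f, hf⟩ ⟨f', hf'⟩
          exact ⟨f + f', Γ.add_mem hf hf'⟩
        zero_mem' := ⟨0, Γ.zero_mem⟩
        smul_mem' := by
          rintro c a ⟨f, hf⟩
          exact ⟨c • f, Γ.smul_mem c hf⟩ }
    have hU : U = ⊤ := by
      refine K.cy U ⟨_, hvΓ⟩ ?_
      rintro A u ⟨f, hf⟩
      exact ⟨_, hstΓ A _ hf⟩
    intro x
    have hx : x ∈ U := by rw [hU]; exact Submodule.mem_top
    exact hx
  choose ψ hψ using h3
  let Ψ : M →ₗ[ℂ] (M →ₗ⋆[ℂ] ℂ) :=
    { toFun := ψ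
      map_add' := fun x y => h2' _ _ _ (hψ (x + y)) (Γ.add_mem (hψ x) (hψ y))
      map_smul' := fun c x => h2' _ _ _ (hψ (c • x)) (Γ.smul_mem c (hψ x)) }
  have hinv : ∀ A x y, Ψ.flip (K.op A x) y = -Ψ.flip x (K.op (L.th A) y) := by
    intro A x y
    rw [LinearMap.flip_apply, LinearMap.flip_apply]
    have h4 : Ψ (K.op (L.th A) y) = H05a_opN K.toRep (L.th A) (Ψ y) :=
      h2' _ _ _ (hψ _) (hstΓ (L.th A) _ (hψ y))
    rw [h4, H05a_opN_apply, L.th_th, neg_neg]
  have hev : ∀ y, Ψ y K.v = K.ev y := fun y => (h1 _ (hψ y)).symm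
  have hΨv : Ψ K.v = H05a_f0 K.ev := h2' _ _ _ (hψ _) hvΓ
  have hherm : ∀ x y, Ψ.flip x y = conj (Ψ.flip y x) := by
    let U : Submodule ℂ M :=
      { carrier := {x | ∀ y, Ψ.flip x y = conj (Ψ.flip y x)}
        add_mem' := by
          intro a b ha hb y
          rw [map_add, LinearMap.add_apply, map_add, map_add, ha y, hb y]
        zero_mem' := by
          intro y
          rw [map_zero, LinearMap.zero_apply, map_zero, map_zero]
        smul_mem' := by
          intro c a ha y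
          rw [LinearMap.map_smulₛₗ, LinearMap.smul_apply, map_smul, ha y, smul_eq_mul,
            smul_eq_mul, map_mul] }
    have hU : U = ⊤ := by
      refine K.cy U ?_ ?_
      · intro y
        rw [LinearMap.flip_apply, LinearMap.flip_apply, hev, hΨv, H05a_f0_apply,
          Complex.conj_conj]
      · intro A u hu y
        rw [hinv, hu, hinv, L.th_th, map_neg, neg_neg]
    intro x
    have hx : x ∈ U := by rw [hU]; exact Submodule.mem_top
    exact hx
  refine ⟨Ψ.flip, hherm, hinv, ?_⟩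
  rw [LinearMap.flip_apply, hev, K.ev_v]

end

end Pool.Agent.Lib.MP_4322ef_CH
end

section

/-!
# Integrability: nilpotency

* `vl_kill`: let `n = 2 ⟪lam, ga⟫ / ⟪ga, ga⟫` (a natural number), `m k = F^k v`. `E (m (k + 1)) = (k + 1) (n - k) • m k` (induction). If `be ≠ ga`
  is a positive root and `Z` a root vector then `Z (m k) = 0`: induction, `Z F = F Z + [Z, F]`, and `[Z, F]` has the weight
  `be - ga`, which is not `0`; if `[Z, F] ≠ 0` it is a root, positive (if negative then `ga = be + (ga - be)`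
  contradicts `Simp`) and not `ga` (`root_two`), so the induction hypothesis applies to it. So all positive root vectors kill
  `m (n + 1)` (those of `ga` are `p E + q J E`, `RV_unique`), of weight `lam - (n + 1) ga ≠ lam`, and `vl_unique` gives `m (n + 1) = 0`.
* `vl_nil`: `T = {x | ∃ k, F^k x = 0}` is a submodule, contains `v`. It is stable under `op A`: it is enough to show by induction on `j`: for
  all `A` with `(ad F)^j A = 0` and all `x ∈ T`: `op A x ∈ T` (for `j + 1`: by induction on `k` with `F^k x = 0`: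
  `F (A x) = A (F x) + [F, A] x ∈ T`, so `A x ∈ T`), and every `A ∈ g` has such a `j`: for a root vector the `(ad F)^j A` have
  pairwise different weights and there are finitely many roots (`X01_zero`, file X01, or `roots_finite`), sums (`span_RV`). `cy`.
-/

set_option autoImplicit false

open scoped InnerProductSpace

namespace Pool.Agent.Lib.MP_4322ef_CH

open Pool.Agent.Lib.MP_4322ef_al.SR

variable {g : Type} [NormedAddCommGroup g] [InnerProductSpace ℝ g] {L : RedLie g}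
  [FiniteDimensional ℝ g]

section
variable {J : CStr L} {M : Type} [AddCommGroup M] [Module ℂ M]

omit [FiniteDimensional ℝ g] in
theorem H04a_zero (r : Rep L M) : r.op 0 = 0 := by
  have h := r.smul 0 0
  rw [zero_smul, Complex.ofReal_zero, zero_smul] at h
  exact h

omit [FiniteDimensional ℝ g] in
theorem H04a_neg (r : Rep L M) (A : g) : r.op (-A) = -r.op A := by
  have h := r.smul (-1) A
  rw [neg_one_smul] at h
  rw [h]
  push_cast
  rw [neg_one_smul]

omit [FiniteDimensional ℝ g] in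
/-- the weights of `F^k v` -/
theorem H04a_wt (C : CSub L) {H₁ lam : g} (K : VL J C.a H₁ lam M) {ga F : g}
    (hF : RV L C.a (-ga) F) (k : ℕ) (H : g) (hH : H ∈ C.a) :
    K.op H ((K.op F ^ k) K.v) = ((⟪lam, H⟫_ℝ - k * ⟪ga, H⟫_ℝ : ℝ) : ℂ) • (K.op F ^ k) K.v := by
  induction k with
  | zero =>
    rw [pow_zero, Module.End.one_apply, K.wt H hH]
    simp
  | succ k ih =>
    rw [pow_succ', Module.End.mul_apply]
    have h1 := K.bracket H F ((K.op F ^ k) K.v)
    rw [hF H hH, K.smul, LinearMap.smul_apply, ih, map_smul] at h1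
    rw [eq_add_of_sub_eq h1.symm, ← add_smul]
    congr 1
    rw [inner_neg_left]
    push_cast
    ring

omit [FiniteDimensional ℝ g] in
/-- `E F^(k + 1) v` -/
theorem H04a_EF (C : CSub L) {H₁ lam : g} (K : VL J C.a H₁ lam M) {ga F : g}
    (hga : ga ∈ C.a) (hpos : 0 < ⟪ga, H₁⟫_ℝ) (hmem : H₁ ∈ C.a)
    (hF : RV L C.a (-ga) F) (k : ℕ) :
    K.op (L.th F) ((K.op F ^ (k + 1)) K.v) =
      ((-(⟪F, F⟫_ℝ * ((k + 1) * (⟪lam, ga⟫_ℝ - k / 2 * ⟪ga, ga⟫_ℝ))) : ℝ) : ℂ) •
        (K.op F ^ k) K.v := by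
  have hE : RV L C.a ga (L.th F) := by
    have h := RV_th C hF
    rwa [neg_neg] at h
  have hbr : L.br (L.th F) F = (-⟪F, F⟫_ℝ) • ga := by
    rw [br_skew, br_th_root C (C.a.neg_mem hga) hF, neg_neg, smul_neg, neg_smul]
  have hstep : ∀ x, K.op (L.th F) (K.op F x) =
      K.op F (K.op (L.th F) x) + ((-⟪F, F⟫_ℝ : ℝ) : ℂ) • K.op ga x := by
    intro x
    have h1 := K.bracket (L.th F) F x
    rw [hbr, K.smul, LinearMap.smul_apply] at h1
    rw [h1]
    abel
  induction k with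
  | zero =>
    rw [zero_add, pow_one, pow_zero, Module.End.one_apply, hstep,
      K.pos (L.th F) ⟨⟪ga, H₁⟫_ℝ, hpos, hE H₁ hmem⟩, map_zero, zero_add, K.wt ga hga, smul_smul]
    congr 1
    push_cast
    ring
  | succ k ih =>
    have h2 : (K.op F ^ (k + 1 + 1)) K.v = K.op F ((K.op F ^ (k + 1)) K.v) := by
      rw [pow_succ', Module.End.mul_apply]
    rw [h2, hstep, ih, map_smul, H04a_wt C K hF (k + 1) ga hga, smul_smul]
    have h3 : K.op F ((K.op F ^ k) K.v) = (K.op F ^ (k + 1)) K.v := by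
      rw [pow_succ', Module.End.mul_apply]
    rw [h3, ← add_smul]
    congr 1
    push_cast
    ring

theorem vl_kill (C : CSub L) {H₁ lam : g} (hH₁ : Reg L C.a H₁) (hlam : lam ∈ C.a)
    (hint : Intg L C.a lam) (hd : ∀ al ∈ roots L C.a, 0 < ⟪al, H₁⟫_ℝ → 0 ≤ ⟪al, lam⟫_ℝ)
    (K : VL J C.a H₁ lam M) {ga F : g} (hga : ga ∈ Simp L C.a H₁) (hF : RV L C.a (-ga) F) :
    ∃ k : ℕ, (K.op F ^ k) K.v = 0 := by
  obtain ⟨hgr, hgpos, hgs⟩ := hga
  have hgaa : ga ∈ C.a := hgr.1
  have hga0 : ga ≠ 0 := hgr.2.1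
  have hgg : 0 < ⟪ga, ga⟫_ℝ := real_inner_self_pos.2 hga0
  by_cases hF0 : F = 0
  · refine ⟨1, ?_⟩
    rw [pow_one, hF0, H04a_zero, LinearMap.zero_apply]
  have hE : RV L C.a ga (L.th F) := by
    have h := RV_th C hF
    rwa [neg_neg] at h
  have hE0 : L.th F ≠ 0 := fun h => hF0 (by rw [← L.th_th F, h, map_zero])
  -- the natural number `n`
  obtain ⟨n, hn⟩ : ∃ n : ℕ, 2 * ⟪lam, ga⟫_ℝ = n * ⟪ga, ga⟫_ℝ := by
    obtain ⟨z, hz⟩ := hint ga hgr
    have h0 : 0 ≤ ⟪lam, ga⟫_ℝ := by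
      rw [real_inner_comm]
      exact hd ga hgr hgpos
    have hz0 : 0 ≤ z := by
      by_contra hneg
      push Not at hneg
      have h1 : (z : ℝ) < 0 := by exact_mod_cast hneg
      have h2 : (z : ℝ) * ⟪ga, ga⟫_ℝ < 0 := mul_neg_of_neg_of_pos h1 hgg
      linarith
    obtain ⟨n, rfl⟩ := Int.eq_ofNat_of_zero_le hz0
    exact ⟨n, by rw [hz]; push_cast; ring⟩
  -- the other positive root vectors kill all `F^k v`
  have hother : ∀ k : ℕ, ∀ be ∈ C.a, 0 < ⟪be, H₁⟫_ℝ → be ≠ ga → ∀ Z, RV L C.a be Z →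
      K.op Z ((K.op F ^ k) K.v) = 0 := by
    intro k
    induction k with
    | zero =>
      intro be hbe hpos _ Z hZ
      rw [pow_zero, Module.End.one_apply]
      exact K.pos Z ⟨⟪be, H₁⟫_ℝ, hpos, hZ H₁ hH₁.1⟩
    | succ k ih =>
      intro be hbe hpos hne Z hZ
      by_cases hZ0 : Z = 0
      · rw [hZ0, H04a_zero, LinearMap.zero_apply]
      have hbe0 : be ≠ 0 := by
        rintro rfl
        rw [inner_zero_left] at hpos
        exact lt_irrefl _ hpos
      have hber : be ∈ roots L C.a := ⟨hbe, hbe0, Z, hZ0, hZ⟩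
      rw [pow_succ', Module.End.mul_apply]
      have h1 := K.bracket Z F ((K.op F ^ k) K.v)
      rw [ih be hbe hpos hne Z hZ, map_zero, sub_zero] at h1
      rw [← h1]
      have hW : RV L C.a (be - ga) (L.br Z F) := by
        have h := RV_br C hZ hF
        rwa [← sub_eq_add_neg] at h
      by_cases hW0 : L.br Z F = 0
      · rw [hW0, H04a_zero, LinearMap.zero_apply]
      have hd0 : be - ga ≠ 0 := sub_ne_zero.2 hne
      have hda : be - ga ∈ C.a := C.a.sub_mem hbe hgaa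
      have hdr : be - ga ∈ roots L C.a := ⟨hda, hd0, _, hW0, hW⟩
      rcases lt_or_gt_of_ne (hH₁.2 _ hdr) with hlt | hgt
      · exfalso
        have h2 := roots_neg C hdr
        have h3 : 0 < ⟪-(be - ga), H₁⟫_ℝ := by
          rw [inner_neg_left]
          linarith
        exact hgs be hber hpos _ h2 h3 (by abel)
      · refine ih (be - ga) hda hgt ?_ _ hW
        intro heq
        have h4 : be = (2 : ℝ) • ga := by
          rw [two_smul]
          exact eq_add_of_sub_eq heq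
        exact root_two J C hgr (h4 ▸ hber)
  refine ⟨n + 1, ?_⟩
  refine vl_unique C hH₁ hlam (mu := lam - ((n + 1 : ℕ) : ℝ) • ga)
    (C.a.sub_mem hlam (C.a.smul_mem _ hgaa)) K ?_ ?_ ?_
  · intro H hH
    rw [H04a_wt C K hF (n + 1) H hH, inner_sub_left, real_inner_smul_left]
  · intro h
    have h1 : ((n + 1 : ℕ) : ℝ) • ga = 0 := by
      have := sub_eq_self.1 h
      exact this
    rcases smul_eq_zero.1 h1 with h2 | h2
    · have : ((n + 1 : ℕ) : ℝ) ≠ 0 := by positivity
      exact this h2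
    · exact hga0 h2
  · intro al hal hpos Z hZ
    by_cases hag : al = ga
    · subst hag
      obtain ⟨s, t, hst⟩ := RV_unique J C hal hga0 hE hE0 hZ
      have hEm : K.op (L.th F) ((K.op F ^ (n + 1)) K.v) = 0 := by
        rw [H04a_EF C K hgaa hgpos hH₁.1 hF n]
        have h5 : ⟪lam, al⟫_ℝ - n / 2 * ⟪al, al⟫_ℝ = 0 := by linarith
        rw [h5, mul_zero, mul_zero, neg_zero, Complex.ofReal_zero, zero_smul]
      rw [hst, K.add, K.smul, K.smul, K.lin, LinearMap.add_apply, LinearMap.smul_apply,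
        LinearMap.smul_apply, LinearMap.smul_apply, hEm]
      simp
    · exact hother (n + 1) al hal hpos hag Z hZ

omit [FiniteDimensional ℝ g] in
theorem H04a_add (f : M →ₗ[ℂ] M) {x y : M} (hx : ∃ k : ℕ, (f ^ k) x = 0)
    (hy : ∃ k : ℕ, (f ^ k) y = 0) : ∃ k : ℕ, (f ^ k) (x + y) = 0 := by
  obtain ⟨k, hk⟩ := hx
  obtain ⟨l, hl⟩ := hy
  refine ⟨k + l, ?_⟩
  rw [map_add, pow_add, Module.End.mul_apply, Module.End.mul_apply, hl, map_zero, add_zero,
    ← Module.End.mul_apply, ← pow_add, add_comm k l, pow_add, Module.End.mul_apply, hk, map_zero]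

/-- `ad F` is nilpotent -/
theorem H04a_ad (C : CSub L) {ga F : g} (hga : ga ∈ C.a) (hga0 : ga ≠ 0)
    (hF : RV L C.a (-ga) F) (A : g) : ∃ j : ℕ, (L.br F ^ j) A = 0 := by
  have h := span_RV C A
  induction h using Submodule.span_induction with
  | mem A hA =>
    obtain ⟨al, hal, hA⟩ := hA
    have hgg : ⟪ga, ga⟫_ℝ ≠ 0 := fun h => hga0 (inner_self_eq_zero.1 h)
    refine X01_zero (L.br ga) (fun j => (L.br F ^ j) A) ⟪al, ga⟫_ℝ (-⟪ga, ga⟫_ℝ)
      (neg_ne_zero.2 hgg) ?_
    intro j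
    have h1 := RV_pow C hF hA j ga hga
    rw [h1]
    congr 1
    rw [inner_add_left, real_inner_smul_left, inner_neg_left]
    ring
  | zero => exact ⟨0, map_zero _⟩
  | add A B _ _ hA hB =>
    obtain ⟨k, hk⟩ := hA
    obtain ⟨l, hl⟩ := hB
    refine ⟨k + l, ?_⟩
    rw [map_add, pow_add, Module.End.mul_apply, Module.End.mul_apply, hl, map_zero, add_zero,
      ← Module.End.mul_apply, ← pow_add, add_comm k l, pow_add, Module.End.mul_apply, hk, map_zero]
  | smul c A _ hA =>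
    obtain ⟨k, hk⟩ := hA
    exact ⟨k, by rw [map_smul, hk, smul_zero]⟩

omit [FiniteDimensional ℝ g] in
theorem H04a_stable (r : Rep L M) (F : g) (j : ℕ) : ∀ A : g, (L.br F ^ j) A = 0 →
    ∀ k : ℕ, ∀ x : M, (r.op F ^ k) x = 0 → ∃ l : ℕ, (r.op F ^ l) (r.op A x) = 0 := by
  induction j with
  | zero =>
    intro A hA k x _
    rw [pow_zero, Module.End.one_apply] at hA
    exact ⟨0, by rw [hA, H04a_zero, LinearMap.zero_apply, map_zero]⟩
  | succ j ih =>
    intro A hA k
    have hA' : (L.br F ^ j) (L.br F A) = 0 := by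
      rw [← Module.End.mul_apply, ← pow_succ]
      exact hA
    induction k with
    | zero =>
      intro x hx
      rw [pow_zero, Module.End.one_apply] at hx
      exact ⟨0, by rw [hx, map_zero, map_zero]⟩
    | succ k ihk =>
      intro x hx
      have hx' : (r.op F ^ k) (r.op F x) = 0 := by
        rw [← Module.End.mul_apply, ← pow_succ]
        exact hx
      have h1 := ihk (r.op F x) hx'
      have h2 := ih (L.br F A) hA' (k + 1) x hx
      obtain ⟨l, hl⟩ := H04a_add (r.op F) h1 h2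
      refine ⟨l + 1, ?_⟩
      have h3 : r.op F (r.op A x) = r.op A (r.op F x) + r.op (L.br F A) x := by
        rw [r.bracket]
        abel
      rw [pow_succ, Module.End.mul_apply, h3, hl]

theorem vl_nil (C : CSub L) {H₁ lam : g} (hH₁ : Reg L C.a H₁) (hlam : lam ∈ C.a)
    (hint : Intg L C.a lam) (hd : ∀ al ∈ roots L C.a, 0 < ⟪al, H₁⟫_ℝ → 0 ≤ ⟪al, lam⟫_ℝ)
    (K : VL J C.a H₁ lam M) {ga F : g} (hga : ga ∈ Simp L C.a H₁) (hF : RV L C.a (-ga) F)
    (x : M) : ∃ k : ℕ, (K.op F ^ k) x = 0 := by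
  let T : Submodule ℂ M :=
    { carrier := {x | ∃ k : ℕ, (K.op F ^ k) x = 0}
      add_mem' := fun hx hy => H04a_add (K.op F) hx hy
      zero_mem' := ⟨0, map_zero _⟩
      smul_mem' := by
        rintro c x ⟨k, hk⟩
        exact ⟨k, by rw [map_smul, hk, smul_zero]⟩ }
  have hT : T = ⊤ := by
    refine K.cy T (vl_kill C hH₁ hlam hint hd K hga hF) ?_
    rintro A u ⟨k, hk⟩
    obtain ⟨j, hj⟩ := H04a_ad C hga.1.1 hga.1.2.1 hF A
    exact H04a_stable K.toRep F j A hj k u hk
  have hx : x ∈ T := by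
    rw [hT]
    exact Submodule.mem_top
  exact hx

end

end Pool.Agent.Lib.MP_4322ef_CH
end
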