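import Pool.Agent.Lib.MP_4322ef_CE.Mg.G002
import Pool.Agent.Lib.MP_4322ef_CH.Mg.G005
import Pool.Agent.Lib.MP_4322ef_CH.Mg.G001
import Pool.Agent.Lib.MP_4322ef_CH.Mg.G006
import Pool.Agent.Lib.MP_4322ef_CH.Mg.G002
import Pool.Agent.Lib.MP_4322ef_CE.Mg.G007
import Pool.Agent.Lib.MP_4322ef_CE.Mg.G001
import Pool.Agent.Lib.MP_4322ef_CH.Mg.G004
import Pool.Agent.Lib.MP_4322ef_CE.Mg.G006
import Pool.Agent.Lib.MP_4322ef_CH.Mg.G007

section

/-!
# Components for all weights: the orbit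

* `orbit`: the claim `T j = T i` for all `i`, `j` in `K = {j | w j ≠ 0, ⟪yy, w j⟫ = m, ⟪la, w j⟫ = m'}` where `m` is the maximum of the
  `⟪yy, w j⟫` and `m'` the minimum of `⟪la, w j⟫` on the `j` with `w j ≠ 0`, `⟪yy, w j⟫ = m`. Let `P` be as in `exists_P`,
  `H` regular from `exists_chm` with `x₁ = yy`, `x₂ = -la`, `P' = P.filter (⟪al, yy⟫ = 0 ∧ ⟪al, la⟫ = 0)` (`RSys`).
  `move'` (file R08) for `P'`, `H`, `Q z := ∃ j ∈ K, w j = z ∧ T j = T i`, `x = w i`: if `al ∈ P'`, `⟪al, w j⟫ < 0`, then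
  `sr al (w j)` is a weight (`wt_refl`), so it is some `w k`, `k ∈ K`; with `w j` a weight of norm `q` and `LShort`, the integer
  `2 ⟪w j, al⟫ / ⟪al, al⟫` is `-1` (it is not `-2`, as `w j = -al` would be orthogonal to `yy`, but `m > 0`), so
  `w k = w j + al`, and the hypothesis `hpair` gives `T k = T j`. The result `w j`, `j ∈ K`, is `H`-dominant: for `al ∈ P` with
  `0 < ⟪al, H⟫`, `⟪al, w j⟫ < 0`: if `⟪al, yy⟫ > 0` then `sr al (w j)` is a weight with larger `⟪yy, ·⟫`; if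
  `⟪al, yy⟫ = 0`, `⟪al, la⟫ < 0` then it has the same `⟪yy, ·⟫` and smaller `⟪la, ·⟫`; if both are `0` then
  `al ∈ P'`. It is the highest weight of `s` for `H` (`qm_hw`, and two `H`-dominant weights of norm `q` are equal
  by `hw_bound`). So `T i = T k` for the one `k` with `w k` = this weight (`w` is injective on `w ≠ 0` by `hw_mult`).
-/

set_option autoImplicit false

open scoped InnerProductSpace

namespace Pool.Agent.Lib.MP_4322ef_CH

open Pool.Agent.Lib.MP_4322ef_al.SR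

variable {g : Type} [NormedAddCommGroup g] [InnerProductSpace ℝ g] {L : RedLie g}
  [FiniteDimensional ℝ g]

section
variable {J : CStr L} {E : Type} [NormedAddCommGroup E] [InnerProductSpace ℂ E]
  [FiniteDimensional ℂ E]
  {W : Type} [NormedAddCommGroup W] [InnerProductSpace ℂ W] [FiniteDimensional ℂ W]
  {Y : Type} [NormedAddCommGroup Y] [InnerProductSpace ℂ Y] [FiniteDimensional ℂ Y]

omit [FiniteDimensional ℝ g] [FiniteDimensional ℂ E] in
theorem E07b_wt (C : CSub L) {N : ℕ} {e : OrthonormalBasis (Fin N) ℂ E} {w : Fin N → g}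
    {s : CRep J E} (hwv : ∀ i, w i ∈ C.a ∧ WV s C.a (w i) (e i)) {z : g} (hz : IsW s C.a z) :
    ∃ k, w k = z := by
  obtain ⟨hza, v, hv0, hv⟩ := hz
  by_contra hcon
  rw [not_exists] at hcon
  apply hv0
  have h : ∀ k, ⟪e k, v⟫_ℂ = 0 := fun k => wt_orth s C (hwv k).1 hza (hwv k).2 hv (hcon k)
  rw [← e.sum_repr' v]
  refine Finset.sum_eq_zero fun k _ => ?_
  rw [h, zero_smul]

omit [FiniteDimensional ℝ g] [FiniteDimensional ℂ E] in
theorem E07b_isW (C : CSub L) {N : ℕ} {e : OrthonormalBasis (Fin N) ℂ E} {w : Fin N → g}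
    {s : CRep J E} (hwv : ∀ i, w i ∈ C.a ∧ WV s C.a (w i) (e i)) (k : Fin N) :
    IsW s C.a (w k) :=
  ⟨(hwv k).1, e k, e.orthonormal.ne_zero k, (hwv k).2⟩

omit [FiniteDimensional ℝ g] in
/-- the reflected weight -/
theorem E07b_refl (C : CSub L) {N : ℕ} {e : OrthonormalBasis (Fin N) ℂ E} {w : Fin N → g}
    {s : CRep J E} (hwv : ∀ i, w i ∈ C.a ∧ WV s C.a (w i) (e i)) (k : Fin N) {al : g}
    (hal : al ∈ roots L C.a) (h : ⟪al, w k⟫_ℝ < 0) :
    ∃ k' : Fin N, ∃ n : ℤ, n < 0 ∧ 2 * ⟪w k, al⟫_ℝ = n * ⟪al, al⟫_ℝ ∧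
      w k' = sr al (w k) ∧ w k' = w k - (n : ℝ) • al := by
  have h1 := E07b_isW C hwv k
  obtain ⟨k', hk'⟩ := E07b_wt C hwv (wt_refl s C h1 hal)
  obtain ⟨n, hn⟩ := wt_int s C h1 hal
  have hp : 0 < ⟪al, al⟫_ℝ := real_inner_self_pos.2 hal.2.1
  refine ⟨k', n, ?_, hn, hk', ?_⟩
  · by_contra hcon
    rw [not_lt] at hcon
    have h2 : (0 : ℝ) ≤ n := by exact_mod_cast hcon
    have h3 : 0 ≤ (n : ℝ) * ⟪al, al⟫_ℝ := mul_nonneg h2 hp.le
    rw [real_inner_comm al (w k)] at hn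
    linarith
  · rw [hk', sr, hn, mul_div_assoc, div_self hp.ne', mul_one]

omit [FiniteDimensional ℝ g] [NormedAddCommGroup W] [InnerProductSpace ℂ W]
  [FiniteDimensional ℂ W] in
/-- a maximal term with the same `T` and dominant weight -/
theorem E07b_step (C : CSub L) {N : ℕ} {e : OrthonormalBasis (Fin N) ℂ E} {w : Fin N → g}
    {s : CRep J E} {q : ℝ} (hq : QM C s q)
    (hwv : ∀ i, w i ∈ C.a ∧ WV s C.a (w i) (e i)) {yy la : g}
    {m m' : ℝ} (hm : ∀ j, ⟪yy, w j⟫_ℝ ≤ m) (hm0 : 0 < m)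
    (hm' : ∀ j, ⟪yy, w j⟫_ℝ = m → m' ≤ ⟪la, w j⟫_ℝ) (T : Fin N → W)
    (hpair : ∀ i j, ⟪yy, w i⟫_ℝ = m → ⟪yy, w j⟫_ℝ = m → ⟪la, w i⟫_ℝ = m' → ⟪la, w j⟫_ℝ = m' →
      w i - w j ∈ roots L C.a → T j = T i)
    {P : Finset C.a} (hP : RSys P) (hPm : ∀ x : C.a, x ∈ P ↔ (x : g) ∈ roots L C.a) {H : C.a}
    (hHd : ∀ al ∈ roots L C.a, 0 < ⟪al, (H : g)⟫_ℝ → 0 ≤ ⟪al, yy⟫_ℝ ∧
      (⟪al, yy⟫_ℝ = 0 → ⟪al, la⟫_ℝ ≤ 0))
    {i : Fin N} (hi : ⟪yy, w i⟫_ℝ = m) (hi' : ⟪la, w i⟫_ℝ = m') :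
    ∃ k, ⟪yy, w k⟫_ℝ = m ∧ T k = T i ∧
      ∀ al ∈ roots L C.a, 0 < ⟪al, (H : g)⟫_ℝ → 0 ≤ ⟪al, w k⟫_ℝ := by
  classical
  let P' : Finset C.a := P.filter fun al => ⟪(al : g), yy⟫_ℝ = 0 ∧ ⟪(al : g), la⟫_ℝ = 0
  have hP' : RSys P' := by
    refine ⟨fun al hal => hP.ne al (Finset.mem_filter.1 hal).1, fun al hal be hbe => ?_⟩
    obtain ⟨h1, h2, h3⟩ := Finset.mem_filter.1 hal
    obtain ⟨h4, h5, h6⟩ := Finset.mem_filter.1 hbe
    refine Finset.mem_filter.2 ⟨hP.refl al h1 be h4, ?_, ?_⟩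
    · show ⟪(be : g) - (2 * ⟪be, al⟫_ℝ / ⟪al, al⟫_ℝ) • (al : g), yy⟫_ℝ = 0
      rw [inner_sub_left, real_inner_smul_left, h5, h2, mul_zero, sub_zero]
    · show ⟪(be : g) - (2 * ⟪be, al⟫_ℝ / ⟪al, al⟫_ℝ) • (al : g), la⟫_ℝ = 0
      rw [inner_sub_left, real_inner_smul_left, h6, h3, mul_zero, sub_zero]
  obtain ⟨x', ⟨k, hk1, hk2, hk3, hk4⟩, hxC⟩ := move' hP' H
    (fun z : C.a => ∃ k, ⟪yy, w k⟫_ℝ = m ∧ ⟪la, w k⟫_ℝ = m' ∧ w k = (z : g) ∧ T k = T i) (by
      rintro x ⟨k, hk1, hk2, hk3, hk4⟩ al hal - hneg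
      obtain ⟨h1, h2, h3⟩ := Finset.mem_filter.1 hal
      have har : (al : g) ∈ roots L C.a := (hPm al).1 h1
      have hneg' : ⟪(al : g), w k⟫_ℝ < 0 := by
        rw [hk3]
        exact hneg
      have hp : 0 < ⟪(al : g), (al : g)⟫_ℝ := real_inner_self_pos.2 har.2.1
      obtain ⟨k', n, hn0, hn, hk5, hk6⟩ := E07b_refl C hwv k har hneg'
      have h7 : ⟪yy, w k'⟫_ℝ = m := by
        rw [hk6, inner_sub_right, real_inner_smul_right, real_inner_comm (al : g) yy, h2, mul_zero,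
          sub_zero, hk1]
      have h8 : ⟪la, w k'⟫_ℝ = m' := by
        rw [hk6, inner_sub_right, real_inner_smul_right, real_inner_comm (al : g) la, h3, mul_zero,
          sub_zero, hk2]
      refine ⟨k', h7, h8, ?_, ?_⟩
      · rw [hk5, hk3]
        rfl
      · rw [← hk4]
        have hw0 : w k ≠ 0 := by
          intro h0
          rw [h0, inner_zero_right] at hk1
          exact hm0.ne hk1
        have hsh := (hq _ (E07b_isW C hwv k) hw0).1
        have h9 : ⟪w k, w k⟫_ℝ ≤ ⟪(al : g), (al : g)⟫_ℝ := hsh.2 al har hneg'.ne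
        have hn1 : n = -1 := by
          by_contra hne
          have h10 : n ≤ -2 := by omega
          have h11 : (n : ℝ) ≤ -2 := by exact_mod_cast h10
          have h12 : ⟪w k + al, w k + al⟫_ℝ ≤ 0 := by
            rw [inner_add_left, inner_add_right, inner_add_right, real_inner_comm (w k) (al : g)]
            nlinarith
          have h13 : w k + al = 0 := inner_self_eq_zero.1 (le_antisymm h12 real_inner_self_nonneg)
          have h14 : ⟪yy, w k + al⟫_ℝ = 0 := by rw [h13, inner_zero_right]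
          rw [inner_add_right, hk1, real_inner_comm (al : g) yy, h2, add_zero] at h14
          exact hm0.ne' h14
        refine hpair k' k h7 hk1 h8 hk2 ?_ |>.symm
        have h15 : w k' - w k = al := by
          rw [hk6, hn1]
          push_cast
          module
        rw [h15]
        exact har)
    ⟨w i, (hwv i).1⟩ ⟨i, hi, hi', rfl, rfl⟩
  refine ⟨k, hk1, hk4, fun al har hpos => ?_⟩
  by_contra hneg
  rw [not_le] at hneg
  obtain ⟨h1, h2⟩ := hHd al har hpos
  obtain ⟨k', n, hn0, hn, hk5, hk6⟩ := E07b_refl C hwv k har hneg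
  have hn1 : (n : ℝ) < 0 := by exact_mod_cast hn0
  have h3 := hm k'
  rw [hk6, inner_sub_right, real_inner_smul_right, hk1, real_inner_comm al yy] at h3
  have h4 : ⟪al, yy⟫_ℝ = 0 := by
    by_contra h5
    have h6 : 0 < ⟪al, yy⟫_ℝ := lt_of_le_of_ne h1 (Ne.symm h5)
    have h7 := mul_neg_of_neg_of_pos hn1 h6
    linarith
  have h5 := hm' k' (by
    rw [hk6, inner_sub_right, real_inner_smul_right, hk1, real_inner_comm al yy, h4, mul_zero,
      sub_zero])
  rw [hk6, inner_sub_right, real_inner_smul_right, hk2, real_inner_comm al la] at h5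
  have h6 : ⟪al, la⟫_ℝ = 0 := by
    by_contra h7
    have h8 : ⟪al, la⟫_ℝ < 0 := lt_of_le_of_ne (h2 h4) h7
    have h9 := mul_pos_of_neg_of_neg hn1 h8
    linarith
  have h7 : (⟨al, har.1⟩ : C.a) ∈ P' := Finset.mem_filter.2 ⟨(hPm _).2 har, h4, h6⟩
  have h8 := hxC _ h7 hpos
  have h9 : 0 ≤ ⟪al, w k⟫_ℝ := by
    rw [hk3]
    exact h8
  linarith

theorem orbit (C : CSub L) {N : ℕ} {e : OrthonormalBasis (Fin N) ℂ E} {w : Fin N → g}
    {s : CRep J E} (hs : Irr s) {q : ℝ} (hq : QM C s q)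
    (hwv : ∀ i, w i ∈ C.a ∧ WV s C.a (w i) (e i)) {yy la : g} (hyy : yy ∈ C.a) (hla : la ∈ C.a)
    {m m' : ℝ} (hm : ∀ j, ⟪yy, w j⟫_ℝ ≤ m) (hm0 : 0 < m)
    (hm' : ∀ j, ⟪yy, w j⟫_ℝ = m → m' ≤ ⟪la, w j⟫_ℝ) (T : Fin N → W)
    (hpair : ∀ i j, ⟪yy, w i⟫_ℝ = m → ⟪yy, w j⟫_ℝ = m → ⟪la, w i⟫_ℝ = m' → ⟪la, w j⟫_ℝ = m' →
      w i - w j ∈ roots L C.a → T j = T i)
    {i j : Fin N} (hi : ⟪yy, w i⟫_ℝ = m) (hi' : ⟪la, w i⟫_ℝ = m') (hj : ⟪yy, w j⟫_ℝ = m)
    (hj' : ⟪la, w j⟫_ℝ = m') : T j = T i := by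
  obtain ⟨P, hP, hPm, hPh, hPv, hP0⟩ := exists_P C
  obtain ⟨H, hH, hHd⟩ := exists_chm hP0 (⟨yy, hyy⟩ : C.a) (-⟨la, hla⟩)
  have hreg : Reg L C.a (H : g) := ⟨H.2, fun al ha => hH ⟨al, ha.1⟩ ((hPm _).2 ha)⟩
  have hHd' : ∀ al ∈ roots L C.a, 0 < ⟪al, (H : g)⟫_ℝ → 0 ≤ ⟪al, yy⟫_ℝ ∧
      (⟪al, yy⟫_ℝ = 0 → ⟪al, la⟫_ℝ ≤ 0) := by
    intro al ha hpos
    obtain ⟨h1, h2⟩ := hHd ⟨al, ha.1⟩ ((hPm _).2 ha) hpos
    refine ⟨h1, fun h0 => ?_⟩
    have h3 := h2 h0
    rw [inner_neg_right] at h3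
    have h4 : 0 ≤ -⟪al, la⟫_ℝ := h3
    linarith
  obtain ⟨k, hk1, hk2, hk3⟩ := E07b_step C hq hwv hm hm0 hm' T hpair hP hPm hHd' hi hi'
  obtain ⟨l, hl1, hl2, hl3⟩ := E07b_step C hq hwv hm hm0 hm' T hpair hP hPm hHd' hj hj'
  have hk0 : w k ≠ 0 := by
    intro h0
    rw [h0, inner_zero_right] at hk1
    exact hm0.ne hk1
  have hl0 : w l ≠ 0 := by
    intro h0
    rw [h0, inner_zero_right] at hl1
    exact hm0.ne hl1
  have hhw := qm_hw s C hs hq (hwv k).1 hk0 (hwv k).2 (e.orthonormal.ne_zero k) hreg hk3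
  have hb := hw_bound s C hs hreg hhw (E07b_isW C hwv l) (hwv l).1 hl3
  have hnk := (hq _ (E07b_isW C hwv k) hk0).2
  have hnl := (hq _ (E07b_isW C hwv l) hl0).2
  have hkl : w k = w l := by
    have h1 : ⟪w k - w l, w k - w l⟫_ℝ ≤ 0 := by
      rw [inner_sub_left, inner_sub_right, inner_sub_right, real_inner_comm (w k) (w l)]
      linarith
    exact sub_eq_zero.1 (inner_self_eq_zero.1 (le_antisymm h1 real_inner_self_nonneg))
  have hkl' : k = l := by
    by_contra hne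
    obtain ⟨c, hc⟩ := hw_mult s C hs hreg hhw (u := e l) (by
      rw [hkl]
      exact (hwv l).2)
    have h1 : ⟪e k, e l⟫_ℂ = 0 := e.orthonormal.2 hne
    have h2 : ⟪e k, e k⟫_ℂ = 1 := by
      rw [inner_self_eq_norm_sq_to_K, e.orthonormal.1 k]
      simp
    rw [hc, inner_smul_right, h2, mul_one] at h1
    rw [h1, zero_smul] at hc
    exact e.orthonormal.ne_zero l hc
  rw [← hl2, ← hkl', hk2]

end

end Pool.Agent.Lib.MP_4322ef_CH
end

section

/-!
# Integrability

* `vl_refl`: let `mu` be a weight of `M`, `x ≠ 0` of weight `mu`, `⟪mu, ga⟫ < 0`. Let `p` be maximal with `F^p x ≠ 0` (`vl_nil`), `u = F^p x`, of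
  weight `mu - p ga`, `F u = 0`, `h u = -n' u` with `n' = -2 ⟪mu, ga⟫ / ⟪ga, ga⟫ + 2 p > 0`. `F E^(j+1) u = (j + 1) (n' - j) E^j u` up to
  sign, so `E^j u ≠ 0` as long as `j ≤ n'`, for `j = p - 2 ⟪mu, ga⟫ / ⟪ga, ga⟫` (a natural number, as `mu` is integral: `mu - lam` is a
  sum of roots, `root_int`) it has the weight `sr ga mu`.
* `vl_norm`: `δ > 0` = the minimum of the `⟪be, H₁⟫` for the positive roots. By induction on `N`: if `mu = lam - ka`,
  `ka ∈ Qp`, is a weight with `⟪ka, H₁⟫ ≤ N δ` then `⟪mu, mu⟫ ≤ ⟪lam, lam⟫`: if `⟪mu, ga⟫ < 0` for some `ga ∈ Simp` then `sr ga mu = lam - ka'` is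
  a weight (and `ka' ∈ Qp` by `vl_span` and `WU_zero`) with the same norm and `⟪ka', H₁⟫ ≤ ⟪ka, H₁⟫ - δ`. Otherwise
  `⟪mu, ka⟫ ≥ 0` (`simp_dec`), `⟪lam, lam⟫ = ⟪mu, mu⟫ + 2 ⟪mu, ka⟫ + ⟪ka, ka⟫`.
* `vl_fin`: with `b : ABas C n` (`exists_abas`): by `vl_neg` `M` is the span of the `op Z₁ (... (op Z_r v))`, where the `Z i` are among the
  finitely many `th (e i)`, `i ∈ b.pl H₁` (the root vectors of negative weight are combinations of them). If such a vector is not
  `0`, its weight is `lam - ka` with `⟪ka, H₁⟫ ≥ r δ`, and `⟪ka, ka⟫ ≤ 4 ⟪lam, lam⟫` by `vl_norm`, so `r` is bounded. So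
  `M` is the span of a finite set.
-/

set_option autoImplicit false

open scoped InnerProductSpace

namespace Pool.Agent.Lib.MP_4322ef_CH

open Pool.Agent.Lib.MP_4322ef_al.SR

variable {g : Type} [NormedAddCommGroup g] [InnerProductSpace ℝ g] {L : RedLie g}
  [FiniteDimensional ℝ g]

theorem H04_Qp_mem (C : CSub L) {H₁ ka : g} (h : ka ∈ Qp L C.a H₁) : ka ∈ C.a := by
  refine AddSubmonoid.closure_induction (motive := fun x _ => x ∈ C.a) ?_ ?_ ?_ h
  · rintro x ⟨hx, -⟩
    exact hx.1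
  · exact C.a.zero_mem
  · intro x y _ _ hx hy
    exact C.a.add_mem hx hy

theorem H04_Qp_nonneg (C : CSub L) {H₁ ka : g} (h : ka ∈ Qp L C.a H₁) : 0 ≤ ⟪ka, H₁⟫_ℝ := by
  refine AddSubmonoid.closure_induction (motive := fun x _ => 0 ≤ ⟪x, H₁⟫_ℝ) ?_ ?_ ?_ h
  · rintro x ⟨-, hx⟩
    exact hx.le
  · rw [inner_zero_left]
  · intro x y _ _ hx hy
    rw [inner_add_left]
    exact add_nonneg hx hy

theorem H04_Qp_int (C : CSub L) {H₁ ka ga : g} (hga : ga ∈ roots L C.a)
    (h : ka ∈ Qp L C.a H₁) : ∃ k : ℤ, 2 * ⟪ka, ga⟫_ℝ = k * ⟪ga, ga⟫_ℝ := by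
  refine AddSubmonoid.closure_induction
    (motive := fun x _ => ∃ k : ℤ, 2 * ⟪x, ga⟫_ℝ = k * ⟪ga, ga⟫_ℝ) ?_ ?_ ?_ h
  · rintro x ⟨hx, -⟩
    exact root_int C hx hga
  · exact ⟨0, by simp⟩
  · rintro x y _ _ ⟨k, hk⟩ ⟨l, hl⟩
    refine ⟨k + l, ?_⟩
    rw [inner_add_left]
    push_cast
    linear_combination hk + hl

theorem H04_Qp_simp (C : CSub L) {H₁ ka mu : g} (hH₁ : Reg L C.a H₁)
    (hmu : ∀ ga ∈ Simp L C.a H₁, 0 ≤ ⟪ga, mu⟫_ℝ) (h : ka ∈ Qp L C.a H₁) :
    0 ≤ ⟪ka, mu⟫_ℝ := by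
  refine AddSubmonoid.closure_induction (motive := fun x _ => 0 ≤ ⟪x, mu⟫_ℝ) ?_ ?_ ?_ h
  · rintro x ⟨hx, hxp⟩
    have h1 := simp_dec C hH₁ hx hxp
    refine AddSubmonoid.closure_induction (motive := fun x _ => 0 ≤ ⟪x, mu⟫_ℝ) ?_ ?_ ?_ h1
    · intro y hy
      exact hmu y hy
    · rw [inner_zero_left]
    · intro y z _ _ hy hz
      rw [inner_add_left]
      exact add_nonneg hy hz
  · rw [inner_zero_left]
  · intro x y _ _ hx hy
    rw [inner_add_left]
    exact add_nonneg hx hy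

theorem H04_delta (C : CSub L) (H₁ : g) :
    ∃ δ : ℝ, 0 < δ ∧ ∀ be ∈ roots L C.a, 0 < ⟪be, H₁⟫_ℝ → δ ≤ ⟪be, H₁⟫_ℝ := by
  have hfin : {be | be ∈ roots L C.a ∧ 0 < ⟪be, H₁⟫_ℝ}.Finite :=
    (roots_finite C).subset fun x hx => hx.1
  rcases Set.eq_empty_or_nonempty {be | be ∈ roots L C.a ∧ 0 < ⟪be, H₁⟫_ℝ} with he | hne
  · refine ⟨1, one_pos, fun be hb hp => ?_⟩
    have : be ∈ {be | be ∈ roots L C.a ∧ 0 < ⟪be, H₁⟫_ℝ} := ⟨hb, hp⟩
    rw [he] at this
    exact absurd this (Set.notMem_empty _)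
  · obtain ⟨x, hx, hmin⟩ := Set.exists_min_image _ (fun be => ⟪be, H₁⟫_ℝ) hfin hne
    exact ⟨⟪x, H₁⟫_ℝ, hx.2, fun be hb hp => hmin be ⟨hb, hp⟩⟩

section
variable {J : CStr L} {M : Type} [AddCommGroup M] [Module ℂ M]

theorem H04_pow (K : Rep L M) (C : CSub L) {al mu Z : g} {x : M} (hZ : RV L C.a al Z)
    (hx : WU K C.a mu x) (p : ℕ) : WU K C.a ((p : ℝ) • al + mu) ((K.op Z ^ p) x) := by
  induction p with
  | zero => simpa using hx
  | succ p ih =>
    rw [pow_succ', Module.End.mul_apply]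
    have h1 := WU_shift K C hZ ih
    have h2 : al + ((p : ℝ) • al + mu) = ((p + 1 : ℕ) : ℝ) • al + mu := by
      push_cast
      rw [add_smul, one_smul]
      abel
    rw [← h2]
    exact h1

theorem H04_neg (K : Rep L M) (A : g) : K.op (-A) = -K.op A := by
  have h := K.smul (-1) A
  rw [neg_one_smul] at h
  rw [h]
  simp

/-- a nonzero vector of weight `mu`: `mu = lam - ka` -/
theorem H04_mem (C : CSub L) {H₁ lam mu : g} (hH₁ : Reg L C.a H₁) (hlam : lam ∈ C.a)
    (K : VL J C.a H₁ lam M) (hmu : mu ∈ C.a) {x : M} (hx : WU K.toRep C.a mu x)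
    (hx0 : x ≠ 0) : lam - mu ∈ Qp L C.a H₁ := by
  classical
  by_contra hcon
  have key : ∀ y ∈ Submodule.span ℂ {x | ∃ ka ∈ Qp L C.a H₁, WU K.toRep C.a (lam - ka) x},
      ∃ (S : Finset g) (f : g → M), (∀ nu ∈ S, nu ∈ C.a ∧ lam - nu ∈ Qp L C.a H₁) ∧
        (∀ nu, WU K.toRep C.a nu (f nu)) ∧ (∀ nu, nu ∉ S → f nu = 0) ∧ y = ∑ nu ∈ S, f nu := by
    intro y hy
    induction hy using Submodule.span_induction with
    | mem y hy =>
      obtain ⟨ka, hka, hy⟩ := hy
      refine ⟨{lam - ka}, fun nu => if nu = lam - ka then y else 0, ?_, ?_, ?_, ?_⟩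
      · intro nu hnu
        rw [Finset.mem_singleton] at hnu
        subst hnu
        refine ⟨C.a.sub_mem hlam (H04_Qp_mem C hka), ?_⟩
        rw [sub_sub_cancel]
        exact hka
      · intro nu H hH
        by_cases h : nu = lam - ka
        · simp only [h, if_true]
          exact hy H hH
        · simp only [h, if_false, map_zero, smul_zero]
      · intro nu hnu
        rw [Finset.mem_singleton] at hnu
        simp [hnu]
      · simp
    | zero => exact ⟨∅, fun _ => 0, by simp, fun nu H hH => by simp, by simp, by simp⟩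
    | add y z _ _ hy hz =>
      obtain ⟨S, f, h1, h2, h3, h4⟩ := hy
      obtain ⟨T, f', h1', h2', h3', h4'⟩ := hz
      refine ⟨S ∪ T, fun nu => f nu + f' nu, ?_, ?_, ?_, ?_⟩
      · intro nu hnu
        rcases Finset.mem_union.1 hnu with h | h
        · exact h1 nu h
        · exact h1' nu h
      · intro nu H hH
        show K.op H (f nu + f' nu) = _ • (f nu + f' nu)
        rw [map_add, h2 nu H hH, h2' nu H hH, smul_add]
      · intro nu hnu
        rw [Finset.notMem_union] at hnu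
        show f nu + f' nu = 0
        rw [h3 nu hnu.1, h3' nu hnu.2, add_zero]
      · rw [Finset.sum_add_distrib, h4, h4']
        congr 1
        · exact Finset.sum_subset Finset.subset_union_left fun nu _ hnu => h3 nu hnu
        · exact Finset.sum_subset Finset.subset_union_right fun nu _ hnu => h3' nu hnu
    | smul c y _ hy =>
      obtain ⟨S, f, h1, h2, h3, h4⟩ := hy
      refine ⟨S, fun nu => c • f nu, h1, ?_, ?_, ?_⟩
      · intro nu H hH
        show K.op H (c • f nu) = _ • (c • f nu)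
        rw [map_smul, h2 nu H hH, smul_comm]
      · intro nu hnu
        show c • f nu = 0
        rw [h3 nu hnu, smul_zero]
      · rw [h4, Finset.smul_sum]
  have hspan := vl_span C hH₁ hlam K
  obtain ⟨S, f, h1, h2, h3, h4⟩ := key x (by rw [hspan]; exact Submodule.mem_top)
  have hmS : mu ∉ S := fun h => hcon (h1 mu h).2
  have h5 := WU_zero K.toRep C (insert mu S) (by
    intro nu hnu
    rcases Finset.mem_insert.1 hnu with h | h
    · rw [h]; exact hmu
    · exact (h1 nu h).1) (fun nu => if nu = mu then -x else f nu) (by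
    intro nu hnu H hH
    by_cases h : nu = mu
    · simp only [h, if_true]
      rw [map_neg, hx H hH, smul_neg]
    · simp only [h, if_false]
      exact h2 nu H hH) (by
    rw [Finset.sum_insert hmS, if_pos rfl]
    have h6 : ∑ nu ∈ S, (if nu = mu then -x else f nu) = ∑ nu ∈ S, f nu := by
      refine Finset.sum_congr rfl fun nu hnu => ?_
      rw [if_neg]
      rintro rfl
      exact hmS hnu
    rw [h6, ← h4, neg_add_cancel]) mu (Finset.mem_insert_self _ _)
  simp only [if_true, neg_eq_zero] at h5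
  exact hx0 h5

theorem vl_refl (C : CSub L) {H₁ lam : g} (hH₁ : Reg L C.a H₁) (hlam : lam ∈ C.a)
    (hint : Intg L C.a lam) (hd : ∀ al ∈ roots L C.a, 0 < ⟪al, H₁⟫_ℝ → 0 ≤ ⟪al, lam⟫_ℝ)
    (K : VL J C.a H₁ lam M) {ga ka : g} (hga : ga ∈ Simp L C.a H₁) (hka : ka ∈ Qp L C.a H₁)
    {x : M} (hx : WU K.toRep C.a (lam - ka) x) (hx0 : x ≠ 0) (hneg : ⟪ga, lam - ka⟫_ℝ < 0) :
    ∃ x', WU K.toRep C.a (sr ga (lam - ka)) x' ∧ x' ≠ 0 := by
  classical
  obtain ⟨E, hE, hE0, r1, r2, r3⟩ := root_triple C (roots_neg C hga.1)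
  have hne : ga ≠ 0 := hga.1.2.1
  have hp : 0 < ⟪ga, ga⟫_ℝ := real_inner_self_pos.2 hne
  have hnn : ⟪-ga, -ga⟫_ℝ = ⟪ga, ga⟫_ℝ := by rw [inner_neg_left, inner_neg_right, neg_neg]
  rw [hnn] at r1 r2 r3
  have hF : RV L C.a ga (-L.th E) := by
    have h := RV_th C hE
    rw [neg_neg] at h
    intro H hH
    rw [map_neg, h H hH, smul_neg]
  -- the weight `c` of `x`
  obtain ⟨k1, hk1⟩ := hint ga hga.1
  obtain ⟨k2, hk2⟩ := H04_Qp_int C hga.1 hka
  set mu : g := lam - ka with hmu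
  have hmug : 2 * ⟪mu, ga⟫_ℝ = ((k1 - k2 : ℤ) : ℝ) * ⟪ga, ga⟫_ℝ := by
    rw [hmu, inner_sub_left]
    push_cast
    linear_combination hk1 - hk2
  have hkneg : (k1 - k2 : ℤ) < 0 := by
    have h1 : ((k1 - k2 : ℤ) : ℝ) * ⟪ga, ga⟫_ℝ < 0 := by
      rw [← hmug, real_inner_comm]
      linarith
    have h2 : ((k1 - k2 : ℤ) : ℝ) < 0 := by
      by_contra h
      push Not at h
      have := mul_nonneg h hp.le
      linarith
    exact_mod_cast h2
  obtain ⟨N, hN⟩ : ∃ N : ℕ, (k1 - k2 : ℤ) = -(N : ℤ) :=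
    ⟨(k2 - k1).toNat, by rw [Int.toNat_of_nonneg (by omega)]; ring⟩
  have hNr : 2 * ⟪mu, ga⟫_ℝ = -(N : ℝ) * ⟪ga, ga⟫_ℝ := by
    rw [hmug, hN]
    push_cast
    ring
  have hsm : ∀ A : g, K.op ((2 : ℝ) • A) = (2 : ℝ) • K.op A := by
    intro A
    rw [K.smul]
    ext x
    rw [LinearMap.smul_apply, LinearMap.smul_apply, Complex.coe_smul]
  let e : M →ₗ[ℝ] M := (K.op E).restrictScalars ℝ
  let f : M →ₗ[ℝ] M := (K.op (-L.th E)).restrictScalars ℝ
  let h : M →ₗ[ℝ] M := (K.op ((2 / ⟪ga, ga⟫_ℝ) • -ga)).restrictScalars ℝ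
  have he : ∀ x, h (e x) - e (h x) = (2 : ℝ) • e x := by
    intro x
    show K.op ((2 / ⟪ga, ga⟫_ℝ) • -ga) (K.op E x) - K.op E (K.op ((2 / ⟪ga, ga⟫_ℝ) • -ga) x) =
      (2 : ℝ) • K.op E x
    rw [← K.bracket, r2, hsm, LinearMap.smul_apply]
  have hf : ∀ x, h (f x) - f (h x) = -((2 : ℝ) • f x) := by
    intro x
    show K.op ((2 / ⟪ga, ga⟫_ℝ) • -ga) (K.op (-L.th E) x)
      - K.op (-L.th E) (K.op ((2 / ⟪ga, ga⟫_ℝ) • -ga) x) = -((2 : ℝ) • K.op (-L.th E) x)
    rw [← K.bracket, r3, H04_neg, LinearMap.neg_apply, hsm, LinearMap.smul_apply]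
  have hef : ∀ x, e (f x) - f (e x) = h x := by
    intro x
    show K.op E (K.op (-L.th E) x) - K.op (-L.th E) (K.op E x) =
      K.op ((2 / ⟪ga, ga⟫_ℝ) • -ga) x
    rw [← K.bracket, r1]
  have hw : h x = (N : ℝ) • x := by
    show K.op ((2 / ⟪ga, ga⟫_ℝ) • -ga) x = _
    rw [K.smul, LinearMap.smul_apply, hx (-ga) (C.a.neg_mem hga.1.1), Complex.coe_smul,
      Complex.coe_smul, smul_smul]
    congr 1
    rw [inner_neg_right]
    have h1 : ⟪mu, ga⟫_ℝ = -(N : ℝ) * ⟪ga, ga⟫_ℝ / 2 := by linarith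
    rw [h1]
    field_simp
  -- the end of the string
  have h1 : ∃ j, (e ^ j) x = 0 := by
    obtain ⟨j, hj⟩ := vl_nil C hH₁ hlam hint hd K hga hE x
    refine ⟨j, ?_⟩
    have h2 : ∀ j : ℕ, (e ^ j) x = (K.op E ^ j) x := by
      intro j
      induction j with
      | zero => simp
      | succ j ih =>
        rw [pow_succ', pow_succ', Module.End.mul_apply, Module.End.mul_apply, ih]
        rfl
    rw [h2, hj]
  obtain ⟨hP1, hP2⟩ : (e ^ (Nat.find h1)) x = 0 ∧ ∀ m < Nat.find h1, (e ^ m) x ≠ 0 :=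
    ⟨Nat.find_spec h1, fun m hm => Nat.find_min h1 hm⟩
  generalize Nat.find h1 = P at hP1 hP2
  obtain _ | p := P
  · simp at hP1
    exact absurd hP1 hx0
  have hu : (e ^ p) x ≠ 0 := hP2 p (Nat.lt_succ_self p)
  have heu : e ((e ^ p) x) = 0 := by
    rw [← hP1, pow_succ', Module.End.mul_apply]
  have hwu := X01_e e h he hw p
  have hfj : ∀ j : ℕ, j ≤ N + 2 * p → (f ^ j) ((e ^ p) x) ≠ 0 := by
    intro j
    induction j with
    | zero =>
      intro _
      simpa using hu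
    | succ j ih =>
      intro hj h0
      have h3 := X01_ef e f h hf hef hwu heu j
      rw [h0, map_zero] at h3
      rcases smul_eq_zero.1 h3.symm with h4 | h4
      · have h5 : (0 : ℝ) < (j : ℝ) + 1 := by positivity
        rcases mul_eq_zero.1 h4 with h6 | h6
        · linarith
        · have h7 : ((N + 2 * p : ℕ) : ℝ) = (j : ℝ) := by
            push_cast
            linarith
          have h8 : N + 2 * p = j := by exact_mod_cast h7
          omega
      · exact ih (by omega) h4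
  have hq := hfj (N + p) (by omega)
  have hcv1 : ∀ (j : ℕ) (y : M), (e ^ j) y = (K.op E ^ j) y := by
    intro j y
    induction j with
    | zero => simp
    | succ j ih =>
      rw [pow_succ', pow_succ', Module.End.mul_apply, Module.End.mul_apply, ih]
      rfl
  have hcv2 : ∀ (j : ℕ) (y : M), (f ^ j) y = (K.op (-L.th E) ^ j) y := by
    intro j y
    induction j with
    | zero => simp
    | succ j ih =>
      rw [pow_succ', pow_succ', Module.End.mul_apply, Module.End.mul_apply, ih]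
      rfl
  rw [hcv2, hcv1] at hq
  have hwt := H04_pow K.toRep C hF (H04_pow K.toRep C hE hx p) (N + p)
  refine ⟨_, ?_, hq⟩
  have h9 : ((N + p : ℕ) : ℝ) • ga + ((p : ℝ) • -ga + mu) = sr ga mu := by
    rw [sr]
    have h10 : 2 * ⟪mu, ga⟫_ℝ / ⟪ga, ga⟫_ℝ = -(N : ℝ) := by
      rw [hNr]
      field_simp
    rw [h10]
    push_cast
    module
  rw [← h9]
  exact hwt

theorem vl_norm (C : CSub L) {H₁ lam : g} (hH₁ : Reg L C.a H₁) (hlam : lam ∈ C.a)
    (hint : Intg L C.a lam) (hd : ∀ al ∈ roots L C.a, 0 < ⟪al, H₁⟫_ℝ → 0 ≤ ⟪al, lam⟫_ℝ)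
    (K : VL J C.a H₁ lam M) {mu : g} (hmu : mu ∈ C.a) {x : M} (hx : WU K.toRep C.a mu x)
    (hx0 : x ≠ 0) : ⟪mu, mu⟫_ℝ ≤ ⟪lam, lam⟫_ℝ := by
  obtain ⟨δ, hδ, hmin⟩ := H04_delta C H₁
  have key : ∀ N : ℕ, ∀ ka ∈ Qp L C.a H₁, ⟪ka, H₁⟫_ℝ < (N : ℝ) * δ → ∀ x : M,
      WU K.toRep C.a (lam - ka) x → x ≠ 0 → ⟪lam - ka, lam - ka⟫_ℝ ≤ ⟪lam, lam⟫_ℝ := by
    intro N
    induction N with
    | zero =>
      intro ka hka hlt
      have := H04_Qp_nonneg C hka
      simp at hlt
      linarith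
    | succ N ih =>
      intro ka hka hlt x hx hx0
      by_cases hex : ∃ ga ∈ Simp L C.a H₁, ⟪ga, lam - ka⟫_ℝ < 0
      · obtain ⟨ga, hga, hneg⟩ := hex
        obtain ⟨x', hx', hx'0⟩ := vl_refl C hH₁ hlam hint hd K hga hka hx hx0 hneg
        have hp : 0 < ⟪ga, ga⟫_ℝ := real_inner_self_pos.2 hga.1.2.1
        have hmem : sr ga (lam - ka) ∈ C.a := by
          rw [sr]
          exact C.a.sub_mem (C.a.sub_mem hlam (H04_Qp_mem C hka)) (C.a.smul_mem _ hga.1.1)
        have hka' := H04_mem C hH₁ hlam K hmem hx' hx'0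
        obtain ⟨k1, hk1⟩ := hint ga hga.1
        obtain ⟨k2, hk2⟩ := H04_Qp_int C hga.1 hka
        have hmug : 2 * ⟪lam - ka, ga⟫_ℝ = ((k1 - k2 : ℤ) : ℝ) * ⟪ga, ga⟫_ℝ := by
          rw [inner_sub_left]
          push_cast
          linear_combination hk1 - hk2
        have hkneg : (k1 - k2 : ℤ) < 0 := by
          have h1 : ((k1 - k2 : ℤ) : ℝ) * ⟪ga, ga⟫_ℝ < 0 := by
            rw [← hmug, real_inner_comm]
            linarith
          have h2 : ((k1 - k2 : ℤ) : ℝ) < 0 := by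
            by_contra h
            push Not at h
            have := mul_nonneg h hp.le
            linarith
          exact_mod_cast h2
        have hle : ((k1 - k2 : ℤ) : ℝ) ≤ -1 := by
          have : (k1 - k2 : ℤ) ≤ -1 := by omega
          exact_mod_cast this
        have hc : 2 * ⟪lam - ka, ga⟫_ℝ / ⟪ga, ga⟫_ℝ = ((k1 - k2 : ℤ) : ℝ) := by
          rw [hmug]
          field_simp
        have h3 : lam - sr ga (lam - ka) = ka + ((k1 - k2 : ℤ) : ℝ) • ga := by
          rw [sr, hc]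
          abel
        have h4 : ⟪lam - sr ga (lam - ka), H₁⟫_ℝ < (N : ℝ) * δ := by
          rw [h3, inner_add_left, real_inner_smul_left]
          have h5 := hmin ga hga.1 hga.2.1
          have h6 : ((k1 - k2 : ℤ) : ℝ) * ⟪ga, H₁⟫_ℝ ≤ -δ := by nlinarith
          push_cast at hlt
          linarith
        have h7 := ih _ hka' h4 x' (by rw [sub_sub_cancel]; exact hx') hx'0
        rw [sub_sub_cancel] at h7
        refine le_trans (le_of_eq ?_) h7
        have h8 : ⟪lam - ka, ga⟫_ℝ = ((k1 - k2 : ℤ) : ℝ) * ⟪ga, ga⟫_ℝ / 2 := by linarith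
        rw [sr, hc]
        simp only [inner_sub_left (𝕜 := ℝ) _ (((k1 - k2 : ℤ) : ℝ) • ga),
          inner_sub_right (𝕜 := ℝ) _ _ (((k1 - k2 : ℤ) : ℝ) • ga), real_inner_smul_left,
          real_inner_smul_right, real_inner_comm (lam - ka) ga, h8]
        ring
      · push Not at hex
        have h1 := H04_Qp_simp C hH₁ hex hka
        have h2 : ⟪lam, lam⟫_ℝ = ⟪lam - ka, lam - ka⟫_ℝ + 2 * ⟪ka, lam - ka⟫_ℝ + ⟪ka, ka⟫_ℝ := by
          have h3 : ⟪lam, ka⟫_ℝ = ⟪ka, lam⟫_ℝ := real_inner_comm _ _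
          simp only [inner_sub_left, inner_sub_right, h3]
          ring
        have h4 : 0 ≤ ⟪ka, ka⟫_ℝ := real_inner_self_nonneg
        linarith
  have hka := H04_mem C hH₁ hlam K hmu hx hx0
  obtain ⟨N, hN⟩ := exists_nat_gt (⟪lam - mu, H₁⟫_ℝ / δ)
  have h1 := key N _ hka (by rwa [div_lt_iff₀ hδ] at hN) x (by rw [sub_sub_cancel]; exact hx) hx0
  rw [sub_sub_cancel] at h1
  exact h1

/-- the monomials of the negative root vectors -/
noncomputable def H04_mon (K : Rep L M) {C : CSub L} {n : ℕ} (b : ABas C n) (v : M) :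
    List (Fin n) → M
  | [] => v
  | i :: l => K.op (L.th (b.e i)) (H04_mon K b v l)

theorem vl_fin (C : CSub L) {H₁ lam : g} (hH₁ : Reg L C.a H₁) (hlam : lam ∈ C.a)
    (hint : Intg L C.a lam) (hd : ∀ al ∈ roots L C.a, 0 < ⟪al, H₁⟫_ℝ → 0 ≤ ⟪al, lam⟫_ℝ)
    (K : VL J C.a H₁ lam M) : FiniteDimensional ℂ M := by
  classical
  obtain ⟨n, ⟨b⟩⟩ := exists_abas J C
  obtain ⟨δ, hδ, hmin⟩ := H04_delta C H₁
  obtain ⟨Q, hQ, -, -, -, hQpos, -⟩ := exists_proj J b H₁
  let S : Submodule ℂ M := Submodule.span ℂ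
    (H04_mon K.toRep b K.v '' {l | ∀ i ∈ l, i ∈ b.pl H₁})
  have hv : K.v ∈ S := Submodule.subset_span ⟨[], by simp, rfl⟩
  have hopsum : ∀ (s : Finset (Fin n)) (c : Fin n → ℝ) (A : Fin n → g) (u : M),
      K.op (∑ i ∈ s, c i • A i) u = ∑ i ∈ s, (c i : ℂ) • K.op (A i) u := by
    intro s c A u
    induction s using Finset.induction_on with
    | empty =>
      have h0 : K.op (0 : g) = 0 := by
        have := K.smul 0 (0 : g)
        simpa using this
      simp [h0]
    | insert i s hi ih =>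
      rw [Finset.sum_insert hi, Finset.sum_insert hi, K.add, LinearMap.add_apply, ih, K.smul,
        LinearMap.smul_apply]
  have hS : ∀ al ∈ C.a, ⟪al, H₁⟫_ℝ < 0 → ∀ Z, RV L C.a al Z → ∀ u ∈ S, K.op Z u ∈ S := by
    intro al hal hneg Z hZ u hu
    have h1 : Q (L.th Z) = L.th Z := hQpos (-al) (C.a.neg_mem hal)
      (by rw [inner_neg_left]; linarith) _ (RV_th C hZ)
    have h2 : Z = ∑ i ∈ b.pl H₁, ⟪b.e i, L.th Z⟫_ℝ • L.th (b.e i) := by
      have h3 : L.th (Q (L.th Z)) = Z := by rw [h1, L.th_th]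
      rw [hQ, map_sum] at h3
      simp only [map_smul] at h3
      exact h3.symm
    rw [h2, hopsum]
    refine Submodule.sum_mem _ fun i hi => Submodule.smul_mem _ _ ?_
    refine Submodule.span_induction (p := fun u _ => K.op (L.th (b.e i)) u ∈ S) ?_ ?_ ?_ ?_ hu
    · rintro _ ⟨l, hl, rfl⟩
      refine Submodule.subset_span ⟨i :: l, ?_, rfl⟩
      intro j hj
      rcases List.mem_cons.1 hj with h | h
      · rw [h]; exact hi
      · exact hl j h
    · rw [map_zero]; exact S.zero_mem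
    · intro x y _ _ hx hy
      rw [map_add]; exact S.add_mem hx hy
    · intro c x _ hx
      rw [map_smul]; exact S.smul_mem c hx
  have htop := vl_neg C hH₁ K S hv hS
  -- the weights of the monomials
  have hwt : ∀ l : List (Fin n), (∀ i ∈ l, i ∈ b.pl H₁) →
      ∃ ka : g, ka ∈ C.a ∧ WU K.toRep C.a (lam - ka) (H04_mon K.toRep b K.v l) ∧
        (l.length : ℝ) * δ ≤ ⟪ka, H₁⟫_ℝ := by
    intro l
    induction l with
    | nil =>
      intro _
      refine ⟨0, C.a.zero_mem, ?_, by simp⟩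
      rw [sub_zero]
      exact K.wt
    | cons i l ih =>
      intro hl
      obtain ⟨ka, hka, hw, hle⟩ := ih fun j hj => hl j (List.mem_cons_of_mem _ hj)
      have hi : 0 < ⟪b.ch i, H₁⟫_ℝ := b.mem_pl.1 (hl i List.mem_cons_self)
      have hne : b.ch i ≠ 0 := by
        intro h
        rw [h, inner_zero_left] at hi
        exact lt_irrefl _ hi
      refine ⟨b.ch i + ka, C.a.add_mem (b.mem i) hka, ?_, ?_⟩
      · have h1 := WU_shift K.toRep C (RV_th C (b.rv i)) hw
        have h2 : -b.ch i + (lam - ka) = lam - (b.ch i + ka) := by abel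
        rw [h2] at h1
        exact h1
      · have h3 := hmin _ (b.root hne) hi
        rw [inner_add_left, List.length_cons]
        push_cast
        linarith
  obtain ⟨r0, hr0⟩ := exists_nat_gt (2 * ‖lam‖ * ‖H₁‖ / δ)
  rw [div_lt_iff₀ hδ] at hr0
  have hzero : ∀ l : List (Fin n), (∀ i ∈ l, i ∈ b.pl H₁) → r0 ≤ l.length →
      H04_mon K.toRep b K.v l = 0 := by
    intro l hl hlen
    by_contra hne
    obtain ⟨ka, hka, hw, hle⟩ := hwt l hl
    have h1 := vl_norm C hH₁ hlam hint hd K (C.a.sub_mem hlam hka) hw hne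
    have h2 : ‖lam - ka‖ ≤ ‖lam‖ := by
      rw [real_inner_self_eq_norm_sq, real_inner_self_eq_norm_sq] at h1
      exact le_of_sq_le_sq h1 (norm_nonneg _)
    have h3 : ‖ka‖ ≤ 2 * ‖lam‖ := by
      have h4 : ka = lam - (lam - ka) := by abel
      calc ‖ka‖ = ‖lam - (lam - ka)‖ := by rw [← h4]
        _ ≤ ‖lam‖ + ‖lam - ka‖ := norm_sub_le _ _
        _ ≤ 2 * ‖lam‖ := by linarith
    have h5 : ⟪ka, H₁⟫_ℝ ≤ 2 * ‖lam‖ * ‖H₁‖ :=
      le_trans (real_inner_le_norm _ _) (mul_le_mul_of_nonneg_right h3 (norm_nonneg _))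
    have h6 : (r0 : ℝ) * δ ≤ (l.length : ℝ) * δ :=
      mul_le_mul_of_nonneg_right (by exact_mod_cast hlen) hδ.le
    linarith
  have hfin : (H04_mon K.toRep b K.v '' {l | l.length < r0}).Finite :=
    (List.finite_length_lt _ _).image _
  refine ⟨⟨(hfin.insert 0).toFinset, ?_⟩⟩
  rw [Set.Finite.coe_toFinset, eq_top_iff, ← htop]
  refine Submodule.span_mono ?_
  rintro _ ⟨l, hl, rfl⟩
  rcases lt_or_ge l.length r0 with h | h
  · exact Set.mem_insert_of_mem _ ⟨l, h, rfl⟩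
  · rw [hzero l hl h]
    exact Set.mem_insert _ _

end

end Pool.Agent.Lib.MP_4322ef_CH
end

section

/-!
# The unitary structure: positivity

* `vl_pos`: `h` of two vectors of different weights is zero (`inv` for `H ∈ a`, `θ H = -H`). Let `M` be finite dimensional. For `x ≠ 0` of weight
  `mu = lam - ka`, `ka ∈ Qp`: `0 < re (h x x)`; by induction on the natural number `N` with `⟪ka, H₁⟫ < N δ`
  (`δ` as in `vl_norm`). If `ka = 0`: `x = c v` (`vl_top`), `h v v = 1`. Otherwise by `vl_cas`, `vl_cas_wt`: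
  `(⟪lam, lam⟫ + R lam - ⟪mu, mu⟫ - R mu) h x x = -∑ h x (op (θ e i) (op (e i) x)) = ∑ h (op (e i) x) (op (e i) x)`. The factor on the
  left is positive (`vl_norm`, and `R ka > 0` by `R_ge`, `R_add`); on the right all terms are `≥ 0` by induction, and one is `> 0`:
  otherwise all `op (e i) x = 0`, `i ∈ b.pl H₁`, then all positive root vectors kill `x` and `x = 0` by `vl_unique`. For general
  `x ≠ 0`: `x` is a sum of vectors of different weights (`vl_span`), so `h x x` is the sum of the `h` of the components.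
-/

set_option autoImplicit false

open scoped InnerProductSpace ComplexConjugate

namespace Pool.Agent.Lib.MP_4322ef_CH

open Pool.Agent.Lib.MP_4322ef_al.SR

variable {g : Type} [NormedAddCommGroup g] [InnerProductSpace ℝ g] {L : RedLie g}
  [FiniteDimensional ℝ g]

section
variable {J : CStr L} {M : Type} [AddCommGroup M] [Module ℂ M]

omit [FiniteDimensional ℝ g] in
theorem H05b_sum (r : Rep L M) {ι : Type} (s : Finset ι) (c : ι → ℝ) (e : ι → g) (x : M) :
    r.op (∑ i ∈ s, c i • e i) x = ∑ i ∈ s, (c i : ℂ) • r.op (e i) x := by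
  classical
  induction s using Finset.induction_on with
  | empty => rw [Finset.sum_empty, Finset.sum_empty, Rep.zero', LinearMap.zero_apply]
  | insert i s hi ih =>
    rw [Finset.sum_insert hi, Finset.sum_insert hi, r.add, LinearMap.add_apply, ih, r.smul,
      LinearMap.smul_apply]

omit [FiniteDimensional ℝ g] in
/-- vectors of different weights are orthogonal -/
theorem H05b_orth (C : CSub L) (r : Rep L M) (h : M →ₗ⋆[ℂ] M →ₗ[ℂ] ℂ)
    (hi : ∀ A x y, h (r.op A x) y = -h x (r.op (L.th A) y)) {mu mu' : g} (hmu : mu ∈ C.a)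
    (hmu' : mu' ∈ C.a) (hne : mu ≠ mu') {x y : M} (hx : WU r C.a mu x) (hy : WU r C.a mu' y) :
    h x y = 0 := by
  have hH : mu - mu' ∈ C.a := C.a.sub_mem hmu hmu'
  have h1 := hi (mu - mu') x y
  rw [C.a_p _ hH, Rep.neg', LinearMap.neg_apply, map_neg, neg_neg, hx _ hH, hy _ hH,
    map_smulₛₗ, LinearMap.smul_apply, map_smul, smul_eq_mul, smul_eq_mul,
    Complex.conj_ofReal] at h1
  have h2 : ((⟪mu - mu', mu - mu'⟫_ℝ : ℝ) : ℂ) * h x y = 0 := by
    rw [inner_sub_left]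
    push_cast
    rw [sub_mul, h1, sub_self]
  have h3 : ((⟪mu - mu', mu - mu'⟫_ℝ : ℝ) : ℂ) ≠ 0 := by
    rw [Ne, Complex.ofReal_eq_zero, inner_self_eq_zero, sub_eq_zero]
    exact hne
  exact (mul_eq_zero.1 h2).resolve_left h3

omit [FiniteDimensional ℝ g] in
theorem H05b_mem (C : CSub L) {H₁ ka : g} (hka : ka ∈ Qp L C.a H₁) : ka ∈ C.a := by
  refine AddSubmonoid.closure_induction (motive := fun x _ => x ∈ C.a) ?_ C.a.zero_mem ?_ hka
  · intro be hbe
    exact hbe.1.1
  · intro x y _ _ hx hy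
    exact C.a.add_mem hx hy

/-- decomposition into weight vectors -/
theorem H05b_dec (C : CSub L) {H₁ lam : g} (hH₁ : Reg L C.a H₁) (hlam : lam ∈ C.a)
    (K : VL J C.a H₁ lam M) (x : M) :
    ∃ y : g →₀ M, (∀ nu, WU K.toRep C.a nu (y nu)) ∧
      (∀ nu ∈ y.support, ∃ ka ∈ Qp L C.a H₁, nu = lam - ka) ∧ x = y.sum fun _ m => m := by
  classical
  have hx : x ∈ Submodule.span ℂ {x | ∃ ka ∈ Qp L C.a H₁, WU K.toRep C.a (lam - ka) x} := by
    rw [vl_span C hH₁ hlam K]
    exact Submodule.mem_top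
  induction hx using Submodule.span_induction with
  | mem x hx =>
    obtain ⟨ka, hka, hw⟩ := hx
    refine ⟨Finsupp.single (lam - ka) x, ?_, ?_, ?_⟩
    · intro nu
      by_cases hnu : nu = lam - ka
      · rw [hnu, Finsupp.single_eq_same]
        exact hw
      · have h0 : (Finsupp.single (lam - ka) x) nu = 0 := by
          rw [Finsupp.single_apply, if_neg (fun h => hnu h.symm)]
        rw [h0]
        intro H _
        rw [map_zero, smul_zero]
    · intro nu hnu
      exact ⟨ka, hka, Finset.mem_singleton.1 (Finsupp.support_single_subset hnu)⟩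
    · rw [Finsupp.sum_single_index rfl]
  | zero =>
    refine ⟨0, ?_, ?_, ?_⟩
    · intro nu H _
      rw [Finsupp.zero_apply, map_zero, smul_zero]
    · intro nu hnu
      rw [Finsupp.support_zero] at hnu
      exact absurd hnu (Finset.notMem_empty _)
    · rw [Finsupp.sum_zero_index]
  | add x x' _ _ ih ih' =>
    obtain ⟨y, hy, hs, he⟩ := ih
    obtain ⟨y', hy', hs', he'⟩ := ih'
    refine ⟨y + y', ?_, ?_, ?_⟩
    · intro nu H hH
      rw [Finsupp.add_apply, map_add, hy nu H hH, hy' nu H hH, smul_add]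
    · intro nu hnu
      rcases Finset.mem_union.1 (Finsupp.support_add hnu) with h | h
      · exact hs nu h
      · exact hs' nu h
    · rw [Finsupp.sum_add_index' (fun _ => rfl) (fun _ _ _ => rfl), ← he, ← he']
  | smul c x _ ih =>
    obtain ⟨y, hy, hs, he⟩ := ih
    refine ⟨c • y, ?_, ?_, ?_⟩
    · intro nu H hH
      rw [Finsupp.smul_apply, map_smul, hy nu H hH, smul_comm]
    · intro nu hnu
      exact hs nu (Finsupp.support_smul hnu)
    · rw [Finsupp.sum_smul_index' (fun _ => rfl), he, Finsupp.smul_sum]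

/-- all weights are of the form `lam - ka` -/
theorem H05b_wt (C : CSub L) {H₁ lam : g} (hH₁ : Reg L C.a H₁) (hlam : lam ∈ C.a)
    (K : VL J C.a H₁ lam M) {mu : g} (hmu : mu ∈ C.a) {x : M} (hx : WU K.toRep C.a mu x)
    (hx0 : x ≠ 0) : ∃ ka ∈ Qp L C.a H₁, mu = lam - ka := by
  classical
  by_contra hcon
  obtain ⟨y, hy, hs, he⟩ := H05b_dec C hH₁ hlam K x
  have hn : mu ∉ y.support := fun h => hcon (hs mu h)
  have hne : ∀ nu ∈ y.support, nu ≠ mu := fun nu hnu h => hn (h ▸ hnu)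
  have h1 := WU_zero K.toRep C (insert mu y.support) (by
    intro nu hnu
    rcases Finset.mem_insert.1 hnu with h | h
    · rw [h]
      exact hmu
    · obtain ⟨ka, hka, hk⟩ := hs nu h
      rw [hk]
      exact C.a.sub_mem hlam (H05b_mem C hka)) (fun nu => if nu = mu then x else -(y nu)) (by
    intro nu _
    by_cases h : nu = mu
    · simp only [if_pos h]
      rw [h]
      exact hx
    · simp only [if_neg h]
      intro H hH
      rw [map_neg, hy nu H hH, smul_neg]) (by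
    rw [Finset.sum_insert hn, if_pos rfl]
    have h2 : ∑ nu ∈ y.support, (if nu = mu then x else -(y nu)) = ∑ nu ∈ y.support, -(y nu) :=
      Finset.sum_congr rfl fun nu hnu => by rw [if_neg (hne nu hnu)]
    rw [h2, Finset.sum_neg_distrib]
    rw [Finsupp.sum] at he
    rw [← he, add_neg_cancel]) mu (Finset.mem_insert_self _ _)
  simp only [if_true] at h1
  exact hx0 h1

/-- a positive lower bound for the positive roots at `H₁` -/
theorem H05b_delta (C : CSub L) (H₁ : g) :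
    ∃ de : ℝ, 0 < de ∧ ∀ be ∈ roots L C.a, 0 < ⟪be, H₁⟫_ℝ → de ≤ ⟪be, H₁⟫_ℝ := by
  classical
  have hf : {be | be ∈ roots L C.a ∧ 0 < ⟪be, H₁⟫_ℝ}.Finite :=
    (roots_finite C).subset fun be h => h.1
  by_cases hne : hf.toFinset.Nonempty
  · obtain ⟨be, hbe, hmin⟩ := Finset.exists_min_image hf.toFinset (fun be => ⟪be, H₁⟫_ℝ) hne
    refine ⟨⟪be, H₁⟫_ℝ, ((Set.Finite.mem_toFinset hf).1 hbe).2, ?_⟩
    intro al hal hp
    exact hmin al ((Set.Finite.mem_toFinset hf).2 ⟨hal, hp⟩)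
  · refine ⟨1, one_pos, ?_⟩
    intro al hal hp
    exact absurd ⟨al, (Set.Finite.mem_toFinset hf).2 ⟨hal, hp⟩⟩ hne

/-- the elements of `Qp` -/
theorem H05b_Q (C : CSub L) {H₁ : g} (hH₁ : Reg L C.a H₁) {n : ℕ} (b : ABas C n) (J : CStr L)
    {ka : g} (hka : ka ∈ Qp L C.a H₁) :
    0 ≤ ⟪ka, H₁⟫_ℝ ∧ (ka = 0 ∨ 0 < R L C.a H₁ ka) := by
  have hR0 : R L C.a H₁ 0 = 0 := by
    have h1 := R_add J b hH₁ 0 0
    rw [add_zero] at h1
    linarith
  refine AddSubmonoid.closure_induction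
    (motive := fun x _ => 0 ≤ ⟪x, H₁⟫_ℝ ∧ (x = 0 ∨ 0 < R L C.a H₁ x)) ?_ ?_ ?_ hka
  · intro be hbe
    refine ⟨hbe.2.le, Or.inr ?_⟩
    have h1 := R_ge C hH₁ hbe.1 hbe.2
    have h2 : 0 < ⟪be, be⟫_ℝ := real_inner_self_pos.2 hbe.1.2.1
    linarith
  · exact ⟨by rw [inner_zero_left], Or.inl rfl⟩
  · intro x y _ _ hx hy
    refine ⟨by rw [inner_add_left]; exact add_nonneg hx.1 hy.1, ?_⟩
    rcases hx.2 with hx0 | hx0
    · rw [hx0, zero_add]
      exact hy.2
    · rcases hy.2 with hy0 | hy0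
      · rw [hy0, add_zero]
        exact Or.inr hx0
      · refine Or.inr ?_
        rw [R_add J b hH₁]
        exact add_pos hx0 hy0

/-- positivity for weight vectors -/
theorem H05b_wpos (C : CSub L) {H₁ lam : g} (hH₁ : Reg L C.a H₁) (hlam : lam ∈ C.a)
    (hint : Intg L C.a lam) (hd : ∀ al ∈ roots L C.a, 0 < ⟪al, H₁⟫_ℝ → 0 ≤ ⟪al, lam⟫_ℝ)
    (K : VL J C.a H₁ lam M) (h : M →ₗ⋆[ℂ] M →ₗ[ℂ] ℂ)
    (hi : ∀ A x y, h (K.op A x) y = -h x (K.op (L.th A) y)) (h1 : h K.v K.v = 1)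
    {de : ℝ} (hde : 0 < de) (hroot : ∀ be ∈ roots L C.a, 0 < ⟪be, H₁⟫_ℝ → de ≤ ⟪be, H₁⟫_ℝ)
    (N : ℕ) : ∀ ka ∈ Qp L C.a H₁, ⟪ka, H₁⟫_ℝ < N * de → ∀ x : M,
      WU K.toRep C.a (lam - ka) x → x ≠ 0 → 0 < (h x x).re := by
  classical
  obtain ⟨n, ⟨b⟩⟩ := exists_abas J C
  induction N with
  | zero =>
    intro ka hka hlt
    have h2 := (H05b_Q C hH₁ b J hka).1
    rw [Nat.cast_zero, zero_mul] at hlt
    exact absurd h2 (not_le.2 hlt)
  | succ N ih =>
    intro ka hka hlt x hx hx0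
    have hkaa := H05b_mem C hka
    have hmu : lam - ka ∈ C.a := C.a.sub_mem hlam hkaa
    rcases (H05b_Q C hH₁ b J hka).2 with hk0 | hkR
    · -- the highest weight
      rw [hk0, sub_zero] at hx
      obtain ⟨c, hc⟩ := vl_top C hH₁ hlam K hx
      have hc0 : c ≠ 0 := by
        rintro rfl
        rw [zero_smul] at hc
        exact hx0 hc
      rw [hc, map_smulₛₗ h, LinearMap.smul_apply, map_smul, h1, smul_eq_mul, smul_eq_mul, mul_one,
        mul_comm, Complex.mul_conj, Complex.ofReal_re]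
      exact Complex.normSq_pos.2 hc0
    · have hk0 : ka ≠ 0 := by
        rintro rfl
        have h2 := R_add J b hH₁ 0 0
        rw [add_zero] at h2
        linarith
      have hne : lam - ka ≠ lam := fun h => hk0 (by
        have h2 := sub_eq_self.1 h
        exact h2)
      -- the Casimir operator
      have e1 := vl_cas C hH₁ hlam K x
      rw [vl_cas_wt C K.toRep K.lin b hH₁ hmu hx] at e1
      set S := ∑ i ∈ b.pl H₁, K.op (L.th (b.e i)) (K.op (b.e i) x) with hS
      have hRl : R L C.a H₁ lam = R L C.a H₁ (lam - ka) + R L C.a H₁ ka := by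
        rw [← R_add J b hH₁, sub_add_cancel]
      set c : ℝ := ⟪lam, lam⟫_ℝ - ⟪lam - ka, lam - ka⟫_ℝ + R L C.a H₁ ka with hcd
      have hcpos : 0 < c := by
        have h2 := vl_norm C hH₁ hlam hint hd K hmu hx hx0
        linarith
      have e2 : (c : ℂ) • x = -S := by
        have e3 : (2 : ℂ) • ((c : ℂ) • x + S) = 0 := by
          rw [hRl] at e1
          have e4 : (2 : ℂ) • ((c : ℂ) • x + S) =
              ((2 * (⟪lam, lam⟫_ℝ + (R L C.a H₁ (lam - ka) + R L C.a H₁ ka)) : ℝ) : ℂ) • x -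
              (((2 * (⟪lam - ka, lam - ka⟫_ℝ + R L C.a H₁ (lam - ka)) : ℝ) : ℂ) • x
                - (2 : ℂ) • S) := by
            rw [hcd]
            push_cast
            module
          rw [e4, e1, sub_self]
        have e5 : (c : ℂ) • x + S = 0 := (smul_eq_zero.1 e3).resolve_left two_ne_zero
        exact eq_neg_of_add_eq_zero_left e5
      have e6 : (c : ℂ) * h x x = ∑ i ∈ b.pl H₁, h (K.op (b.e i) x) (K.op (b.e i) x) := by
        have e7 := congrArg (h x) e2
        rw [map_smul, smul_eq_mul, map_neg, hS, map_sum, ← Finset.sum_neg_distrib] at e7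
        rw [e7]
        refine Finset.sum_congr rfl fun i _ => ?_
        rw [hi]
      have e8 : c * (h x x).re = ∑ i ∈ b.pl H₁, (h (K.op (b.e i) x) (K.op (b.e i) x)).re := by
        have e9 := congrArg Complex.re e6
        rw [Complex.re_ofReal_mul, Complex.re_sum] at e9
        exact e9
      -- the terms
      have hterm : ∀ i ∈ b.pl H₁, K.op (b.e i) x ≠ 0 →
          0 < (h (K.op (b.e i) x) (K.op (b.e i) x)).re := by
        intro i hi' hne0
        have hp := b.mem_pl.1 hi'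
        have hw : WU K.toRep C.a (b.ch i + (lam - ka)) (K.op (b.e i) x) :=
          WU_shift K.toRep C (b.rv i) hx
        obtain ⟨ka', hka', he⟩ := H05b_wt C hH₁ hlam K (C.a.add_mem (b.mem i) hmu) hw hne0
        have hc0 : b.ch i ≠ 0 := by
          intro h0
          rw [h0, inner_zero_left] at hp
          exact lt_irrefl _ hp
        have hd1 := hroot _ (b.root hc0) hp
        have hk : ka' = ka - b.ch i := by
          have h2 : ka' = lam - (b.ch i + (lam - ka)) := by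
            rw [he]
            abel
          rw [h2]
          abel
        rw [he] at hw
        refine ih ka' hka' ?_ _ hw hne0
        rw [hk, inner_sub_left]
        push_cast at hlt
        linarith
      have hnn : ∀ i ∈ b.pl H₁, 0 ≤ (h (K.op (b.e i) x) (K.op (b.e i) x)).re := by
        intro i hi'
        by_cases h0 : K.op (b.e i) x = 0
        · rw [h0, map_zero, Complex.zero_re]
        · exact (hterm i hi' h0).le
      have hex : ∃ i ∈ b.pl H₁, K.op (b.e i) x ≠ 0 := by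
        by_contra hcon
        have hz : ∀ i ∈ b.pl H₁, K.op (b.e i) x = 0 := by
          intro i hi'
          by_contra h0
          exact hcon ⟨i, hi', h0⟩
        refine hx0 (vl_unique C hH₁ hlam hmu K hx hne ?_)
        intro al hal hpal Z hZ
        have hZe : Z = ∑ i, ⟪b.e i, Z⟫_ℝ • b.e i := (b.e.sum_repr' Z).symm
        rw [hZe, H05b_sum K.toRep]
        refine Finset.sum_eq_zero fun i _ => ?_
        by_cases hc : b.ch i = al
        · rw [hz i (b.mem_pl.2 (by rw [hc]; exact hpal)), smul_zero]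
        · rw [RV_orth C (b.mem i) hal (b.rv i) hZ hc, Complex.ofReal_zero, zero_smul]
      obtain ⟨i, hi', h0⟩ := hex
      have hsum : 0 < ∑ i ∈ b.pl H₁, (h (K.op (b.e i) x) (K.op (b.e i) x)).re :=
        Finset.sum_pos' hnn ⟨i, hi', hterm i hi' h0⟩
      rw [← e8] at hsum
      exact (mul_pos_iff_of_pos_left hcpos).1 hsum

theorem vl_pos (C : CSub L) {H₁ lam : g} (hH₁ : Reg L C.a H₁) (hlam : lam ∈ C.a)
    (hint : Intg L C.a lam) (hd : ∀ al ∈ roots L C.a, 0 < ⟪al, H₁⟫_ℝ → 0 ≤ ⟪al, lam⟫_ℝ)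
    (K : VL J C.a H₁ lam M) (h : M →ₗ⋆[ℂ] M →ₗ[ℂ] ℂ) (hh : ∀ x y, h x y = conj (h y x))
    (hi : ∀ A x y, h (K.op A x) y = -h x (K.op (L.th A) y)) (h1 : h K.v K.v = 1) (x : M)
    (hx : x ≠ 0) : 0 < (h x x).re := by
  classical
  obtain ⟨de, hde, hroot⟩ := H05b_delta C H₁
  obtain ⟨y, hy, hs, he⟩ := H05b_dec C hH₁ hlam K x
  rw [Finsupp.sum] at he
  have hpos : ∀ nu ∈ y.support, 0 < (h (y nu) (y nu)).re := by
    intro nu hnu
    obtain ⟨ka, hka, hk⟩ := hs nu hnu
    obtain ⟨N, hN⟩ := exists_nat_gt (⟪ka, H₁⟫_ℝ / de)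
    refine H05b_wpos C hH₁ hlam hint hd K h hi h1 hde hroot N ka hka ?_ (y nu) ?_ ?_
    · rwa [div_lt_iff₀ hde] at hN
    · rw [← hk]
      exact hy nu
    · exact Finsupp.mem_support_iff.1 hnu
  have hmem : ∀ nu ∈ y.support, nu ∈ C.a := by
    intro nu hnu
    obtain ⟨ka, hka, hk⟩ := hs nu hnu
    rw [hk]
    exact C.a.sub_mem hlam (H05b_mem C hka)
  have hxx : h x x = ∑ nu ∈ y.support, h (y nu) (y nu) := by
    conv_lhs => rw [he]
    rw [map_sum h, LinearMap.sum_apply]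
    refine Finset.sum_congr rfl fun nu hnu => ?_
    rw [map_sum]
    refine Finset.sum_eq_single nu ?_ ?_
    · intro nu' hnu' hne
      exact H05b_orth C K.toRep h hi (hmem nu hnu) (hmem nu' hnu') (Ne.symm hne) (hy nu) (hy nu')
    · intro hn
      exact absurd hnu hn
  have hne : y.support.Nonempty := by
    rw [Finset.nonempty_iff_ne_empty]
    intro h0
    rw [h0, Finset.sum_empty] at he
    exact hx he
  rw [hxx, Complex.re_sum]
  exact Finset.sum_pos hpos hne

end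

end Pool.Agent.Lib.MP_4322ef_CH
end

section

/-!
# The unitary structure

* `vl_crep`: `InnerProductSpace.Core` on `M` from `h` (`re (h x x) ≥ 0`, definite); `InnerProductSpace.ofCore` etc. give instances on `M`
  with the given additive group and module structure (or transport to `EuclideanSpace` by an orthonormal basis); `op` with `adj` from
  `inv`. `Irr`: let `U` be stable. `v = u + u'` with `u ∈ U`, `u' ∈ Uᗮ` (also stable by `adj`); `u`, `u'` have the weight `lam`, so they are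
  multiples of `v` (`vl_top`), so `v ∈ U` or `v ∈ Uᗮ`, and `U = ⊤` or `Uᗮ = ⊤` by `cy`.
-/

set_option autoImplicit false

open scoped InnerProductSpace ComplexConjugate

namespace Pool.Agent.Lib.MP_4322ef_CH

open Pool.Agent.Lib.MP_4322ef_al.SR

variable {g : Type} [NormedAddCommGroup g] [InnerProductSpace ℝ g] {L : RedLie g}
  [FiniteDimensional ℝ g]

section
variable {J : CStr L} {M : Type} [AddCommGroup M] [Module ℂ M]

theorem H05_aux {Y : Type} [NormedAddCommGroup Y] [InnerProductSpace ℂ Y]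
    [FiniteDimensional ℂ Y] (C : CSub L) {H₁ lam : g} (hlam : lam ∈ C.a) (s : CRep J Y) (v : Y)
    (hv : v ≠ 0) (wt : ∀ H ∈ C.a, s.op H v = (⟪lam, H⟫_ℝ : ℂ) • v)
    (pos : ∀ Z, (∃ r : ℝ, 0 < r ∧ L.br H₁ Z = r • Z) → s.op Z v = 0)
    (cy : ∀ U : Submodule ℂ Y, v ∈ U → (∀ A, ∀ u ∈ U, s.op A u ∈ U) → U = ⊤)
    (top : ∀ m : Y, (∀ H ∈ C.a, s.op H m = (⟪lam, H⟫_ℝ : ℂ) • m) → ∃ c : ℂ, m = c • v) :
    Irr s ∧ ∃ v, HW s C.a H₁ lam v := by
  refine ⟨?_, v, ⟨hlam, hv, wt, pos⟩⟩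
  intro U hU
  have hUo : ∀ A, ∀ u ∈ Uᗮ, s.op A u ∈ Uᗮ := by
    intro A u hu
    rw [Submodule.mem_orthogonal] at hu ⊢
    intro w hw
    have h1 := s.adj (L.th A) w u
    have h2 : L.th (L.th A) = A := L.th_th A
    rw [h2] at h1
    have h3 := hu _ (hU (L.th A) w hw)
    rw [h3] at h1
    exact neg_eq_zero.mp h1.symm
  obtain ⟨u, hu, u', hu', hvu⟩ := Submodule.exists_add_mem_mem_orthogonal (K := U) v
  have key : ∀ H ∈ C.a, s.op H u = (⟪lam, H⟫_ℝ : ℂ) • u ∧ s.op H u' = (⟪lam, H⟫_ℝ : ℂ) • u' := by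
    intro H hH
    have h1 := wt H hH
    rw [hvu, map_add, smul_add] at h1
    have h2 : s.op H u - (⟪lam, H⟫_ℝ : ℂ) • u = (⟪lam, H⟫_ℝ : ℂ) • u' - s.op H u' := by
      rw [sub_eq_sub_iff_add_eq_add, h1]; abel
    have h3 : s.op H u - (⟪lam, H⟫_ℝ : ℂ) • u ∈ U := U.sub_mem (hU H u hu) (U.smul_mem _ hu)
    have h4 : (⟪lam, H⟫_ℝ : ℂ) • u' - s.op H u' ∈ Uᗮ :=
      Uᗮ.sub_mem (Uᗮ.smul_mem _ hu') (hUo H u' hu')
    have h5 : s.op H u - (⟪lam, H⟫_ℝ : ℂ) • u = 0 := by
      have h6 : s.op H u - (⟪lam, H⟫_ℝ : ℂ) • u ∈ U ⊓ Uᗮ := ⟨h3, by rw [h2]; exact h4⟩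
      rwa [U.inf_orthogonal_eq_bot, Submodule.mem_bot] at h6
    refine ⟨sub_eq_zero.mp h5, ?_⟩
    rw [h2] at h5
    exact (sub_eq_zero.mp h5).symm
  obtain ⟨c, hc⟩ := top u (fun H hH => (key H hH).1)
  by_cases h0 : c = 0
  · left
    have hu0 : u = 0 := by rw [hc, h0, zero_smul]
    have hvo : v ∈ Uᗮ := by rw [hvu, hu0, zero_add]; exact hu'
    have h1 : Uᗮ = ⊤ := cy _ hvo hUo
    rwa [Submodule.orthogonal_eq_top_iff] at h1
  · right
    apply cy U _ hU
    have h1 : v = c⁻¹ • u := by rw [hc, smul_smul, inv_mul_cancel₀ h0, one_smul]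
    rw [h1]
    exact U.smul_mem _ hu

theorem vl_crep (C : CSub L) {H₁ lam : g} (hH₁ : Reg L C.a H₁) (hlam : lam ∈ C.a)
    (hint : Intg L C.a lam) (hd : ∀ al ∈ roots L C.a, 0 < ⟪al, H₁⟫_ℝ → 0 ≤ ⟪al, lam⟫_ℝ)
    (K : VL J C.a H₁ lam M) :
    ∃ (Y : Type) (_ : NormedAddCommGroup Y) (_ : InnerProductSpace ℂ Y)
      (_ : FiniteDimensional ℂ Y) (s : CRep J Y), Irr s ∧ ∃ v, HW s C.a H₁ lam v := by
  haveI hfin : FiniteDimensional ℂ M := vl_fin C hH₁ hlam hint hd K
  obtain ⟨h, hh, hi, h1⟩ := vl_form C hH₁ hlam K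
  have hpos := vl_pos C hH₁ hlam hint hd K h hh hi h1
  have hnn : ∀ x : M, 0 ≤ (h x x).re := by
    intro x
    by_cases hx : x = 0
    · rw [hx]; simp
    · exact (hpos x hx).le
  let core : InnerProductSpace.Core ℂ M :=
    { inner := fun x y => h x y
      conj_inner_symm := fun x y => (hh x y).symm
      re_inner_nonneg := fun x => hnn x
      add_left := fun x y z => by simp
      smul_left := fun x y r => by simp
      definite := fun x hx => by
        by_contra hne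
        have h2 := hpos x hne
        have h3 : h x x = 0 := hx
        rw [h3] at h2
        simp at h2 }
  letI n1 : NormedAddCommGroup M := @InnerProductSpace.Core.toNormedAddCommGroup ℂ M _ _ _ core
  letI n2 : InnerProductSpace ℂ M := @InnerProductSpace.ofCore ℂ M _ _ _ core.toCore
  have hin : ∀ x y : M, ⟪x, y⟫_ℂ = h x y := fun x y => rfl
  let s : CRep J M :=
    { K.toRep with
      lin := K.lin
      adj := fun A x y => by rw [hin, hin]; exact hi A x y }
  refine ⟨M, n1, n2, hfin, s, ?_⟩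
  refine H05_aux C hlam s K.v ?_ K.wt K.pos K.cy ?_
  · intro h0
    have h2 := K.ev_v
    rw [h0, map_zero] at h2
    exact zero_ne_one h2
  · intro m hm
    exact vl_top C hH₁ hlam K hm

end

end Pool.Agent.Lib.MP_4322ef_CH
end

section

/-!
# Representations from the adjoint representation: simple ideals

* `exists_adj`: `W` = a copy of `g` with the complex structure `J` and `⟪x, y⟫_ℂ = ⟪x, y⟫_ℝ + i ⟪J x, y⟫_ℝ` (antilinear in `x`;
  `⟪J x, x⟫ = 0` by `inner_J_self`), `op A x = [A, x]`; `adj` is `inner_br`.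
* `adj_irr`: `al` is a root, no root not orthogonal to `al` is longer. Let `x` be a root vector of `al` in `W` (of `exists_adj`), a weight
  vector of weight `al`. Among the submodules (stable subspaces) `V` of `W` on which the orthogonal projection of `x` is not `0` take
  a minimal one; it is irreducible (as in `exists_irr`, file N05, which asks for a highest weight vector: choose `H` regular with `al`
  dominant; if `x` is a highest weight vector for `H` use `exists_irr` directly, but here this is not known; so repeat the argument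
  for weight vectors). The projection `x'` of `x` is a weight vector of weight `al`. Let `be` be the highest weight of `V` for `H`
  (`exists_hw`): it is a weight of `W`, so a root or `0`. `hw_bound` with `c = al`: `⟪al, al⟫ ≤ ⟪be, al⟫`, so `be` is a root, not
  orthogonal to `al`, `⟪be, be⟫ ≤ ⟪al, al⟫`, so `be = al`.
-/

set_option autoImplicit false

open scoped InnerProductSpace

namespace Pool.Agent.Lib.MP_4322ef_CH

open Pool.Agent.Lib.MP_4322ef_al.SR

variable {g : Type} [NormedAddCommGroup g] [InnerProductSpace ℝ g] {L : RedLie g}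
  [FiniteDimensional ℝ g]

/-- a copy of `g` -/
def H06a_W (_J : CStr L) : Type := g

instance H06a_acg (J : CStr L) : AddCommGroup (H06a_W J) := inferInstanceAs (AddCommGroup g)

/-- the complex structure of the copy -/
noncomputable instance H06a_mod (J : CStr L) : Module ℂ (H06a_W J) where
  smul c x := (c.re • (show g from x) + c.im • J.J (show g from x) : g)
  one_smul x := by
    show ((1 : ℂ).re • (show g from x) + (1 : ℂ).im • J.J (show g from x) : g) = x
    rw [Complex.one_re, Complex.one_im, one_smul, zero_smul, add_zero]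
  mul_smul c d x := by
    show ((c * d).re • (show g from x) + (c * d).im • J.J (show g from x) : g) =
      (c.re • (d.re • (show g from x) + d.im • J.J (show g from x))
        + c.im • J.J (d.re • (show g from x) + d.im • J.J (show g from x)) : g)
    rw [map_add, map_smul, map_smul, J.sq, Complex.mul_re, Complex.mul_im]
    module
  smul_zero c := by
    show (c.re • (0 : g) + c.im • J.J (0 : g) : g) = 0
    rw [map_zero, smul_zero, smul_zero, add_zero]
  smul_add c x y := by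
    show (c.re • ((show g from x) + (show g from y)) + c.im • J.J ((show g from x) + (show g from y)) : g)
      = ((c.re • (show g from x) + c.im • J.J (show g from x))
        + (c.re • (show g from y) + c.im • J.J (show g from y)) : g)
    rw [map_add]
    module
  add_smul c d x := by
    show ((c + d).re • (show g from x) + (c + d).im • J.J (show g from x) : g) =
      ((c.re • (show g from x) + c.im • J.J (show g from x))
        + (d.re • (show g from x) + d.im • J.J (show g from x)) : g)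
    rw [Complex.add_re, Complex.add_im]
    module
  zero_smul x := by
    show ((0 : ℂ).re • (show g from x) + (0 : ℂ).im • J.J (show g from x) : g) = 0
    rw [Complex.zero_re, Complex.zero_im, zero_smul, zero_smul, add_zero]

/-- from `g` to the copy -/
def H06a_to (J : CStr L) (x : g) : H06a_W J := x

/-- from the copy to `g` -/
def H06a_of (J : CStr L) (x : H06a_W J) : g := x

omit [FiniteDimensional ℝ g] in
theorem H06a_smul (J : CStr L) (c : ℂ) (x : H06a_W J) :
    H06a_of J (c • x) = c.re • H06a_of J x + c.im • J.J (H06a_of J x) := rfl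

omit [FiniteDimensional ℝ g] in
theorem H06a_add (J : CStr L) (x y : H06a_W J) :
    H06a_of J (x + y) = H06a_of J x + H06a_of J y := rfl

omit [FiniteDimensional ℝ g] in
theorem H06a_skew (J : CStr L) (x y : g) : ⟪J.J x, y⟫_ℝ = -⟪J.J y, x⟫_ℝ := by
  rw [← J.inner (J.J x) y, J.sq, inner_neg_left, real_inner_comm]

omit [FiniteDimensional ℝ g] in
theorem H06a_brJ (J : CStr L) (A B : g) : L.br A (J.J B) = J.J (L.br A B) := by
  rw [br_skew L A (J.J B), J.br, br_skew L B A, map_neg, neg_neg]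

/-- the inner product of the copy -/
noncomputable def H06a_core (J : CStr L) : InnerProductSpace.Core ℂ (H06a_W J) where
  inner x y := (⟪H06a_of J x, H06a_of J y⟫_ℝ : ℂ)
    + Complex.I * (⟪J.J (H06a_of J x), H06a_of J y⟫_ℝ : ℂ)
  conj_inner_symm x y := by
    show (starRingEnd ℂ) ((⟪H06a_of J y, H06a_of J x⟫_ℝ : ℂ)
      + Complex.I * (⟪J.J (H06a_of J y), H06a_of J x⟫_ℝ : ℂ)) = _
    rw [map_add, map_mul, Complex.conj_ofReal, Complex.conj_ofReal, Complex.conj_I,
      H06a_skew J (H06a_of J y), real_inner_comm (H06a_of J x)]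
    push_cast
    ring
  re_inner_nonneg x := by
    show 0 ≤ RCLike.re ((⟪H06a_of J x, H06a_of J x⟫_ℝ : ℂ)
      + Complex.I * (⟪J.J (H06a_of J x), H06a_of J x⟫_ℝ : ℂ))
    have h0 : ⟪J.J (H06a_of J x), H06a_of J x⟫_ℝ = 0 := by
      rw [real_inner_comm]
      exact inner_J_self J _
    have h1 : 0 ≤ ⟪H06a_of J x, H06a_of J x⟫_ℝ := real_inner_self_nonneg
    have h2 : RCLike.re ((⟪H06a_of J x, H06a_of J x⟫_ℝ : ℂ) + Complex.I * ((0 : ℝ) : ℂ))
        = ⟪H06a_of J x, H06a_of J x⟫_ℝ := by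
      rw [Complex.ofReal_zero, mul_zero, add_zero]
      exact Complex.ofReal_re _
    rw [h0, h2]
    exact h1
  add_left x y z := by
    show ((⟪H06a_of J (x + y), H06a_of J z⟫_ℝ : ℂ)
      + Complex.I * (⟪J.J (H06a_of J (x + y)), H06a_of J z⟫_ℝ : ℂ)) = _
    rw [H06a_add, map_add, inner_add_left, inner_add_left]
    push_cast
    ring
  smul_left x y r := by
    show ((⟪H06a_of J (r • x), H06a_of J y⟫_ℝ : ℂ)
      + Complex.I * (⟪J.J (H06a_of J (r • x)), H06a_of J y⟫_ℝ : ℂ)) = (starRingEnd ℂ) r *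
        ((⟪H06a_of J x, H06a_of J y⟫_ℝ : ℂ)
          + Complex.I * (⟪J.J (H06a_of J x), H06a_of J y⟫_ℝ : ℂ))
    rw [H06a_smul, map_add, map_smul, map_smul, J.sq, inner_add_left, inner_add_left,
      real_inner_smul_left, real_inner_smul_left, real_inner_smul_left, real_inner_smul_left,
      inner_neg_left]
    have h : (starRingEnd ℂ) r = (r.re : ℂ) - (r.im : ℂ) * Complex.I := by
      apply Complex.ext <;> simp
    rw [h]
    push_cast
    linear_combination ((r.im : ℂ) * (⟪J.J (H06a_of J x), H06a_of J y⟫_ℝ : ℂ)) * Complex.I_mul_I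
  definite x h := by
    have h1 : ((⟪H06a_of J x, H06a_of J x⟫_ℝ : ℂ)
      + Complex.I * (⟪J.J (H06a_of J x), H06a_of J x⟫_ℝ : ℂ)) = 0 := h
    have h0 : ⟪J.J (H06a_of J x), H06a_of J x⟫_ℝ = 0 := by
      rw [real_inner_comm]
      exact inner_J_self J _
    rw [h0, Complex.ofReal_zero, mul_zero, add_zero, Complex.ofReal_eq_zero] at h1
    have h2 : H06a_of J x = (0 : g) := inner_self_eq_zero.1 h1
    exact h2

noncomputable instance H06a_norm (J : CStr L) : NormedAddCommGroup (H06a_W J) :=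
  @InnerProductSpace.Core.toNormedAddCommGroup ℂ (H06a_W J) _ _ _ (H06a_core J)

noncomputable instance H06a_ips (J : CStr L) : InnerProductSpace ℂ (H06a_W J) :=
  InnerProductSpace.ofCore (H06a_core J).toCore

omit [FiniteDimensional ℝ g] in
theorem H06a_inner (J : CStr L) (x y : H06a_W J) :
    ⟪x, y⟫_ℂ = (⟪H06a_of J x, H06a_of J y⟫_ℝ : ℂ)
      + Complex.I * (⟪J.J (H06a_of J x), H06a_of J y⟫_ℝ : ℂ) := rfl

/-- the identity -/
noncomputable def H06a_f (J : CStr L) : H06a_W J ≃ₗ[ℝ] g where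
  toFun x := H06a_of J x
  invFun x := H06a_to J x
  map_add' x y := rfl
  map_smul' r x := by
    show H06a_of J ((r : ℂ) • x) = r • H06a_of J x
    rw [H06a_smul, Complex.ofReal_re, Complex.ofReal_im, zero_smul, add_zero]
  left_inv x := rfl
  right_inv x := rfl

/-- the adjoint representation -/
noncomputable def H06a_rep (J : CStr L) : CRep J (H06a_W J) where
  op A :=
    { toFun := fun x => H06a_to J (L.br A (H06a_of J x))
      map_add' := fun x y => by
        show L.br A (H06a_of J x + H06a_of J y) = L.br A (H06a_of J x) + L.br A (H06a_of J y)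
        rw [map_add]
      map_smul' := fun c x => by
        show L.br A (c.re • H06a_of J x + c.im • J.J (H06a_of J x)) =
          c.re • L.br A (H06a_of J x) + c.im • J.J (L.br A (H06a_of J x))
        rw [map_add, map_smul, map_smul, H06a_brJ] }
  add A B := by
    apply LinearMap.ext
    intro x
    show L.br (A + B) (H06a_of J x) = L.br A (H06a_of J x) + L.br B (H06a_of J x)
    rw [map_add, LinearMap.add_apply]
  smul r A := by
    apply LinearMap.ext
    intro x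
    show L.br (r • A) (H06a_of J x) =
      (r : ℂ).re • L.br A (H06a_of J x) + (r : ℂ).im • J.J (L.br A (H06a_of J x))
    rw [map_smul, LinearMap.smul_apply, Complex.ofReal_re, Complex.ofReal_im, zero_smul, add_zero]
  bracket A B x := by
    show L.br (L.br A B) (H06a_of J x) =
      L.br A (L.br B (H06a_of J x)) - L.br B (L.br A (H06a_of J x))
    rw [L.jacobi A B]
    abel
  lin A := by
    apply LinearMap.ext
    intro x
    show L.br (J.J A) (H06a_of J x) =
      Complex.I.re • L.br A (H06a_of J x) + Complex.I.im • J.J (L.br A (H06a_of J x))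
    rw [J.br, Complex.I_re, Complex.I_im, zero_smul, one_smul, zero_add]
  adj A x y := by
    rw [H06a_inner, H06a_inner]
    show ((⟪L.br A (H06a_of J x), H06a_of J y⟫_ℝ : ℂ)
        + Complex.I * (⟪J.J (L.br A (H06a_of J x)), H06a_of J y⟫_ℝ : ℂ)) =
      -((⟪H06a_of J x, L.br (L.th A) (H06a_of J y)⟫_ℝ : ℂ)
        + Complex.I * (⟪J.J (H06a_of J x), L.br (L.th A) (H06a_of J y)⟫_ℝ : ℂ))
    rw [← H06a_brJ, L.inner_br, L.inner_br]
    push_cast
    ring

theorem exists_adj (J : CStr L) :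
    ∃ (W : Type) (_ : NormedAddCommGroup W) (_ : InnerProductSpace ℂ W)
      (_ : FiniteDimensional ℂ W) (t : CRep J W) (f : W ≃ₗ[ℝ] g),
      (∀ A x, f (t.op A x) = L.br A (f x)) ∧ ∀ x, f (Complex.I • x) = J.J (f x) := by
  have h1 : FiniteDimensional ℝ (H06a_W J) := (H06a_f J).symm.finiteDimensional
  have h2 : FiniteDimensional ℂ (H06a_W J) := FiniteDimensional.right ℝ ℂ (H06a_W J)
  refine ⟨H06a_W J, H06a_norm J, H06a_ips J, h2, H06a_rep J, H06a_f J, fun A x => rfl, ?_⟩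
  intro x
  show Complex.I.re • H06a_of J x + Complex.I.im • J.J (H06a_of J x) = J.J (H06a_of J x)
  rw [Complex.I_re, Complex.I_im, zero_smul, one_smul, zero_add]

omit [FiniteDimensional ℝ g] in
/-- an irreducible submodule with a nonzero vector of the same weight -/
theorem H06a_irr {J : CStr L} {U : Type} [NormedAddCommGroup U] [InnerProductSpace ℂ U]
    [FiniteDimensional ℂ U] (q : CRep J U) (C : CSub L) {la : g} {u : U}
    (hu : WV q C.a la u) (h0 : u ≠ 0) :
    ∃ (V : Submodule ℂ U) (t : CRep J V), Irr t ∧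
      (∀ A, ∀ v : V, ((t.op A v : V) : U) = q.op A v) ∧
      ∃ v : V, v ≠ 0 ∧ WV t C.a la v := by
  obtain ⟨V, ⟨hV, hV0⟩, hmin⟩ := (wellFounded_lt (α := Submodule ℂ U)).has_min
    {V : Submodule ℂ U | (∀ A, ∀ v ∈ V, q.op A v ∈ V) ∧ V.starProjection u ≠ 0}
    ⟨⊤, fun _ _ _ => trivial, by
      have : (⊤ : Submodule ℂ U).starProjection u = u :=
        Submodule.starProjection_eq_self_iff.2 trivial
      rw [this]
      exact h0⟩
  refine ⟨V, N05_res q V hV, ?_, fun A v => rfl, ⟨V.starProjection u, V.starProjection_apply_mem u⟩,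
    ?_, ?_⟩
  · intro U' hU'
    have hle : U'.map V.subtype ≤ V := Submodule.map_subtype_le V U'
    have hst : ∀ A, ∀ v ∈ U'.map V.subtype, q.op A v ∈ U'.map V.subtype := by
      rintro A _ ⟨v, hv, rfl⟩
      exact ⟨_, hU' A v hv, rfl⟩
    by_cases hc : (U'.map V.subtype).starProjection u = 0
    · left
      have h1 : (V ⊓ (U'.map V.subtype)ᗮ).starProjection u ≠ 0 := by
        rw [N05_add hle u, hc, zero_add] at hV0
        exact hV0
      have h2 : V ⊓ (U'.map V.subtype)ᗮ = V := by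
        refine eq_of_le_of_not_lt inf_le_left (hmin _ ⟨fun A v hv => ?_, h1⟩)
        exact ⟨hV A v hv.1, N05_orth q hst A hv.2⟩
      have h3 : U'.map V.subtype = ⊥ := by
        rw [eq_bot_iff]
        intro x hx
        have h4 : x ∈ (U'.map V.subtype)ᗮ := (inf_eq_left.1 h2) (hle hx)
        have h5 := (Submodule.mem_orthogonal _ _).1 h4 x hx
        rw [Submodule.mem_bot]
        exact inner_self_eq_zero.1 h5
      rw [eq_bot_iff]
      intro x hx
      have h6 : (x : U) ∈ U'.map V.subtype := ⟨x, hx, rfl⟩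
      rw [h3, Submodule.mem_bot] at h6
      rw [Submodule.mem_bot]
      exact Subtype.ext h6
    · right
      have h2 : U'.map V.subtype = V := eq_of_le_of_not_lt hle (hmin _ ⟨hst, hc⟩)
      rw [eq_top_iff]
      intro x _
      have h3 : (x : U) ∈ U'.map V.subtype := by rw [h2]; exact x.2
      obtain ⟨y, hy, hyx⟩ := h3
      have : y = x := Subtype.ext hyx
      rwa [← this]
  · intro h
    apply hV0
    have := congrArg (fun x : V => (x : U)) h
    simpa only [Submodule.coe_zero] using this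
  · intro H hH
    apply Subtype.ext
    show q.op H (V.starProjection u) = ((⟪la, H⟫_ℝ : ℂ) • V.starProjection u : U)
    rw [← N05_comm q hV, hu H hH, map_smul]

theorem adj_irr (J : CStr L) (C : CSub L) {al : g} (hal : al ∈ roots L C.a)
    (hl : ∀ be ∈ roots L C.a, ⟪be, al⟫_ℝ ≠ 0 → ⟪be, be⟫_ℝ ≤ ⟪al, al⟫_ℝ) :
    ∃ (E : Type) (_ : NormedAddCommGroup E) (_ : InnerProductSpace ℂ E)
      (_ : FiniteDimensional ℂ E) (s : CRep J E) (H : g) (x : E),
      Irr s ∧ Reg L C.a H ∧ HW s C.a H al x := by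
  obtain ⟨hala, hal0, Z, hZ0, hZ⟩ := hal
  -- a regular element with `al` dominant
  obtain ⟨P, hP, hPm, hPh, hPv, hP0⟩ := exists_P C
  obtain ⟨H, hH, hHm⟩ := exists_chm hP0 (⟨al, hala⟩ : C.a) 0
  have hR : Reg L C.a (H : g) := ⟨H.2, fun be hbe => hH ⟨be, hbe.1⟩ ((hPm _).2 hbe)⟩
  have hdom : ∀ be ∈ roots L C.a, 0 < ⟪be, (H : g)⟫_ℝ → 0 ≤ ⟪be, al⟫_ℝ := fun be hbe hp =>
    (hHm ⟨be, hbe.1⟩ ((hPm _).2 hbe) hp).1
  -- the adjoint representation
  obtain ⟨W, _, _, _, t, f, hf, hfi⟩ := exists_adj J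
  have hfs : ∀ (r : ℝ) (x : W), f ((r : ℂ) • x) = r • f x := by
    intro r x
    rw [Complex.coe_smul, map_smul]
  have hx0 : f.symm Z ≠ 0 := by
    intro h
    apply hZ0
    have := congrArg f h
    rwa [LinearEquiv.apply_symm_apply, map_zero] at this
  have hx : WV t C.a al (f.symm Z) := by
    intro H' hH'
    apply f.injective
    rw [hf, hfs, LinearEquiv.apply_symm_apply]
    exact hZ H' hH'
  obtain ⟨V, s, hs, hst, v, hv0, hv⟩ := H06a_irr t C hx hx0
  have : Nontrivial V := ⟨v, 0, hv0⟩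
  obtain ⟨be, w, hw⟩ := exists_hw s C hR
  have hb : ⟪al, al⟫_ℝ ≤ ⟪be, al⟫_ℝ := hw_bound s C hs hR hw ⟨hala, v, hv0, hv⟩ hala hdom
  have hpos : 0 < ⟪al, al⟫_ℝ := real_inner_self_pos.2 hal0
  have hbe0 : be ≠ 0 := by
    rintro rfl
    rw [inner_zero_left] at hb
    linarith
  have hber : be ∈ roots L C.a := by
    refine ⟨hw.mem, hbe0, f (w : W), ?_, ?_⟩
    · intro h
      apply hw.ne
      have : (w : W) = 0 := by
        apply f.injective
        rw [h, map_zero]
      exact Subtype.ext this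
    · intro H' hH'
      rw [← hf, ← hst, hw.wt H' hH', Submodule.coe_smul, hfs]
  have hle := hl be hber (by intro h; rw [h] at hb; linarith)
  have heq : be = al := by
    have h1 : ⟪be - al, be - al⟫_ℝ ≤ 0 := by
      rw [inner_sub_left, inner_sub_right, inner_sub_right, real_inner_comm be al]
      linarith
    exact sub_eq_zero.1 (real_inner_self_nonpos.1 h1)
  rw [heq] at hw
  exact ⟨V, inferInstance, inferInstance, inferInstance, s, H, w, hs, hR, hw⟩

end Pool.Agent.Lib.MP_4322ef_CH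
end
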