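import Pool.Agent.Lib.MP_4322ef_CE.Mg.G001
import Pool.Agent.Lib.MP_4322ef_CH.Mg.G004
import Pool.Agent.Lib.MP_4322ef_CH.Mg.G007
import Pool.Agent.Lib.MP_4322ef_CH.Mg.G006
import Pool.Agent.Lib.MP_4322ef_CH.Mg.G001
import Pool.Agent.Lib.MP_4322ef_CH.Defs2
import Pool.Agent.Lib.MP_4322ef_CH.Mg.G005

section

/-!
# Fundamental weights

* `cor_int`: for positive roots `be` by strong induction on `⟪be, H⟫` (finitely many values), for negative ones by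
  `roots_neg`. If `be ∈ Simp` this is `h`. Otherwise some `ga ∈ Simp` has `⟪be, ga⟫ > 0` (by `simp_dec`, since
  `⟪be, be⟫ > 0`). `k = 2 ⟪be, ga⟫ / ⟪ga, ga⟫ ≥ 1`; `be' = sr ga be = be - k ga` is a root, and it is positive: otherwise
  `-be'` is positive and `k • ga = be + (-be')`, ... (write `be = ∑ n x • x`, `-be' = ∑ n' x • x` with natural numbers by
  `simp_dec`; linear independence `simp_ind` gives `n x + n' x = 0` for `x ≠ ga`, so `be = n ga • ga`; a multiple of a root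
  which is a root is `± 1` times it: with `root_two` and `root_int` `be = ga`, contradiction). `⟪be', H⟫ < ⟪be, H⟫`,
  `⟪be', be'⟫ = ⟪be, be⟫`, and `2 ⟪y, be⟫ / ⟪be, be⟫ = 2 ⟪y, be'⟫ / ⟪be', be'⟫ + k * 2 ⟪y, ga⟫ / ⟪be, be⟫`, where
  `k / ⟪be, be⟫ = (2 ⟪ga, be⟫ / ⟪be, be⟫) / ⟪ga, ga⟫` and the number in brackets is an integer (`root_int`).
* `exists_fund`: `S` = the `y ga = (⟪ga, ga⟫ / 2) • (simp_dual)` for `ga ∈ Simp` (the image of the finite set of `simp_pos`).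
  `Intg`: `cor_int` (`2 ⟪y ga, de⟫ = ⟪de, de⟫` for `de = ga` and `0` otherwise). Dominant: `simp_dec`. `Fund`: `fund_of`, for
  `al` a sum of elements of `Simp` and `de ∈ Simp`: `2 ⟪y, de⟫ ≤ ⟪de, de⟫ ≤ R de` (`R_ge`); `R` is additive (`R_add` in file
  N03, or `vc`). `Gen`: `c (y ga) = 2 ⟪x, ga⟫ / ⟪ga, ga⟫`, then `x - ∑ c y • y` is orthogonal to `Simp`, use `simp_zero`
  (the `y ga` are distinct: `⟪ga, y ga⟫ > 0`).
-/

set_option autoImplicit false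

open scoped InnerProductSpace

namespace Pool.Agent.Lib.MP_4322ef_CH

open Pool.Agent.Lib.MP_4322ef_al.SR

variable {g : Type} [NormedAddCommGroup g] [InnerProductSpace ℝ g] {L : RedLie g}
  [FiniteDimensional ℝ g]

/-- every positive root has a positive inner product with some simple root -/
theorem E03_simp (C : CSub L) {H be : g} (hH : Reg L C.a H) (hbe : be ∈ roots L C.a)
    (hp : 0 < ⟪be, H⟫_ℝ) : ∃ ga ∈ Simp L C.a H, 0 < ⟪be, ga⟫_ℝ := by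
  by_contra hcon
  have h1 : ∀ x ∈ AddSubmonoid.closure (Simp L C.a H), ⟪be, x⟫_ℝ ≤ 0 := by
    intro x hx
    induction hx using AddSubmonoid.closure_induction with
    | mem x hx =>
      by_contra h2
      exact hcon ⟨x, hx, not_le.1 h2⟩
    | zero => rw [inner_zero_right]
    | add x x' _ _ h2 h3 =>
      rw [inner_add_right]
      linarith
  have h2 := h1 be (simp_dec C hH hbe hp)
  have h3 : 0 < ⟪be, be⟫_ℝ := real_inner_self_pos.2 hbe.2.1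
  linarith

omit [FiniteDimensional ℝ g] in
/-- a sum of simple roots on which all the other dual vectors vanish is a multiple of `ga` -/
theorem E03_mult (C : CSub L) {H ga : g} (Y : g → g)
    (hY : ∀ de ∈ Simp L C.a H, ⟪de, Y de⟫_ℝ = 1 ∧
      ∀ x ∈ Simp L C.a H, x ≠ de → ⟪x, Y de⟫_ℝ = 0) {v : g}
    (hv : v ∈ AddSubmonoid.closure (Simp L C.a H)) :
    (∀ de ∈ Simp L C.a H, 0 ≤ ⟪v, Y de⟫_ℝ) ∧
      ((∀ de ∈ Simp L C.a H, de ≠ ga → ⟪v, Y de⟫_ℝ = 0) → ∃ n : ℕ, v = (n : ℝ) • ga) := by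
  induction hv using AddSubmonoid.closure_induction with
  | mem x hx =>
    refine ⟨fun de hde => ?_, fun h => ?_⟩
    · by_cases hxd : x = de
      · rw [hxd, (hY de hde).1]
        exact zero_le_one
      · rw [(hY de hde).2 x hx hxd]
    · by_cases hxg : x = ga
      · exact ⟨1, by rw [hxg, Nat.cast_one, one_smul]⟩
      · have h1 := h x hx hxg
        rw [(hY x hx).1] at h1
        exact absurd h1 one_ne_zero
  | zero =>
    refine ⟨fun de _ => by rw [inner_zero_left], fun _ => ⟨0, by rw [Nat.cast_zero, zero_smul]⟩⟩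
  | add x x' _ _ h1 h2 =>
    refine ⟨fun de hde => ?_, fun h => ?_⟩
    · rw [inner_add_left]
      exact add_nonneg (h1.1 de hde) (h2.1 de hde)
    · obtain ⟨n, hn⟩ := h1.2 fun de hde hne => by
        have h3 := h de hde hne
        rw [inner_add_left] at h3
        have h4 := h1.1 de hde
        have h5 := h2.1 de hde
        linarith
      obtain ⟨n', hn'⟩ := h2.2 fun de hde hne => by
        have h3 := h de hde hne
        rw [inner_add_left] at h3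
        have h4 := h1.1 de hde
        have h5 := h2.1 de hde
        linarith
      exact ⟨n + n', by rw [hn, hn', Nat.cast_add, add_smul]⟩

/-- a natural multiple of a root which is a root is the root -/
theorem E03_nat (J : CStr L) (C : CSub L) {ga : g} (hg : ga ∈ roots L C.a) {n : ℕ}
    (hn : (n : ℝ) • ga ∈ roots L C.a) : (n : ℝ) • ga = ga := by
  have hgg : 0 < ⟪ga, ga⟫_ℝ := real_inner_self_pos.2 hg.2.1
  have hn0 : (n : ℝ) ≠ 0 := by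
    intro h0
    apply hn.2.1
    rw [h0, zero_smul]
  obtain ⟨k, hk⟩ := root_int C hg hn
  rw [real_inner_smul_left, real_inner_smul_right] at hk
  have h1 : (2 : ℝ) = k * n := by
    have h2 : (2 : ℝ) * (n * ⟪ga, ga⟫_ℝ) = k * n * (n * ⟪ga, ga⟫_ℝ) := by
      rw [hk]
      ring
    exact mul_right_cancel₀ (mul_ne_zero hn0 hgg.ne') h2
  have h2 : (2 : ℤ) = k * n := by exact_mod_cast h1
  have h3 : n ∣ 2 := by
    have h4 : (n : ℤ) ∣ 2 := ⟨k, by rw [h2]; ring⟩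
    exact_mod_cast h4
  have h4 : n ≤ 2 := Nat.le_of_dvd (by norm_num) h3
  have h5 : n ≠ 0 := fun h => hn0 (by rw [h, Nat.cast_zero])
  have h6 : n = 1 ∨ n = 2 := by omega
  rcases h6 with h6 | h6
  · rw [h6, Nat.cast_one, one_smul]
  · exfalso
    rw [h6] at hn
    exact root_two J C hg (by exact_mod_cast hn)

/-- the reflection of a positive root which is not simple in a simple root is positive -/
theorem E03_refl (J : CStr L) (C : CSub L) {H be ga : g} (hH : Reg L C.a H)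
    (hbe : be ∈ roots L C.a) (hp : 0 < ⟪be, H⟫_ℝ) (hg : ga ∈ Simp L C.a H) (hne : be ≠ ga) :
    0 < ⟪sr ga be, H⟫_ℝ := by
  have hr := roots_refl C hg.1 hbe
  by_contra hcon
  have hneg : 0 < ⟪-sr ga be, H⟫_ℝ := by
    have h1 := hH.2 _ hr
    rw [inner_neg_left]
    rcases lt_or_gt_of_ne h1 with h2 | h2
    · linarith
    · exact absurd h2 hcon
  have h0 : ∀ de, de ∈ Simp L C.a H → ∃ y, ⟪de, y⟫_ℝ = 1 ∧
      ∀ x ∈ Simp L C.a H, x ≠ de → ⟪x, y⟫_ℝ = 0 := by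
    intro de hde
    obtain ⟨y, -, h1, h2⟩ := simp_dual C hH hde
    exact ⟨y, h1, h2⟩
  choose! Y hY using h0
  have h1 := E03_mult C (ga := ga) Y hY (simp_dec C hH hbe hp)
  have h2 := E03_mult C (ga := ga) Y hY (simp_dec C hH (roots_neg C hr) hneg)
  obtain ⟨n, hn⟩ := h1.2 fun de hde hde' => by
    have h3 := h1.1 de hde
    have h4 := h2.1 de hde
    have h5 := (hY de hde).2 ga hg (Ne.symm hde')
    rw [inner_neg_left, sr, inner_sub_left, real_inner_smul_left, h5] at h4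
    linarith
  apply hne
  rw [hn]
  rw [hn] at hbe
  exact E03_nat J C hg.1 hbe

theorem cor_int (J : CStr L) (C : CSub L) {H y : g} (hH : Reg L C.a H)
    (h : ∀ ga ∈ Simp L C.a H, ∃ k : ℤ, 2 * ⟪y, ga⟫_ℝ = k * ⟪ga, ga⟫_ℝ) : Intg L C.a y := by
  have key : ∀ be ∈ roots L C.a, 0 < ⟪be, H⟫_ℝ → ∃ k : ℤ, 2 * ⟪y, be⟫_ℝ = k * ⟪be, be⟫_ℝ := by
    by_contra hcon
    push Not at hcon
    obtain ⟨b0, hb0, hb0p, hb0k⟩ := hcon
    have hfin : {be | be ∈ roots L C.a ∧ 0 < ⟪be, H⟫_ℝ ∧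
        ∀ k : ℤ, 2 * ⟪y, be⟫_ℝ ≠ k * ⟪be, be⟫_ℝ}.Finite :=
      (roots_finite C).subset fun x hx => hx.1
    obtain ⟨be, ⟨hbe, hp, hk⟩, hmin⟩ := Set.exists_min_image _ (fun x => ⟪x, H⟫_ℝ) hfin
      ⟨b0, hb0, hb0p, hb0k⟩
    obtain ⟨ga, hg, hbg⟩ := E03_simp C hH hbe hp
    have hne : be ≠ ga := by
      rintro rfl
      obtain ⟨k, h1⟩ := h be hg
      exact hk k h1
    have hr := roots_refl C hg.1 hbe
    have hrp := E03_refl J C hH hbe hp hg hne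
    have hgg : 0 < ⟪ga, ga⟫_ℝ := real_inner_self_pos.2 hg.1.2.1
    have hk0 : 0 < 2 * ⟪be, ga⟫_ℝ / ⟪ga, ga⟫_ℝ := by positivity
    have h2 : ∃ m : ℤ, 2 * ⟪y, sr ga be⟫_ℝ = m * ⟪sr ga be, sr ga be⟫_ℝ := by
      by_contra h3
      push Not at h3
      have h4 := hmin _ ⟨hr, hrp, h3⟩
      simp only [sr] at h4
      rw [inner_sub_left, real_inner_smul_left] at h4
      have h5 : 0 < 2 * ⟪be, ga⟫_ℝ / ⟪ga, ga⟫_ℝ * ⟪ga, H⟫_ℝ := mul_pos hk0 hg.2.1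
      linarith
    obtain ⟨m, hm⟩ := h2
    obtain ⟨c, hc⟩ := h ga hg
    obtain ⟨k, hk1⟩ := root_int C hg.1 hbe
    rw [sr_isom hg.1.2.1] at hm
    apply hk (m + c * k)
    have h3 : ⟪y, sr ga be⟫_ℝ = ⟪y, be⟫_ℝ - 2 * ⟪be, ga⟫_ℝ / ⟪ga, ga⟫_ℝ * ⟪y, ga⟫_ℝ := by
      rw [sr, inner_sub_right, real_inner_smul_right]
    have h4 : 2 * ⟪be, ga⟫_ℝ / ⟪ga, ga⟫_ℝ * (2 * ⟪y, ga⟫_ℝ) = c * k * ⟪be, be⟫_ℝ := by
      rw [hc, real_inner_comm ga be] at *
      field_simp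
      rw [hk1]
      ring
    push_cast
    rw [h3] at hm
    linarith
  intro be hbe
  rcases lt_or_gt_of_ne (hH.2 be hbe) with h1 | h1
  · obtain ⟨k, hk⟩ := key (-be) (roots_neg C hbe) (by rw [inner_neg_left]; linarith)
    refine ⟨-k, ?_⟩
    rw [inner_neg_neg, inner_neg_right] at hk
    push_cast
    linarith
  · exact key be hbe h1

theorem exists_fund (J : CStr L) (C : CSub L) {H : g} (hH : Reg L C.a H) :
    ∃ S : Finset g, Gen L C.a H S ∧ ∀ y ∈ S, Intg L C.a y ∧ Semi L C.a y ∧ Fund L C.a y ∧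
      ∀ al ∈ roots L C.a, 0 < ⟪al, H⟫_ℝ → 0 ≤ ⟪al, y⟫_ℝ := by
  classical
  obtain ⟨S0, -, hS0, -, -⟩ := simp_pos C hH
  obtain ⟨n, ⟨b⟩⟩ := exists_abas J C
  have h0 : ∀ ga, ga ∈ Simp L C.a H → ∃ y, Semi L C.a y ∧ ⟪ga, y⟫_ℝ = ⟪ga, ga⟫_ℝ / 2 ∧
      ∀ x ∈ Simp L C.a H, x ≠ ga → ⟪x, y⟫_ℝ = 0 := by
    intro ga hga
    obtain ⟨y, h1, h2, h3⟩ := simp_dual C hH hga
    refine ⟨(⟪ga, ga⟫_ℝ / 2) • y, ⟨C.a.smul_mem _ h1.1, fun z hz hz' => ?_⟩, ?_, fun x hx hne => ?_⟩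
    · rw [real_inner_smul_left, h1.2 z hz hz', mul_zero]
    · rw [real_inner_smul_right, h2, mul_one]
    · rw [real_inner_smul_right, h3 x hx hne, mul_zero]
  choose! Y hY using h0
  have hpos : ∀ ga ∈ Simp L C.a H, 0 < ⟪ga, ga⟫_ℝ := fun ga hga => real_inner_self_pos.2 hga.1.2.1
  have hval : ∀ ga ∈ Simp L C.a H, ∀ x ∈ Simp L C.a H,
      0 ≤ ⟪x, Y ga⟫_ℝ ∧ 2 * ⟪x, Y ga⟫_ℝ ≤ ⟪x, x⟫_ℝ := by
    intro ga hga x hx
    by_cases hxg : x = ga
    · have h1 := hpos ga hga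
      rw [hxg, (hY ga hga).2.1]
      constructor <;> linarith
    · have h1 := hpos x hx
      rw [(hY ga hga).2.2 x hx hxg]
      constructor <;> linarith
  have hdom : ∀ ga ∈ Simp L C.a H, ∀ al ∈ roots L C.a, 0 < ⟪al, H⟫_ℝ → 0 ≤ ⟪al, Y ga⟫_ℝ := by
    intro ga hga al hal hp
    have h1 := simp_dec C hH hal hp
    clear hal hp
    induction h1 using AddSubmonoid.closure_induction with
    | mem x hx => exact (hval ga hga x hx).1
    | zero => rw [inner_zero_left]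
    | add x x' _ _ h2 h3 =>
      rw [inner_add_left]
      linarith
  have hR0 : R L C.a H 0 = 0 := by
    have h1 := R_add J b hH 0 0
    rw [add_zero] at h1
    linarith
  have hle : ∀ ga ∈ Simp L C.a H, ∀ al ∈ roots L C.a, 0 < ⟪al, H⟫_ℝ →
      2 * ⟪Y ga, al⟫_ℝ ≤ R L C.a H al := by
    intro ga hga al hal hp
    have h1 := simp_dec C hH hal hp
    clear hal hp
    induction h1 using AddSubmonoid.closure_induction with
    | mem x hx =>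
      have h2 := (hval ga hga x hx).2
      have h3 := R_ge C hH hx.1 hx.2.1
      rw [real_inner_comm]
      linarith
    | zero => rw [inner_zero_right, hR0, mul_zero]
    | add x x' _ _ h2 h3 =>
      rw [inner_add_right, R_add J b hH]
      linarith
  have hinj : Set.InjOn Y (S0 : Set g) := by
    intro ga hga de hde heq
    by_contra hne
    have hga' := (hS0 ga).1 hga
    have hde' := (hS0 de).1 hde
    have h1 := (hY ga hga').2.1
    have h2 := (hY de hde').2.2 ga hga' hne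
    have h3 := hpos ga hga'
    rw [heq, h2] at h1
    linarith
  have hinv := hinj.leftInvOn_invFunOn
  refine ⟨S0.image Y, ⟨?_, ?_⟩, ?_⟩
  · intro y hy al hal hp
    obtain ⟨ga, hga, rfl⟩ := Finset.mem_image.1 hy
    exact hdom ga ((hS0 ga).1 hga) al hal hp
  · intro x hx hxd
    refine ⟨fun v => 2 * ⟪x, Function.invFunOn Y (S0 : Set g) v⟫_ℝ /
      ⟪Function.invFunOn Y (S0 : Set g) v, Function.invFunOn Y (S0 : Set g) v⟫_ℝ, ?_, ?_⟩
    · intro y hy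
      obtain ⟨ga, hga, rfl⟩ := Finset.mem_image.1 hy
      have hga' := (hS0 ga).1 hga
      have h1 := hxd ga hga'.1 hga'.2.1
      have h2 := hpos ga hga'
      have h3 : Function.invFunOn Y (S0 : Set g) (Y ga) = ga := hinv hga
      simp only [h3]
      rw [real_inner_comm]
      positivity
    · apply simp_zero C hH
      intro de hde
      rw [Finset.sum_image hinj, inner_sub_right, inner_sum]
      have h1 : ∀ ga ∈ S0, ⟪de, (2 * ⟪x, Function.invFunOn Y (S0 : Set g) (Y ga)⟫_ℝ /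
          ⟪Function.invFunOn Y (S0 : Set g) (Y ga), Function.invFunOn Y (S0 : Set g) (Y ga)⟫_ℝ) •
            Y ga⟫_ℝ = if ga = de then ⟪de, x⟫_ℝ else 0 := by
        intro ga hga
        have h3 : Function.invFunOn Y (S0 : Set g) (Y ga) = ga := hinv hga
        have hga' := (hS0 ga).1 hga
        rw [h3, real_inner_smul_right]
        by_cases hgd : ga = de
        · have h2 := hpos ga hga'
          rw [if_pos hgd, ← hgd, (hY ga hga').2.1, real_inner_comm]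
          field_simp
        · rw [if_neg hgd, (hY ga hga').2.2 de hde (Ne.symm hgd), mul_zero]
      rw [Finset.sum_congr rfl h1, Finset.sum_ite_eq', if_pos ((hS0 de).2 hde), sub_self]
  · intro y hy
    obtain ⟨ga, hga, rfl⟩ := Finset.mem_image.1 hy
    have hga' := (hS0 ga).1 hga
    refine ⟨cor_int J C hH fun de hde => ?_, (hY ga hga').1,
      fund_of C hH (hY ga hga').1.1 (hdom ga hga') (hle ga hga'), hdom ga hga'⟩
    by_cases hdg : de = ga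
    · refine ⟨1, ?_⟩
      rw [hdg, real_inner_comm, (hY ga hga').2.1]
      push_cast
      ring
    · refine ⟨0, ?_⟩
      rw [real_inner_comm, (hY ga hga').2.2 de hde hdg]
      push_cast
      ring

end Pool.Agent.Lib.MP_4322ef_CH
end

section

/-!
# The highest weight vector of the component `V(mu - y)` in `Hom (Y, W)`

Let `la = mu - y`. For weights write `y' ≤ y` if `⟪y', c⟫ ≤ ⟪y, c⟫` for all `H₁`-dominant `c ∈ a`.
Numerical fact: if `y'` is a weight of `Y`, `y' ≤ y`, `y' ≠ y`, then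
`⟪la + y', la + y'⟫ + R (la + y') < ⟪mu, mu⟫ + R mu`: indeed `⟪la, y'⟫ ≤ ⟪la, y⟫` (`la` is dominant),
`⟪y', y'⟫ ≤ ⟪y, y⟫` (`hw_bound` as in the proof of `low` in file W08), `R y' ≤ R y`, and one of them is strict:
if `R y' = R y` then `⟪y - y', x⟫ = 0` for all `x ∈ a`, because the vector `2 rho` of `R` has `⟪al, 2 rho⟫ > 0` for
all positive roots (`exists_P`, `vc_pos`), so `2 rho ± ε x` is dominant for small `ε`.
`W` has the Casimir scalar `⟪mu, mu⟫ + hgt mu = ⟪mu, mu⟫ + R mu` (`cas_scalar`; `mu` is dominant, `hw_dom`,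
`hh_chm`).
Construction: consider the submodules `D` of `Y` such that
 (i) `D` is spanned by weight vectors, (ii) `D` is stable under the positive root vectors, (iii) `y₁ ∈ D` and
 all weight vectors of weights `y'` with `¬ y' ≤ y` are in `D`, (iv) there is `φ : Y →ₗ W` with
 `φ (Z u) = Z (φ u)` and `H (φ u) = φ (H u) + ⟪la, H⟫ φ u` for `u ∈ D`, `Z` a positive root vector,
 `H ∈ a`, with `φ y₁ = v`, and `φ = 0` on weight vectors of weights `y'`, `¬ y' ≤ y`.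
Start: `D` = span of `y₁` and of those weight vectors, `φ u = ⟪y₁, u⟫ / ⟪y₁, y₁⟫ • v`. Take `D` of maximal
dimension. If `D ≠ ⊤` take a weight vector `u ∉ D` whose weight `y'` has the largest `⟪y', H₁⟫`; then
`Z u ∈ D` for positive root vectors `Z` (`wt_shift`), `y' ≤ y` by (iii), `y' ≠ y` (`hw_mult`). Apply
`cocycle_solve` with `be Z = φ (Z u)`, `ze = la + y'`, get `w`, and replace `φ` by
`φ + f • (w - φ u)` with a linear functional `f`, `f u = 1`, `f = 0` on `D`, and `D` by `D ⊔ span {u}`.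
-/

set_option autoImplicit false

open scoped InnerProductSpace

namespace Pool.Agent.Lib.MP_4322ef_CH

open Pool.Agent.Lib.MP_4322ef_al.SR

variable {g : Type} [NormedAddCommGroup g] [InnerProductSpace ℝ g] {L : RedLie g}

/-- `y'` is at most `y` -/
def N04_LE (L : RedLie g) (a : Submodule ℝ g) (H₁ y y' : g) : Prop :=
  ∀ c ∈ a, (∀ al ∈ roots L a, 0 < ⟪al, H₁⟫_ℝ → 0 ≤ ⟪al, c⟫_ℝ) → ⟪y', c⟫_ℝ ≤ ⟪y, c⟫_ℝ

theorem N04_eps {E : Type} [NormedAddCommGroup E] [InnerProductSpace ℝ E] (P : Finset E)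
    (hP : ∀ al ∈ P, al ≠ 0) (x : E) :
    ∃ ep : ℝ, 0 < ep ∧ ∀ al ∈ P, ep * |⟪al, x⟫_ℝ| ≤ ⟪al, al⟫_ℝ := by
  have h0 : 0 ≤ ∑ al ∈ P, |⟪al, x⟫_ℝ| / ⟪al, al⟫_ℝ :=
    Finset.sum_nonneg fun al _ => div_nonneg (abs_nonneg _) real_inner_self_nonneg
  refine ⟨1 / (1 + ∑ al ∈ P, |⟪al, x⟫_ℝ| / ⟪al, al⟫_ℝ), by positivity, fun al hal => ?_⟩
  have hpos : 0 < ⟪al, al⟫_ℝ := real_inner_self_pos.2 (hP al hal)
  have h1 : |⟪al, x⟫_ℝ| / ⟪al, al⟫_ℝ ≤ ∑ al ∈ P, |⟪al, x⟫_ℝ| / ⟪al, al⟫_ℝ :=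
    Finset.single_le_sum (f := fun al => |⟪al, x⟫_ℝ| / ⟪al, al⟫_ℝ)
      (fun b _ => div_nonneg (abs_nonneg _) real_inner_self_nonneg) hal
  rw [div_le_iff₀ hpos] at h1
  rw [div_mul_eq_mul_div, one_mul, div_le_iff₀ (by linarith)]
  nlinarith

section
variable {J : CStr L} {W : Type} [NormedAddCommGroup W] [InnerProductSpace ℂ W]
  {Y : Type} [NormedAddCommGroup Y] [InnerProductSpace ℂ Y]
variable [FiniteDimensional ℝ g] [FiniteDimensional ℂ W] [FiniteDimensional ℂ Y]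

theorem N04_norm (s : CRep J Y) (C : CSub L) (hs : Irr s) {H₄ y : g} (hH₄ : Reg L C.a H₄) {y₁ : Y}
    (hy : HW s C.a H₄ y y₁) {y' : g} (h' : IsW s C.a y') : ⟪y', y'⟫_ℝ ≤ ⟪y, y⟫_ℝ := by
  have hfin : {lam | IsW s C.a lam ∧ ⟪lam, lam⟫_ℝ = ⟪y', y'⟫_ℝ}.Finite :=
    (wt_finite s C).subset fun x hx => hx.1
  obtain ⟨x, ⟨hx, hxn⟩, hmax⟩ :=
    Set.exists_max_image _ (fun lam => ⟪lam, H₄⟫_ℝ) hfin ⟨y', h', rfl⟩
  have hdom : ∀ al ∈ roots L C.a, 0 < ⟪al, H₄⟫_ℝ → 0 ≤ ⟪al, x⟫_ℝ := by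
    intro al hal hp
    by_contra hcon
    push Not at hcon
    have hne : al ≠ 0 := hal.2.1
    have h1 : IsW s C.a (sr al x) := wt_refl s C hx hal
    have hpos : 0 < ⟪al, al⟫_ℝ := real_inner_self_pos.2 hne
    have h3 : ⟪sr al x, H₄⟫_ℝ ≤ ⟪x, H₄⟫_ℝ := hmax (sr al x) ⟨h1, (sr_isom hne x x).trans hxn⟩
    rw [sr, inner_sub_left, inner_smul_left] at h3
    simp only [conj_trivial] at h3
    have h4 : 0 ≤ 2 * ⟪x, al⟫_ℝ / ⟪al, al⟫_ℝ * ⟪al, H₄⟫_ℝ := by linarith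
    have h5 : 2 * ⟪x, al⟫_ℝ / ⟪al, al⟫_ℝ < 0 := by
      rw [real_inner_comm x al] at hcon
      exact div_neg_of_neg_of_pos (by linarith) hpos
    nlinarith [mul_pos_of_neg_of_neg h5 (neg_neg_of_pos hp)]
  have h4 : ⟪x, x⟫_ℝ ≤ ⟪y, x⟫_ℝ := hw_bound s C hs hH₄ hy hx hx.1 hdom
  have h5 : 0 ≤ ⟪y - x, y - x⟫_ℝ := real_inner_self_nonneg
  rw [inner_sub_left, inner_sub_right, inner_sub_right, real_inner_comm y x] at h5
  rw [← hxn]
  linarith

theorem N04_R (C : CSub L) {H₁ : g} (hH₁ : Reg L C.a H₁) : ∃ r ∈ C.a,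
    (∀ x ∈ C.a, R L C.a H₁ x = ⟪r, x⟫_ℝ) ∧
    (∀ x : g, x ∈ C.a → (∀ al ∈ roots L C.a, 0 < ⟪al, H₁⟫_ℝ → 0 ≤ ⟪al, x⟫_ℝ) →
      hgt L C.a x = ⟪r, x⟫_ℝ) ∧
    (∀ al ∈ roots L C.a, 0 < ⟪al, H₁⟫_ℝ → 0 ≤ ⟪al, r⟫_ℝ) ∧
    ∀ x ∈ C.a, ∃ ep : ℝ, 0 < ep ∧
      ∀ al ∈ roots L C.a, 0 < ⟪al, H₁⟫_ℝ → 0 ≤ ⟪al, r + ep • x⟫_ℝ := by
  obtain ⟨P, hP, hPm, hPh, hPv, -⟩ := exists_P C
  let H' : C.a := ⟨H₁, hH₁.1⟩
  have hRg : Rg P H' := fun al hal => hH₁.2 _ ((hPm al).1 hal)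
  have hpos : ∀ al ∈ roots L C.a, 0 < ⟪al, H₁⟫_ℝ → ⟪al, al⟫_ℝ ≤ ⟪al, ((vc P H' : C.a) : g)⟫_ℝ := by
    intro al hal hp
    have h4 := vc_pos hP (c := H') ((hPm ⟨al, hal.1⟩).2 hal) hp
    have h5 : ⟪vc P H', (⟨al, hal.1⟩ : C.a)⟫_ℝ = ⟪al, ((vc P H' : C.a) : g)⟫_ℝ := real_inner_comm _ _
    rw [h5] at h4
    exact h4
  refine ⟨((vc P H' : C.a) : g), (vc P H').2, fun x hx => (hPv H' ⟨x, hx⟩).symm, ?_, ?_, ?_⟩
  · intro x hx hd
    have hc : (⟨x, hx⟩ : C.a) ∈ Chm P H' := fun al hal hp => hd al ((hPm al).1 hal) hp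
    have h1 := hPh ⟨x, hx⟩
    rw [hh_chm hP hRg hc] at h1
    exact h1.symm
  · intro al hal hp
    exact le_trans real_inner_self_nonneg (hpos al hal hp)
  · intro x hx
    obtain ⟨ep, hep, h⟩ := N04_eps P hP.ne ⟨x, hx⟩
    refine ⟨ep, hep, fun al hal hp => ?_⟩
    have h1 := h ⟨al, hal.1⟩ ((hPm ⟨al, hal.1⟩).2 hal)
    have h2 : ep * |⟪al, x⟫_ℝ| ≤ ⟪al, al⟫_ℝ := h1
    have h3 := hpos al hal hp
    rw [inner_add_right, inner_smul_right]
    have h4 : -(ep * |⟪al, x⟫_ℝ|) ≤ ep * ⟪al, x⟫_ℝ := by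
      rw [← mul_neg]
      exact mul_le_mul_of_nonneg_left (neg_abs_le _) hep.le
    linarith

theorem N04_cas (t : CRep J W) (C : CSub L) (ht : Irr t) {H₁ mu : g} (hH₁ : Reg L C.a H₁) {v : W}
    (hv : HW t C.a H₁ mu v) (w : W) :
    kCas L t.op w = ((⟪mu, mu⟫_ℝ + R L C.a H₁ mu : ℝ) : ℂ) • w := by
  obtain ⟨r, hr, h1, h2, -, -⟩ := N04_R C hH₁
  rw [cas_scalar t C ht hH₁ hv w, h1 mu hv.mem,
    h2 mu hv.mem fun al hal hp => hw_dom t C hH₁ hv hal hp]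

theorem N04_num (s : CRep J Y) (C : CSub L) (hs : Irr s) {H₁ H₄ mu y : g}
    (hH₁ : Reg L C.a H₁) (hH₄ : Reg L C.a H₄) (hmu : mu ∈ C.a) {y₁ : Y}
    (hy : HW s C.a H₄ y y₁)
    (hla : ∀ al ∈ roots L C.a, 0 < ⟪al, H₁⟫_ℝ → 0 ≤ ⟪al, mu - y⟫_ℝ) {y' : g}
    (h' : IsW s C.a y') (hle : N04_LE L C.a H₁ y y') (hne : y' ≠ y) :
    ⟪mu - y + y', mu - y + y'⟫_ℝ + R L C.a H₁ (mu - y + y') < ⟪mu, mu⟫_ℝ + R L C.a H₁ mu := by
  obtain ⟨r, hr, h1, -, h3, h4⟩ := N04_R C hH₁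
  have hyC : y ∈ C.a := hy.mem
  have hy'C : y' ∈ C.a := h'.1
  have hlaC : mu - y ∈ C.a := C.a.sub_mem hmu hyC
  have a1 : ⟪y', mu - y⟫_ℝ ≤ ⟪y, mu - y⟫_ℝ := hle _ hlaC hla
  have a2 : ⟪y', y'⟫_ℝ ≤ ⟪y, y⟫_ℝ := N04_norm s C hs hH₄ hy h'
  have a3 : ⟪y', r⟫_ℝ < ⟪y, r⟫_ℝ := by
    obtain ⟨ep, hep, h5⟩ := h4 (y' - y) (C.a.sub_mem hy'C hyC)
    have h6 := hle _ (C.a.add_mem hr (C.a.smul_mem ep (C.a.sub_mem hy'C hyC))) h5
    rw [inner_add_right, inner_add_right, inner_smul_right, inner_smul_right] at h6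
    have h7 : 0 < ⟪y' - y, y' - y⟫_ℝ := real_inner_self_pos.2 (sub_ne_zero.2 hne)
    rw [inner_sub_left] at h7
    nlinarith
  rw [h1 _ (C.a.add_mem hlaC hy'C), h1 _ hmu]
  have e1 : mu = mu - y + y := by abel
  have e2 : ⟪mu, mu⟫_ℝ = ⟪mu - y + y, mu - y + y⟫_ℝ := by rw [← e1]
  have e3 : ⟪r, mu⟫_ℝ = ⟪r, mu - y + y⟫_ℝ := by rw [← e1]
  rw [e2, e3]
  simp only [inner_add_left, inner_add_right]
  rw [real_inner_comm y' (mu - y), real_inner_comm y (mu - y), real_inner_comm y' r,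
    real_inner_comm y r]
  linarith

/-- the property of the submodules in the construction -/
def N04_Pr (C : CSub L) (t : CRep J W) (s : CRep J Y) (H₁ mu y : g) (v : W) (y₁ : Y)
    (D : Submodule ℂ Y) : Prop :=
  (∀ al ∈ C.a, 0 < ⟪al, H₁⟫_ℝ → ∀ Z, RV L C.a al Z → ∀ u ∈ D, s.op Z u ∈ D) ∧
  (∀ H ∈ C.a, ∀ u ∈ D, s.op H u ∈ D) ∧ y₁ ∈ D ∧
  (∀ y' ∈ C.a, ¬ N04_LE L C.a H₁ y y' → ∀ u, WV s C.a y' u → u ∈ D) ∧
  ∃ φ : Y →ₗ[ℂ] W, φ y₁ = v ∧
    (∀ al ∈ C.a, 0 < ⟪al, H₁⟫_ℝ → ∀ Z, RV L C.a al Z → ∀ u ∈ D, φ (s.op Z u) = t.op Z (φ u)) ∧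
    ∀ H ∈ C.a, ∀ u ∈ D, t.op H (φ u) = φ (s.op H u) + (⟪mu - y, H⟫_ℝ : ℂ) • φ u

theorem N04_root (C : CSub L) {H₁ al Z : g} (hal : al ∈ C.a) (hp : 0 < ⟪al, H₁⟫_ℝ)
    (hZ : RV L C.a al Z) (hZ0 : Z ≠ 0) : al ∈ roots L C.a := by
  refine ⟨hal, ?_, Z, hZ0, hZ⟩
  rintro rfl
  rw [inner_zero_left] at hp
  exact lt_irrefl _ hp

theorem N04_up (C : CSub L) {H₁ y y' al : g} (hH₁ : Reg L C.a H₁) (hal : al ∈ roots L C.a)
    (hp : 0 < ⟪al, H₁⟫_ℝ) (h : y' = y ∨ ¬ N04_LE L C.a H₁ y y') :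
    ¬ N04_LE L C.a H₁ y (al + y') := by
  intro hcon
  rcases h with h | h
  · rw [h] at hcon
    have h1 := hcon H₁ hH₁.1 fun al _ hp => hp.le
    rw [inner_add_left] at h1
    linarith
  · apply h
    intro c hc hd
    have h1 := hcon c hc hd
    have h2 := hd al hal hp
    rw [inner_add_left] at h1
    linarith

theorem N04_start (C : CSub L) (t : CRep J W) (s : CRep J Y)
    {H₁ H₄ mu y : g} (hH₁ : Reg L C.a H₁) {v : W} {y₁ : Y}
    (hv : HW t C.a H₁ mu v) (hy : HW s C.a H₄ y y₁) :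
    ∃ D, N04_Pr C t s H₁ mu y v y₁ D := by
  have hyC : y ∈ C.a := hy.mem
  have hyy : ⟪y₁, y₁⟫_ℂ ≠ 0 := fun h1 => hy.ne (inner_self_eq_zero.1 h1)
  let G : Set Y := {u | ∃ y' ∈ C.a, (y' = y ∧ u = y₁ ∨ ¬ N04_LE L C.a H₁ y y') ∧ WV s C.a y' u}
  have hrefl : N04_LE L C.a H₁ y y := fun c _ _ => le_refl _
  have hperp : ∀ y' ∈ C.a, ¬ N04_LE L C.a H₁ y y' → ∀ u, WV s C.a y' u → ⟪y₁, u⟫_ℂ = 0 := by
    intro y' hy' hn u hu
    refine wt_orth s C hyC hy' hy.wt hu ?_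
    rintro rfl
    exact hn hrefl
  let φ : Y →ₗ[ℂ] W :=
    { toFun := fun u => (⟪y₁, u⟫_ℂ / ⟪y₁, y₁⟫_ℂ) • v
      map_add' := by
        intro u u'
        rw [inner_add_right, add_div, add_smul]
      map_smul' := by
        intro c u
        rw [inner_smul_right, mul_div_assoc, mul_smul, RingHom.id_apply] }
  have hφ : ∀ u, φ u = (⟪y₁, u⟫_ℂ / ⟪y₁, y₁⟫_ℂ) • v := fun u => rfl
  have hφ1 : φ y₁ = v := by rw [hφ, div_self hyy, one_smul]
  have hφ0 : ∀ y' ∈ C.a, ¬ N04_LE L C.a H₁ y y' → ∀ u, WV s C.a y' u → φ u = 0 := by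
    intro y' hy' hn u hu
    rw [hφ, hperp y' hy' hn u hu, zero_div, zero_smul]
  have hmem : ∀ y' ∈ C.a, ¬ N04_LE L C.a H₁ y y' → ∀ u, WV s C.a y' u →
      u ∈ Submodule.span ℂ G := fun y' hy' hn u hu =>
    Submodule.subset_span ⟨y', hy', Or.inr hn, hu⟩
  have hor : ∀ {y' : g} {u : Y}, (y' = y ∧ u = y₁ ∨ ¬ N04_LE L C.a H₁ y y') →
      (y' = y ∨ ¬ N04_LE L C.a H₁ y y') := fun h => h.imp And.left id
  refine ⟨Submodule.span ℂ G, ?_, ?_, ?_, hmem, φ, hφ1, ?_, ?_⟩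
  · intro al hal hp Z hZ
    by_cases hZ0 : Z = 0
    · intro u _
      rw [hZ0, Rep.zero', LinearMap.zero_apply]
      exact Submodule.zero_mem _
    have h1 : Submodule.span ℂ G ≤ (Submodule.span ℂ G).comap (s.op Z) := by
      refine Submodule.span_le.2 ?_
      rintro u ⟨y', hy', h, hu⟩
      exact hmem (al + y') (C.a.add_mem hal hy')
        (N04_up C hH₁ (N04_root C hal hp hZ hZ0) hp (hor h)) _ (wt_shift s C hZ hu)
    exact fun u hu => h1 hu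
  · intro H hH
    have h1 : Submodule.span ℂ G ≤ (Submodule.span ℂ G).comap (s.op H) := by
      refine Submodule.span_le.2 ?_
      rintro u ⟨y', hy', h, hu⟩
      show s.op H u ∈ Submodule.span ℂ G
      rw [hu H hH]
      exact Submodule.smul_mem _ _ (Submodule.subset_span ⟨y', hy', h, hu⟩)
    exact fun u hu => h1 hu
  · exact Submodule.subset_span ⟨y, hyC, Or.inl ⟨rfl, rfl⟩, hy.wt⟩
  · intro al hal hp Z hZ
    by_cases hZ0 : Z = 0
    · intro u _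
      rw [hZ0, Rep.zero', LinearMap.zero_apply, Rep.zero', LinearMap.zero_apply, map_zero]
    have h1 : Submodule.span ℂ G ≤ LinearMap.ker (φ ∘ₗ s.op Z - t.op Z ∘ₗ φ) := by
      refine Submodule.span_le.2 ?_
      rintro u ⟨y', hy', h, hu⟩
      show φ (s.op Z u) - t.op Z (φ u) = 0
      rw [hφ0 (al + y') (C.a.add_mem hal hy')
        (N04_up C hH₁ (N04_root C hal hp hZ hZ0) hp (hor h)) _ (wt_shift s C hZ hu), zero_sub,
        neg_eq_zero]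
      rcases h with ⟨-, h⟩ | h
      · rw [h, hφ1]
        exact hv.pos Z ⟨_, hp, by
          rw [hZ H₁ hH₁.1]⟩
      · rw [hφ0 y' hy' h u hu, map_zero]
    intro u hu
    exact sub_eq_zero.1 (h1 hu)
  · intro H hH
    have h1 : Submodule.span ℂ G ≤
        LinearMap.ker (t.op H ∘ₗ φ - (φ ∘ₗ s.op H + (⟪mu - y, H⟫_ℝ : ℂ) • φ)) := by
      refine Submodule.span_le.2 ?_
      rintro u ⟨y', hy', h, hu⟩
      show t.op H (φ u) - (φ (s.op H u) + (⟪mu - y, H⟫_ℝ : ℂ) • φ u) = 0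
      rw [hu H hH, map_smul]
      rcases h with ⟨h0, h⟩ | h
      · rw [h, hφ1, hv.wt H hH, h0, ← add_smul, ← Complex.ofReal_add, ← inner_add_left,
          add_sub_cancel, sub_self]
      · rw [hφ0 y' hy' h u hu, map_zero, smul_zero, smul_zero, add_zero, sub_zero]
    intro u hu
    exact sub_eq_zero.1 (h1 hu)

theorem N04_step (C : CSub L) (t : CRep J W) (ht : Irr t) (s : CRep J Y) (hs : Irr s)
    {H₁ H₄ mu y : g} (hH₁ : Reg L C.a H₁) (hH₄ : Reg L C.a H₄) {v : W} {y₁ : Y}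
    (hv : HW t C.a H₁ mu v) (hy : HW s C.a H₄ y y₁)
    (hla : ∀ al ∈ roots L C.a, 0 < ⟪al, H₁⟫_ℝ → 0 ≤ ⟪al, mu - y⟫_ℝ)
    (D : Submodule ℂ Y) (hD : N04_Pr C t s H₁ mu y v y₁ D) (hne : D ≠ ⊤) :
    ∃ D', D < D' ∧ N04_Pr C t s H₁ mu y v y₁ D' := by
  obtain ⟨p1, p2, p3, p4, φ, q1, q2, q3⟩ := hD
  have hmu : mu ∈ C.a := hv.mem
  have hyC : y ∈ C.a := hy.mem
  have hlaC : mu - y ∈ C.a := C.a.sub_mem hmu hyC
  have hex : {lam | lam ∈ C.a ∧ ∃ u, WV s C.a lam u ∧ u ∉ D}.Nonempty := by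
    by_contra hcon
    rw [Set.not_nonempty_iff_eq_empty] at hcon
    apply hne
    rw [eq_top_iff]
    intro w _
    have h1 : Submodule.span ℂ {v | ∃ lam ∈ C.a, WV s C.a lam v} ≤ D := by
      refine Submodule.span_le.2 ?_
      rintro u ⟨lam, hlam, hu⟩
      by_contra hu0
      have h2 : lam ∈ {lam | lam ∈ C.a ∧ ∃ u, WV s C.a lam u ∧ u ∉ D} := ⟨hlam, u, hu, hu0⟩
      rw [hcon] at h2
      exact h2
    exact h1 (wt_span s C w)
  have hfin : {lam | lam ∈ C.a ∧ ∃ u, WV s C.a lam u ∧ u ∉ D}.Finite := by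
    refine (wt_finite s C).subset ?_
    rintro lam ⟨hlam, u, hu, huD⟩
    refine ⟨hlam, u, ?_, hu⟩
    rintro rfl
    exact huD D.zero_mem
  obtain ⟨y', ⟨hy'C, u, hu, huD⟩, hmax⟩ :=
    Set.exists_max_image _ (fun lam => ⟪lam, H₁⟫_ℝ) hfin hex
  have hu0 : u ≠ 0 := by
    rintro rfl
    exact huD D.zero_mem
  have hZu : ∀ al ∈ C.a, 0 < ⟪al, H₁⟫_ℝ → ∀ Z, RV L C.a al Z → s.op Z u ∈ D := by
    intro al hal hp Z hZ
    by_contra hcon
    have h1 := hmax (al + y') ⟨C.a.add_mem hal hy'C, _, wt_shift s C hZ hu, hcon⟩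
    simp only [inner_add_left] at h1
    linarith
  have hle : N04_LE L C.a H₁ y y' := by
    by_contra hcon
    exact huD (p4 y' hy'C hcon u hu)
  have hyne : y' ≠ y := by
    rintro rfl
    obtain ⟨c, hc⟩ := hw_mult s C hs hH₄ hy hu
    apply huD
    rw [hc]
    exact D.smul_mem c p3
  let be : g →ₗ[ℝ] W :=
    { toFun := fun Z => φ (s.op Z u)
      map_add' := by
        intro A A'
        rw [s.add, LinearMap.add_apply, map_add]
      map_smul' := by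
        intro r A
        rw [s.smul, LinearMap.smul_apply, map_smul, RingHom.id_apply, Complex.coe_smul] }
  have hbe : ∀ Z, be Z = φ (s.op Z u) := fun Z => rfl
  obtain ⟨w, hw, hZw⟩ := cocycle_solve t C hH₁ (ze := mu - y + y') (C.a.add_mem hlaC hy'C)
    (N04_cas t C ht hH₁ hv) be
    (by
      intro al hal hp Z hZ
      rw [hbe, hbe, s.lin, LinearMap.smul_apply, map_smul])
    (by
      intro al hal hp Z hZ al' hal' hp' Z' hZ'
      rw [hbe, hbe, hbe, s.bracket, map_sub, q2 al hal hp Z hZ _ (hZu al' hal' hp' Z' hZ'),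
        q2 al' hal' hp' Z' hZ' _ (hZu al hal hp Z hZ)])
    (by
      intro al hal hp Z hZ H hH
      rw [hbe, q3 H hH _ (hZu al hal hp Z hZ), wt_shift s C hZ hu H hH, map_smul, ← add_smul,
        ← Complex.ofReal_add, ← inner_add_left]
      congr 3
      abel)
    (N04_num s C hs hH₁ hH₄ hmu hy hla ⟨hy'C, u, hu0, hu⟩ hle hyne).ne
  obtain ⟨f₀, hf0, hf1⟩ := Submodule.exists_dual_map_eq_bot_of_notMem huD inferInstance
  have hf2 : ∀ x ∈ D, f₀ x = 0 := by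
    intro x hx
    have h1 : f₀ x ∈ D.map f₀ := Submodule.mem_map_of_mem hx
    rw [hf1] at h1
    exact (Submodule.mem_bot ℂ).1 h1
  let φ' : Y →ₗ[ℂ] W := φ + ((f₀ u)⁻¹ • f₀).smulRight (w - φ u)
  have hφ' : ∀ x, φ' x = φ x + ((f₀ u)⁻¹ * f₀ x) • (w - φ u) := fun x => rfl
  have hD' : ∀ x ∈ D, φ' x = φ x := by
    intro x hx
    rw [hφ', hf2 x hx, mul_zero, zero_smul, add_zero]
  have hu' : φ' u = w := by
    rw [hφ', inv_mul_cancel₀ hf0, one_smul, add_sub_cancel]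
  have huspan : u ∈ D ⊔ Submodule.span ℂ {u} :=
    Submodule.mem_sup_right (Submodule.mem_span_singleton_self u)
  have hDle : D ≤ D ⊔ Submodule.span ℂ {u} := le_sup_left
  have hind : ∀ S : Submodule ℂ Y, D ≤ S → u ∈ S → ∀ x ∈ D ⊔ Submodule.span ℂ {u}, x ∈ S := by
    intro S h1 h2 x hx
    exact (sup_le h1 ((Submodule.span_singleton_le_iff_mem u S).2 h2)) hx
  refine ⟨D ⊔ Submodule.span ℂ {u}, ?_, ?_, ?_, hDle p3, ?_, φ', ?_, ?_, ?_⟩
  · refine lt_of_le_of_ne hDle ?_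
    intro h
    apply huD
    rw [h]
    exact huspan
  · intro al hal hp Z hZ
    exact hind ((D ⊔ Submodule.span ℂ {u}).comap (s.op Z))
      (fun x hx => hDle (p1 al hal hp Z hZ x hx)) (hDle (hZu al hal hp Z hZ))
  · intro H hH
    refine hind ((D ⊔ Submodule.span ℂ {u}).comap (s.op H))
      (fun x hx => hDle (p2 H hH x hx)) ?_
    show s.op H u ∈ D ⊔ Submodule.span ℂ {u}
    rw [hu H hH]
    exact Submodule.smul_mem _ _ huspan
  · intro y'' hy'' hn x hx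
    exact hDle (p4 y'' hy'' hn x hx)
  · rw [hD' y₁ p3, q1]
  · intro al hal hp Z hZ x hx
    have h1 : x ∈ LinearMap.ker (φ' ∘ₗ s.op Z - t.op Z ∘ₗ φ') := by
      refine hind _ ?_ ?_ x hx
      · intro z hz
        show φ' (s.op Z z) - t.op Z (φ' z) = 0
        rw [hD' z hz, hD' _ (p1 al hal hp Z hZ z hz), q2 al hal hp Z hZ z hz, sub_self]
      · show φ' (s.op Z u) - t.op Z (φ' u) = 0
        rw [hu', hD' _ (hZu al hal hp Z hZ), hZw al hal hp Z hZ, hbe, sub_self]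
    exact sub_eq_zero.1 h1
  · intro H hH x hx
    have h1 : x ∈ LinearMap.ker
        (t.op H ∘ₗ φ' - (φ' ∘ₗ s.op H + (⟪mu - y, H⟫_ℝ : ℂ) • φ')) := by
      refine hind _ ?_ ?_ x hx
      · intro z hz
        show t.op H (φ' z) - (φ' (s.op H z) + (⟪mu - y, H⟫_ℝ : ℂ) • φ' z) = 0
        rw [hD' z hz, hD' _ (p2 H hH z hz), q3 H hH z hz, sub_self]
      · show t.op H (φ' u) - (φ' (s.op H u) + (⟪mu - y, H⟫_ℝ : ℂ) • φ' u) = 0
        rw [hu H hH, map_smul, hu', hw H hH, ← add_smul, ← Complex.ofReal_add, ← inner_add_left,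
          add_comm y' (mu - y), sub_self]
    exact sub_eq_zero.1 h1

theorem prv_phi (C : CSub L) (t : CRep J W) (ht : Irr t) (s : CRep J Y) (hs : Irr s)
    {H₁ H₄ mu y : g} (hH₁ : Reg L C.a H₁) (hH₄ : Reg L C.a H₄) {v : W} {y₁ : Y}
    (hv : HW t C.a H₁ mu v) (hy : HW s C.a H₄ y y₁)
    (hla : ∀ al ∈ roots L C.a, 0 < ⟪al, H₁⟫_ℝ → 0 ≤ ⟪al, mu - y⟫_ℝ) :
    ∃ φ : Y →ₗ[ℂ] W, φ y₁ = v ∧
      (∀ al ∈ C.a, 0 < ⟪al, H₁⟫_ℝ → ∀ Z, RV L C.a al Z → ∀ u, φ (s.op Z u) = t.op Z (φ u)) ∧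
      ∀ H ∈ C.a, ∀ u, t.op H (φ u) = φ (s.op H u) + (⟪mu - y, H⟫_ℝ : ℂ) • φ u := by
  obtain ⟨D, hD, hmax⟩ := WellFounded.has_min
    (wellFounded_gt : WellFounded ((· > ·) : Submodule ℂ Y → Submodule ℂ Y → Prop))
    {D | N04_Pr C t s H₁ mu y v y₁ D} (N04_start C t s hH₁ hv hy)
  have htop : D = ⊤ := by
    by_contra hne
    obtain ⟨D', hlt, hD'⟩ := N04_step C t ht s hs hH₁ hH₄ hv hy hla D hD hne
    exact hmax D' hD' hlt
  obtain ⟨-, -, -, -, φ, h1, h2, h3⟩ := hD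
  rw [htop] at h2 h3
  exact ⟨φ, h1, fun al hal hp Z hZ u => h2 al hal hp Z hZ u trivial,
    fun H hH u => h3 H hH u trivial⟩

end

end Pool.Agent.Lib.MP_4322ef_CH
end

section

/-!
# The component `V(mu - y)` of `W ⊗ Y*` (Parthasarathy, Ranga Rao, Varadarajan)

* `prv_exists`: `φ` of `prv_phi`, `U` of `exists_hom`, `u = h⁻¹ φ`. It is a highest weight vector of weight `mu - y`
  (for `pos`: `Z` with `[H₁, Z] = r Z`, `r > 0`, is a sum of positive root vectors by `span_eig`). `u₀` for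
  `w = v`, `y = y₁`: `⟪u₀, u⟫ = ⟪v, v⟫ ≠ 0`. `exists_irr` gives `V`, `t`, `v'`; `b v y = h v y`.
* `wt_int`: `sl2_refl` as in `wt_refl` (file W03) gives `q = c + p` with naturals `p`, `q` (for
  `0 ≤ ⟪lam, al⟫`; otherwise use `-al`).
* `hw_change`: `ext_kill` (file W05) and `span_eig`.
* `common_chm`: `H₁` from `exists_chm` (file R04, with `exists_P`) for `x₁ = mu + (mu - y)`. If `0 < ⟪al, mu⟫` then
  `⟪al, al⟫ ≤ 2 ⟪al, mu⟫` by integrality, so `0 ≤ ⟪al, mu - y⟫`; the same with `-al`. So if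
  `0 ≤ ⟪al, mu + (mu - y)⟫` then both summands are `≥ 0`.
-/

set_option autoImplicit false

open scoped InnerProductSpace

namespace Pool.Agent.Lib.MP_4322ef_CH

open Pool.Agent.Lib.MP_4322ef_al.SR

variable {g : Type} [NormedAddCommGroup g] [InnerProductSpace ℝ g] {L : RedLie g}

section
variable {J : CStr L} {W : Type} [NormedAddCommGroup W] [InnerProductSpace ℂ W]
  {Y : Type} [NormedAddCommGroup Y] [InnerProductSpace ℂ Y]
variable [FiniteDimensional ℝ g] [FiniteDimensional ℂ W] [FiniteDimensional ℂ Y]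

omit [FiniteDimensional ℂ W] in
/-- a statement for the positive root vectors extends to their span -/
theorem N06_pos (C : CSub L) (t : CRep J W) {H₁ : g} (hH₁ : H₁ ∈ C.a) {v : W}
    (h : ∀ al ∈ C.a, 0 < ⟪al, H₁⟫_ℝ → ∀ Z, RV L C.a al Z → t.op Z v = 0) {Z : g} {r : ℝ}
    (hr : 0 < r) (hZ : L.br H₁ Z = r • Z) : t.op Z v = 0 := by
  have h1 := span_eig C hH₁ hZ
  clear hZ
  induction h1 using Submodule.span_induction with
  | mem x hx =>
    obtain ⟨lam, hlam, hx, hr'⟩ := hx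
    exact h lam hlam (by rw [hr']; exact hr) x hx
  | zero => rw [Rep.zero', LinearMap.zero_apply]
  | add x y _ _ hx hy => rw [t.add, LinearMap.add_apply, hx, hy, add_zero]
  | smul c x _ hx => rw [t.smul, LinearMap.smul_apply, hx, smul_zero]

theorem prv_exists (C : CSub L) (t : CRep J W) (ht : Irr t) (s : CRep J Y) (hs : Irr s)
    {H₁ H₄ mu y : g} (hH₁ : Reg L C.a H₁) (hH₄ : Reg L C.a H₄) {v : W} {y₁ : Y}
    (hv : HW t C.a H₁ mu v) (hy : HW s C.a H₄ y y₁)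
    (hla : ∀ al ∈ roots L C.a, 0 < ⟪al, H₁⟫_ℝ → 0 ≤ ⟪al, mu - y⟫_ℝ) :
    ∃ (V : Type) (_ : NormedAddCommGroup V) (_ : InnerProductSpace ℂ V)
      (_ : FiniteDimensional ℂ V) (q : CRep J V) (b : V →ₗ[ℂ] Y →ₗ[ℂ] W), Irr q ∧
      (∀ Z v y, t.op Z (b v y) = b (q.op Z v) y + b v (s.op Z y)) ∧
      ∃ v' : V, HW q C.a H₁ (mu - y) v' ∧ b v' y₁ ≠ 0 := by
  obtain ⟨φ, hφ1, hφn, hφa⟩ := prv_phi C t ht s hs hH₁ hH₄ hv hy hla
  obtain ⟨U, i1, i2, i3, q, h, hop, hdual⟩ := exists_hom t s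
  let u : U := h.symm φ
  have hhu : h u = φ := h.apply_symm_apply φ
  have hu : HW q C.a H₁ (mu - y) u := by
    refine ⟨C.a.sub_mem hv.mem hy.mem, ?_, ?_, ?_⟩
    · intro h0
      apply hv.ne
      rw [← hφ1, ← hhu, h0, map_zero, LinearMap.zero_apply]
    · intro H hH
      apply h.injective
      ext x
      rw [hop, hhu, hφa H hH, map_smul, hhu, LinearMap.smul_apply]
      abel
    · rintro Z ⟨r, hr, hZ⟩
      refine N06_pos C q hH₁.1 ?_ hr hZ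
      intro al hal hpos Z hZ
      apply h.injective
      ext x
      rw [hop, hhu, hφn al hal hpos Z hZ, sub_self, map_zero, LinearMap.zero_apply]
  obtain ⟨u₀, hu₀⟩ := hdual v y₁
  have h0 : ⟪u₀, u⟫_ℂ ≠ 0 := by
    rw [hu₀, hhu, hφ1]
    exact inner_self_ne_zero.2 hv.ne
  obtain ⟨V, q', hirr, hq', v', hv', hv0⟩ := exists_irr q C hu u₀ h0
  refine ⟨V, inferInstance, inferInstance, inferInstance, q', h.toLinearMap ∘ₗ V.subtype, hirr, ?_,
    v', hv', ?_⟩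
  · intro Z x z
    have h1 : h (((q'.op Z x : V) : U)) z = t.op Z (h (x : U) z) - h (x : U) (s.op Z z) := by
      rw [hq', hop]
    show t.op Z (h (x : U) z) = h (((q'.op Z x : V) : U)) z + h (x : U) (s.op Z z)
    rw [h1, sub_add_cancel]
  · intro h1
    apply hv0
    rw [hu₀]
    have h2 : h (v' : U) y₁ = 0 := h1
    rw [h2, inner_zero_right]

omit [FiniteDimensional ℝ g] in
theorem wt_int (t : CRep J W) (C : CSub L) {lam al : g} (h : IsW t C.a lam)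
    (ha : al ∈ roots L C.a) : ∃ k : ℤ, 2 * ⟪lam, al⟫_ℝ = k * ⟪al, al⟫_ℝ := by
  have key : ∀ al ∈ roots L C.a, 0 ≤ ⟪lam, al⟫_ℝ →
      ∃ k : ℤ, 2 * ⟪lam, al⟫_ℝ = k * ⟪al, al⟫_ℝ := by
    intro al h' h0
    obtain ⟨hal, hne, -⟩ := id h'
    obtain ⟨hlam, v, hv0, hv⟩ := h
    obtain ⟨E, hE, hE0, r1, r2, r3⟩ := root_triple C h'
    have hp : 0 < ⟪al, al⟫_ℝ := real_inner_self_pos.2 hne
    have hsm : ∀ A : g, t.op ((2 : ℝ) • A) = (2 : ℝ) • t.op A := by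
      intro A
      rw [t.smul]
      ext x
      rw [LinearMap.smul_apply, LinearMap.smul_apply, Complex.coe_smul]
    obtain ⟨p, q, hq, hpq⟩ := sl2_refl ((t.op E).restrictScalars ℝ)
      ((t.op (-L.th E)).restrictScalars ℝ) ((t.op ((2 / ⟪al, al⟫_ℝ) • al)).restrictScalars ℝ)
      (fun x => by
        show t.op ((2 / ⟪al, al⟫_ℝ) • al) (t.op E x) - t.op E (t.op ((2 / ⟪al, al⟫_ℝ) • al) x) =
          (2 : ℝ) • t.op E x
        rw [← t.bracket, r2, hsm, LinearMap.smul_apply])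
      (fun x => by
        show t.op ((2 / ⟪al, al⟫_ℝ) • al) (t.op (-L.th E) x)
          - t.op (-L.th E) (t.op ((2 / ⟪al, al⟫_ℝ) • al) x) = -((2 : ℝ) • t.op (-L.th E) x)
        rw [← t.bracket, r3, Rep.neg', LinearMap.neg_apply, hsm, LinearMap.smul_apply])
      (fun x => by
        show t.op E (t.op (-L.th E) x) - t.op (-L.th E) (t.op E x) =
          t.op ((2 / ⟪al, al⟫_ℝ) • al) x
        rw [← t.bracket, r1])
      (c := 2 / ⟪al, al⟫_ℝ * ⟪lam, al⟫_ℝ) (by positivity) hv0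
      (by
        show t.op ((2 / ⟪al, al⟫_ℝ) • al) v = _
        rw [t.smul, LinearMap.smul_apply, hv al hal, Complex.coe_smul, Complex.coe_smul,
          smul_smul])
    refine ⟨(q : ℤ) - p, ?_⟩
    push_cast
    rw [hq]
    field_simp
    ring
  rcases le_total 0 ⟪lam, al⟫_ℝ with h0 | h0
  · exact key al ha h0
  · obtain ⟨k, hk⟩ := key (-al) (roots_neg C ha) (by rw [inner_neg_right]; linarith)
    refine ⟨-k, ?_⟩
    rw [inner_neg_right, inner_neg_right, inner_neg_left, neg_neg] at hk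
    push_cast
    linarith

omit [FiniteDimensional ℂ W] in
theorem hw_change (t : CRep J W) (C : CSub L) {H' H₁ mu : g} {v : W} (hH' : Reg L C.a H')
    (h : HW t C.a H' mu v) (hH₁ : Reg L C.a H₁)
    (hd : ∀ al ∈ roots L C.a, 0 < ⟪al, H₁⟫_ℝ → 0 ≤ ⟪al, mu⟫_ℝ) : HW t C.a H₁ mu v := by
  refine ⟨h.mem, h.ne, h.wt, ?_⟩
  rintro Z ⟨r, hr, hZ⟩
  refine N06_pos C t hH₁.1 ?_ hr hZ
  intro al hal hpos Z hZ
  by_cases hZ0 : Z = 0
  · rw [hZ0, Rep.zero', LinearMap.zero_apply]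
  have hal0 : al ≠ 0 := by
    rintro rfl
    rw [inner_zero_left] at hpos
    exact lt_irrefl _ hpos
  exact ext_kill t C hH' h hal hal0 hZ (hd al ⟨hal, hal0, Z, hZ0, hZ⟩ hpos)

end

theorem common_chm [FiniteDimensional ℝ g] (C : CSub L) {mu y : g} (hmu : mu ∈ C.a)
    (hy : y ∈ C.a)
    (hint : ∀ al ∈ roots L C.a, ∃ k : ℤ, 2 * ⟪mu, al⟫_ℝ = k * ⟪al, al⟫_ℝ) (hmin : Mins L C.a y) :
    ∃ H₁, Reg L C.a H₁ ∧ ∀ al ∈ roots L C.a, 0 < ⟪al, H₁⟫_ℝ →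
      0 ≤ ⟪al, mu⟫_ℝ ∧ 0 ≤ ⟪al, mu - y⟫_ℝ := by
  obtain ⟨P, hP, hPm, hPh, hPv, hP0⟩ := exists_P C
  obtain ⟨H, hH, hHd⟩ := exists_chm hP0 (⟨mu, hmu⟩ + (⟨mu, hmu⟩ - ⟨y, hy⟩) : C.a) 0
  have hkey : ∀ al ∈ roots L C.a, 0 < ⟪al, mu⟫_ℝ → 0 ≤ ⟪al, mu - y⟫_ℝ := by
    intro al ha h0
    have hp : 0 < ⟪al, al⟫_ℝ := real_inner_self_pos.2 ha.2.1
    obtain ⟨k, hk⟩ := hint al ha
    rw [real_inner_comm] at hk
    have hk1 : (1 : ℝ) ≤ k := by
      have h1 : (0 : ℝ) < k := by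
        by_contra hcon
        have h2 : (k : ℝ) * ⟪al, al⟫_ℝ ≤ 0 := mul_nonpos_of_nonpos_of_nonneg (not_lt.1 hcon) hp.le
        linarith
      have h2 : 0 < k := by exact_mod_cast h1
      exact_mod_cast h2
    have h1 := hmin al ha
    have h2 := le_abs_self ⟪y, al⟫_ℝ
    have h3 : ⟪al, al⟫_ℝ ≤ k * ⟪al, al⟫_ℝ := by nlinarith
    rw [inner_sub_right, real_inner_comm y al]
    linarith
  refine ⟨H, ⟨H.2, fun al ha => hH ⟨al, ha.1⟩ ((hPm _).2 ha)⟩, ?_⟩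
  intro al ha hpos
  have h1 := (hHd ⟨al, ha.1⟩ ((hPm _).2 ha) hpos).1
  have h2 : 0 ≤ ⟪al, mu⟫_ℝ + ⟪al, mu - y⟫_ℝ := by
    rw [← inner_add_right]
    exact h1
  have hneg := hkey (-al) (roots_neg C ha)
  rw [inner_neg_left, inner_neg_left] at hneg
  have hpo := hkey al ha
  rcases lt_trichotomy ⟪al, mu⟫_ℝ 0 with h | h | h
  · have := hneg (by linarith)
    linarith
  · rw [h] at h2 ⊢
    exact ⟨le_refl _, by linarith⟩
  · exact ⟨h.le, hpo h⟩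

end Pool.Agent.Lib.MP_4322ef_CH
end

section

/-!
# Weights of irreducible representations

* `wt_diff`: as in the proof of `hw_bound` (file W04): `hw_gen` for the span of the weight vectors whose weight differs from `be` by
  an element of the closure; `W04_stable`, `wt_shift`; then `wt_orth`.
* `wt_long`: `exists_hw` gives a highest weight vector `v'` for `H'`, of weight `be'`. `N04_norm` (file N04, for `hv`):
  `⟪be', be'⟫ ≤ ⟪be, be⟫ ≤ ⟪lam, lam⟫`. `hw_bound` for `v'` and `c = lam`: `⟪lam, lam⟫ ≤ ⟪be', lam⟫`. So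
  `⟪be' - lam, be' - lam⟫ ≤ 0`, `be' = lam`, and `x` is a multiple of `v'` (`hw_mult`).
* `qm_of`: let `lam ≠ 0` be a weight. Claim: `⟪w, w⟫ ≤ ⟪be, be⟫` for every root `be` with `⟪lam, be⟫ ≠ 0`. Replacing `be` by
  `-be` let `⟪lam, be⟫ > 0`. Choose `H'` regular with `be` dominant for `H'` (`exists_chm`, file R04, as in
  `exists_comm`, file N08). By `move'` (file R08) with `H'` and
  `Q z := IsW s C.a z ∧ LShort L C.a z ∧ ⟪z, z⟫ = ⟪w, w⟫` (`wt_refl`, file W03, `lshort_refl`) there is an `H'`-dominant `z`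
  with these properties; by `wt_long` it is the highest weight for `H'`. `hw_bound` with `c = be`: `0 < ⟪lam, be⟫ ≤ ⟪z, be⟫`, so
  `⟪w, w⟫ = ⟪z, z⟫ ≤ ⟪be, be⟫`. Now `lam ∈ closure roots` (`wt_diff`, `w ∈ roots`), so `root_closure` gives a root `be` with
  `⟪be, be⟫ ≤ ⟪lam, be⟫`. With `⟪lam, lam⟫ ≤ ⟪w, w⟫ ≤ ⟪be, be⟫` (`N04_norm` and the claim) we get
  `⟪lam - be, lam - be⟫ ≤ 0`, so `lam = be` is a root, `⟪lam, lam⟫ = ⟪w, w⟫`, and `LShort` is the claim.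
* `qm_hw`: for a chamber `H'` with `lam` dominant the highest weight `be'` of `s` is not zero (`hw_bound` with `c = lam`), so
  `⟪be', be'⟫ = q = ⟪lam, lam⟫`; `wt_long`.
-/

set_option autoImplicit false

open scoped InnerProductSpace

namespace Pool.Agent.Lib.MP_4322ef_CH

open Pool.Agent.Lib.MP_4322ef_al.SR

variable {g : Type} [NormedAddCommGroup g] [InnerProductSpace ℝ g] {L : RedLie g}
  [FiniteDimensional ℝ g]

section
variable {J : CStr L} {W : Type} [NormedAddCommGroup W] [InnerProductSpace ℂ W]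
  [FiniteDimensional ℂ W]

theorem wt_diff (t : CRep J W) (C : CSub L) (ht : Irr t) {H₁ be : g} {v : W}
    (hH₁ : Reg L C.a H₁) (hv : HW t C.a H₁ be v) {lam : g} (hl : IsW t C.a lam) :
    be - lam ∈ AddSubgroup.closure (roots L C.a) := by
  obtain ⟨hl1, x, hx0, hx⟩ := hl
  by_contra hcon
  have htop := hw_gen t C ht hH₁ hv
    (Submodule.span ℂ {u | ∃ lam' ∈ C.a, WV t C.a lam' u ∧
      be - lam' ∈ AddSubgroup.closure (roots L C.a)})
    (Submodule.subset_span ⟨be, hv.mem, hv.wt, by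
      rw [sub_self]
      exact AddSubgroup.zero_mem _⟩) (by
      refine W04_stable t C hH₁.1 _ ?_
      rintro al Z hZ hal hZ0 hneg u ⟨lam', hl', hu, hle⟩
      refine Submodule.subset_span ⟨al + lam', C.a.add_mem hal hl', wt_shift t C hZ hu, ?_⟩
      have hal0 : al ≠ 0 := by
        rintro rfl
        rw [inner_zero_left] at hneg
        exact lt_irrefl _ hneg
      have hroot : al ∈ roots L C.a := ⟨hal, hal0, Z, hZ0, hZ⟩
      have h4 : be - (al + lam') = (be - lam') - al := by abel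
      rw [h4]
      exact AddSubgroup.sub_mem _ hle (AddSubgroup.subset_closure hroot))
  have hxx : ∀ y ∈ Submodule.span ℂ {u | ∃ lam' ∈ C.a, WV t C.a lam' u ∧
      be - lam' ∈ AddSubgroup.closure (roots L C.a)}, ⟪x, y⟫_ℂ = 0 := by
    intro y hy
    refine Submodule.span_induction (p := fun y _ => ⟪x, y⟫_ℂ = 0) ?_ ?_ ?_ ?_ hy
    · rintro u ⟨lam', hl', hu, hle⟩
      refine wt_orth t C hl1 hl' hx hu ?_
      rintro rfl
      exact hcon hle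
    · exact inner_zero_right x
    · intro a b _ _ ha hb
      rw [inner_add_right, ha, hb, add_zero]
    · intro r a _ ha
      rw [inner_smul_right, ha, mul_zero]
  have hxt : x ∈ Submodule.span ℂ {u | ∃ lam' ∈ C.a, WV t C.a lam' u ∧
      be - lam' ∈ AddSubgroup.closure (roots L C.a)} := by
    rw [htop]
    exact Submodule.mem_top
  exact hx0 (inner_self_eq_zero.1 (hxx x hxt))

theorem E04_eq {x y : g} (h : ⟪x, x⟫_ℝ - 2 * ⟪x, y⟫_ℝ + ⟪y, y⟫_ℝ ≤ 0) : x = y := by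
  have h1 : ⟪x - y, x - y⟫_ℝ = ⟪x, x⟫_ℝ - 2 * ⟪x, y⟫_ℝ + ⟪y, y⟫_ℝ := by
    rw [inner_sub_left, inner_sub_right, inner_sub_right, real_inner_comm x y]
    ring
  have h2 : ⟪x - y, x - y⟫_ℝ = 0 := le_antisymm (h1 ▸ h) real_inner_self_nonneg
  exact sub_eq_zero.1 (inner_self_eq_zero.1 h2)

theorem E04_sr {a : Submodule ℝ g} (al x : a) : ((sr al x : a) : g) = sr (al : g) (x : g) := rfl

theorem wt_long (t : CRep J W) (C : CSub L) (ht : Irr t) {H₁ be : g} {v : W}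
    (hH₁ : Reg L C.a H₁) (hv : HW t C.a H₁ be v) {lam : g} (hl : lam ∈ C.a) {x : W}
    (hx : WV t C.a lam x) (hx0 : x ≠ 0) (hn : ⟪be, be⟫_ℝ ≤ ⟪lam, lam⟫_ℝ) {H' : g}
    (hH' : Reg L C.a H') (hd : ∀ al ∈ roots L C.a, 0 < ⟪al, H'⟫_ℝ → 0 ≤ ⟪al, lam⟫_ℝ) :
    HW t C.a H' lam x := by
  have hW : Nontrivial W := ⟨x, 0, hx0⟩
  obtain ⟨be', v', hv'⟩ := exists_hw t C hH'
  have h1 : ⟪be', be'⟫_ℝ ≤ ⟪be, be⟫_ℝ :=
    N04_norm t C ht hH₁ hv ⟨hv'.mem, v', hv'.ne, hv'.wt⟩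
  have h2 : ⟪lam, lam⟫_ℝ ≤ ⟪be', lam⟫_ℝ := hw_bound t C ht hH' hv' ⟨hl, x, hx0, hx⟩ hl hd
  have h3 : be' = lam := E04_eq (by linarith)
  subst h3
  obtain ⟨c, hc⟩ := hw_mult t C ht hH' hv' hx
  refine ⟨hl, hx0, hx, fun Z hZ => ?_⟩
  rw [hc, map_smul, hv'.pos Z hZ, smul_zero]

theorem qm_of (t : CRep J W) (C : CSub L) (ht : Irr t) {H₁ w : g} {v : W}
    (hH₁ : Reg L C.a H₁) (hv : HW t C.a H₁ w v) (hw : LShort L C.a w) : QM C t ⟪w, w⟫_ℝ := by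
  have key : ∀ lam, IsW t C.a lam → ∀ be ∈ roots L C.a, 0 < ⟪lam, be⟫_ℝ →
      ⟪w, w⟫_ℝ ≤ ⟪be, be⟫_ℝ := by
    intro lam hlam be hbe hpos
    obtain ⟨P, hP, hPm, hPh, hPv, hP0⟩ := exists_P C
    obtain ⟨H, hH, hHd⟩ := exists_chm hP0 (⟨be, hbe.1⟩ : C.a) 0
    have hR : Reg L C.a (H : g) := ⟨H.2, fun al ha => hH ⟨al, ha.1⟩ ((hPm _).2 ha)⟩
    have hdom : ∀ al ∈ roots L C.a, 0 < ⟪al, (H : g)⟫_ℝ → 0 ≤ ⟪al, be⟫_ℝ := fun al ha hp =>
      (hHd ⟨al, ha.1⟩ ((hPm _).2 ha) hp).1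
    obtain ⟨z, ⟨hz1, hz2, hz3⟩, hzC⟩ := move' hP H (fun z : C.a =>
      IsW t C.a (z : g) ∧ LShort L C.a (z : g) ∧ ⟪(z : g), (z : g)⟫_ℝ = ⟪w, w⟫_ℝ) (by
        rintro x ⟨hx1, hx2, hx3⟩ al hal _ _
        have hal' : (al : g) ∈ roots L C.a := (hPm al).1 hal
        rw [E04_sr]
        refine ⟨wt_refl t C hx1 hal', lshort_refl C hx2 hal', ?_⟩
        rw [sr_isom hal'.2.1, hx3]) ⟨w, hv.mem⟩ ⟨⟨hv.mem, v, hv.ne, hv.wt⟩, hw, rfl⟩
    have hzd : ∀ al ∈ roots L C.a, 0 < ⟪al, (H : g)⟫_ℝ → 0 ≤ ⟪al, (z : g)⟫_ℝ := fun al ha hp =>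
      hzC ⟨al, ha.1⟩ ((hPm _).2 ha) hp
    obtain ⟨-, x, hx0, hx⟩ := hz1
    have h1 := wt_long t C ht hH₁ hv z.2 hx hx0 (le_of_eq hz3.symm) hR hzd
    have h2 : ⟪lam, be⟫_ℝ ≤ ⟪(z : g), be⟫_ℝ := hw_bound t C ht hR h1 hlam hbe.1 hdom
    have h3 := hz2.2 be hbe (by
      rw [real_inner_comm]
      linarith)
    linarith
  have key2 : ∀ lam, IsW t C.a lam → ∀ be ∈ roots L C.a, ⟪lam, be⟫_ℝ ≠ 0 →
      ⟪w, w⟫_ℝ ≤ ⟪be, be⟫_ℝ := by
    intro lam hlam be hbe hne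
    rcases lt_or_gt_of_ne hne with h | h
    · have h1 := key lam hlam (-be) (roots_neg C hbe) (by
        rw [inner_neg_right]
        linarith)
      rwa [inner_neg_neg] at h1
    · exact key lam hlam be hbe h
  intro lam hlam h0
  have hcl : lam ∈ AddSubgroup.closure (roots L C.a) := by
    have h1 := wt_diff t C ht hH₁ hv hlam
    have h2 := AddSubgroup.sub_mem _ (AddSubgroup.subset_closure hw.1) h1
    rwa [sub_sub_cancel] at h2
  obtain ⟨be, hbe, hb⟩ := root_closure C hcl h0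
  have hbp : 0 < ⟪be, be⟫_ℝ := real_inner_self_pos.2 hbe.2.1
  have h1 : ⟪lam, lam⟫_ℝ ≤ ⟪w, w⟫_ℝ := N04_norm t C ht hH₁ hv hlam
  have h2 : ⟪w, w⟫_ℝ ≤ ⟪be, be⟫_ℝ := key lam hlam be hbe (by linarith)
  have h3 : lam = be := E04_eq (by linarith)
  subst h3
  have h4 : ⟪lam, lam⟫_ℝ = ⟪w, w⟫_ℝ := le_antisymm h1 h2
  refine ⟨⟨hbe, fun be' hbe' hne => ?_⟩, h4⟩
  rw [h4]
  refine key2 lam hlam be' hbe' ?_
  rw [real_inner_comm]
  exact hne

theorem qm_hw (t : CRep J W) (C : CSub L) (ht : Irr t) {q : ℝ} (hq : QM C t q) {lam : g}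
    (hl : lam ∈ C.a) (h0 : lam ≠ 0) {x : W} (hx : WV t C.a lam x) (hx0 : x ≠ 0) {H' : g}
    (hH' : Reg L C.a H') (hd : ∀ al ∈ roots L C.a, 0 < ⟪al, H'⟫_ℝ → 0 ≤ ⟪al, lam⟫_ℝ) :
    HW t C.a H' lam x := by
  have hW : Nontrivial W := ⟨x, 0, hx0⟩
  obtain ⟨be', v', hv'⟩ := exists_hw t C hH'
  have h1 : IsW t C.a be' := ⟨hv'.mem, v', hv'.ne, hv'.wt⟩
  have h2 : IsW t C.a lam := ⟨hl, x, hx0, hx⟩
  have h3 : ⟪lam, lam⟫_ℝ ≤ ⟪be', lam⟫_ℝ := hw_bound t C ht hH' hv' h2 hl hd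
  have h4 : 0 < ⟪lam, lam⟫_ℝ := real_inner_self_pos.2 h0
  have h5 : be' ≠ 0 := by
    rintro rfl
    rw [inner_zero_left] at h3
    linarith
  have h6 := (hq be' h1 h5).2
  have h7 := (hq lam h2 h0).2
  exact wt_long t C ht hH' hv' hl hx hx0 (by rw [h6, h7]) hH' hd

end

end Pool.Agent.Lib.MP_4322ef_CH
end

section

/-!
# One step: maps and their extension

* `phi_to`: the proof of `prv_exists` (file N06), with `w = φ y₁` in the property `hdual` of `exists_hom`.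
* `phi_ext`: the proof of `prv_phi` / `N04_step` (file N04): let `D ⊇ D₀` be a submodule stable under the positive root vectors and
  `a`, with a map `φ` with the two properties on `D` and `φ = φ₀` on `D₀`, of maximal dimension. If `D ≠ ⊤` let `u ∉ D` be a weight
  vector whose weight `y'` has the largest `⟪y', H₁⟫`; then `Z u ∈ D` for the positive root vectors `Z`; the Casimir scalar of `t` is
  `⟪la, la⟫ + R la` (`N04_cas`); `cocycle_solve` (file N03) for `be Z = φ (Z u)`, `ze = la + y'` (`hD`), and extend as in `N04_step`.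
-/

set_option autoImplicit false

open scoped InnerProductSpace

namespace Pool.Agent.Lib.MP_4322ef_CH

open Pool.Agent.Lib.MP_4322ef_al.SR

variable {g : Type} [NormedAddCommGroup g] [InnerProductSpace ℝ g] {L : RedLie g}
  [FiniteDimensional ℝ g]

section
variable {J : CStr L} {W : Type} [NormedAddCommGroup W] [InnerProductSpace ℂ W]
  [FiniteDimensional ℂ W]
  {Y : Type} [NormedAddCommGroup Y] [InnerProductSpace ℂ Y] [FiniteDimensional ℂ Y]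

theorem phi_to (C : CSub L) (t : CRep J W) (s : CRep J Y) {H₁ la : g} (hH₁ : Reg L C.a H₁)
    (hla : la ∈ C.a) (φ : Y →ₗ[ℂ] W)
    (hn : ∀ al ∈ C.a, 0 < ⟪al, H₁⟫_ℝ → ∀ Z, RV L C.a al Z → ∀ u, φ (s.op Z u) = t.op Z (φ u))
    (ha : ∀ H ∈ C.a, ∀ u, t.op H (φ u) = φ (s.op H u) + (⟪la, H⟫_ℝ : ℂ) • φ u) {y₁ : Y}
    (h0 : φ y₁ ≠ 0) :
    ∃ (V : Type) (_ : NormedAddCommGroup V) (_ : InnerProductSpace ℂ V)
      (_ : FiniteDimensional ℂ V) (q : CRep J V) (b : V →ₗ[ℂ] Y →ₗ[ℂ] W), Irr q ∧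
      (∀ Z v y, t.op Z (b v y) = b (q.op Z v) y + b v (s.op Z y)) ∧
      ∃ v' : V, HW q C.a H₁ la v' ∧ b v' y₁ ≠ 0 := by
  obtain ⟨U, i1, i2, i3, q, h, hop, hdual⟩ := exists_hom t s
  let u : U := h.symm φ
  have hhu : h u = φ := h.apply_symm_apply φ
  have hu : HW q C.a H₁ la u := by
    refine ⟨hla, ?_, ?_, ?_⟩
    · intro h1
      apply h0
      rw [← hhu, h1, map_zero, LinearMap.zero_apply]
    · intro H hH
      apply h.injective
      ext x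
      rw [hop, hhu, ha H hH, map_smul, hhu, LinearMap.smul_apply]
      abel
    · rintro Z ⟨r, hr, hZ⟩
      refine N06_pos C q hH₁.1 ?_ hr hZ
      intro al hal hpos Z hZ
      apply h.injective
      ext x
      rw [hop, hhu, hn al hal hpos Z hZ, sub_self, map_zero, LinearMap.zero_apply]
  obtain ⟨u₀, hu₀⟩ := hdual (φ y₁) y₁
  have h1 : ⟪u₀, u⟫_ℂ ≠ 0 := by
    rw [hu₀, hhu]
    exact inner_self_ne_zero.2 h0
  obtain ⟨V, q', hirr, hq', v', hv', hv0⟩ := exists_irr q C hu u₀ h1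
  refine ⟨V, inferInstance, inferInstance, inferInstance, q', h.toLinearMap ∘ₗ V.subtype, hirr, ?_,
    v', hv', ?_⟩
  · intro Z x z
    have h2 : h (((q'.op Z x : V) : U)) z = t.op Z (h (x : U) z) - h (x : U) (s.op Z z) := by
      rw [hq', hop]
    show t.op Z (h (x : U) z) = h (((q'.op Z x : V) : U)) z + h (x : U) (s.op Z z)
    rw [h2, sub_add_cancel]
  · intro h2
    apply hv0
    rw [hu₀]
    have h3 : h (v' : U) y₁ = 0 := h2
    rw [h3, inner_zero_right]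

/-- the property of the submodules in the construction of the extension -/
def E06a_Pr (C : CSub L) (t : CRep J W) (s : CRep J Y) (H₁ la : g) (φ₀ : Y →ₗ[ℂ] W)
    (D₀ D : Submodule ℂ Y) : Prop :=
  D₀ ≤ D ∧
  (∀ al ∈ C.a, 0 < ⟪al, H₁⟫_ℝ → ∀ Z, RV L C.a al Z → ∀ u ∈ D, s.op Z u ∈ D) ∧
  (∀ H ∈ C.a, ∀ u ∈ D, s.op H u ∈ D) ∧
  ∃ φ : Y →ₗ[ℂ] W, (∀ u ∈ D₀, φ u = φ₀ u) ∧
    (∀ al ∈ C.a, 0 < ⟪al, H₁⟫_ℝ → ∀ Z, RV L C.a al Z → ∀ u ∈ D, φ (s.op Z u) = t.op Z (φ u)) ∧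
    ∀ H ∈ C.a, ∀ u ∈ D, t.op H (φ u) = φ (s.op H u) + (⟪la, H⟫_ℝ : ℂ) • φ u

theorem E06a_step (C : CSub L) (t : CRep J W) (ht : Irr t) (s : CRep J Y) {H₁ la : g}
    (hH₁ : Reg L C.a H₁) {v : W} (hv : HW t C.a H₁ la v) (φ₀ : Y →ₗ[ℂ] W) (D₀ : Submodule ℂ Y)
    (hD₁ : ∀ y' ∈ C.a, ∀ u, WV s C.a y' u → u ∉ D₀ →
      ⟪la + y', la + y'⟫_ℝ + R L C.a H₁ (la + y') ≠ ⟪la, la⟫_ℝ + R L C.a H₁ la)
    (D : Submodule ℂ Y) (hD : E06a_Pr C t s H₁ la φ₀ D₀ D) (hne : D ≠ ⊤) :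
    ∃ D', D < D' ∧ E06a_Pr C t s H₁ la φ₀ D₀ D' := by
  obtain ⟨p0, p1, p2, φ, q1, q2, q3⟩ := hD
  have hlaC : la ∈ C.a := hv.mem
  have hex : {lam | lam ∈ C.a ∧ ∃ u, WV s C.a lam u ∧ u ∉ D}.Nonempty := by
    by_contra hcon
    rw [Set.not_nonempty_iff_eq_empty] at hcon
    apply hne
    rw [eq_top_iff]
    intro w _
    have h1 : Submodule.span ℂ {v | ∃ lam ∈ C.a, WV s C.a lam v} ≤ D := by
      refine Submodule.span_le.2 ?_
      rintro u ⟨lam, hlam, hu⟩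
      by_contra hu0
      have h2 : lam ∈ {lam | lam ∈ C.a ∧ ∃ u, WV s C.a lam u ∧ u ∉ D} := ⟨hlam, u, hu, hu0⟩
      rw [hcon] at h2
      exact h2
    exact h1 (wt_span s C w)
  have hfin : {lam | lam ∈ C.a ∧ ∃ u, WV s C.a lam u ∧ u ∉ D}.Finite := by
    refine (wt_finite s C).subset ?_
    rintro lam ⟨hlam, u, hu, huD⟩
    refine ⟨hlam, u, ?_, hu⟩
    rintro rfl
    exact huD D.zero_mem
  obtain ⟨y', ⟨hy'C, u, hu, huD⟩, hmax⟩ :=
    Set.exists_max_image _ (fun lam => ⟪lam, H₁⟫_ℝ) hfin hex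
  have hZu : ∀ al ∈ C.a, 0 < ⟪al, H₁⟫_ℝ → ∀ Z, RV L C.a al Z → s.op Z u ∈ D := by
    intro al hal hp Z hZ
    by_contra hcon
    have h1 := hmax (al + y') ⟨C.a.add_mem hal hy'C, _, wt_shift s C hZ hu, hcon⟩
    simp only [inner_add_left] at h1
    linarith
  let be : g →ₗ[ℝ] W :=
    { toFun := fun Z => φ (s.op Z u)
      map_add' := by
        intro A A'
        rw [s.add, LinearMap.add_apply, map_add]
      map_smul' := by
        intro r A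
        rw [s.smul, LinearMap.smul_apply, map_smul, RingHom.id_apply, Complex.coe_smul] }
  have hbe : ∀ Z, be Z = φ (s.op Z u) := fun Z => rfl
  obtain ⟨w, hw, hZw⟩ := cocycle_solve t C hH₁ (ze := la + y') (C.a.add_mem hlaC hy'C)
    (N04_cas t C ht hH₁ hv) be
    (by
      intro al hal hp Z hZ
      rw [hbe, hbe, s.lin, LinearMap.smul_apply, map_smul])
    (by
      intro al hal hp Z hZ al' hal' hp' Z' hZ'
      rw [hbe, hbe, hbe, s.bracket, map_sub, q2 al hal hp Z hZ _ (hZu al' hal' hp' Z' hZ'),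
        q2 al' hal' hp' Z' hZ' _ (hZu al hal hp Z hZ)])
    (by
      intro al hal hp Z hZ H hH
      rw [hbe, q3 H hH _ (hZu al hal hp Z hZ), wt_shift s C hZ hu H hH, map_smul, ← add_smul,
        ← Complex.ofReal_add, ← inner_add_left]
      congr 3
      abel)
    (hD₁ y' hy'C u hu fun h => huD (p0 h))
  obtain ⟨f₀, hf0, hf1⟩ := Submodule.exists_dual_map_eq_bot_of_notMem huD inferInstance
  have hf2 : ∀ x ∈ D, f₀ x = 0 := by
    intro x hx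
    have h1 : f₀ x ∈ D.map f₀ := Submodule.mem_map_of_mem hx
    rw [hf1] at h1
    exact (Submodule.mem_bot ℂ).1 h1
  let φ' : Y →ₗ[ℂ] W := φ + ((f₀ u)⁻¹ • f₀).smulRight (w - φ u)
  have hφ' : ∀ x, φ' x = φ x + ((f₀ u)⁻¹ * f₀ x) • (w - φ u) := fun x => rfl
  have hD' : ∀ x ∈ D, φ' x = φ x := by
    intro x hx
    rw [hφ', hf2 x hx, mul_zero, zero_smul, add_zero]
  have hu' : φ' u = w := by
    rw [hφ', inv_mul_cancel₀ hf0, one_smul, add_sub_cancel]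
  have huspan : u ∈ D ⊔ Submodule.span ℂ {u} :=
    Submodule.mem_sup_right (Submodule.mem_span_singleton_self u)
  have hDle : D ≤ D ⊔ Submodule.span ℂ {u} := le_sup_left
  have hind : ∀ S : Submodule ℂ Y, D ≤ S → u ∈ S → ∀ x ∈ D ⊔ Submodule.span ℂ {u}, x ∈ S := by
    intro S h1 h2 x hx
    exact (sup_le h1 ((Submodule.span_singleton_le_iff_mem u S).2 h2)) hx
  refine ⟨D ⊔ Submodule.span ℂ {u}, ?_, p0.trans hDle, ?_, ?_, φ', ?_, ?_, ?_⟩
  · refine lt_of_le_of_ne hDle ?_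
    intro h
    apply huD
    rw [h]
    exact huspan
  · intro al hal hp Z hZ
    exact hind ((D ⊔ Submodule.span ℂ {u}).comap (s.op Z))
      (fun x hx => hDle (p1 al hal hp Z hZ x hx)) (hDle (hZu al hal hp Z hZ))
  · intro H hH
    refine hind ((D ⊔ Submodule.span ℂ {u}).comap (s.op H))
      (fun x hx => hDle (p2 H hH x hx)) ?_
    show s.op H u ∈ D ⊔ Submodule.span ℂ {u}
    rw [hu H hH]
    exact Submodule.smul_mem _ _ huspan
  · intro x hx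
    rw [hD' x (p0 hx), q1 x hx]
  · intro al hal hp Z hZ x hx
    have h1 : x ∈ LinearMap.ker (φ' ∘ₗ s.op Z - t.op Z ∘ₗ φ') := by
      refine hind _ ?_ ?_ x hx
      · intro z hz
        show φ' (s.op Z z) - t.op Z (φ' z) = 0
        rw [hD' z hz, hD' _ (p1 al hal hp Z hZ z hz), q2 al hal hp Z hZ z hz, sub_self]
      · show φ' (s.op Z u) - t.op Z (φ' u) = 0
        rw [hu', hD' _ (hZu al hal hp Z hZ), hZw al hal hp Z hZ, hbe, sub_self]
    exact sub_eq_zero.1 h1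
  · intro H hH x hx
    have h1 : x ∈ LinearMap.ker
        (t.op H ∘ₗ φ' - (φ' ∘ₗ s.op H + (⟪la, H⟫_ℝ : ℂ) • φ')) := by
      refine hind _ ?_ ?_ x hx
      · intro z hz
        show t.op H (φ' z) - (φ' (s.op H z) + (⟪la, H⟫_ℝ : ℂ) • φ' z) = 0
        rw [hD' z hz, hD' _ (p2 H hH z hz), q3 H hH z hz, sub_self]
      · show t.op H (φ' u) - (φ' (s.op H u) + (⟪la, H⟫_ℝ : ℂ) • φ' u) = 0
        rw [hu H hH, map_smul, hu', hw H hH, ← add_smul, ← Complex.ofReal_add, ← inner_add_left,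
          add_comm y' la, sub_self]
    exact sub_eq_zero.1 h1

theorem phi_ext (C : CSub L) (t : CRep J W) (ht : Irr t) (s : CRep J Y) {H₁ la : g}
    (hH₁ : Reg L C.a H₁) {v : W} (hv : HW t C.a H₁ la v) (φ₀ : Y →ₗ[ℂ] W) (D₀ : Submodule ℂ Y)
    (hD₀ : ∀ al ∈ C.a, 0 < ⟪al, H₁⟫_ℝ → ∀ Z, RV L C.a al Z → ∀ u ∈ D₀, s.op Z u ∈ D₀)
    (hDa : ∀ H ∈ C.a, ∀ u ∈ D₀, s.op H u ∈ D₀)
    (hn : ∀ al ∈ C.a, 0 < ⟪al, H₁⟫_ℝ → ∀ Z, RV L C.a al Z → ∀ u ∈ D₀,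
      φ₀ (s.op Z u) = t.op Z (φ₀ u))
    (ha : ∀ H ∈ C.a, ∀ u ∈ D₀, t.op H (φ₀ u) = φ₀ (s.op H u) + (⟪la, H⟫_ℝ : ℂ) • φ₀ u)
    (hD : ∀ y' ∈ C.a, ∀ u, WV s C.a y' u → u ∉ D₀ →
      ⟪la + y', la + y'⟫_ℝ + R L C.a H₁ (la + y') ≠ ⟪la, la⟫_ℝ + R L C.a H₁ la) :
    ∃ φ : Y →ₗ[ℂ] W, (∀ u ∈ D₀, φ u = φ₀ u) ∧
      (∀ al ∈ C.a, 0 < ⟪al, H₁⟫_ℝ → ∀ Z, RV L C.a al Z → ∀ u, φ (s.op Z u) = t.op Z (φ u)) ∧
      ∀ H ∈ C.a, ∀ u, t.op H (φ u) = φ (s.op H u) + (⟪la, H⟫_ℝ : ℂ) • φ u := by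
  obtain ⟨D, hD', hmax⟩ := WellFounded.has_min
    (wellFounded_gt : WellFounded ((· > ·) : Submodule ℂ Y → Submodule ℂ Y → Prop))
    {D | E06a_Pr C t s H₁ la φ₀ D₀ D}
    ⟨D₀, le_refl _, hD₀, hDa, φ₀, fun _ _ => rfl, hn, ha⟩
  have htop : D = ⊤ := by
    by_contra hne
    obtain ⟨D', hlt, hD''⟩ := E06a_step C t ht s hH₁ hv φ₀ D₀ hD D hD' hne
    exact hmax D' hD'' hlt
  obtain ⟨-, -, -, φ, h1, h2, h3⟩ := hD'
  rw [htop] at h2 h3
  exact ⟨φ, h1, fun al hal hp Z hZ u => h2 al hal hp Z hZ u trivial,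
    fun H hH u => h3 H hH u trivial⟩

end

end Pool.Agent.Lib.MP_4322ef_CH
end
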