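import Pool.Agent.Lib.MP_4322ef_CE.Mg.G001
import Pool.Agent.Lib.MP_4322ef_CH.Mg.G001
import Pool.Agent.Lib.MP_4322ef_CH.Mg.G002
import Pool.Agent.Lib.MP_4322ef_CE.Mg.G002
import Pool.Agent.Lib.MP_4322ef_CH.Mg.G005
import Pool.Agent.Lib.MP_4322ef_CH.Mg.G008
import Pool.Agent.Lib.MP_4322ef_CH.Mg.G003
import Pool.Agent.Lib.MP_4322ef_CH.N10
import Pool.Agent.Lib.MP_4322ef_CH.Mg.G009

section

/-!
# A vector of weight zero

* `simp_inj`: let `a ga > 0` with `a ga ^ 2 * ⟪Z ga, Z ga⟫ = c ga`, `e = ∑ a ga • Z ga`, `f = -θ e`, `x = ∑ (a ga)⁻¹ • u ga`.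
  Then `op e x = ∑ op (Z ga) (u ga) = 0`: for `ga ≠ de` the vector `op (Z ga) (u de)` has the weight `ga - de`, which is neither zero
  nor a root (`simp_sub`), so it is zero by `hE`. Now
  `0 = ⟪op e x, op e x⟫ = ⟪x, op f (op e x)⟫ = ⟪x, op e (op f x)⟫ - ⟪x, op [e, f] x⟫ = ⟪op f x, op f x⟫ - ⟪x, op [e, f] x⟫`
  (`adj`: the adjoint of `op Z` is `-op (θ Z)`), `[e, f] = ∑ c ga • ga` (`br_th_root`; the mixed brackets have the weight
  `ga - de` and vanish) and `op [e, f] (u de) = -(∑ c ga ⟪ga, de⟫) • u de`, the `u de` are orthogonal (`wt_orth`), so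
  `0 = ⟪op f x, op f x⟫ + ∑_de (∑_ga c ga ⟪ga, de⟫) (a de)⁻² ⟪u de, u de⟫` with positive coefficients.
* `exists_e0`: `S`, `c` from `simp_pos`, root vectors `Z ga ≠ 0` for `ga ∈ S`. `U` = span of the `op (Z ga) u'`,
  `ga ∈ S`, `ga ≠ al`, `u'` of weight `-ga`; these have weight `0`. `e₀ = op (Z al) u` minus its orthogonal projection to `U`. It has weight
  `0`. It is not zero by `simp_inj` (an element of `U` is `∑_{ga ≠ al} op (Z ga) (u' ga)`; take `u al = u`, `u ga = -u' ga`).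
  `⟪e₀, op (Z al) u⟫ = ⟪e₀, e₀⟫ ≠ 0`; every `Z` of weight `al` is `p Z al + q J Z al` (`RV_unique`, file S02), so
  `op Z u = (p + i q) op (Z al) u`. For `ga ≠ al`: `⟪op (θ (Z ga)) e₀, u'⟫ = -⟪e₀, op (Z ga) u'⟫ = 0` for all `u'` of weight
  `-ga`, and `op (θ (Z ga)) e₀` has this weight, so it is zero; the same for multiples of `Z ga`.
-/

set_option autoImplicit false

open scoped InnerProductSpace

namespace Pool.Agent.Lib.MP_4322ef_CH

open Pool.Agent.Lib.MP_4322ef_al.SR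

variable {g : Type} [NormedAddCommGroup g] [InnerProductSpace ℝ g] {L : RedLie g}
  [FiniteDimensional ℝ g]

section
variable {J : CStr L} {W : Type} [NormedAddCommGroup W] [InnerProductSpace ℂ W]
  [FiniteDimensional ℂ W]

omit [FiniteDimensional ℝ g] [FiniteDimensional ℂ W] in
theorem E05_opsum (t : CRep J W) (s : Finset g) (f : g → g) (w : W) :
    t.op (∑ i ∈ s, f i) w = ∑ i ∈ s, t.op (f i) w := by
  classical
  induction s using Finset.induction_on with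
  | empty => rw [Finset.sum_empty, Finset.sum_empty, Rep.zero', LinearMap.zero_apply]
  | insert i s hi ih =>
    rw [Finset.sum_insert hi, Finset.sum_insert hi, t.add, LinearMap.add_apply, ih]

theorem simp_inj (t : CRep J W) (C : CSub L)
    (hE : ∀ lam, IsW t C.a lam → lam ≠ 0 → lam ∈ roots L C.a) {H : g} (hH : Reg L C.a H)
    {S : Finset g} {c : g → ℝ} (hS : ∀ x, x ∈ S ↔ x ∈ Simp L C.a H) (hc : ∀ ga ∈ S, 0 < c ga)
    (hp : ∀ de ∈ S, 0 < ∑ ga ∈ S, c ga * ⟪ga, de⟫_ℝ) {Z : g → g}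
    (hZ : ∀ ga ∈ S, RV L C.a ga (Z ga)) (hZ0 : ∀ ga ∈ S, Z ga ≠ 0) {u : g → W}
    (hu : ∀ ga ∈ S, WV t C.a (-ga) (u ga)) (h : ∑ ga ∈ S, t.op (Z ga) (u ga) = 0) :
    ∀ ga ∈ S, u ga = 0 := by
  have hSa : ∀ ga ∈ S, ga ∈ C.a := fun ga hg => ((hS ga).1 hg).1.1
  have hn : ∀ ga ∈ S, 0 < ⟪Z ga, Z ga⟫_ℝ := fun ga hg => real_inner_self_pos.2 (hZ0 ga hg)
  set a : g → ℝ := fun ga => Real.sqrt (c ga / ⟪Z ga, Z ga⟫_ℝ) with ha
  have hapos : ∀ ga ∈ S, 0 < a ga := fun ga hg => Real.sqrt_pos.2 (div_pos (hc ga hg) (hn ga hg))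
  have hasq : ∀ ga ∈ S, a ga * a ga * ⟪Z ga, Z ga⟫_ℝ = c ga := by
    intro ga hg
    rw [ha]
    simp only
    rw [Real.mul_self_sqrt (div_pos (hc ga hg) (hn ga hg)).le, div_mul_cancel₀ _ (hn ga hg).ne']
  -- mixed terms
  have hmix : ∀ ga ∈ S, ∀ de ∈ S, de ≠ ga → t.op (Z ga) (u de) = 0 := by
    intro ga hg de hd hne
    by_contra hcon
    have h1 := wt_shift t C (hZ ga hg) (hu de hd)
    have h2 : ga + -de ∈ roots L C.a := by
      refine hE _ ⟨C.a.add_mem (hSa ga hg) (C.a.neg_mem (hSa de hd)), _, hcon, h1⟩ ?_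
      intro h3
      exact hne (add_neg_eq_zero.1 h3).symm
    rw [← sub_eq_add_neg] at h2
    exact (simp_sub C hH ((hS ga).1 hg) ((hS de).1 hd) (Ne.symm hne)).1 h2
  have hbr : ∀ ga ∈ S, ∀ de ∈ S, de ≠ ga → L.br (L.th (Z ga)) (Z de) = 0 := by
    intro ga hg de hd hne
    by_contra hcon
    have h1 := RV_br C (RV_th C (hZ ga hg)) (hZ de hd)
    have h2 : -ga + de ∈ roots L C.a :=
      ⟨C.a.add_mem (C.a.neg_mem (hSa ga hg)) (hSa de hd),
        fun h3 => hne (neg_add_eq_zero.1 h3).symm, _, hcon, h1⟩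
    rw [neg_add_eq_sub] at h2
    exact (simp_sub C hH ((hS de).1 hd) ((hS ga).1 hg) hne).1 h2
  have hbr2 : ∀ ga ∈ S, L.br (L.th (Z ga)) (Z ga) = ⟪Z ga, Z ga⟫_ℝ • ga := by
    intro ga hg
    rw [br_skew, br_th_root C (hSa ga hg) (hZ ga hg), neg_neg]
  set e : g := ∑ ga ∈ S, a ga • Z ga with he
  set x : W := ∑ ga ∈ S, (((a ga)⁻¹ : ℝ) : ℂ) • u ga with hx
  set y : g := ∑ ga ∈ S, c ga • ga with hy
  have hya : y ∈ C.a := C.a.sum_mem fun ga hg => C.a.smul_mem _ (hSa ga hg)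
  have h1 : t.op e x = 0 := by
    rw [he, E05_opsum, ← h]
    refine Finset.sum_congr rfl fun ga hg => ?_
    rw [t.smul, LinearMap.smul_apply, hx, map_sum, Finset.sum_eq_single ga]
    · rw [map_smul, smul_smul, ← Complex.ofReal_mul, mul_inv_cancel₀ (hapos ga hg).ne',
        Complex.ofReal_one, one_smul]
    · intro de hd hne
      rw [map_smul, hmix ga hg de hd hne, smul_zero]
    · intro hg'
      exact absurd hg hg'
  have h2 : L.br (L.th e) e = y := by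
    have h3 : L.th e = ∑ ga ∈ S, a ga • L.th (Z ga) := by
      rw [he, map_sum]
      exact Finset.sum_congr rfl fun ga _ => map_smul _ _ _
    rw [h3, map_sum L.br, LinearMap.sum_apply, hy]
    refine Finset.sum_congr rfl fun ga hg => ?_
    rw [map_smul, LinearMap.smul_apply, he, map_sum, Finset.sum_eq_single ga]
    · rw [map_smul, hbr2 ga hg, smul_smul, smul_smul, hasq ga hg]
    · intro de hd hne
      rw [map_smul, hbr ga hg de hd hne, smul_zero]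
    · intro hg'
      exact absurd hg hg'
  have hyin : ∀ de, ⟪de, y⟫_ℝ = ∑ ga ∈ S, c ga * ⟪ga, de⟫_ℝ := by
    intro de
    rw [hy, inner_sum]
    refine Finset.sum_congr rfl fun ga _ => ?_
    rw [real_inner_smul_right, real_inner_comm]
  have h3 : t.op y x = ∑ de ∈ S, ((-((a de)⁻¹ * ⟪de, y⟫_ℝ) : ℝ) : ℂ) • u de := by
    rw [hx, map_sum]
    refine Finset.sum_congr rfl fun de hd => ?_
    rw [map_smul, hu de hd y hya, smul_smul, ← Complex.ofReal_mul, inner_neg_left, mul_neg]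
  have h4 : ⟪x, t.op y x⟫_ℂ =
      ((-∑ de ∈ S, ((a de)⁻¹ * (a de)⁻¹ * ⟪de, y⟫_ℝ * ‖u de‖ ^ 2) : ℝ) : ℂ) := by
    rw [h3, inner_sum, ← Finset.sum_neg_distrib, Complex.ofReal_sum]
    refine Finset.sum_congr rfl fun de hd => ?_
    rw [inner_smul_right, hx, sum_inner, Finset.sum_eq_single de]
    · rw [inner_smul_left, Complex.conj_ofReal, W05_self, ← Complex.ofReal_mul,
        ← Complex.ofReal_mul]
      congr 1
      ring
    · intro ga hg hne
      rw [inner_smul_left, wt_orth t C (C.a.neg_mem (hSa ga hg)) (C.a.neg_mem (hSa de hd))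
        (hu ga hg) (hu de hd) (fun h => hne (neg_injective h)), mul_zero]
    · intro hd'
      exact absurd hd hd'
  have h5 : ⟪x, t.op y x⟫_ℂ = ((‖t.op (L.th e) x‖ ^ 2 : ℝ) : ℂ) := by
    rw [← h2, t.bracket, h1, map_zero, zero_sub, inner_neg_right, ← W05_self, t.adj, L.th_th]
  have h6 : -∑ de ∈ S, ((a de)⁻¹ * (a de)⁻¹ * ⟪de, y⟫_ℝ * ‖u de‖ ^ 2) =
      ‖t.op (L.th e) x‖ ^ 2 := Complex.ofReal_injective (h4.symm.trans h5)
  have h7 : ∀ de ∈ S, 0 ≤ (a de)⁻¹ * (a de)⁻¹ * ⟪de, y⟫_ℝ * ‖u de‖ ^ 2 := by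
    intro de hd
    have h8 : 0 < ⟪de, y⟫_ℝ := by rw [hyin]; exact hp de hd
    have h9 := inv_pos.2 (hapos de hd)
    positivity
  have h8 : ∑ de ∈ S, ((a de)⁻¹ * (a de)⁻¹ * ⟪de, y⟫_ℝ * ‖u de‖ ^ 2) = 0 := by
    refine le_antisymm ?_ (Finset.sum_nonneg h7)
    have h9 : 0 ≤ ‖t.op (L.th e) x‖ ^ 2 := sq_nonneg _
    linarith
  intro ga hg
  have h9 := (Finset.sum_eq_zero_iff_of_nonneg h7).1 h8 ga hg
  have h10 : 0 < ⟪ga, y⟫_ℝ := by rw [hyin]; exact hp ga hg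
  have h11 := inv_pos.2 (hapos ga hg)
  have h12 : (a ga)⁻¹ * (a ga)⁻¹ * ⟪ga, y⟫_ℝ ≠ 0 := by positivity
  have h13 := (mul_eq_zero.1 h9).resolve_left h12
  exact norm_eq_zero.1 (pow_eq_zero_iff two_ne_zero |>.1 h13)

omit [FiniteDimensional ℝ g] [FiniteDimensional ℂ W] in
theorem E05_wv_sub (t : CRep J W) (C : CSub L) {lam : g} {v v' : W} (h : WV t C.a lam v)
    (h' : WV t C.a lam v') : WV t C.a lam (v - v') := by
  intro H hH
  rw [map_sub, h H hH, h' H hH, smul_sub]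

theorem exists_e0 (t : CRep J W) (C : CSub L)
    (hE : ∀ lam, IsW t C.a lam → lam ≠ 0 → lam ∈ roots L C.a) {H : g} (hH : Reg L C.a H)
    {al : g} (hal : al ∈ Simp L C.a H) {u : W} (hu : WV t C.a (-al) u) (hu0 : u ≠ 0) :
    ∃ e₀, WV t C.a 0 e₀ ∧
      (∀ ga ∈ Simp L C.a H, ga ≠ al → ∀ Z, RV L C.a ga Z → t.op (L.th Z) e₀ = 0) ∧
      ∀ Z, RV L C.a al Z → Z ≠ 0 → ⟪e₀, t.op Z u⟫_ℂ ≠ 0 := by
  classical
  obtain ⟨S, c, hS, hc, hp⟩ := simp_pos C hH
  have hch : ∀ ga : g, ∃ Z : g, ga ∈ S → Z ≠ 0 ∧ RV L C.a ga Z := by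
    intro ga
    by_cases hg : ga ∈ S
    · obtain ⟨Z, hZ0, hZ⟩ := ((hS ga).1 hg).1.2.2
      exact ⟨Z, fun _ => ⟨hZ0, hZ⟩⟩
    · exact ⟨0, fun h => absurd h hg⟩
  choose Z hZZ using hch
  have hZ0 : ∀ ga ∈ S, Z ga ≠ 0 := fun ga hg => (hZZ ga hg).1
  have hZ : ∀ ga ∈ S, RV L C.a ga (Z ga) := fun ga hg => (hZZ ga hg).2
  have halS : al ∈ S := (hS al).2 hal
  -- the subspace `U`
  let U : Submodule ℂ W :=
    { carrier := {w | ∃ u' : g → W, (∀ ga ∈ S, WV t C.a (-ga) (u' ga)) ∧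
        w = ∑ ga ∈ S.erase al, t.op (Z ga) (u' ga)}
      add_mem' := by
        rintro _ _ ⟨p, hp, rfl⟩ ⟨q, hq, rfl⟩
        refine ⟨fun ga => p ga + q ga, fun ga hg H hH => ?_, ?_⟩
        · rw [map_add, hp ga hg H hH, hq ga hg H hH, smul_add]
        · rw [← Finset.sum_add_distrib]
          exact Finset.sum_congr rfl fun ga _ => (map_add _ _ _).symm
      zero_mem' := by
        refine ⟨fun _ => 0, fun ga _ H _ => by rw [map_zero, smul_zero], ?_⟩
        simp only [map_zero, Finset.sum_const_zero]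
      smul_mem' := by
        rintro r _ ⟨p, hp, rfl⟩
        refine ⟨fun ga => r • p ga, fun ga hg H hH => ?_, ?_⟩
        · rw [map_smul, hp ga hg H hH, smul_comm]
        · rw [Finset.smul_sum]
          exact Finset.sum_congr rfl fun ga _ => (map_smul _ _ _).symm }
  have hU0 : ∀ w ∈ U, WV t C.a 0 w := by
    rintro _ ⟨p, hp, rfl⟩ H hH
    rw [map_sum, inner_zero_left, Complex.ofReal_zero, zero_smul]
    refine Finset.sum_eq_zero fun ga hg => ?_
    have h1 := wt_shift t C (hZ ga (Finset.mem_of_mem_erase hg))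
      (hp ga (Finset.mem_of_mem_erase hg)) H hH
    rw [add_neg_cancel, inner_zero_left, Complex.ofReal_zero, zero_smul] at h1
    exact h1
  have hUmem : ∀ ga ∈ S, ga ≠ al → ∀ v, WV t C.a (-ga) v → t.op (Z ga) v ∈ U := by
    intro ga hg hne v hv
    refine ⟨fun de => if de = ga then v else 0, fun de _ => ?_, ?_⟩
    · by_cases hd : de = ga
      · simp only [hd, if_true]
        exact hv
      · simp only [hd, if_false]
        intro H _
        rw [map_zero, smul_zero]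
    · rw [Finset.sum_eq_single ga]
      · simp only [if_true]
      · intro de _ hd
        simp only [hd, if_false, map_zero]
      · intro hg'
        exact absurd (Finset.mem_erase.2 ⟨hne, hg⟩) hg'
  obtain ⟨y, hy, e₀, he₀, hw⟩ := U.exists_add_mem_mem_orthogonal (t.op (Z al) u)
  have hw0 : WV t C.a 0 (t.op (Z al) u) := by
    have h1 := wt_shift t C (hZ al halS) hu
    rwa [add_neg_cancel] at h1
  have he0 : e₀ = t.op (Z al) u - y := by rw [hw, add_sub_cancel_left]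
  have hwe : WV t C.a 0 e₀ := by
    rw [he0]
    exact E05_wv_sub t C hw0 (hU0 y hy)
  have hne : e₀ ≠ 0 := by
    intro h0
    rw [h0, add_zero] at hw
    obtain ⟨p, hp', hyp⟩ := hy
    have h1 := simp_inj t C hE hH hS hc hp hZ hZ0
      (u := fun ga => if ga = al then u else -p ga) (by
        intro ga hg
        by_cases hd : ga = al
        · simp only [hd, if_true]
          exact hu
        · simp only [hd, if_false]
          intro H hH
          rw [map_neg, hp' ga hg H hH, smul_neg]) (by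
        rw [← Finset.add_sum_erase S _ halS]
        simp only [if_true]
        rw [hw, hyp, ← Finset.sum_add_distrib]
        refine Finset.sum_eq_zero fun ga hg => ?_
        simp only [Finset.ne_of_mem_erase hg, if_false, map_neg]
        exact add_neg_cancel _) al halS
    simp only [if_true] at h1
    exact hu0 h1
  have hin : ⟪e₀, t.op (Z al) u⟫_ℂ ≠ 0 := by
    rw [hw, inner_add_right]
    have h1 : ⟪e₀, y⟫_ℂ = 0 := (Submodule.mem_orthogonal' U e₀).1 he₀ y hy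
    rw [h1, zero_add]
    exact fun h2 => hne (inner_self_eq_zero.1 h2)
  refine ⟨e₀, hwe, ?_, ?_⟩
  · intro ga hg hgne Z' hZ'
    have hgS : ga ∈ S := (hS ga).2 hg
    have h1 : t.op (L.th (Z ga)) e₀ = 0 := by
      have h2 : WV t C.a (-ga) (t.op (L.th (Z ga)) e₀) := by
        have h3 := wt_shift t C (RV_th C (hZ ga hgS)) hwe
        rwa [add_zero] at h3
      have h3 : ⟪t.op (L.th (Z ga)) e₀, t.op (L.th (Z ga)) e₀⟫_ℂ = 0 := by
        rw [t.adj, L.th_th]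
        have h4 : ⟪e₀, t.op (Z ga) (t.op (L.th (Z ga)) e₀)⟫_ℂ = 0 :=
          (Submodule.mem_orthogonal' U e₀).1 he₀ _ (hUmem ga hgS hgne _ h2)
        rw [h4, neg_zero]
      exact inner_self_eq_zero.1 h3
    obtain ⟨p, q, hpq⟩ := RV_unique J C hg.1.1 hg.1.2.1 (hZ ga hgS) (hZ0 ga hgS) hZ'
    have h5 : L.th Z' = p • L.th (Z ga) + (-q) • J.J (L.th (Z ga)) := by
      rw [hpq, map_add, map_smul, map_smul, J.th, smul_neg, neg_smul]
    rw [h5, t.add, t.smul, t.smul, t.lin, LinearMap.add_apply, LinearMap.smul_apply,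
      LinearMap.smul_apply, LinearMap.smul_apply, h1, smul_zero, smul_zero, smul_zero, add_zero]
  · intro Z' hZ' hZ'0
    obtain ⟨p, q, hpq⟩ := RV_unique J C hal.1.1 hal.1.2.1 (hZ al halS) (hZ0 al halS) hZ'
    have h1 : t.op Z' u = ((p : ℂ) + (q : ℂ) * Complex.I) • t.op (Z al) u := by
      rw [hpq, t.add, t.smul, t.smul, t.lin, LinearMap.add_apply, LinearMap.smul_apply,
        LinearMap.smul_apply, LinearMap.smul_apply, smul_smul, ← add_smul]
    rw [h1, inner_smul_right]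
    refine mul_ne_zero ?_ hin
    intro h2
    have h3 : p = 0 := by
      have h4 := congrArg Complex.re h2
      simpa using h4
    have h4 : q = 0 := by
      have h4 := congrArg Complex.im h2
      simpa using h4
    rw [h3, h4, zero_smul, zero_smul, add_zero] at hpq
    exact hZ'0 hpq

end

end Pool.Agent.Lib.MP_4322ef_CH
end

section

/-!
# One step: the map for a separated step

* `q_phi` (`al = -w` is simple, `⟪la, al⟫ > 0`): `e₀` from `exists_e0` (with `hE` from `hq`). `φ₀ u = ⟪e₀, u⟫ • v`. `D₀` = span of the weight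
  vectors with weight `y'` such that `0 < ⟪y', H₁⟫` or `y' = 0` or `-y' ∈ Simp L C.a H₁` with `⟪la, y'⟫ = 0`. Let `u` be such a
  vector, `be` a positive root, `Z` a root vector. `Z u` has the weight `be + y'`, a root or `0` (or `Z u = 0`): positive in the
  first two cases; if `ga = -y'` is simple and `be - ga` is a negative root then `ga = be + (ga - be)`, contradiction; so
  `D₀` is stable. `Z (φ₀ u) = 0` (`v` is a highest weight vector). `φ₀ (Z u) = ⟪e₀, Z u⟫ • v` is zero if `be + y' ≠ 0`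
  (`wt_orth`), and for `ga = -y' = be` it is `-⟪(θ Z) e₀, u⟫ • v = 0` since `ga ≠ al`. The weight condition: `⟪e₀, u⟫ = 0` if
  `y' ≠ 0`. `hD` of `phi_ext`: let `y'` be another weight; it is a root, so `ga = -y'` is a positive root, and
  `⟪la - ga, la - ga⟫ + R (la - ga) - ⟪la, la⟫ - R la = -2 ⟪la, ga⟫ + ⟪ga, ga⟫ - R ga` (`R_add`), where `⟪la, ga⟫ ≥ 0` (`hw_dom`).
  If `⟪la, ga⟫ > 0` this is negative by `R_ge`. If `⟪la, ga⟫ = 0` then `ga ∉ Simp`, so `ga = be + be'` and it is negative by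
  `R_gt`. Finally `φ x ≠ 0`: for a root vector `Z ≠ 0` of `al`: `Z (φ x) = φ (Z x) = φ₀ (Z x) = ⟪e₀, Z x⟫ • v ≠ 0`.
-/

set_option autoImplicit false

open scoped InnerProductSpace

namespace Pool.Agent.Lib.MP_4322ef_CH

open Pool.Agent.Lib.MP_4322ef_al.SR

variable {g : Type} [NormedAddCommGroup g] [InnerProductSpace ℝ g] {L : RedLie g}
  [FiniteDimensional ℝ g]

section
variable {J : CStr L} {W : Type} [NormedAddCommGroup W] [InnerProductSpace ℂ W]
  [FiniteDimensional ℂ W]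
  {Y : Type} [NormedAddCommGroup Y] [InnerProductSpace ℂ Y] [FiniteDimensional ℂ Y]


/-- the weights of the generators of the submodule `D₀` -/
def E06b_Gd (C : CSub L) (H₁ la y' : g) : Prop :=
  0 < ⟪y', H₁⟫_ℝ ∨ y' = 0 ∨ (-y' ∈ Simp L C.a H₁ ∧ ⟪la, y'⟫_ℝ = 0)

theorem E06b_R (J : CStr L) (C : CSub L) {H₁ : g} (hH₁ : Reg L C.a H₁) (la y' : g) :
    R L C.a H₁ (la + y') = R L C.a H₁ la - R L C.a H₁ (-y') := by
  obtain ⟨n, ⟨b⟩⟩ := exists_abas J C
  have h1 := R_add J b hH₁ la y'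
  have h2 := R_add J b hH₁ y' (-y')
  have h3 := R_add J b hH₁ (0 : g) 0
  rw [add_neg_cancel] at h2
  rw [add_zero] at h3
  linarith

theorem E06b_shift (C : CSub L) (s : CRep J Y) {q : ℝ} (hq : QM C s q) {H₁ la : g}
    (hH₁ : Reg L C.a H₁) {al y' Z : g} {u : Y} (hal : al ∈ C.a) (hp : 0 < ⟪al, H₁⟫_ℝ)
    (hZ : RV L C.a al Z) (hy' : y' ∈ C.a) (hu : WV s C.a y' u) (hg : E06b_Gd C H₁ la y')
    (h0 : s.op Z u ≠ 0) : E06b_Gd C H₁ la (al + y') := by
  have hadd : ⟪al + y', H₁⟫_ℝ = ⟪al, H₁⟫_ℝ + ⟪y', H₁⟫_ℝ := inner_add_left _ _ _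
  rcases hg with h | h | ⟨h, _⟩
  · left
    rw [hadd]
    linarith
  · left
    rw [h, add_zero]
    exact hp
  · by_cases hz : al + y' = 0
    · exact Or.inr (Or.inl hz)
    · left
      have hw : WV s C.a (al + y') (s.op Z u) := wt_shift s C hZ hu
      have hroot : al + y' ∈ roots L C.a :=
        (hq _ ⟨C.a.add_mem hal hy', _, h0, hw⟩ hz).1.1
      have hZ0 : Z ≠ 0 := by
        rintro rfl
        apply h0
        rw [Rep.zero', LinearMap.zero_apply]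
      have hal0 : al ≠ 0 := by
        rintro rfl
        rw [inner_zero_left] at hp
        exact lt_irrefl _ hp
      have halr : al ∈ roots L C.a := ⟨hal, hal0, Z, hZ0, hZ⟩
      by_contra hcon
      have hlt : ⟪al + y', H₁⟫_ℝ < 0 :=
        lt_of_le_of_ne (not_lt.1 hcon) (hH₁.2 _ hroot)
      refine h.2.2 al halr hp (-(al + y')) (roots_neg C hroot) ?_ ?_
      · rw [inner_neg_left]
        linarith
      · abel

theorem q_phi (C : CSub L) (t : CRep J W) (ht : Irr t) (s : CRep J Y) {q : ℝ}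
    (hq : QM C s q) {H₁ la w : g} (hH₁ : Reg L C.a H₁) {v : W} (hv : HW t C.a H₁ la v)
    (hw : -w ∈ Simp L C.a H₁) {x : Y} (hx : WV s C.a w x) (hx0 : x ≠ 0)
    (hlw : 0 < ⟪la, -w⟫_ℝ) :
    ∃ φ : Y →ₗ[ℂ] W,
      (∀ al ∈ C.a, 0 < ⟪al, H₁⟫_ℝ → ∀ Z, RV L C.a al Z → ∀ u, φ (s.op Z u) = t.op Z (φ u)) ∧
      (∀ H ∈ C.a, ∀ u, t.op H (φ u) = φ (s.op H u) + (⟪la, H⟫_ℝ : ℂ) • φ u) ∧ φ x ≠ 0 := by
  have hE : ∀ lam, IsW s C.a lam → lam ≠ 0 → lam ∈ roots L C.a := fun lam h h0 => (hq lam h h0).1.1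
  obtain ⟨e₀, he0, he1, he2⟩ := exists_e0 s C hE hH₁ hw (u := x) (by rwa [neg_neg]) hx0
  let φ₀ : Y →ₗ[ℂ] W := (innerₛₗ ℂ e₀).smulRight v
  have hφ₀ : ∀ u, φ₀ u = ⟪e₀, u⟫_ℂ • v := fun u => rfl
  let G : Set Y := {u | ∃ y' ∈ C.a, WV s C.a y' u ∧ E06b_Gd C H₁ la y'}
  let D₀ : Submodule ℂ Y := Submodule.span ℂ G
  have hind : ∀ S : Submodule ℂ Y, (∀ u ∈ G, u ∈ S) → ∀ u ∈ D₀, u ∈ S := by
    intro S hS u hu
    exact (Submodule.span_le.2 hS) hu
  have hvZ : ∀ al ∈ C.a, 0 < ⟪al, H₁⟫_ℝ → ∀ Z, RV L C.a al Z → t.op Z v = 0 := by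
    intro al _ hp Z hZ
    exact hv.pos Z ⟨⟪al, H₁⟫_ℝ, hp, hZ H₁ hH₁.1⟩
  have h1 : ∀ al ∈ C.a, 0 < ⟪al, H₁⟫_ℝ → ∀ Z, RV L C.a al Z → ∀ u ∈ D₀, s.op Z u ∈ D₀ := by
    intro al hal hp Z hZ
    refine hind (D₀.comap (s.op Z)) ?_
    rintro u ⟨y', hy', hu, hg⟩
    show s.op Z u ∈ D₀
    by_cases h0 : s.op Z u = 0
    · rw [h0]
      exact D₀.zero_mem
    · exact Submodule.subset_span ⟨al + y', C.a.add_mem hal hy', wt_shift s C hZ hu,
        E06b_shift C s hq hH₁ hal hp hZ hy' hu hg h0⟩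
  have h2 : ∀ H ∈ C.a, ∀ u ∈ D₀, s.op H u ∈ D₀ := by
    intro H hH
    refine hind (D₀.comap (s.op H)) ?_
    rintro u ⟨y', hy', hu, hg⟩
    show s.op H u ∈ D₀
    rw [hu H hH]
    exact D₀.smul_mem _ (Submodule.subset_span ⟨y', hy', hu, hg⟩)
  have h3 : ∀ al ∈ C.a, 0 < ⟪al, H₁⟫_ℝ → ∀ Z, RV L C.a al Z → ∀ u ∈ D₀,
      φ₀ (s.op Z u) = t.op Z (φ₀ u) := by
    intro al hal hp Z hZ u hu
    have h4 : u ∈ LinearMap.ker (φ₀ ∘ₗ s.op Z - t.op Z ∘ₗ φ₀) := by
      refine hind _ ?_ u hu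
      rintro u ⟨y', hy', hu, hg⟩
      show φ₀ (s.op Z u) - t.op Z (φ₀ u) = 0
      have h5 : t.op Z (φ₀ u) = 0 := by
        rw [hφ₀, map_smul, hvZ al hal hp Z hZ, smul_zero]
      have h6 : ⟪e₀, s.op Z u⟫_ℂ = 0 := by
        by_cases hz : al + y' = 0
        · have hy : y' = -al := by
            rw [eq_neg_iff_add_eq_zero, add_comm]
            exact hz
          have hneg : ⟪y', H₁⟫_ℝ < 0 := by
            rw [hy, inner_neg_left]
            linarith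
          rcases hg with h | h | ⟨h, h'⟩
          · exact absurd h (not_lt.2 hneg.le)
          · rw [h, inner_zero_left] at hneg
            exact absurd hneg (lt_irrefl _)
          · rw [hy, neg_neg] at h
            have hne : al ≠ -w := by
              rintro rfl
              rw [hy, inner_neg_right] at h'
              linarith
            have h7 := s.adj (L.th Z) e₀ u
            rw [he1 al h hne Z hZ, inner_zero_left, L.th_th] at h7
            exact neg_eq_zero.1 h7.symm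
        · exact wt_orth s C C.a.zero_mem (C.a.add_mem hal hy') he0 (wt_shift s C hZ hu)
            (Ne.symm hz)
      rw [h5, hφ₀, h6, zero_smul, sub_zero]
    exact sub_eq_zero.1 h4
  have h4 : ∀ H ∈ C.a, ∀ u ∈ D₀, t.op H (φ₀ u) = φ₀ (s.op H u) + (⟪la, H⟫_ℝ : ℂ) • φ₀ u := by
    intro H hH u hu
    have h5 : u ∈ LinearMap.ker (t.op H ∘ₗ φ₀ - (φ₀ ∘ₗ s.op H + (⟪la, H⟫_ℝ : ℂ) • φ₀)) := by
      refine hind _ ?_ u hu
      rintro u ⟨y', hy', hu, hg⟩
      show t.op H (φ₀ u) - (φ₀ (s.op H u) + (⟪la, H⟫_ℝ : ℂ) • φ₀ u) = 0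
      have h6 : (⟪y', H⟫_ℝ : ℂ) • ⟪e₀, u⟫_ℂ = 0 := by
        by_cases hz : y' = 0
        · rw [hz, inner_zero_left, Complex.ofReal_zero, zero_smul]
        · rw [wt_orth s C C.a.zero_mem hy' he0 hu (Ne.symm hz), smul_zero]
      have h7 : φ₀ (s.op H u) = 0 := by
        rw [hu H hH, map_smul, hφ₀, ← smul_assoc, h6, zero_smul]
      rw [h7, zero_add, hφ₀, map_smul, hv.wt H hH, smul_comm, sub_self]
    exact sub_eq_zero.1 h5
  have h5 : ∀ y' ∈ C.a, ∀ u, WV s C.a y' u → u ∉ D₀ →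
      ⟪la + y', la + y'⟫_ℝ + R L C.a H₁ (la + y') ≠ ⟪la, la⟫_ℝ + R L C.a H₁ la := by
    intro y' hy' u hu huD
    have hu0 : u ≠ 0 := by
      rintro rfl
      exact huD D₀.zero_mem
    have hg : ¬ E06b_Gd C H₁ la y' := fun h => huD (Submodule.subset_span ⟨y', hy', hu, h⟩)
    have hz : y' ≠ 0 := fun h => hg (Or.inr (Or.inl h))
    have hroot : y' ∈ roots L C.a := hE y' ⟨hy', u, hu0, hu⟩ hz
    have hlt : ⟪y', H₁⟫_ℝ < 0 :=
      lt_of_le_of_ne (not_lt.1 fun h => hg (Or.inl h)) (hH₁.2 _ hroot)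
    have hga : -y' ∈ roots L C.a := roots_neg C hroot
    have hgp : 0 < ⟪-y', H₁⟫_ℝ := by
      rw [inner_neg_left]
      linarith
    have hdom := hw_dom t C hH₁ hv hga hgp
    have hsq : ⟪la + y', la + y'⟫_ℝ = ⟪la, la⟫_ℝ - 2 * ⟪-y', la⟫_ℝ + ⟪-y', -y'⟫_ℝ := by
      rw [inner_neg_neg, inner_neg_left, inner_add_left, inner_add_right, inner_add_right,
        real_inner_comm la y']
      ring
    have hlt' : ⟪-y', -y'⟫_ℝ - 2 * ⟪-y', la⟫_ℝ < R L C.a H₁ (-y') := by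
      rcases hdom.lt_or_eq with h | h
      · have := R_ge C hH₁ hga hgp
        linarith
      · have hns : -y' ∉ Simp L C.a H₁ := by
          intro h'
          apply hg
          refine Or.inr (Or.inr ⟨h', ?_⟩)
          rw [inner_neg_left] at h
          rw [real_inner_comm]
          linarith
        have hex : ∃ be ∈ roots L C.a, 0 < ⟪be, H₁⟫_ℝ ∧ ∃ be' ∈ roots L C.a, 0 < ⟪be', H₁⟫_ℝ ∧
            -y' = be + be' := by
          by_contra hcon
          apply hns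
          refine ⟨hga, hgp, ?_⟩
          intro be hbe hbp be' hbe' hbp' heq
          exact hcon ⟨be, hbe, hbp, be', hbe', hbp', heq⟩
        obtain ⟨be, hbe, hbp, be', hbe', hbp', heq⟩ := hex
        have h8 := R_gt C hH₁ hbe hbp hbe' hbp' (by rw [← heq]; exact hga)
        rw [← heq] at h8
        linarith
    rw [E06b_R J C hH₁ la y', hsq]
    intro h9
    linarith
  obtain ⟨φ, hφ1, hφ2, hφ3⟩ := phi_ext C t ht s hH₁ hv φ₀ D₀ h1 h2 h3 h4 h5
  refine ⟨φ, hφ2, hφ3, ?_⟩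
  intro hcon
  obtain ⟨hwa, hw0, Z, hZ0, hZ⟩ := hw.1
  have hmem : s.op Z x ∈ D₀ := by
    refine Submodule.subset_span ⟨0, C.a.zero_mem, ?_, Or.inr (Or.inl rfl)⟩
    have h6 := wt_shift s C hZ hx
    rwa [neg_add_cancel] at h6
  have h6 := hφ2 (-w) hwa hw.2.1 Z hZ x
  rw [hcon, map_zero, hφ1 _ hmem, hφ₀, smul_eq_zero] at h6
  rcases h6 with h6 | h6
  · exact he2 Z hZ hZ0 h6
  · exact hv.ne h6

end

end Pool.Agent.Lib.MP_4322ef_CH
end

section

/-!
# Good weights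
-/

set_option autoImplicit false

open scoped InnerProductSpace

namespace Pool.Agent.Lib.MP_4322ef_CH

open Pool.Agent.Lib.MP_4322ef_al.SR

variable {g : Type} [NormedAddCommGroup g] [InnerProductSpace ℝ g] {L : RedLie g}

theorem hw_ext {J : CStr L} {W : Type} [NormedAddCommGroup W] [InnerProductSpace ℂ W]
    (t : CRep J W) (C : CSub L) {H₁ be : g} {v : W} (hH : Reg L C.a H₁)
    (h : HW t C.a H₁ be v) : IsExt J C.a t.op ⊤ be := by
  refine ⟨H₁, hH, h.mem, v, trivial, h.ne, fun H hH => ?_, fun Z hZ => ?_⟩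
  · rw [t.lin, LinearMap.smul_apply, h.wt H hH, smul_smul]
  · have h1 := K01_split t Z v
    rw [h.pos Z hZ] at h1
    exact (sub_eq_zero.1 h1.symm)

variable [FiniteDimensional ℝ g]

theorem exists_comm (C : CSub L) {mu la : g} (hmu : mu ∈ C.a) (hla : la ∈ C.a)
    (h : ∀ al ∈ roots L C.a, 0 < ⟪al, mu⟫_ℝ → 0 ≤ ⟪al, la⟫_ℝ) :
    ∃ H₁, Reg L C.a H₁ ∧ ∀ al ∈ roots L C.a, 0 < ⟪al, H₁⟫_ℝ →
      0 ≤ ⟪al, mu⟫_ℝ ∧ 0 ≤ ⟪al, la⟫_ℝ := by
  obtain ⟨P, hP, hPm, hPh, hPv, hP0⟩ := exists_P C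
  obtain ⟨H, hH, hHd⟩ := exists_chm hP0 (⟨mu, hmu⟩ + ⟨la, hla⟩ : C.a) 0
  refine ⟨H, ⟨H.2, fun al ha => hH ⟨al, ha.1⟩ ((hPm _).2 ha)⟩, ?_⟩
  intro al ha hpos
  have h1 := (hHd ⟨al, ha.1⟩ ((hPm _).2 ha) hpos).1
  have h2 : 0 ≤ ⟪al, mu⟫_ℝ + ⟪al, la⟫_ℝ := by
    rw [← inner_add_right]
    exact h1
  have hneg := h (-al) (roots_neg C ha)
  rw [inner_neg_left, inner_neg_left] at hneg
  have hpo := h al ha
  rcases lt_trichotomy ⟪al, mu⟫_ℝ 0 with h | h | h
  · have := hneg (by linarith)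
    linarith
  · rw [h] at h2 ⊢
    exact ⟨le_refl _, by linarith⟩
  · exact ⟨h.le, hpo h⟩

theorem min_fund (C : CSub L) {y : g} (hmin : Mins L C.a y) : Fund L C.a y := by
  intro H₁ hH₁ hy al ha hpos
  obtain ⟨P, hP, hPm, hPh, hPv, hP0⟩ := exists_P C
  have h1 := vc_pos hP (c := ⟨H₁, hH₁.1⟩) ((hPm ⟨al, ha.1⟩).2 ha) hpos
  rw [hPv ⟨H₁, hH₁.1⟩ ⟨al, ha.1⟩] at h1
  have h2 := hmin al ha
  have h3 := le_abs_self ⟪y, al⟫_ℝ
  have h4 : ⟪al, al⟫_ℝ ≤
      ∑ᶠ β ∈ {β | β ∈ roots L C.a ∧ 0 < ⟪β, H₁⟫_ℝ}, ⟪β, al⟫_ℝ := h1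
  linarith

section
variable {X : Type} [NormedAddCommGroup X] [InnerProductSpace ℂ X]

theorem prv_data (J : CStr L) (C : CSub L) (r : HC L X) {V₀ : Submodule ℂ X}
    (hV₀ : IsKType L r.op V₀) {mu y : g} (hmu : IsExt J C.a r.op V₀ mu)
    {Y : Type} [NormedAddCommGroup Y] [InnerProductSpace ℂ Y] [FiniteDimensional ℂ Y]
    (s : CRep J Y) (hs : Irr s) (hy : IsExt J C.a s.op ⊤ y)
    (hc : Mins L C.a y ∨ ∀ al ∈ roots L C.a, 0 < ⟪al, mu⟫_ℝ → 0 ≤ ⟪al, mu - y⟫_ℝ) :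
    PRVData J C.a r.op V₀ s mu y := by
  obtain ⟨H', hH', hmu⟩ := hmu
  obtain ⟨H₄, hH₄, hy⟩ := hy
  have hV₀fin := hV₀.fin
  obtain ⟨t₀, hirr₀, hk₀, hcas₀⟩ := ktype_pack r.toRep r.skew J hV₀
  obtain ⟨v₀, hv₀⟩ := high_hw r.toRep J C hk₀ hmu
  obtain ⟨y₁, hy₁⟩ := high_hw' s C hy
  obtain ⟨H₁, hH₁, hd⟩ : ∃ H₁, Reg L C.a H₁ ∧ ∀ al ∈ roots L C.a, 0 < ⟪al, H₁⟫_ℝ →
      0 ≤ ⟪al, mu⟫_ℝ ∧ 0 ≤ ⟪al, mu - y⟫_ℝ := by
    rcases hc with hc | hc
    · exact common_chm C hv₀.mem hy₁.mem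
        (fun al ha => wt_int t₀ C ⟨hv₀.mem, v₀, hv₀.ne, hv₀.wt⟩ ha) hc
    · exact exists_comm C hv₀.mem (C.a.sub_mem hv₀.mem hy₁.mem) hc
  have hv₁ := hw_change t₀ C hH' hv₀ hH₁ fun al ha hpos => (hd al ha hpos).1
  obtain ⟨V, i1, i2, i3, q, b, hq, hb, v', hv', hb0⟩ := prv_exists C t₀ hirr₀ s hs hH₁ hH₄ hv₁ hy₁
    fun al ha hpos => (hd al ha hpos).2
  refine ⟨V, i1, i2, i3, q, b.compr₂ V₀.subtype, hq, hw_ext q C hH₁ hv', fun v u => (b v u).2, ?_,
    v', y₁, ?_, hv'.wt, hy₁.wt⟩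
  · intro Z hZ v u
    show r.op Z ((b v u : V₀) : X) = ((b (q.op Z v) u : V₀) : X) + ((b v (s.op Z u) : V₀) : X)
    rw [← hk₀ Z hZ, hb]
    rfl
  · intro h0
    exact hb0 (Subtype.ext h0)

theorem good_data (J : CStr L) (C : CSub L) (r : HC L X) {V₀ : Submodule ℂ X}
    (hV₀ : IsKType L r.op V₀) {mu y : g} (hmu : IsExt J C.a r.op V₀ mu)
    (hG : Good J C.a r.op V₀ mu y) :
    y ∈ C.a ∧ Fund L C.a y ∧
    ∃ (Y : Type) (_ : NormedAddCommGroup Y) (_ : InnerProductSpace ℂ Y)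
      (_ : FiniteDimensional ℂ Y) (s : CRep J Y), Irr s ∧ IsExt J C.a s.op ⊤ y ∧
        PRVData J C.a r.op V₀ s mu y := by
  obtain ⟨Y, i1, i2, i3, s, hs, hy, h⟩ := hG
  have hya : y ∈ C.a := by
    obtain ⟨H, _, h⟩ := hy
    exact h.1
  refine ⟨hya, ?_, Y, i1, i2, i3, s, hs, hy, ?_⟩
  · rcases h with h | h
    · exact min_fund C h
    · exact h.1
  · rcases h with h | ⟨-, h | h⟩
    · exact prv_data J C r hV₀ hmu s hs hy (Or.inl h)
    · exact prv_data J C r hV₀ hmu s hs hy (Or.inr h)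
    · exact h

end

end Pool.Agent.Lib.MP_4322ef_CH
end

section

/-!
# Iterated components: sums of orthogonal weights

`K` is a set of pairwise orthogonal weights of equal length `q` of a module `E` with an orthonormal basis `e` of
weight vectors. `prv_iter`: by induction on the number of elements of the nonempty set `K'`, for all `W`, `Y` etc.
* One element `i`: `prv_exists` for `W`, `Y` (`exists_comm` and `hw_change` give the common chamber of `mu` and `mu - w i`).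
* `y = ∑_{K'} w i`, at least two elements. Let `λ = mu - y` and take `1 ∈ K'` with `⟪λ, w 1⟫` minimal, `K'' = K' \ {1}`,
  `y'' = y - w 1`.
  (1) `prv_exists` for `Y`, `y` and `E`, `w 1` (`hQ` for `x = y` gives the common chamber): `Y''` irreducible with highest
      weight vector `y₁` of weight `y''`, `c : Y'' → E → Y` equivariant, `c y₁ (e 1) ≠ 0`.
  (2) the induction hypothesis for `W`, `mu`, `Y''`, `K''`: `V'` with highest weight vector `v₁'` of weight `mu - y'' = λ + w 1`,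
      `b' : V' → Y'' → W` equivariant, `b' v₁' y₁ ≠ 0`.
  (3) `prv_exists` for `V'`, `λ + w 1` and `E`, `w 1`: `V` with highest weight vector `v₁` of weight `λ`, `a : V → E → V'`
      equivariant, `a v₁ (e 1) ≠ 0`.
  (4) `b v u = ∑_j b' (a v (e j)) (c_j^* u)` with `c_j = c(·, e j) : Y'' → Y` and its adjoint `c_j^* : Y → Y''`
      (`LinearMap.adjoint`). This is `P01_b`: from `c_j Z + c(·, Z e j) = Z c_j`, taking adjoints
      (`(op Z)^* = -op (θ Z)`) and replacing `Z` by `θ Z`: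
          `Z c_j^* u = c_j^* Z u + (c(·, (θ Z) e j))^* u`,                                       (*)
      and `c(·, (θ Z) e j) = ∑_k ⟪e k, (θ Z) e j⟫ c_k`, with adjoint `∑_k conj ⟪e k, (θ Z) e j⟫ c_k^*`,
      `conj ⟪e k, (θ Z) e j⟫ = ⟪(θ Z) e j, e k⟫ = -⟪e j, Z e k⟫`; and `a v (Z e j) = ∑_k ⟪e k, Z e j⟫ a v (e k)`. The two
      sums cancel.
  (5) `P01_ne`: `b v₁ u ≠ 0` for the highest weight vector `u` of `Y` (weight `y`). The vector `c_j^* u` has the weight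
      `y - w j`, `a v₁ (e j)` has the weight `λ + w j`. Norms of weights of an irreducible module are at most the norm of the
      extreme weight (`P01_norm`, from `hw_bound` after moving `lam` into the chamber, as in the proof of `low` in W08). So if the
      term `j` is not `0` then `|y - w j| ≤ |y - w 1|`, which gives `j ∈ K'` (fields `neg`, `orth`, `len`), and
      `|λ + w j| ≤ |λ + w 1|`, so `⟪λ, w j⟫ ≤ ⟪λ, w 1⟫`, equality by minimality. Let `T_j = b' (a v₁ (e j)) (c_j^* u)`.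
      `T_1 ≠ 0`: `a v₁ (e 1)` is a nonzero multiple of `v₁'`, `c_1^* u` one of `y₁` (`hw_mult`; `⟪c_1^* u, y₁⟫ = ⟪u, c y₁ (e 1)⟫ ≠ 0`
      since `c y₁ (e 1) ≠ 0` is a multiple of `u`). For `j ≠ 1` with `⟪λ, w j⟫ = ⟪λ, w 1⟫`: `T_j = T_1`. Proof: `α = w 1 - w j`, `Z` from
      `P01_root` (`Z e j = e 1`, `F := -θ Z`, `F e 1 = e j`). Then `⟪λ, α⟫ = ⟪y, α⟫ = ⟪mu, α⟫ = 0`, `⟪w 1, α⟫ = q`, `⟪y'', α⟫ = -q`.
      `F v₁ = 0` (`ext_kill`), so `a v₁ (e j) = a v₁ (F e 1) = F (a v₁ (e 1))`. `Z u = 0` (`ext_kill`), so (*) for `Z` and `j = 1`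
      gives `c_j^* u = -Z c_1^* u`. With `a₁ = a v₁ (e 1)`, `c₁ = c_1^* u`: `b' a₁ (Z c₁)` has the weight `mu + α`, longer than
      `mu`, so it is `0`; hence `0 = F (b' a₁ (Z c₁)) = b' (F a₁) (Z c₁) + b' a₁ (F Z c₁)`, i.e. `T_j = b' a₁ (F Z c₁)`. And `F c₁ = 0`
      (`ext_kill`, `⟪y'', -α⟫ > 0`), `F Z c₁ = -[Z, F] c₁ = -⟪Z, Z⟫ ⟪y'', α⟫ c₁ = ⟪Z, Z⟫ q c₁`, and `⟪Z, Z⟫ q = 1` from
      `e 1 = Z F e 1 - F Z e 1 = [Z, F] e 1 = ⟪Z, Z⟫ ⟪w 1, α⟫ e 1` (`Z e 1 = 0`: weight `2 w 1 - w j` is not a weight of `E`, or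
      `ext_kill`). So `b v₁ u` is `T_1` times the number of `j`.
* `P01_root`: a root vector `Z` of `w i - w j`. `Z e j ≠ 0` since otherwise `0 ≤ ⟪w i - w j, w j⟫ = -q` (proof of `hw_dom`), it has
  the weight `w i`, so it is a multiple of `e i` (`inj`, `wt_orth`); replace `Z` by a combination of `Z` and `J Z`. `(θ Z) e i`:
  `⟪e k, (θ Z) e i⟫ = -⟪Z e k, e i⟫` is nonzero only if `w k = w j`.
-/

set_option autoImplicit false

open scoped InnerProductSpace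

namespace Pool.Agent.Lib.MP_4322ef_CH

open Pool.Agent.Lib.MP_4322ef_al.SR

variable {g : Type} [NormedAddCommGroup g] [InnerProductSpace ℝ g] {L : RedLie g}
  [FiniteDimensional ℝ g]

section
variable {J : CStr L} {E : Type} [NormedAddCommGroup E] [InnerProductSpace ℂ E]
  [FiniteDimensional ℂ E]
  {W : Type} [NormedAddCommGroup W] [InnerProductSpace ℂ W] [FiniteDimensional ℂ W]
  {Y : Type} [NormedAddCommGroup Y] [InnerProductSpace ℂ Y] [FiniteDimensional ℂ Y]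

/-- pairwise orthogonal weights of equal length -/
structure Orth (C : CSub L) (s : CRep J E) {N : ℕ} (e : OrthonormalBasis (Fin N) ℂ E)
    (w : Fin N → g) (K : Finset (Fin N)) (q : ℝ) : Prop where
  mem : ∀ i, w i ∈ C.a
  wv : ∀ i, WV s C.a (w i) (e i)
  pos : 0 < q
  len : ∀ i ∈ K, ⟪w i, w i⟫_ℝ = q
  orth : ∀ i ∈ K, ∀ j ∈ K, i ≠ j → ⟪w i, w j⟫_ℝ = 0
  neg : ∀ i ∈ K, ∀ j, j ∉ K → ⟪w i, w j⟫_ℝ ≤ 0
  inj : ∀ i ∈ K, ∀ j, w j = w i → j = i
  ext : ∀ i ∈ K, ∃ H₁, Reg L C.a H₁ ∧ HW s C.a H₁ (w i) (e i)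
  root : ∀ i ∈ K, ∀ j ∈ K, i ≠ j → w i - w j ∈ roots L C.a

theorem P01_norm (t : CRep J W) (C : CSub L) (ht : Irr t) {H₁ mu lam : g} {v : W}
    (hH₁ : Reg L C.a H₁) (hv : HW t C.a H₁ mu v) (hlam : IsW t C.a lam) :
    ⟪lam, lam⟫_ℝ ≤ ⟪mu, mu⟫_ℝ := N04_norm t C ht hH₁ hv hlam

omit [FiniteDimensional ℝ g] [FiniteDimensional ℂ E] in
/-- a vector of the weight `w i` is a multiple of `e i` -/
theorem P01_line (C : CSub L) (s : CRep J E) {N : ℕ} {e : OrthonormalBasis (Fin N) ℂ E}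
    {w : Fin N → g} {K : Finset (Fin N)} {q : ℝ} (h : Orth C s e w K q) {i : Fin N}
    (hi : i ∈ K) {x : E} (hx : WV s C.a (w i) x) : x = ⟪e i, x⟫_ℂ • e i := by
  conv_lhs => rw [← e.sum_repr' x]
  refine Finset.sum_eq_single i (fun k _ hk => ?_) (fun hni => absurd (Finset.mem_univ i) hni)
  have h1 : w k ≠ w i := fun h2 => hk (h.inj i hi k h2)
  rw [wt_orth s C (h.mem k) (h.mem i) (h.wv k) hx h1, zero_smul]

theorem P01_root (C : CSub L) (s : CRep J E) {N : ℕ} {e : OrthonormalBasis (Fin N) ℂ E}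
    {w : Fin N → g} {K : Finset (Fin N)} {q : ℝ} (h : Orth C s e w K q) {i j : Fin N}
    (hi : i ∈ K) (hj : j ∈ K) (hij : i ≠ j) :
    ∃ Z, RV L C.a (w i - w j) Z ∧ s.op Z (e j) = e i ∧ s.op (L.th Z) (e i) = -e j := by
  obtain ⟨hal, hal0, Z₀, hZ0, hZ₀⟩ := h.root i hi j hj hij
  have hZ₀' : RV L C.a (w i - w j) Z₀ := hZ₀
  -- the image of `e j` is not zero
  have hne : s.op Z₀ (e j) ≠ 0 := by
    intro h2
    have h5 : s.op (L.th (L.th Z₀)) (s.op (L.th Z₀) (e j)) =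
        ((-(⟪Z₀, Z₀⟫_ℝ * ⟪w j, w i - w j⟫_ℝ) : ℝ) : ℂ) • e j := by
      have h6 := s.bracket Z₀ (L.th Z₀) (e j)
      rw [h2, map_zero, sub_zero, br_th_root C hal hZ₀', Rep.neg', LinearMap.neg_apply, s.smul,
        LinearMap.smul_apply, h.wv j _ hal, smul_smul, ← Complex.ofReal_mul, ← neg_smul,
        ← Complex.ofReal_neg] at h6
      rw [L.th_th]
      exact h6.symm
    have h8 := W05_norm s h5
    have h9 : ⟪w j, w i - w j⟫_ℝ = -q := by
      rw [inner_sub_right, h.orth j hj i hi (Ne.symm hij), h.len j hj, zero_sub]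
    rw [h9, neg_neg] at h8
    have h10 : ‖e j‖ = 1 := e.orthonormal.1 j
    rw [h10, one_pow, mul_one, mul_neg] at h8
    have h11 : 0 < ⟪Z₀, Z₀⟫_ℝ * q := mul_pos (real_inner_self_pos.2 hZ0) h.pos
    have h12 : (0 : ℝ) ≤ ‖s.op (L.th Z₀) (e j)‖ ^ 2 := sq_nonneg _
    linarith
  have hw1 : WV s C.a (w i) (s.op Z₀ (e j)) := by
    have h1 := wt_shift s C hZ₀' (h.wv j)
    rwa [sub_add_cancel] at h1
  have hc := P01_line C s h hi hw1
  obtain ⟨c, hcd⟩ : ∃ c : ℂ, c = ⟪e i, s.op Z₀ (e j)⟫_ℂ := ⟨_, rfl⟩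
  rw [← hcd] at hc
  have hc0 : c ≠ 0 := by
    rintro rfl
    rw [zero_smul] at hc
    exact hne hc
  obtain ⟨Z, hZd⟩ : ∃ Z : g, Z = (c⁻¹).re • Z₀ + (c⁻¹).im • J.J Z₀ := ⟨_, rfl⟩
  have hop : s.op Z = c⁻¹ • s.op Z₀ := by
    rw [hZd, s.add, s.smul, s.smul, s.lin, smul_smul, ← add_smul, Complex.re_add_im]
  have hRV : RV L C.a (w i - w j) Z := by
    intro H hH
    rw [hZd, map_add, map_smul, map_smul, hZ₀' H hH, RV_J J C hZ₀' H hH]
    module
  have hZe : s.op Z (e j) = e i := by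
    rw [hop, LinearMap.smul_apply, hc, smul_smul, inv_mul_cancel₀ hc0, one_smul]
  refine ⟨Z, hRV, hZe, ?_⟩
  have hw2 : WV s C.a (w j) (s.op (L.th Z) (e i)) := by
    have h1 := wt_shift s C (RV_th C hRV) (h.wv i)
    rwa [neg_sub, sub_add_cancel] at h1
  rw [P01_line C s h hj hw2]
  have h3 := s.adj Z (e j) (e i)
  rw [hZe] at h3
  have h4 : ⟪e i, e i⟫_ℂ = 1 := by
    rw [e.inner_eq_one]
  rw [h4] at h3
  have h5 : ⟪e j, s.op (L.th Z) (e i)⟫_ℂ = -1 := by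
    rw [h3, neg_neg]
  rw [h5, neg_one_smul]

section
variable {V : Type} [NormedAddCommGroup V] [InnerProductSpace ℂ V] [FiniteDimensional ℂ V]
  {V' : Type} [NormedAddCommGroup V'] [InnerProductSpace ℂ V'] [FiniteDimensional ℂ V']
  {Y' : Type} [NormedAddCommGroup Y'] [InnerProductSpace ℂ Y'] [FiniteDimensional ℂ Y']

/-- the map `b` -/
noncomputable def bmap {N : ℕ} (e : OrthonormalBasis (Fin N) ℂ E) (a : V →ₗ[ℂ] E →ₗ[ℂ] V')
    (b' : V' →ₗ[ℂ] Y' →ₗ[ℂ] W) (c : Y' →ₗ[ℂ] E →ₗ[ℂ] Y) : V →ₗ[ℂ] Y →ₗ[ℂ] W :=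
  ∑ j, b'.compl₁₂ (a.flip (e j)) (LinearMap.adjoint (c.flip (e j)))

theorem P01_star (s : CRep J E) (y : CRep J Y) (y' : CRep J Y') {c : Y' →ₗ[ℂ] E →ₗ[ℂ] Y}
    (hc : ∀ Z u x, y.op Z (c u x) = c (y'.op Z u) x + c u (s.op Z x)) (Z : g) (x : E) (u : Y) :
    y'.op Z (LinearMap.adjoint (c.flip x) u) = LinearMap.adjoint (c.flip x) (y.op Z u)
      + LinearMap.adjoint (c.flip (s.op (L.th Z) x)) u := by
  refine ext_inner_right ℂ fun u' => ?_
  rw [y'.adj, LinearMap.adjoint_inner_left, LinearMap.flip_apply, inner_add_left,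
    LinearMap.adjoint_inner_left, LinearMap.flip_apply, y.adj, hc, LinearMap.adjoint_inner_left,
    LinearMap.flip_apply, inner_add_right]
  ring

omit [FiniteDimensional ℝ g] [FiniteDimensional ℂ E] in
theorem P01_adj {N : ℕ} (e : OrthonormalBasis (Fin N) ℂ E) (c : Y' →ₗ[ℂ] E →ₗ[ℂ] Y) (x : E)
    (u : Y) : LinearMap.adjoint (c.flip x) u =
      ∑ k, ⟪x, e k⟫_ℂ • LinearMap.adjoint (c.flip (e k)) u := by
  refine ext_inner_right ℂ fun u' => ?_
  rw [sum_inner, LinearMap.adjoint_inner_left, LinearMap.flip_apply]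
  conv_lhs => rw [← e.sum_repr' x, map_sum, inner_sum]
  refine Finset.sum_congr rfl fun k _ => ?_
  rw [map_smul, inner_smul_right, inner_smul_left, LinearMap.adjoint_inner_left,
    LinearMap.flip_apply, inner_conj_symm]

theorem P01_bmap {N : ℕ} (e : OrthonormalBasis (Fin N) ℂ E) (a : V →ₗ[ℂ] E →ₗ[ℂ] V')
    (b' : V' →ₗ[ℂ] Y' →ₗ[ℂ] W) (c : Y' →ₗ[ℂ] E →ₗ[ℂ] Y) (v : V) (u : Y) :
    bmap e a b' c v u = ∑ j, b' (a v (e j)) (LinearMap.adjoint (c.flip (e j)) u) := by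
  unfold bmap
  rw [LinearMap.sum_apply, LinearMap.sum_apply]
  rfl

theorem P01_b {N : ℕ} (e : OrthonormalBasis (Fin N) ℂ E) (s : CRep J E) (p : CRep J V)
    (p' : CRep J V') (y : CRep J Y) (y' : CRep J Y') (t : CRep J W) {a : V →ₗ[ℂ] E →ₗ[ℂ] V'}
    {b' : V' →ₗ[ℂ] Y' →ₗ[ℂ] W} {c : Y' →ₗ[ℂ] E →ₗ[ℂ] Y}
    (ha : ∀ Z v x, p'.op Z (a v x) = a (p.op Z v) x + a v (s.op Z x))
    (hb : ∀ Z v u, t.op Z (b' v u) = b' (p'.op Z v) u + b' v (y'.op Z u))
    (hc : ∀ Z u x, y.op Z (c u x) = c (y'.op Z u) x + c u (s.op Z x)) (Z : g) (v : V) (u : Y) :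
    t.op Z (bmap e a b' c v u) = bmap e a b' c (p.op Z v) u + bmap e a b' c v (y.op Z u) := by
  rw [P01_bmap, P01_bmap, P01_bmap, map_sum]
  have h1 : ∀ j, t.op Z (b' (a v (e j)) (LinearMap.adjoint (c.flip (e j)) u)) =
      (b' (a (p.op Z v) (e j)) (LinearMap.adjoint (c.flip (e j)) u) +
        b' (a v (e j)) (LinearMap.adjoint (c.flip (e j)) (y.op Z u))) +
      (∑ k, ⟪e k, s.op Z (e j)⟫_ℂ • b' (a v (e k)) (LinearMap.adjoint (c.flip (e j)) u) +
        ∑ k, ⟪s.op (L.th Z) (e j), e k⟫_ℂ •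
          b' (a v (e j)) (LinearMap.adjoint (c.flip (e k)) u)) := by
    intro j
    have h2 : ∑ k, ⟪e k, s.op Z (e j)⟫_ℂ • b' (a v (e k)) (LinearMap.adjoint (c.flip (e j)) u) =
        b' (a v (s.op Z (e j))) (LinearMap.adjoint (c.flip (e j)) u) := by
      conv_rhs => rw [← e.sum_repr' (s.op Z (e j)), map_sum, map_sum, LinearMap.sum_apply]
      refine Finset.sum_congr rfl fun k _ => ?_
      rw [map_smul, map_smul, LinearMap.smul_apply]
    have h3 : ∑ k, ⟪s.op (L.th Z) (e j), e k⟫_ℂ •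
          b' (a v (e j)) (LinearMap.adjoint (c.flip (e k)) u) =
        b' (a v (e j)) (LinearMap.adjoint (c.flip (s.op (L.th Z) (e j))) u) := by
      rw [P01_adj e c (s.op (L.th Z) (e j)) u, map_sum]
      refine Finset.sum_congr rfl fun k _ => ?_
      rw [map_smul]
    rw [h2, h3, hb, ha, P01_star s y y' hc, map_add, LinearMap.add_apply, map_add]
    abel
  rw [Finset.sum_congr rfl fun j _ => h1 j, Finset.sum_add_distrib, Finset.sum_add_distrib,
    Finset.sum_add_distrib]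
  have h4 : ∑ j, ∑ k, ⟪e k, s.op Z (e j)⟫_ℂ • b' (a v (e k)) (LinearMap.adjoint (c.flip (e j)) u) +
      ∑ j, ∑ k, ⟪s.op (L.th Z) (e j), e k⟫_ℂ •
          b' (a v (e j)) (LinearMap.adjoint (c.flip (e k)) u) = 0 := by
    rw [Finset.sum_comm, ← Finset.sum_add_distrib]
    refine Finset.sum_eq_zero fun j _ => ?_
    rw [← Finset.sum_add_distrib]
    refine Finset.sum_eq_zero fun k _ => ?_
    rw [s.adj, L.th_th, neg_smul, add_neg_cancel]
  rw [h4, add_zero]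

end

end

end Pool.Agent.Lib.MP_4322ef_CH
end

section

/-!
# The conjugate complex structure

Passing from `J` to `-J` replaces `(mu, nu)` by `(-mu, nu)`; a complex linear representation is made
complex linear for `-J` by composing it with the Cartan involution.
-/

set_option autoImplicit false

open scoped InnerProductSpace

namespace Pool.Agent.Lib.MP_4322ef_CH

open Pool.Agent.Lib.MP_4322ef_al.SR

variable {g : Type} [NormedAddCommGroup g] [InnerProductSpace ℝ g] {L : RedLie g}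

/-- the conjugate complex structure -/
def CStr.neg (J : CStr L) : CStr L where
  J := -J.J
  sq A := by
    show -J.J (-J.J A) = -A
    rw [map_neg, neg_neg, J.sq]
  br A B := by
    show L.br (-J.J A) B = -J.J (L.br A B)
    rw [map_neg, LinearMap.neg_apply, J.br]
  th A := by
    show L.th (-J.J A) = - -J.J (L.th A)
    rw [map_neg, J.th]
  inner A B := by
    show ⟪-J.J A, -J.J B⟫_ℝ = ⟪A, B⟫_ℝ
    rw [inner_neg_left, inner_neg_right, neg_neg, J.inner]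

theorem neg_J (J : CStr L) (A : g) : J.neg.J A = -J.J A := rfl

/-- composition with the Cartan involution -/
def tw {J : CStr L} {W : Type} [NormedAddCommGroup W] [InnerProductSpace ℂ W] (t : CRep J W) :
    CRep J.neg W where
  op A := t.op (L.th A)
  add A B := by rw [map_add, t.add]
  smul r A := by rw [map_smul, t.smul]
  bracket A B x := by rw [L.th_br, t.bracket]
  lin A := by rw [neg_J, map_neg, J.th, neg_neg, t.lin]
  adj A x y := t.adj (L.th A) x y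

theorem tw_op {J : CStr L} {W : Type} [NormedAddCommGroup W] [InnerProductSpace ℂ W]
    (t : CRep J W) (A : g) : (tw t).op A = t.op (L.th A) := rfl

theorem tw_k {J : CStr L} {W : Type} [NormedAddCommGroup W] [InnerProductSpace ℂ W]
    (t : CRep J W) {A : g} (h : L.th A = A) : (tw t).op A = t.op A := by rw [tw_op, h]

theorem tw_irr {J : CStr L} {W : Type} [NormedAddCommGroup W] [InnerProductSpace ℂ W]
    {t : CRep J W} (h : Irr t) : Irr (tw t) := by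
  intro U hU
  refine h U fun Z u hu => ?_
  have h1 := hU (L.th Z) u hu
  rw [tw_op, L.th_th] at h1
  exact h1

theorem op_neg' {X : Type} [AddCommGroup X] [Module ℂ X] (r : Rep L X) (A : g) :
    r.op (-A) = -r.op A := by
  have h := r.smul (-1) A
  rw [neg_one_smul, Complex.ofReal_neg, Complex.ofReal_one, neg_one_smul] at h
  exact h

theorem neg_reg (C : CSub L) {H : g} (h : Reg L C.a H) : Reg L C.a (-H) := by
  refine ⟨C.a.neg_mem h.1, fun al ha => ?_⟩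
  rw [inner_neg_right]
  exact neg_ne_zero.2 (h.2 al ha)

theorem neg_ext {J : CStr L} (C : CSub L) {X : Type} [AddCommGroup X] [Module ℂ X] (r : Rep L X)
    {V : Submodule ℂ X} {lam : g} (h : IsExt J C.a r.op V lam) :
    IsExt J.neg C.a r.op V (-lam) := by
  obtain ⟨H₁, hH₁, hlam, v, hv, hv0, hw, hp⟩ := h
  refine ⟨-H₁, neg_reg C hH₁, C.a.neg_mem hlam, v, hv, hv0, fun H hH => ?_, ?_⟩
  · rw [neg_J, op_neg', LinearMap.neg_apply, hw H hH, inner_neg_left, ← neg_smul]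
    congr 1
    push_cast
    ring
  · rintro Z ⟨c, hc, hZ⟩
    have h1 : L.br H₁ (L.th Z) = c • L.th Z := by
      have h2 : L.th (L.br (-H₁) Z) = L.br H₁ (L.th Z) := by
        rw [L.th_br, map_neg L.th, C.a_p H₁ hH₁.1, neg_neg]
      rw [← h2, hZ, map_smul]
    have h2 := hp (L.th Z) ⟨c, hc, h1⟩
    have h3 : L.kk (L.th Z) = L.kk Z := by
      rw [kk_apply, kk_apply, L.th_th, add_comm]
    have h4 : L.pp (L.th Z) = -L.pp Z := by
      rw [pp_apply, pp_apply, L.th_th, ← smul_neg, neg_sub]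
    rw [h3, h4, map_neg] at h2
    rw [neg_J]
    exact h2

theorem tw_ext {J : CStr L} (C : CSub L) {W : Type} [NormedAddCommGroup W] [InnerProductSpace ℂ W]
    {t : CRep J W} {lam : g} (h : IsExt J C.a t.op ⊤ lam) :
    IsExt J.neg C.a (tw t).op ⊤ (-lam) := by
  obtain ⟨H₁, hH₁, hlam, v, hv, hv0, hw, hp⟩ := neg_ext C t.toRep h
  refine ⟨H₁, hH₁, hlam, v, hv, hv0, fun H hH => ?_, fun Z hZ => ?_⟩
  · rw [tw_k t (th_JH J.neg C hH)]
    exact hw H hH
  · rw [tw_k t (th_kk L Z), tw_k t (th_Jpp J.neg Z)]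
    exact hp Z hZ

theorem neg_lang {J : CStr L} (C : CSub L) {X : Type} [AddCommGroup X] [Module ℂ X] (r : Rep L X)
    {mu nu : g} (h : IsLang J C.a r.op mu nu) : IsLang J.neg C.a r.op (-mu) nu := by
  obtain ⟨H₂, hH₂, hd, ep, hep, h1, h2, h3⟩ := h
  refine ⟨H₂, hH₂, hd, ep, hep, h1, h2, fun H hH x => ?_⟩
  rw [neg_J, op_neg', LinearMap.neg_apply, map_neg, h3 H hH x, inner_neg_left]
  push_cast
  ring

theorem neg_hull (C : CSub L) {p : g} (h : InHull L C.a p) : InHull L C.a (-p) := by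
  refine ⟨C.a.neg_mem h.1, fun H hH => ?_⟩
  have h1 := h.2 (-H) (C.a.neg_mem hH)
  have h2 : hgt L C.a (-H) = hgt L C.a H := by
    unfold hgt
    congr 1
    refine finsum_congr fun al => finsum_congr fun _ => ?_
    rw [inner_neg_right, abs_neg]
  rw [h2, inner_neg_right] at h1
  rw [inner_neg_left]
  exact h1

theorem neg_small {J : CStr L} (C : CSub L) {X : Type} [AddCommGroup X] [Module ℂ X] (r : Rep L X)
    {V : Submodule ℂ X} (h : Small J.neg C.a r.op V) : Small J C.a r.op V := by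
  rintro lam ⟨hlam, v, hv, hv0, hw⟩
  have h1 := h (-lam) ⟨C.a.neg_mem hlam, v, hv, hv0, fun H hH => ?_⟩
  · have h2 := neg_hull C h1
    rw [neg_neg] at h2
    exact h2
  · rw [neg_J, op_neg', LinearMap.neg_apply, hw H hH, inner_neg_left, ← neg_smul]
    congr 1
    push_cast
    ring

theorem neg_fund (C : CSub L) {y : g} (h : Fund L C.a y) : Fund L C.a (-y) := by
  intro H₁ hH₁ hd al ha hpos
  have h1 := h (-H₁) (neg_reg C hH₁) (fun be hbe hb => by
    have h2 := hd (-be) (roots_neg C hbe) (by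
      rw [inner_neg_right] at hb
      rw [inner_neg_left]
      exact hb)
    rw [inner_neg_left, inner_neg_right, neg_neg] at h2
    exact h2) (-al) (roots_neg C ha) (by
      rw [inner_neg_left, inner_neg_right, neg_neg]
      exact hpos)
  have h2 : ∑ᶠ be ∈ {be | be ∈ roots L C.a ∧ 0 < ⟪be, H₁⟫_ℝ}, ⟪be, al⟫_ℝ =
      ∑ᶠ be ∈ {be | be ∈ roots L C.a ∧ 0 < ⟪be, -H₁⟫_ℝ}, ⟪be, -al⟫_ℝ := by
    refine finsum_mem_eq_of_bijOn (fun be => -be) ⟨?_, neg_injective.injOn, ?_⟩ ?_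
    · rintro be ⟨hbe, hb⟩
      refine ⟨roots_neg C hbe, ?_⟩
      show 0 < ⟪-be, -H₁⟫_ℝ
      rw [inner_neg_left, inner_neg_right, neg_neg]
      exact hb
    · rintro be ⟨hbe, hb⟩
      refine ⟨-be, ⟨roots_neg C hbe, ?_⟩, neg_neg be⟩
      show 0 < ⟪-be, H₁⟫_ℝ
      rw [inner_neg_left, ← inner_neg_right]
      exact hb
    · intro be _
      rw [inner_neg_left, inner_neg_right, neg_neg]
  rw [← h2, inner_neg_right] at h1
  rw [inner_neg_left]
  exact h1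

theorem neg_good {J : CStr L} (C : CSub L) {X : Type} [AddCommGroup X] [Module ℂ X] (r : Rep L X)
    {V₀ : Submodule ℂ X} {mu y : g} (h : Good J C.a r.op V₀ mu y) :
    Good J.neg C.a r.op V₀ (-mu) (-y) := by
  obtain ⟨Y, i1, i2, i3, s, hs, hext, h⟩ := h
  refine ⟨Y, i1, i2, i3, tw s, tw_irr hs, tw_ext C hext, ?_⟩
  rcases h with h | ⟨hf, h⟩
  · left
    intro al ha
    rw [inner_neg_left, abs_neg]
    exact h al ha
  refine Or.inr ⟨neg_fund C hf, ?_⟩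
  rcases h with h | ⟨V, j1, j2, j3, t, b, ht, hte, hb, heq, v, u, hvu, hv, hu⟩
  · left
    intro al ha hpos
    have h1 := h (-al) (roots_neg C ha) (by
      rw [inner_neg_left, ← inner_neg_right]
      exact hpos)
    rw [inner_neg_left, ← inner_neg_right, neg_sub] at h1
    rw [sub_neg_eq_add, neg_add_eq_sub]
    exact h1
  · right
    have hmy : -mu - -y = -(mu - y) := by abel
    refine ⟨V, j1, j2, j3, tw t, b, tw_irr ht, ?_, hb, ?_, v, u, hvu, ?_, ?_⟩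
    · rw [hmy]
      exact tw_ext C hte
    · intro Z hZ v u
      rw [tw_k t hZ, tw_k s hZ]
      exact heq Z hZ v u
    · intro H hH
      rw [tw_op, C.a_p H hH, op_neg' t.toRep, LinearMap.neg_apply, hv H hH, hmy,
        inner_neg_left (mu - y) H, Complex.ofReal_neg, neg_smul]
    · intro H hH
      rw [tw_op, C.a_p H hH, op_neg' s.toRep, LinearMap.neg_apply, hu H hH,
        inner_neg_left y H, Complex.ofReal_neg, neg_smul]

/-- the continuous parameter is orthogonal to the centre -/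
theorem nu_cen [FiniteDimensional ℝ g] {J : CStr L} (C : CSub L) {X : Type} [NormedAddCommGroup X]
    [InnerProductSpace ℂ X] (r : HC L X) (B : InvForm r) {mu nu : g}
    (h : IsLang J C.a r.op mu nu) {z : g} (hz : z ∈ C.a)
    (hz0 : ∀ al ∈ roots L C.a, ⟪al, z⟫_ℝ = 0) : ⟪nu, z⟫_ℝ = 0 := by
  have hcen := cen_br C hz hz0
  obtain ⟨H₂, hH₂, hd, ep, hep, h1, h2, h3⟩ := h
  have hsum : ∑ᶠ be ∈ {be | be ∈ roots L C.a ∧ 0 < ⟪be, H₂⟫_ℝ}, ⟪be, z⟫_ℝ = 0 := by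
    refine finsum_mem_eq_zero_of_forall_eq_zero ?_
    rintro be ⟨hbe, _⟩
    exact hz0 be hbe
  have h4 : ∀ x, ep (r.op z x) = ((-⟪nu, z⟫_ℝ : ℝ) : ℂ) * ep x := by
    intro x
    rw [h2 z hz x, hsum, zero_sub]
  let T : X →ₗ[ℂ] X := r.op z - ((-⟪nu, z⟫_ℝ : ℝ) : ℂ) • LinearMap.id
  have hT : ∀ x, T x = r.op z x - ((-⟪nu, z⟫_ℝ : ℝ) : ℂ) • x := fun x => rfl
  have hcomm : ∀ A x, r.op A (T x) = T (r.op A x) := by
    intro A x
    have h5 := r.bracket z A x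
    rw [hcen A] at h5
    have h6 : r.op (0 : g) = 0 := by
      have h7 := r.smul 0 0
      rw [smul_zero, Complex.ofReal_zero, zero_smul] at h7
      exact h7
    rw [h6, LinearMap.zero_apply] at h5
    rw [hT, hT, map_sub, map_smul, ← sub_eq_zero.1 h5.symm]
  have hrange : LinearMap.range T = ⊥ := by
    rcases r.irr (LinearMap.range T) (by
      rintro A _ ⟨x, rfl⟩
      exact ⟨r.op A x, (hcomm A x).symm⟩) with h5 | h5
    · exact h5
    · exfalso
      apply hep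
      ext x
      have h6 : x ∈ LinearMap.range T := by rw [h5]; trivial
      obtain ⟨x', rfl⟩ := h6
      rw [hT, map_sub, map_smul, h4, smul_eq_mul, sub_self]
      rfl
  have hop : ∀ x, r.op z x = ((-⟪nu, z⟫_ℝ : ℝ) : ℂ) • x := by
    intro x
    have h5 : T x ∈ LinearMap.range T := ⟨x, rfl⟩
    rw [hrange, Submodule.mem_bot, hT] at h5
    exact sub_eq_zero.1 h5
  obtain ⟨x, y, hxy⟩ : ∃ x y, B.form x y ≠ 0 := by
    by_contra hcon
    push Not at hcon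
    exact B.ne (LinearMap.ext fun x => LinearMap.ext fun y => hcon x y)
  have h5 := B.inv z x y
  have e1 : B.form (((-⟪nu, z⟫_ℝ : ℝ) : ℂ) • x) y = ((-⟪nu, z⟫_ℝ : ℝ) : ℂ) * B.form x y := by
    rw [LinearMap.map_smulₛₗ B.form, LinearMap.smul_apply, Complex.conj_ofReal, smul_eq_mul]
  have e2 : B.form x (((-⟪nu, z⟫_ℝ : ℝ) : ℂ) • y) = ((-⟪nu, z⟫_ℝ : ℝ) : ℂ) * B.form x y := by
    rw [map_smul, smul_eq_mul]
  rw [hop, hop, e1, e2] at h5
  have h6 : ((-⟪nu, z⟫_ℝ : ℝ) : ℂ) * B.form x y = 0 := by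
    have h7 : 2 * (((-⟪nu, z⟫_ℝ : ℝ) : ℂ) * B.form x y) = 0 := by
      rw [two_mul]
      nth_rewrite 1 [h5]
      ring
    exact (mul_eq_zero.1 h7).resolve_left two_ne_zero
  have h7 := (mul_eq_zero.1 h6).resolve_right hxy
  have h8 : -⟪nu, z⟫_ℝ = 0 := by exact_mod_cast h7
  linarith

end Pool.Agent.Lib.MP_4322ef_CH
end

section

/-!
# The convex hull conjecture for complex groups, both signs
-/

set_option autoImplicit false

open scoped InnerProductSpace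

namespace Pool.Agent.Lib.MP_4322ef_CH

open Pool.Agent.Lib.MP_4322ef_al.SR

variable {g : Type} [NormedAddCommGroup g] [InnerProductSpace ℝ g] {L : RedLie g}

/-- the hull is convex -/
theorem hull_seg (C : CSub L) {mu nu : g} {s t : ℝ} (hs : 0 ≤ s) (hst : s ≤ t)
    (h0 : InHull L C.a mu) (ht : InHull L C.a (mu + t • nu)) : InHull L C.a (mu + s • nu) := by
  rcases eq_or_lt_of_le (hs.trans hst) with h | h
  · have h1 : s = 0 := le_antisymm (by rw [h]; exact hst) hs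
    rw [h1, zero_smul, add_zero]
    exact h0
  · have h1 : mu + s • nu = (1 - s / t) • mu + (s / t) • (mu + t • nu) := by
      rw [smul_add, smul_smul, div_mul_cancel₀ _ h.ne', sub_smul, one_smul]
      abel
    have h2 : 0 ≤ s / t := div_nonneg hs h.le
    have h3 : 0 ≤ 1 - s / t := by
      rw [sub_nonneg, div_le_one h]
      exact hst
    refine ⟨?_, fun H hH => ?_⟩
    · rw [h1]
      exact C.a.add_mem (C.a.smul_mem _ h0.1) (C.a.smul_mem _ ht.1)
    · rw [h1, inner_add_left, real_inner_smul_left, real_inner_smul_left]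
      have h4 := mul_le_mul_of_nonneg_left (h0.2 H hH) h3
      have h5 := mul_le_mul_of_nonneg_left (ht.2 H hH) h2
      have h6 : hgt L C.a H = (1 - s / t) * hgt L C.a H + s / t * hgt L C.a H := by ring
      rw [h6]
      exact add_le_add h4 h5

variable [FiniteDimensional ℝ g]

/-- the exit point from the hull, one direction -/
theorem exit1 (C : CSub L) {mu nu : g} (hnu : nu ∈ C.a)
    (hcen : ∀ z ∈ C.a, (∀ al ∈ roots L C.a, ⟪al, z⟫_ℝ = 0) → ⟪nu, z⟫_ℝ = 0)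
    (hin : InHull L C.a mu) {Q : g → Prop}
    (hgen : ∀ H, Reg L C.a H → ∃ S : Finset g, Gen L C.a H S ∧ ∀ y ∈ S, y ∈ C.a ∧ Q y) :
    ∃ t : ℝ, 0 ≤ t ∧ t ≤ 1 ∧ InHull L C.a (mu + t • nu) ∧ (t = 1 ∨
      ∃ y, y ∈ C.a ∧ Q y ∧ ⟪mu + t • nu, y⟫_ℝ = hgt L C.a y ∧ hgt L C.a y < ⟪mu + nu, y⟫_ℝ) := by
  classical
  by_cases hout : InHull L C.a (mu + nu)
  · refine ⟨1, zero_le_one, le_rfl, ?_, Or.inl rfl⟩
    rw [one_smul]
    exact hout
  obtain ⟨P, hP, hPm, hPh, hPv, hP0⟩ := exists_P C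
  have hmua : mu ∈ C.a := hin.1
  have hreg : ∀ H : C.a, Rg P H → Reg L C.a H := fun H hH =>
    ⟨H.2, fun al ha => hH ⟨al, ha.1⟩ ((hPm _).2 ha)⟩
  choose! S hS using hgen
  have hex := exit_facet hP hP0 (mu := ⟨mu, hmua⟩) (nu := ⟨nu, hnu⟩) ?_ ?_ ?_
    (fun H : C.a => (S H).subtype (fun y => y ∈ C.a)) ?_
  · obtain ⟨t, ht, htZ, H, hH, y, hy, hpy, hpo⟩ := hex
    have hy' : (y : g) ∈ S H := Finset.mem_subtype.1 hy
    have hQ := (hS H (hreg H hH)).2 y hy'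
    have h1 : InHull L C.a (mu + t • nu) := by
      refine ⟨C.a.add_mem hmua (C.a.smul_mem _ hnu), fun H hH => ?_⟩
      have h2 := htZ ⟨H, hH⟩
      rw [hPh] at h2
      exact h2
    refine ⟨t, ht, ?_, h1, Or.inr ⟨y, y.2, hQ.2, ?_, ?_⟩⟩
    · by_contra hcon
      rw [not_le] at hcon
      apply hout
      have h2 := hull_seg C zero_le_one hcon.le hin h1
      rw [one_smul] at h2
      exact h2
    · rw [hPh] at hpy
      exact hpy
    · rw [hPh] at hpo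
      exact hpo
  · intro x
    rw [hPh]
    exact hin.2 x x.2
  · intro h
    refine hout ⟨C.a.add_mem hmua hnu, fun H hH => ?_⟩
    have h2 := h ⟨H, hH⟩
    rw [hPh] at h2
    exact h2
  · intro z hz
    exact hcen z z.2 fun al ha => hz ⟨al, ha.1⟩ ((hPm _).2 ha)
  · intro H hH
    have hG := (hS H (hreg H hH)).1
    refine ⟨fun y hy al ha hpos => hG.1 y (Finset.mem_subtype.1 hy) al ((hPm al).1 ha) hpos, ?_⟩
    intro x hx
    obtain ⟨c, hc, hcx⟩ := hG.2 x x.2 fun al ha hpos => hx ⟨al, ha.1⟩ ((hPm _).2 ha) hpos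
    refine ⟨fun y => c y, fun y hy => hc y (Finset.mem_subtype.1 hy), fun al ha => ?_⟩
    have h1 := hcx al ((hPm al).1 ha)
    have h2 : ((∑ y ∈ (S H).subtype (fun y => y ∈ C.a), c y • y : C.a) : g) =
        ∑ y ∈ S H, c y • y := by
      rw [Submodule.coe_sum]
      have h3 : (∑ i ∈ (S H).subtype (fun y => y ∈ C.a), ((c i • i : C.a) : g)) =
          ∑ i ∈ (S H).subtype (fun y => y ∈ C.a), (fun y : g => c y • y) i := rfl
      rw [h3, Finset.sum_subtype_of_mem (fun y : g => c y • y)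
        fun y hy => ((hS H (hreg H hH)).2 y hy).1]
    show ⟪(al : g), (x : g) - ((∑ y ∈ (S H).subtype (fun y => y ∈ C.a), c y • y : C.a) : g)⟫_ℝ = 0
    rw [h2]
    exact h1

/-- the exit point from the hull, both directions -/
theorem exit2 (C : CSub L) {mu nu : g} (hnu : nu ∈ C.a)
    (hcen : ∀ z ∈ C.a, (∀ al ∈ roots L C.a, ⟪al, z⟫_ℝ = 0) → ⟪nu, z⟫_ℝ = 0)
    (hin : InHull L C.a mu) (hout : ¬(InHull L C.a (mu + nu) ∧ InHull L C.a (mu - nu)))
    {Q : g → Prop}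
    (hgen : ∀ H, Reg L C.a H → ∃ S : Finset g, Gen L C.a H S ∧ ∀ y ∈ S, y ∈ C.a ∧ Q y) :
    ∃ t : ℝ, 0 ≤ t ∧ InHull L C.a (mu + t • nu) ∧ InHull L C.a (mu - t • nu) ∧
      ∃ y, y ∈ C.a ∧ Q y ∧
        ((⟪mu + t • nu, y⟫_ℝ = hgt L C.a y ∧ hgt L C.a y < ⟪mu + nu, y⟫_ℝ) ∨
          (⟪mu - t • nu, y⟫_ℝ = hgt L C.a y ∧ hgt L C.a y < ⟪mu - nu, y⟫_ℝ)) := by
  obtain ⟨t₁, h1, h2, h3, h4⟩ := exit1 C hnu hcen hin hgen
  obtain ⟨t₂, k1, k2, k3, k4⟩ := exit1 C (nu := -nu) (C.a.neg_mem hnu) (fun z hz hz0 => by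
    rw [inner_neg_left, hcen z hz hz0, neg_zero]) hin hgen
  rcases le_total t₁ t₂ with hle | hle
  · have h5 : InHull L C.a (mu - t₁ • nu) := by
      have h6 := hull_seg C h1 hle hin k3
      rw [smul_neg, ← sub_eq_add_neg] at h6
      exact h6
    rcases h4 with h4 | ⟨y, hy, hQ, h6, h7⟩
    · exfalso
      apply hout
      rw [h4, one_smul] at h3 h5
      exact ⟨h3, h5⟩
    · exact ⟨t₁, h1, h3, h5, y, hy, hQ, Or.inl ⟨h6, h7⟩⟩
  · have h5 : InHull L C.a (mu + t₂ • nu) := hull_seg C k1 hle hin h3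
    rw [smul_neg, ← sub_eq_add_neg] at k3
    rcases k4 with k4 | ⟨y, hy, hQ, h6, h7⟩
    · exfalso
      apply hout
      rw [k4, one_smul] at k3 h5
      exact ⟨h5, k3⟩
    · rw [smul_neg, ← sub_eq_add_neg] at h6
      rw [← sub_eq_add_neg] at h7
      exact ⟨t₂, k1, h5, k3, y, hy, hQ, Or.inr ⟨h6, h7⟩⟩

/-- the theorem at the exit point -/
theorem at_exit (J : CStr L) (C : CSub L)
    {X : Type} [NormedAddCommGroup X] [InnerProductSpace ℂ X] (r : HC L X) (B : InvForm r)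
    {V₀ : Submodule ℂ X} (hV₀ : IsKType L r.op V₀) {mu nu y : g} (hmu : IsExt J C.a r.op V₀ mu)
    (hnu : nu ∈ C.a) (hX : IsLang J C.a r.op mu nu) {t : ℝ} (ht : 0 ≤ t)
    (hp : InHull L C.a (mu + t • nu)) (hp' : InHull L C.a (mu - t • nu)) (hya : y ∈ C.a)
    (hG : Good J C.a r.op V₀ mu y)
    (hpy : ⟪mu + t • nu, y⟫_ℝ = hgt L C.a y) (hyo : hgt L C.a y < ⟪mu + nu, y⟫_ℝ) :
    ∃ V₁ V₂ : Submodule ℂ X, IsKType L r.op V₁ ∧ IsKType L r.op V₂ ∧
      Small J C.a r.op V₁ ∧ Small J C.a r.op V₂ ∧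
      (∀ v ∈ V₁, v ≠ 0 → 0 < (B.form v v).re) ∧ ∀ v ∈ V₂, v ≠ 0 → (B.form v v).re < 0 := by
  obtain ⟨-, hfund, Y, i1, i2, i3, s, hs, hye, V, j1, j2, j3, q, b, hq, hqe, hbV, hb, hb0⟩ :=
    good_data J C r hV₀ hmu hG
  obtain ⟨H₂, hH₂, hdom, hPS⟩ := hX
  obtain ⟨P, hP, hPm, hPh, hPv, hP0⟩ := exists_P C
  refine main J C r B s hs q hq hV₀ hH₂ hnu hPS hmu hqe hye b hbV hb hb0 ?_ hfund hp hp' ?_ hpy
    hyo
  · intro al ha hpos
    by_contra hcon
    push Not at hcon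
    have hal : (⟨-al, C.a.neg_mem ha.1⟩ : C.a) ∈ P := (hPm _).2 (roots_neg C ha)
    have h1 := facet hP hP0 (y := ⟨y, hya⟩) (p := ⟨mu + t • nu, hp.1⟩)
      (al := ⟨-al, C.a.neg_mem ha.1⟩) (fun H hH hyH be hbe hbpos => by
        have h2 := hfund H ⟨H.2, fun al ha => hH ⟨al, ha.1⟩ ((hPm _).2 ha)⟩
          (fun al ha hpos => hyH ⟨al, ha.1⟩ ((hPm _).2 ha) hpos) be ((hPm be).1 hbe) hbpos
        have h3 := hPv H be
        rw [inner_sub_right, real_inner_smul_right, real_inner_comm (vc P H) be, h3, sub_nonneg,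
          real_inner_comm]
        exact h2)
      (fun x => by rw [hPh]; exact hp.2 x x.2) (by rw [hPh]; exact hpy) hal
      (by
        show 0 < ⟪-al, y⟫_ℝ
        rw [inner_neg_left]
        linarith [hcon.1])
    have h2 : 2 * ⟪-al, y⟫_ℝ ≤ ⟪-al, mu + t • nu⟫_ℝ := h1
    rw [inner_neg_left, inner_neg_left, inner_add_right, real_inner_smul_right] at h2
    have h3 : 0 ≤ t * ⟪al, nu⟫_ℝ := mul_nonneg ht (hdom al ha hpos)
    have h4 := hcon.2
    rw [inner_sub_right] at h4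
    linarith [hcon.1]
  · rw [two_smul]
    abel

theorem literal' (J : CStr L) (C : CSub L)
    {X : Type} [NormedAddCommGroup X] [InnerProductSpace ℂ X] (r : HC L X) (B : InvForm r)
    {V₀ : Submodule ℂ X} (hV₀ : IsKType L r.op V₀) {mu nu : g} (hmu : IsExt J C.a r.op V₀ mu)
    (hnu : nu ∈ C.a) (hX : IsLang J C.a r.op mu nu)
    (hgen : ∀ H, Reg L C.a H → ∃ S : Finset g, Gen L C.a H S ∧ ∀ y ∈ S, Good J C.a r.op V₀ mu y)
    (hin : InHull L C.a mu) (hout : ¬(InHull L C.a (mu + nu) ∧ InHull L C.a (mu - nu))) :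
    ∃ V₁ V₂ : Submodule ℂ X, IsKType L r.op V₁ ∧ IsKType L r.op V₂ ∧
      Small J C.a r.op V₁ ∧ Small J C.a r.op V₂ ∧
      (∀ v ∈ V₁, v ≠ 0 → 0 < (B.form v v).re) ∧ ∀ v ∈ V₂, v ≠ 0 → (B.form v v).re < 0 := by
  obtain ⟨t, ht, hp, hp', y, hya, hG, hy | hy⟩ := exit2 C hnu
    (fun z hz hz0 => nu_cen C r B hX hz hz0) hin hout
    (Q := fun y => Good J C.a r.op V₀ mu y) fun H hH => by
      obtain ⟨S, hS, hSG⟩ := hgen H hH
      exact ⟨S, hS, fun y hy => ⟨(good_data J C r hV₀ hmu (hSG y hy)).1, hSG y hy⟩⟩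
  · exact at_exit J C r B hV₀ hmu hnu hX ht hp hp' hya hG hy.1 hy.2
  · have h1 : -mu + t • nu = -(mu - t • nu) := by abel
    have h2 : -mu - t • nu = -(mu + t • nu) := by abel
    have h3 : hgt L C.a (-y) = hgt L C.a y := by
      unfold hgt
      congr 1
      refine finsum_congr fun al => finsum_congr fun _ => ?_
      rw [inner_neg_right, abs_neg]
    have h4 : -mu + nu = -(mu - nu) := by abel
    obtain ⟨V₁, V₂, k1, k2, k3, k4, k5, k6⟩ := at_exit J.neg C r B hV₀ (neg_ext C r.toRep hmu) hnu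
      (neg_lang C r.toRep hX) ht (by rw [h1]; exact neg_hull C hp') (by rw [h2]; exact neg_hull C hp)
      (C.a.neg_mem hya) (neg_good C r.toRep hG)
      (by rw [h1, inner_neg_left, inner_neg_right, neg_neg, h3]; exact hy.1)
      (by rw [h4, inner_neg_left, inner_neg_right, neg_neg, h3]; exact hy.2)
    exact ⟨V₁, V₂, k1, k2, neg_small C r.toRep k3, neg_small C r.toRep k4, k5, k6⟩

theorem literal_z' (J : CStr L) (C : CSub L)
    {X : Type} [NormedAddCommGroup X] [InnerProductSpace ℂ X] (r : HC L X) (B : InvForm r)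
    {V₀ : Submodule ℂ X} (hV₀ : IsKType L r.op V₀) {mu nu z : g} (hmu : IsExt J C.a r.op V₀ mu)
    (hnu : nu ∈ C.a) (hX : IsLang J C.a r.op mu nu)
    (hz : z ∈ C.a) (hz0 : ∀ al ∈ roots L C.a, ⟪al, z⟫_ℝ = 0)
    (hgen : ∀ H, Reg L C.a H → ∃ S : Finset g, Gen L C.a H S ∧ ∀ y ∈ S, Good J C.a r.op V₀ mu y)
    (hin : InHull L C.a (mu - z))
    (hout : ¬(InHull L C.a (mu + nu - z) ∧ InHull L C.a (mu - nu - z))) :
    ∃ V₁ V₂ : Submodule ℂ X, IsKType L r.op V₁ ∧ IsKType L r.op V₂ ∧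
      SmallAt J C.a r.op z V₁ ∧ SmallAt J C.a r.op z V₂ ∧
      (∀ v ∈ V₁, v ≠ 0 → 0 < (B.form v v).re) ∧ ∀ v ∈ V₂, v ≠ 0 → (B.form v v).re < 0 := by
  obtain ⟨r', B', hr, hB⟩ := exists_twist J C r B hz hz0
  obtain ⟨V₁, V₂, h1, h2, h3, h4, h5, h6⟩ := literal' J C r' B' ((twist_ktype hr).2 hV₀)
    (twist_ext C hz hz0 hr hmu) hnu (twist_lang C hz hz0 hr hX)
    (fun H hH => by
      obtain ⟨S, hS, hG⟩ := hgen H hH
      exact ⟨S, hS, fun y hy => twist_good C hz hz0 hr (hG y hy)⟩) hin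
    (by rw [sub_add_eq_add_sub, sub_right_comm]; exact hout)
  rw [hB] at h5 h6
  exact ⟨V₁, V₂, (twist_ktype hr).1 h1, (twist_ktype hr).1 h2, twist_small C hz hr h3,
    twist_small C hz hr h4, h5, h6⟩

end Pool.Agent.Lib.MP_4322ef_CH
end
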