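import Pool.Agent.Lib.MP_4322ef_CP.Mg.G001
import Pool.Agent.Lib.MP_4322ef_CE.Mg.G004
import Pool.Agent.Lib.MP_4322ef_CH.Mg.G002
import Pool.Agent.Lib.MP_4322ef_CE.Mg.G003
import Pool.Agent.Lib.MP_4322ef_CE.Mg.G002
import Pool.Agent.Lib.MP_4322ef_CH.Mg.G008

section

/-!
# Components for all weights

* `prv_step`: the induction step. `w₀` = a locally short root with `⟪w₀, w₀⟫ ≤ ⟪yy, w₀⟫`, `E` with extreme weight `w₀`
  (`QM` by `qm_of`), `e`, `w` from `G01_onb`. `m` = maximum of `⟪yy, w j⟫` (`≥ ⟪w₀, w₀⟫ = q`, since `w₀` is some `w j`). Choose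
  `i` with `w i ≠ 0`, `⟪yy, w i⟫ = m`, and `⟪la, w i⟫` minimal (`la = mu - yy`). (1) `qstep` for `y`, `yy` and `E`, `w i`: `Y'`, `c`.
  (2) the induction hypothesis for `t`, `mu` and `Y'`, `yy - w i`: `V'`, `b'`, weight `mu - (yy - w i)`. (3) `qstep` for `V'` and
  `E`, `w i`: `V`, `a`, weight `la`. (4) `bmap` (file P01), `P01_b`. (5) the terms with `T j ≠ 0` are those of `K` (as in `P01_ne`:
  `w j = 0` would give `⟪yy, yy⟫ ≤ ⟪yy - w i, yy - w i⟫ = ⟪yy, yy⟫ - 2 m + q`), they are equal by `orbit`, `T i ≠ 0` as in `P01_ne`.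
* `prv_all`: if no root satisfies `⟪al, al⟫ ≤ ⟪yy, al⟫` then `yy` is minuscule (`mins_of`, `wt_int`) and `P03_step` applies
  (`hsep` from `wt_int` for `mu`, as in `common_chm`). Otherwise `prv_step`. Induction on a natural number `n` with
  `⟪yy, yy⟫ ≤ n * q₀`, where `q₀ > 0` is the minimum of the `⟪al, al⟫`; `⟪yy - w i, yy - w i⟫ = ⟪yy, yy⟫ - 2 m + q ≤ ⟪yy, yy⟫ - q`.
-/

set_option autoImplicit false

open scoped InnerProductSpace

namespace Pool.Agent.Lib.MP_4322ef_CH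

open Pool.Agent.Lib.MP_4322ef_al.SR

variable {g : Type} [NormedAddCommGroup g] [InnerProductSpace ℝ g] {L : RedLie g}
  [FiniteDimensional ℝ g]

section
variable {J : CStr L} {E : Type} [NormedAddCommGroup E] [InnerProductSpace ℂ E]
  [FiniteDimensional ℂ E]
  {W : Type} [NormedAddCommGroup W] [InnerProductSpace ℂ W] [FiniteDimensional ℂ W]
  {Y : Type} [NormedAddCommGroup Y] [InnerProductSpace ℂ Y] [FiniteDimensional ℂ Y]

theorem prv_step (C : CSub L) (s : CRep J E) (hs : Irr s) {q : ℝ} (hq : QM C s q) (hq0 : 0 < q)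
    {w₀ : g} (hw₀ : IsW s C.a w₀) (t : CRep J W) (ht : Irr t) (y : CRep J Y) (hy : Irr y)
    {H₁ H₄ mu yy : g} (hH₁ : Reg L C.a H₁) (hH₄ : Reg L C.a H₄) {w₁ : W} {u₁ : Y}
    (hw₁ : HW t C.a H₁ mu w₁) (hu₁ : HW y C.a H₄ yy u₁) (hwy : q ≤ ⟪yy, w₀⟫_ℝ)
    (ih : ∀ (Y' : Type) (_ : NormedAddCommGroup Y') (_ : InnerProductSpace ℂ Y')
      (_ : FiniteDimensional ℂ Y') (y' : CRep J Y') (_ : Irr y') (H₅ yy' : g) (u₁' : Y'),
      Reg L C.a H₅ → HW y' C.a H₅ yy' u₁' → ⟪yy', yy'⟫_ℝ ≤ ⟪yy, yy⟫_ℝ - q →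
      ∃ (V : Type) (_ : NormedAddCommGroup V) (_ : InnerProductSpace ℂ V)
        (_ : FiniteDimensional ℂ V) (p : CRep J V) (b : V →ₗ[ℂ] Y' →ₗ[ℂ] W), Irr p ∧
        (∀ Z v u, t.op Z (b v u) = b (p.op Z v) u + b v (y'.op Z u)) ∧
        ∃ H₂ v₁, Reg L C.a H₂ ∧ HW p C.a H₂ (mu - yy') v₁ ∧ b v₁ u₁' ≠ 0) :
    ∃ (V : Type) (_ : NormedAddCommGroup V) (_ : InnerProductSpace ℂ V)
      (_ : FiniteDimensional ℂ V) (p : CRep J V) (b : V →ₗ[ℂ] Y →ₗ[ℂ] W), Irr p ∧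
      (∀ Z v u, t.op Z (b v u) = b (p.op Z v) u + b v (y.op Z u)) ∧
      ∃ H₂ v₁, Reg L C.a H₂ ∧ HW p C.a H₂ (mu - yy) v₁ ∧ b v₁ u₁ ≠ 0 := by
  classical
  obtain ⟨N, e, w, hwv⟩ := G01_onb C s
  have hyC : yy ∈ C.a := hu₁.mem
  have hla : mu - yy ∈ C.a := C.a.sub_mem hw₁.mem hyC
  have hidx : ∀ lam, IsW s C.a lam → ∃ j, w j = lam := by
    rintro lam ⟨hlam, x, hx0, hx⟩
    by_contra hcon
    push Not at hcon
    apply hx0
    rw [← e.sum_repr' x]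
    refine Finset.sum_eq_zero fun j _ => ?_
    rw [wt_orth s C (hwv j).1 hlam (hwv j).2 hx (hcon j), zero_smul]
  have hisw : ∀ j, IsW s C.a (w j) := fun j => ⟨(hwv j).1, e j, e.orthonormal.ne_zero j, (hwv j).2⟩
  obtain ⟨j₀, hj₀⟩ := hidx w₀ hw₀
  obtain ⟨i₀, -, hmax⟩ := Finset.exists_max_image Finset.univ (fun j => ⟪yy, w j⟫_ℝ)
    ⟨j₀, Finset.mem_univ _⟩
  obtain ⟨m, hm⟩ : ∃ m, m = ⟪yy, w i₀⟫_ℝ := ⟨_, rfl⟩
  have hle : ∀ j, ⟪yy, w j⟫_ℝ ≤ m := fun j => hm ▸ hmax j (Finset.mem_univ j)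
  have hqm : q ≤ m := hwy.trans (hj₀ ▸ hle j₀)
  have hm0 : 0 < m := hq0.trans_le hqm
  have hnz : ∀ j, ⟪yy, w j⟫_ℝ = m → w j ≠ 0 := by
    intro j hj h0
    rw [h0, inner_zero_right] at hj
    linarith
  have hnq : ∀ j, ⟪yy, w j⟫_ℝ = m → ⟪w j, w j⟫_ℝ = q := fun j hj => (hq _ (hisw j) (hnz j hj)).2
  obtain ⟨i₁, hi₁, hmin⟩ := (Finset.univ.filter fun j => ⟪yy, w j⟫_ℝ = m).exists_min_image
    (fun j => ⟪mu - yy, w j⟫_ℝ) ⟨i₀, Finset.mem_filter.2 ⟨Finset.mem_univ _, hm.symm⟩⟩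
  have hi₁m : ⟪yy, w i₁⟫_ℝ = m := (Finset.mem_filter.1 hi₁).2
  have hmin' : ∀ j, ⟪yy, w j⟫_ℝ = m → ⟪mu - yy, w i₁⟫_ℝ ≤ ⟪mu - yy, w j⟫_ℝ := fun j hj =>
    hmin j (Finset.mem_filter.2 ⟨Finset.mem_univ _, hj⟩)
  have hwi0 := hnz i₁ hi₁m
  have hei0 := e.orthonormal.ne_zero i₁
  -- (1)
  obtain ⟨Y', k1, k2, k3, y', c, hy', hc, H₅, u₁', hH₅, hu₁', hc0⟩ :=
    qstep C y hy s hs hq hH₄ hu₁ (hwv i₁).1 hwi0 (hwv i₁).2 hei0
  have hn2 : ∀ j, ⟪yy, w j⟫_ℝ = m → ⟪yy - w j, yy - w j⟫_ℝ = ⟪yy, yy⟫_ℝ - 2 * m + q := by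
    intro j hj
    rw [real_inner_sub_sub_self, hj, hnq j hj]
  -- (2)
  obtain ⟨V', l1, l2, l3, p', b', hp', hb', H₃, v₁', hH₃, hv₁', hb0⟩ :=
    ih Y' k1 k2 k3 y' hy' H₅ (yy - w i₁) u₁' hH₅ hu₁' (by rw [hn2 i₁ hi₁m]; linarith)
  -- (3)
  obtain ⟨V, m1, m2, m3, p, a, hp, ha, H₂, v₁, hH₂, hv₁, ha0⟩ :=
    qstep C p' hp' s hs hq hH₃ hv₁' (hwv i₁).1 hwi0 (hwv i₁).2 hei0
  have hv₁m : mu - (yy - w i₁) - w i₁ = mu - yy := by abel
  have hv₁m' : mu - (yy - w i₁) = (mu - yy) + w i₁ := by abel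
  rw [hv₁m] at hv₁
  rw [hv₁m'] at hv₁'
  refine ⟨V, m1, m2, m3, p, bmap e a b' c, hp, P01_b e s p p' y y' t ha hb' hc, H₂, v₁, hH₂, hv₁,
    ?_⟩
  have haw : ∀ j, WV p' C.a ((mu - yy) + w j) (a v₁ (e j)) := fun j =>
    P02_aw C ha hv₁.wt (hwv j).2
  have hcw : ∀ j, WV y' C.a (yy - w j) (LinearMap.adjoint (c.flip (e j)) u₁) := fun j =>
    P02_cw C hc hu₁.wt (hwv j).2
  -- the nonzero terms
  have hterm : ∀ j, b' (a v₁ (e j)) (LinearMap.adjoint (c.flip (e j)) u₁) ≠ 0 →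
      ⟪yy, w j⟫_ℝ = m ∧ ⟪mu - yy, w j⟫_ℝ = ⟪mu - yy, w i₁⟫_ℝ := by
    intro j hj
    have h1 : a v₁ (e j) ≠ 0 := by
      intro h0
      apply hj
      rw [h0, map_zero, LinearMap.zero_apply]
    have h2 : LinearMap.adjoint (c.flip (e j)) u₁ ≠ 0 := by
      intro h0
      apply hj
      rw [h0, map_zero]
    have hn1 := P01_norm p' C hp' hH₃ hv₁'
      (lam := (mu - yy) + w j) ⟨C.a.add_mem hla (hwv j).1, _, h1, haw j⟩
    have hn3 := P01_norm y' C hy' hH₅ hu₁'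
      (lam := yy - w j) ⟨C.a.sub_mem hyC (hwv j).1, _, h2, hcw j⟩
    rw [hn2 i₁ hi₁m, real_inner_sub_sub_self] at hn3
    have hw0 : w j ≠ 0 := by
      intro h0
      rw [h0, inner_zero_right, inner_zero_right] at hn3
      linarith
    have hjq := (hq _ (hisw j) hw0).2
    have hjm : ⟪yy, w j⟫_ℝ = m := by
      refine le_antisymm (hle j) ?_
      linarith
    refine ⟨hjm, le_antisymm ?_ (hmin' j hjm)⟩
    rw [real_inner_add_add_self, real_inner_add_add_self, hjq, hnq i₁ hi₁m] at hn1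
    linarith
  -- the term `i₁`
  have hT1 : b' (a v₁ (e i₁)) (LinearMap.adjoint (c.flip (e i₁)) u₁) ≠ 0 := by
    obtain ⟨r, hr⟩ := hw_mult p' C hp' hH₃ hv₁' (haw i₁)
    obtain ⟨r', hr'⟩ := hw_mult y' C hy' hH₅ hu₁' (hcw i₁)
    have hr0 : r ≠ 0 := by
      intro h0
      apply ha0
      rw [hr, h0, zero_smul]
    have hr'0 : r' ≠ 0 := by
      intro h0
      have h1 : WV y C.a (yy - w i₁ + w i₁) (c u₁' (e i₁)) := P02_aw C hc hu₁'.wt (hwv i₁).2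
      rw [sub_add_cancel] at h1
      obtain ⟨r'', hr''⟩ := hw_mult y C hy hH₄ hu₁ h1
      have h2 : ⟪LinearMap.adjoint (c.flip (e i₁)) u₁, u₁'⟫_ℂ = r'' * ⟪u₁, u₁⟫_ℂ := by
        rw [LinearMap.adjoint_inner_left, LinearMap.flip_apply, hr'', inner_smul_right]
      rw [hr', h0, zero_smul, inner_zero_left] at h2
      rcases mul_eq_zero.1 h2.symm with h3 | h3
      · apply hc0
        rw [hr'', h3, zero_smul]
      · exact hu₁.ne (inner_self_eq_zero.1 h3)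
    rw [hr, hr', map_smul, map_smul, LinearMap.smul_apply, smul_ne_zero_iff, smul_ne_zero_iff]
    exact ⟨hr'0, hr0, hb0⟩
  -- weight spaces
  have hline : ∀ j, ⟪yy, w j⟫_ℝ = m → ∀ x, WV s C.a (w j) x → x = ⟪e j, x⟫_ℂ • e j := by
    intro j hj x hx
    obtain ⟨H', hH', hd⟩ := exists_comm C (hwv j).1 (hwv j).1 fun _ _ h => h.le
    have h1 := qm_hw s C hs hq (hwv j).1 (hnz j hj) (hwv j).2 (e.orthonormal.ne_zero j) hH'
      fun al ha hp => (hd al ha hp).1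
    obtain ⟨r, hr⟩ := hw_mult s C hs hH' h1 hx
    rw [hr, inner_smul_right, e.inner_eq_one, mul_one]
  have hpair : ∀ i j, ⟪yy, w i⟫_ℝ = m → ⟪yy, w j⟫_ℝ = m →
      ⟪mu - yy, w i⟫_ℝ = ⟪mu - yy, w i₁⟫_ℝ → ⟪mu - yy, w j⟫_ℝ = ⟪mu - yy, w i₁⟫_ℝ →
      w i - w j ∈ roots L C.a →
      b' (a v₁ (e j)) (LinearMap.adjoint (c.flip (e j)) u₁) =
        b' (a v₁ (e i)) (LinearMap.adjoint (c.flip (e i)) u₁) := by
    intro i j hi hj hi' hj' hal
    have hqi := hnq i hi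
    have hqj := hnq j hj
    have hal0 : 0 < ⟪w i - w j, w i - w j⟫_ℝ := real_inner_self_pos.2 hal.2.1
    have hij : ⟪w i - w j, w i - w j⟫_ℝ = q - 2 * ⟪w i, w j⟫_ℝ + q := by
      rw [real_inner_sub_sub_self, hqi, hqj]
    have hji : ⟪w j, w i⟫_ℝ = ⟪w i, w j⟫_ℝ := real_inner_comm _ _
    have hbig : ∀ x lam, lam ∈ C.a → WV s C.a lam x → 0 < ⟪lam, lam⟫_ℝ → q < ⟪lam, lam⟫_ℝ →
        x = 0 := by
      intro x lam hlam hx hpos hlt
      by_contra hx0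
      have h1 := hq lam ⟨hlam, x, hx0, hx⟩ fun h0 => by
        rw [h0, inner_zero_left] at hpos
        exact lt_irrefl _ hpos
      exact hlt.ne' h1.2
    have hoy : ⟪yy, w i - w j⟫_ℝ = 0 := by rw [inner_sub_right, hi, hj, sub_self]
    have hom : ⟪mu, w i - w j⟫_ℝ = 0 := by
      have h1 : ⟪mu - yy, w i - w j⟫_ℝ = 0 := by rw [inner_sub_right, hi', hj', sub_self]
      rw [inner_sub_left, hoy, sub_zero] at h1
      exact h1
    refine pair_eq C hwv (hline i hi) (hline j hj) hal (by rw [hqi, hqj]) ?_ ?_ hy' ht ha hb' hc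
      hH₁ hH₂ hH₄ hH₅ hw₁ hv₁ hu₁ hu₁' ?_ hoy hom
    · intro x hx
      have h1 : ⟪w j - (w i - w j), w j - (w i - w j)⟫_ℝ =
          q + 2 * ⟪w i - w j, w i - w j⟫_ℝ := by
        rw [real_inner_sub_sub_self, hqj, inner_sub_right, hqj, hji, hij]
        ring
      exact hbig x _ (C.a.sub_mem (hwv j).1 hal.1) hx (by rw [h1]; linarith) (by rw [h1]; linarith)
    · intro x hx
      have h1 : ⟪w i + (w i - w j), w i + (w i - w j)⟫_ℝ =
          q + 2 * ⟪w i - w j, w i - w j⟫_ℝ := by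
        rw [real_inner_add_add_self, hqi, inner_sub_right, hqi, hij]
        ring
      exact hbig x _ (C.a.add_mem (hwv i).1 hal.1) hx (by rw [h1]; linarith) (by rw [h1]; linarith)
    · rw [hn2 i₁ hi₁m, hn2 i hi]
  rw [P02_bmap]
  have hall : ∀ j, ∃ k : ℕ, b' (a v₁ (e j)) (LinearMap.adjoint (c.flip (e j)) u₁) =
      (k : ℂ) • b' (a v₁ (e i₁)) (LinearMap.adjoint (c.flip (e i₁)) u₁) := by
    intro j
    by_cases h0 : b' (a v₁ (e j)) (LinearMap.adjoint (c.flip (e j)) u₁) = 0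
    · exact ⟨0, by rw [h0, Nat.cast_zero, zero_smul]⟩
    · obtain ⟨h1, h2⟩ := hterm j h0
      refine ⟨1, ?_⟩
      rw [Nat.cast_one, one_smul]
      exact orbit C hs hq hwv hyC hla hle hm0 hmin'
        (fun j => b' (a v₁ (e j)) (LinearMap.adjoint (c.flip (e j)) u₁)) hpair hi₁m rfl h1 h2
  choose k hk using hall
  have hk1 : k i₁ ≠ 0 := by
    intro h0
    apply hT1
    rw [hk i₁, h0, Nat.cast_zero, zero_smul]
  have hsm : ∑ j, b' (a v₁ (e j)) (LinearMap.adjoint (c.flip (e j)) u₁) =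
      ((∑ j, k j : ℕ) : ℂ) • b' (a v₁ (e i₁)) (LinearMap.adjoint (c.flip (e i₁)) u₁) := by
    rw [Nat.cast_sum, Finset.sum_smul]
    exact Finset.sum_congr rfl fun j _ => hk j
  rw [hsm]
  have hpos : ∑ j, k j ≠ 0 := by
    have h1 := Finset.single_le_sum (f := k) (fun j _ => Nat.zero_le _) (Finset.mem_univ i₁)
    omega
  exact smul_ne_zero (Nat.cast_ne_zero.2 hpos) hT1

/-- The theorem of Parthasarathy, Ranga Rao, Varadarajan and of Kumar: `W` is a component of `V ⊗ Y`, where `V` has the extreme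
weight `mu - yy`, and the product of the extreme weight vectors has a nonzero component in `W`. -/
theorem prv_all (C : CSub L)
    (hE : ∀ w, LShort L C.a w → ∃ (E : Type) (_ : NormedAddCommGroup E)
      (_ : InnerProductSpace ℂ E) (_ : FiniteDimensional ℂ E) (s : CRep J E) (H : g) (x : E),
      Irr s ∧ Reg L C.a H ∧ HW s C.a H w x)
    (t : CRep J W) (ht : Irr t) (y : CRep J Y) (hy : Irr y)
    {H₁ H₄ mu yy : g} (hH₁ : Reg L C.a H₁) (hH₄ : Reg L C.a H₄) {w₁ : W} {u₁ : Y}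
    (hw₁ : HW t C.a H₁ mu w₁) (hu₁ : HW y C.a H₄ yy u₁) :
    ∃ (V : Type) (_ : NormedAddCommGroup V) (_ : InnerProductSpace ℂ V)
      (_ : FiniteDimensional ℂ V) (p : CRep J V) (b : V →ₗ[ℂ] Y →ₗ[ℂ] W), Irr p ∧
      (∀ Z v u, t.op Z (b v u) = b (p.op Z v) u + b v (y.op Z u)) ∧
      ∃ H₂ v₁, Reg L C.a H₂ ∧ HW p C.a H₂ (mu - yy) v₁ ∧ b v₁ u₁ ≠ 0 := by
  -- the minimum of the norms of the roots
  obtain ⟨q₀, hq₀, hq₀m⟩ : ∃ q₀ : ℝ, 0 < q₀ ∧ ∀ al ∈ roots L C.a, q₀ ≤ ⟪al, al⟫_ℝ := by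
    by_cases hne : (roots L C.a).Nonempty
    · obtain ⟨al, hal, hmin⟩ := Set.exists_min_image _ (fun al => ⟪al, al⟫_ℝ) (roots_finite C) hne
      exact ⟨_, real_inner_self_pos.2 hal.2.1, hmin⟩
    · rw [Set.not_nonempty_iff_eq_empty] at hne
      exact ⟨1, one_pos, fun al hal => by rw [hne] at hal; exact absurd hal (Set.notMem_empty _)⟩
  have key : ∀ n : ℕ, ∀ (Y : Type) (_ : NormedAddCommGroup Y) (_ : InnerProductSpace ℂ Y)
      (_ : FiniteDimensional ℂ Y) (y : CRep J Y) (_ : Irr y) (H₄ yy : g) (u₁ : Y),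
      Reg L C.a H₄ → HW y C.a H₄ yy u₁ → ⟪yy, yy⟫_ℝ < n * q₀ →
      ∃ (V : Type) (_ : NormedAddCommGroup V) (_ : InnerProductSpace ℂ V)
        (_ : FiniteDimensional ℂ V) (p : CRep J V) (b : V →ₗ[ℂ] Y →ₗ[ℂ] W), Irr p ∧
        (∀ Z v u, t.op Z (b v u) = b (p.op Z v) u + b v (y.op Z u)) ∧
        ∃ H₂ v₁, Reg L C.a H₂ ∧ HW p C.a H₂ (mu - yy) v₁ ∧ b v₁ u₁ ≠ 0 := by
    intro n
    induction n with
    | zero =>
      intro Y _ _ _ y hy H₄ yy u₁ hH₄ hu₁ hn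
      have h1 : 0 ≤ ⟪yy, yy⟫_ℝ := real_inner_self_nonneg
      rw [Nat.cast_zero, zero_mul] at hn
      linarith
    | succ n ih =>
      intro Y _ _ _ y hy H₄ yy u₁ hH₄ hu₁ hn
      by_cases hal : ∃ al ∈ roots L C.a, ⟪al, al⟫_ℝ ≤ ⟪yy, al⟫_ℝ
      · obtain ⟨al, hal, hle⟩ := hal
        obtain ⟨w₀, hw₀, hwy⟩ := exists_lshort C hal hle
        obtain ⟨E, i1, i2, i3, s, H, x, hs, hH, hx⟩ := hE w₀ hw₀
        have hq := qm_of s C hs hH hx hw₀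
        refine prv_step C s hs hq (real_inner_self_pos.2 hw₀.1.2.1) ⟨hx.mem, x, hx.ne, hx.wt⟩ t ht y
          hy hH₁ hH₄ hw₁ hu₁ hwy ?_
        intro Y' _ _ _ y' hy' H₅ yy' u₁' hH₅ hu₁' hn'
        refine ih Y' _ _ ‹_› y' hy' H₅ yy' u₁' hH₅ hu₁' ?_
        have h1 := hq₀m w₀ hw₀.1
        push_cast at hn
        linarith
      · push Not at hal
        have hisw : IsW y C.a yy := ⟨hu₁.mem, u₁, hu₁.ne, hu₁.wt⟩
        have hmin := mins_of C (fun al ha => wt_int y C hisw ha) hal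
        have hmw : IsW t C.a mu := ⟨hw₁.mem, w₁, hw₁.ne, hw₁.wt⟩
        obtain ⟨H', hH', hd⟩ := common_chm C hw₁.mem hu₁.mem (fun al ha => wt_int t C hmw ha) hmin
        refine P03_step C t ht y hy hH₁ hH₄ hw₁ hu₁ ?_
        intro al ha hpos
        by_contra hneg
        push Not at hneg
        rcases lt_or_gt_of_ne (hH'.2 al ha) with h1 | h1
        · have h2 := (hd (-al) (roots_neg C ha) (by rw [inner_neg_left]; linarith)).1
          rw [inner_neg_left] at h2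
          linarith
        · have h2 := (hd al ha h1).2
          linarith
  obtain ⟨n, hn⟩ := exists_nat_gt (⟪yy, yy⟫_ℝ / q₀)
  exact key n Y _ _ inferInstance y hy H₄ yy u₁ hH₄ hu₁ ((div_lt_iff₀ hq₀).1 hn)

end

end Pool.Agent.Lib.MP_4322ef_CH
end

section

/-!
# The theorem for all `g` (theorem of the highest weight as a hypothesis)

* `fund_data`: `S` from `exists_fund`; for `y ∈ S` the representation `s` from `hT`; `PRVData` from `prv_all` for the complexified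
  `k₀`-type `V₀` (`ktype_pack`, `high_hw`, as in `prv_data`, file N08). `hE` of `prv_all`: `w` is integral (`root_int`) and `Semi`;
  choose `H` regular with `w` dominant (`exists_comm` for `mu = la = w`).
* `final_hwt`: as `final'` (file U03 of the directory `MP_4322ef_CP`): `literal_z'` (file N13) or the same steps with `FundData`.
-/

set_option autoImplicit false

open scoped InnerProductSpace

namespace Pool.Agent.Lib.MP_4322ef_CH

open Pool.Agent.Lib.MP_4322ef_al.SR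

variable {g : Type} [NormedAddCommGroup g] [InnerProductSpace ℝ g] {L : RedLie g}
  [FiniteDimensional ℝ g]

theorem fund_data (J : CStr L) (C : CSub L) {X : Type} [NormedAddCommGroup X]
    [InnerProductSpace ℂ X] (r : HC L X) {V₀ : Submodule ℂ X} (hV₀ : IsKType L r.op V₀) {mu : g}
    (hmu : IsExt J C.a r.op V₀ mu) (hT : HWT J C.a) : FundData J C.a r.op V₀ mu := by
  intro H hH
  obtain ⟨S, hS, hy⟩ := exists_fund J C hH
  refine ⟨S, hS, fun y hyS => ?_⟩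
  obtain ⟨hint, hsemi, hfund, hdom⟩ := hy y hyS
  obtain ⟨Y, i1, i2, i3, s, hs, u₁, hu₁⟩ := hT H hH y hint hsemi hdom
  have hE : ∀ w, LShort L C.a w → ∃ (E : Type) (_ : NormedAddCommGroup E)
      (_ : InnerProductSpace ℂ E) (_ : FiniteDimensional ℂ E) (s : CRep J E) (H : g) (x : E),
      Irr s ∧ Reg L C.a H ∧ HW s C.a H w x := by
    intro w hw
    obtain ⟨H', hH', hd⟩ := exists_comm C hw.1.1 hw.1.1 fun _ _ h => h.le
    obtain ⟨E, j1, j2, j3, s', hs', x, hx⟩ := hT H' hH' w (fun al ha => root_int C hw.1 ha)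
      ⟨hw.1.1, fun z _ h => h w hw.1⟩ fun al ha hp => (hd al ha hp).1
    exact ⟨E, j1, j2, j3, s', H', x, hs', hH', hx⟩
  refine ⟨Y, i1, i2, i3, s, hs, hw_ext s C hH hu₁, Or.inr ⟨hfund, Or.inr ?_⟩⟩
  obtain ⟨H', hH', hmu⟩ := hmu
  have hV₀fin := hV₀.fin
  obtain ⟨t₀, hirr₀, hk₀, hcas₀⟩ := ktype_pack r.toRep r.skew J hV₀
  obtain ⟨v₀, hv₀⟩ := high_hw r.toRep J C hk₀ hmu
  obtain ⟨V, k1, k2, k3, q, b, hq, hb, H₂, v', hH₂, hv', hb0⟩ :=
    prv_all C hE t₀ hirr₀ s hs hH' hH hv₀ hu₁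
  refine ⟨V, k1, k2, k3, q, b.compr₂ V₀.subtype, hq, hw_ext q C hH₂ hv', fun v u => (b v u).2, ?_,
    v', u₁, ?_, hv'.wt, hu₁.wt⟩
  · intro Z hZ v u
    show r.op Z ((b v u : V₀) : X) = ((b (q.op Z v) u : V₀) : X) + ((b v (s.op Z u) : V₀) : X)
    rw [← hk₀ Z hZ, hb]
    rfl
  · intro h0
    exact hb0 (Subtype.ext h0)

theorem final_hwt (J : CStr L) (C : CSub L)
    {X : Type} [NormedAddCommGroup X] [InnerProductSpace ℂ X] (r : HC L X) (B : InvForm r)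
    {V₀ : Submodule ℂ X} (hV₀ : IsKType L r.op V₀) {mu nu z : g} (hmu : IsExt J C.a r.op V₀ mu)
    (hnu : nu ∈ C.a) (hX : IsLang J C.a r.op mu nu)
    (hz : z ∈ C.a) (hz0 : ∀ al ∈ roots L C.a, ⟪al, z⟫_ℝ = 0) (hT : HWT J C.a)
    (hin : InHull L C.a (mu - z))
    (hout : ¬(InHull L C.a (mu + nu - z) ∧ InHull L C.a (mu - nu - z))) :
    ∃ V₁ V₂ : Submodule ℂ X, IsKType L r.op V₁ ∧ IsKType L r.op V₂ ∧
      SmallAt J C.a r.op z V₁ ∧ SmallAt J C.a r.op z V₂ ∧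
      (∀ v ∈ V₁, v ≠ 0 → 0 < (B.form v v).re) ∧ ∀ v ∈ V₂, v ≠ 0 → (B.form v v).re < 0 := by
  exact literal_z' J C r B hV₀ hmu hnu hX hz hz0 (fund_data J C r hV₀ hmu hT) hin hout

end Pool.Agent.Lib.MP_4322ef_CH
end
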